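import Pool.Agent.KM.Defs

set_option autoImplicit false
open Finset Filter Topology

namespace Pool.Agent.KM
open Pool.Agent.SMin

/-! ## Module AZ: bounded differences for uniform random permutations -/

/-- one step of the moment generating function bound -/
lemma az_step {ι : Type*} [Fintype ι] [Nonempty ι] (F : ι → ℝ) (c l : ℝ)
    (hF : ∀ i j, |F i - F j| ≤ c) :
    ∑ i, Real.exp (l * (F i - (∑ j, F j) / Fintype.card ι)) ≤
      Fintype.card ι * Real.exp (l ^ 2 * c ^ 2 / 2) := by
  have hN : (0 : ℝ) < Fintype.card ι := by exact_mod_cast Fintype.card_pos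
  set N : ℝ := (Fintype.card ι : ℝ) with hNdef
  have h1 : ∀ i, Real.exp (l * (F i - (∑ j, F j) / N)) ≤
      ∑ j, (1 / N) * Real.exp (l * (F i - F j)) := by
    intro i
    have h2 := convexOn_exp.map_sum_le (t := univ) (w := fun _ : ι => 1 / N)
      (p := fun j => l * (F i - F j)) (fun _ _ => by positivity) (by
        rw [sum_const, nsmul_eq_mul, card_univ, ← hNdef]; field_simp)
      (fun _ _ => Set.mem_univ _)
    simp only [smul_eq_mul] at h2
    refine le_trans (le_of_eq ?_) h2
    congr 1
    rw [← mul_sum, ← mul_sum, sum_sub_distrib, sum_const, nsmul_eq_mul, card_univ, ← hNdef]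
    field_simp
  set S := ∑ i, ∑ j, Real.exp (l * (F i - F j)) with hS
  have h3 : 2 * S ≤ 2 * (N * (N * Real.exp (l ^ 2 * c ^ 2 / 2))) := by
    have h4 : S = ∑ i, ∑ j, Real.exp (l * (F j - F i)) := by rw [hS, sum_comm]
    have h5 : 2 * S = ∑ i, ∑ j, (2 * Real.cosh (l * (F i - F j))) := by
      rw [two_mul]
      nth_rewrite 2 [h4]
      rw [hS, ← sum_add_distrib]
      refine sum_congr rfl (fun i _ => ?_)
      rw [← sum_add_distrib]
      refine sum_congr rfl (fun j _ => ?_)
      rw [Real.cosh_eq]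
      have : l * (F j - F i) = -(l * (F i - F j)) := by ring
      rw [this]
      ring
    rw [h5]
    have h6 : ∀ i j, 2 * Real.cosh (l * (F i - F j)) ≤ 2 * Real.exp (l ^ 2 * c ^ 2 / 2) := by
      intro i j
      refine mul_le_mul_of_nonneg_left ((Real.cosh_le_exp_half_sq _).trans ?_) (by norm_num)
      refine Real.exp_le_exp.2 ?_
      have h7 : (F i - F j) ^ 2 ≤ c ^ 2 := by
        rw [← sq_abs]
        exact pow_le_pow_left₀ (abs_nonneg _) (hF i j) 2
      have h8 : (l * (F i - F j)) ^ 2 ≤ l ^ 2 * c ^ 2 := by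
        rw [mul_pow]
        exact mul_le_mul_of_nonneg_left h7 (sq_nonneg l)
      linarith
    calc _ ≤ ∑ _i : ι, ∑ _j : ι, 2 * Real.exp (l ^ 2 * c ^ 2 / 2) :=
          sum_le_sum (fun i _ => sum_le_sum (fun j _ => h6 i j))
      _ = _ := by
          rw [sum_const, sum_const, card_univ, nsmul_eq_mul, nsmul_eq_mul, ← hNdef]
          ring
  calc _ ≤ ∑ i, ∑ j, (1 / N) * Real.exp (l * (F i - F j)) := sum_le_sum (fun i _ => h1 i)
    _ = (1 / N) * S := by
        rw [hS, mul_sum]
        exact sum_congr rfl (fun i _ => (mul_sum _ _ _).symm)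
    _ ≤ (1 / N) * (N * (N * Real.exp (l ^ 2 * c ^ 2 / 2))) :=
        mul_le_mul_of_nonneg_left (by linarith) (by positivity)
    _ = _ := by field_simp

lemma az_avg_diff {K : Type*} [Fintype K] [Nonempty K] (u v : K → ℝ) (c : ℝ) (e : K ≃ K)
    (h : ∀ k, |v (e k) - u k| ≤ c) :
    |(∑ k, u k) / Fintype.card K - (∑ k, v k) / Fintype.card K| ≤ c := by
  have hN : (0 : ℝ) < Fintype.card K := by exact_mod_cast Fintype.card_pos
  rw [← Equiv.sum_comp e v, ← sub_div, ← sum_sub_distrib, abs_div, abs_of_pos hN,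
    div_le_iff₀ hN]
  refine (abs_sum_le_sum_abs _ _).trans ?_
  calc _ ≤ ∑ _k : K, c := sum_le_sum (fun k _ => by rw [abs_sub_comm]; exact h k)
    _ = _ := by rw [sum_const, card_univ, nsmul_eq_mul, mul_comm]

/-- moment generating function bound for permutations -/
def AzP (α : Type*) [Fintype α] : Prop :=
  ∀ [DecidableEq α] (f : Equiv.Perm α → ℝ) (c l : ℝ),
    (∀ (σ : Equiv.Perm α) (a b : α), |f (Equiv.swap a b * σ) - f σ| ≤ c) →
    ∑ σ, Real.exp (l * (f σ - (∑ τ, f τ) / Fintype.card (Equiv.Perm α))) ≤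
      Fintype.card (Equiv.Perm α) * Real.exp (l ^ 2 * c ^ 2 * Fintype.card α / 2)

lemma az_option (α : Type*) [Fintype α] (ih : AzP α) : AzP (Option α) := by
  intro inst f c l hf
  classical
  have hinst : inst = Option.instDecidableEq := Subsingleton.elim _ _
  subst hinst
  have hc0 : 0 ≤ c := (abs_nonneg _).trans (hf 1 none none)
  set g : Option α → Equiv.Perm α → ℝ :=
    fun i τ => f (Equiv.swap none i * τ.optionCongr) with hg
  have hsum : ∀ φ : Equiv.Perm (Option α) → ℝ, ∑ σ, φ σ =
      ∑ i, ∑ τ : Equiv.Perm α, φ (Equiv.swap none i * τ.optionCongr) := by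
    intro φ
    rw [← Equiv.sum_comp Equiv.Perm.decomposeOption.symm φ, Fintype.sum_prod_type]
    rfl
  have hcardP : (Fintype.card (Equiv.Perm (Option α)) : ℝ) =
      Fintype.card (Option α) * Fintype.card (Equiv.Perm α) := by
    rw [Fintype.card_congr Equiv.Perm.decomposeOption, Fintype.card_prod, Nat.cast_mul]
  have hmul : ∀ (σ τ : Equiv.Perm α), (σ * τ).optionCongr = σ.optionCongr * τ.optionCongr := by
    intro σ τ
    ext x
    cases x <;> simp
  have hgl : ∀ (i : Option α) (τ : Equiv.Perm α) (a b : α),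
      |g i (Equiv.swap a b * τ) - g i τ| ≤ c := by
    intro i τ a b
    have h1 : Equiv.swap none i * (Equiv.swap a b * τ).optionCongr =
        Equiv.swap (Equiv.swap none i (some a)) (Equiv.swap none i (some b)) *
          (Equiv.swap none i * τ.optionCongr) := by
      rw [hmul, Equiv.optionCongr_swap, ← mul_assoc, Equiv.mul_swap_eq_swap_mul, mul_assoc]
    simp only [hg, h1]
    exact hf _ _ _
  set P : ℝ := (Fintype.card (Equiv.Perm α) : ℝ) with hP
  have hP0 : 0 < P := by
    rw [hP]
    exact_mod_cast Fintype.card_pos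
  set F : Option α → ℝ := fun i => (∑ τ, g i τ) / P with hF
  have hFd : ∀ i j, |F i - F j| ≤ c := by
    intro i j
    cases i with
    | none =>
      refine az_avg_diff _ _ c (Equiv.refl _) (fun τ => ?_)
      simp only [hg, Equiv.swap_self, Equiv.refl_apply]
      exact hf _ _ _
    | some i =>
      cases j with
      | none =>
        refine az_avg_diff _ _ c (Equiv.refl _) (fun τ => ?_)
        simp only [hg, Equiv.swap_self, Equiv.refl_apply]
        rw [abs_sub_comm]
        exact hf _ _ _
      | some j =>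
        refine az_avg_diff _ _ c (Equiv.mulLeft (Equiv.swap i j)) (fun τ => ?_)
        have h1 : Equiv.swap none (some j) * (Equiv.swap i j * τ).optionCongr =
            Equiv.swap (some i) (some j) * (Equiv.swap none (some i) * τ.optionCongr) := by
          rw [hmul, Equiv.optionCongr_swap, ← mul_assoc, ← mul_assoc,
            Equiv.mul_swap_eq_swap_mul (Equiv.swap (some i) (some j)) none (some i),
            Equiv.swap_apply_of_ne_of_ne (by simp) (by simp), Equiv.swap_apply_left]
        simp only [hg, Equiv.coe_mulLeft, h1]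
        exact hf _ _ _
  have hm : (∑ σ, f σ) / Fintype.card (Equiv.Perm (Option α)) =
      (∑ i, F i) / Fintype.card (Option α) := by
    rw [hsum f, hcardP, ← sum_div, div_div, mul_comm]
  rw [hm]
  set m := (∑ i, F i) / (Fintype.card (Option α) : ℝ) with hmdef
  rw [hsum]
  have h2 : ∀ i, ∑ τ : Equiv.Perm α, Real.exp (l * (f (Equiv.swap none i * τ.optionCongr) - m)) ≤
      P * Real.exp (l ^ 2 * c ^ 2 * Fintype.card α / 2) * Real.exp (l * (F i - m)) := by
    intro i
    have h3 := ih (g i) c l (hgl i)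
    calc _ = ∑ τ : Equiv.Perm α, Real.exp (l * (g i τ - F i)) * Real.exp (l * (F i - m)) := by
          refine sum_congr rfl (fun τ _ => ?_)
          rw [← Real.exp_add]
          congr 1
          simp only [hg]
          ring
      _ = (∑ τ : Equiv.Perm α, Real.exp (l * (g i τ - F i))) * Real.exp (l * (F i - m)) := by
          rw [sum_mul]
      _ ≤ _ := mul_le_mul_of_nonneg_right h3 (Real.exp_pos _).le
  calc _ ≤ ∑ i, P * Real.exp (l ^ 2 * c ^ 2 * Fintype.card α / 2) * Real.exp (l * (F i - m)) :=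
        sum_le_sum (fun i _ => h2 i)
    _ = P * Real.exp (l ^ 2 * c ^ 2 * Fintype.card α / 2) * ∑ i, Real.exp (l * (F i - m)) := by
        rw [mul_sum]
    _ ≤ P * Real.exp (l ^ 2 * c ^ 2 * Fintype.card α / 2) *
        (Fintype.card (Option α) * Real.exp (l ^ 2 * c ^ 2 / 2)) :=
        mul_le_mul_of_nonneg_left (az_step F c l hFd) (by positivity)
    _ = _ := by
        rw [hcardP, Fintype.card_option]
        push_cast
        have : Real.exp (l ^ 2 * c ^ 2 * (Fintype.card α + 1) / 2) =
            Real.exp (l ^ 2 * c ^ 2 * Fintype.card α / 2) * Real.exp (l ^ 2 * c ^ 2 / 2) := by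
          rw [← Real.exp_add]
          congr 1
          ring
        rw [this]
        ring

lemma az_all (α : Type*) [Fintype α] : AzP α := by
  refine Fintype.induction_empty_option (P := fun α _ => AzP α) ?_ ?_
    (fun α _ ih => az_option α ih) α
  · intro α β _ e ih inst f c l hf
    classical
    let _ : Fintype α := Fintype.ofEquiv β e.symm
    have h1 := ih (fun τ => f (e.permCongr τ)) c l (by
      intro σ a b
      have h2 : e.permCongr (Equiv.swap a b * σ) =
          Equiv.swap (e a) (e b) * e.permCongr σ := by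
        refine Equiv.ext (fun x => ?_)
        rw [Equiv.permCongr_apply, Equiv.Perm.mul_apply, Equiv.Perm.mul_apply,
          Equiv.permCongr_apply, Equiv.swap_apply_def, Equiv.swap_apply_def]
        simp only [EmbeddingLike.apply_eq_iff_eq]
        split_ifs <;> rfl
      rw [h2]
      exact hf _ _ _)
    have h3 : ∀ φ : Equiv.Perm β → ℝ, ∑ σ, φ σ = ∑ τ : Equiv.Perm α, φ (e.permCongr τ) :=
      fun φ => (Equiv.sum_comp e.permCongr φ).symm
    have h4 : Fintype.card (Equiv.Perm β) = Fintype.card (Equiv.Perm α) :=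
      (Fintype.card_congr e.permCongr).symm
    have h5 : Fintype.card β = Fintype.card α := (Fintype.card_congr e).symm
    rw [h3, h3, h4, h5]
    exact h1
  · intro inst f c l hf
    rw [Fintype.sum_subsingleton _ (Equiv.refl PEmpty),
      Fintype.sum_subsingleton _ (Equiv.refl PEmpty)]
    have h1 : Fintype.card (Equiv.Perm PEmpty) = 1 :=
      Fintype.card_eq_one_iff.2 ⟨Equiv.refl PEmpty, fun σ => Subsingleton.elim _ _⟩
    rw [h1]
    simp

lemma az_one {X : Type*} [Fintype X] [DecidableEq X] (f : Equiv.Perm X → ℝ) (c : ℝ)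
    (hc : 0 < c) (hf : ∀ (σ : Equiv.Perm X) (a b : X), |f (Equiv.swap a b * σ) - f σ| ≤ c)
    (t : ℝ) (ht : 0 ≤ t) :
    fr (univ : Finset (Equiv.Perm X)) (fun σ => t ≤ f σ - avg univ f) ≤
      Real.exp (-(t ^ 2 / (2 * c ^ 2 * Fintype.card X))) := by
  classical
  rcases Nat.eq_zero_or_pos (Fintype.card X) with h0 | h0
  · rw [h0]
    simp only [Nat.cast_zero, mul_zero, div_zero, neg_zero, Real.exp_zero]
    exact fr_le_one _ _
  have hN : (0 : ℝ) < Fintype.card X := by exact_mod_cast h0
  set N : ℝ := (Fintype.card X : ℝ) with hNdef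
  set l := t / (c ^ 2 * N) with hl
  have hl0 : 0 ≤ l := by positivity
  have h1 := az_all X f c l hf
  have hP : (0 : ℝ) < Fintype.card (Equiv.Perm X) := by exact_mod_cast Fintype.card_pos
  have hm : avg univ f = (∑ τ, f τ) / Fintype.card (Equiv.Perm X) := by
    unfold avg
    rw [card_univ]
  rw [← hm] at h1
  set m := avg univ f with hmdef
  rw [fr_def, card_univ, div_le_iff₀ hP]
  have h2 : ((univ.filter (fun σ => t ≤ f σ - m)).card : ℝ) * Real.exp (l * t) ≤
      ∑ σ, Real.exp (l * (f σ - m)) := by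
    calc _ = ∑ σ ∈ univ.filter (fun σ => t ≤ f σ - m), Real.exp (l * t) := by
          rw [sum_const, nsmul_eq_mul]
      _ ≤ ∑ σ ∈ univ.filter (fun σ => t ≤ f σ - m), Real.exp (l * (f σ - m)) := by
          refine sum_le_sum (fun σ hσ => Real.exp_le_exp.2 ?_)
          exact mul_le_mul_of_nonneg_left (mem_filter.1 hσ).2 hl0
      _ ≤ _ := sum_le_sum_of_subset_of_nonneg (filter_subset _ _)
          (fun σ _ _ => (Real.exp_pos _).le)
  have h3 : ((univ.filter (fun σ => t ≤ f σ - m)).card : ℝ) ≤
      Fintype.card (Equiv.Perm X) * Real.exp (l ^ 2 * c ^ 2 * N / 2) / Real.exp (l * t) := by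
    rw [le_div_iff₀ (Real.exp_pos _)]
    exact h2.trans h1
  refine h3.trans (le_of_eq ?_)
  rw [mul_div_assoc, ← Real.exp_sub, mul_comm]
  congr 2
  rw [hl]
  field_simp
  ring

theorem perm_azuma {X : Type*} [Fintype X] [DecidableEq X] (f : Equiv.Perm X → ℝ) (c : ℝ)
    (hc : 0 < c) (hf : ∀ (σ : Equiv.Perm X) (a b : X), |f (Equiv.swap a b * σ) - f σ| ≤ c)
    (t : ℝ) (ht : 0 ≤ t) :
    fr (univ : Finset (Equiv.Perm X)) (fun σ => t ≤ |f σ - avg univ f|) ≤
      2 * Real.exp (-(t ^ 2 / (2 * c ^ 2 * Fintype.card X))) := by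
  have h1 := az_one f c hc hf t ht
  have h2 := az_one (fun σ => -f σ) c hc (fun σ a b => by
    have h3 := hf σ a b
    rw [abs_sub_comm] at h3
    have h4 : -f (Equiv.swap a b * σ) - -f σ = f σ - f (Equiv.swap a b * σ) := by ring
    rw [h4]
    exact h3) t ht
  have h5 : avg univ (fun σ => -f σ) = -avg univ f := by
    unfold avg
    rw [sum_neg_distrib, neg_div]
  rw [h5] at h2
  calc _ ≤ fr (univ : Finset (Equiv.Perm X))
        (fun σ => t ≤ f σ - avg univ f ∨ t ≤ -f σ - -avg univ f) := by
        refine fr_mono _ (fun σ _ h => ?_)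
        rcases abs_cases (f σ - avg univ f) with h6 | h6
        · left; linarith [h6.1]
        · right; linarith [h6.1]
    _ ≤ _ := fr_or_le _ _ _
    _ ≤ _ := by linarith

end Pool.Agent.KM
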