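import Pool.Agent.KM.Defs

set_option autoImplicit false
open Finset Filter Topology

namespace Pool.Agent.KM
open Pool.Agent.SMin

/-! ## Module BASIC (Basic.lean): spectral facts about `H = Mᴴ M` -/

lemma ba_herm {n : ℕ} (z : ℂ) (m : Fin n → Fin n → ℕ) : (HH z m).IsHermitian :=
  Matrix.isHermitian_conjTranspose_mul_self (MM z m)

lemma ba_ev_eq {n : ℕ} (z : ℂ) (m : Fin n → Fin n → ℕ) : ev z m = (ba_herm z m).eigenvalues := rfl

open scoped ComplexOrder in
lemma ev_nonneg {n : ℕ} (z : ℂ) (m : Fin n → Fin n → ℕ) (i : Fin n) : 0 ≤ ev z m i :=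
  (Matrix.posSemidef_conjTranspose_mul_self (MM z m)).eigenvalues_nonneg i

lemma mult_row {n d : ℕ} (σ : Cfg n d) (i : Fin n) : ∑ j, mult σ i j = d := by
  classical
  unfold mult
  have := card_eq_sum_card_fiberwise (f := fun k : Fin d => hd σ i k) (s := univ) (t := univ)
    (fun x _ => mem_coe.2 (mem_univ _))
  simpa using this.symm

lemma mult_col {n d : ℕ} (σ : Cfg n d) (j : Fin n) : ∑ i, mult σ i j = d := by
  have h := mult_row σ.symm j
  rw [mult_symm] at h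
  simpa [tr] using h

lemma toN_row {n d : ℕ} (A : Fin n → Fin n → Bool) (hA : A ∈ Reg n d) (i : Fin n) :
    ∑ j, toN A i j = d := by
  rw [mem_Reg] at hA
  rw [← hA.1 i, card_eq_sum_ones, sum_filter]
  rfl

lemma toN_col {n d : ℕ} (A : Fin n → Fin n → Bool) (hA : A ∈ Reg n d) (j : Fin n) :
    ∑ i, toN A i j = d := by
  rw [mem_Reg] at hA
  rw [← hA.2 j, card_eq_sum_ones, sum_filter]
  rfl

/-- Schur test -/
lemma ba_schur {n d : ℕ} (m : Fin n → Fin n → ℕ) (hr : ∀ i, ∑ j, m i j = d)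
    (hc : ∀ j, ∑ i, m i j = d) (x : Fin n → ℂ) :
    ∑ i, ‖∑ j, (m i j : ℂ) * x j‖ ^ 2 ≤ (d : ℝ) ^ 2 * ∑ j, ‖x j‖ ^ 2 := by
  have h1 : ∀ i, ‖∑ j, (m i j : ℂ) * x j‖ ^ 2 ≤ d * ∑ j, (m i j : ℝ) * ‖x j‖ ^ 2 := by
    intro i
    have h2 : ‖∑ j, (m i j : ℂ) * x j‖ ≤ ∑ j, (m i j : ℝ) * ‖x j‖ := by
      refine (norm_sum_le _ _).trans (le_of_eq ?_)
      apply sum_congr rfl; intro j _; rw [norm_mul]; simp
    have h3 : (∑ j, (m i j : ℝ) * ‖x j‖) ^ 2 ≤ (∑ j, (m i j : ℝ)) * ∑ j, (m i j : ℝ) * ‖x j‖ ^ 2 := by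
      have := sum_mul_sq_le_sq_mul_sq univ (fun j => √(m i j : ℝ)) (fun j => √(m i j : ℝ) * ‖x j‖)
      have e1 : ∀ j, √(m i j : ℝ) * (√(m i j : ℝ) * ‖x j‖) = (m i j : ℝ) * ‖x j‖ := by
        intro j; rw [← mul_assoc, Real.mul_self_sqrt (by positivity)]
      have e2 : ∀ j, √(m i j : ℝ) ^ 2 = (m i j : ℝ) := fun j => Real.sq_sqrt (by positivity)
      have e3 : ∀ j, (√(m i j : ℝ) * ‖x j‖) ^ 2 = (m i j : ℝ) * ‖x j‖ ^ 2 := by
        intro j; rw [mul_pow, e2]
      simp only [e1, e2, e3] at this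
      exact this
    have h4 : (∑ j, (m i j : ℝ)) = d := by exact_mod_cast hr i
    rw [h4] at h3
    calc ‖∑ j, (m i j : ℂ) * x j‖ ^ 2 ≤ (∑ j, (m i j : ℝ) * ‖x j‖) ^ 2 := by gcongr
      _ ≤ _ := h3
  calc ∑ i, ‖∑ j, (m i j : ℂ) * x j‖ ^ 2 ≤ ∑ i, d * ∑ j, (m i j : ℝ) * ‖x j‖ ^ 2 :=
        sum_le_sum fun i _ => h1 i
    _ = d * ∑ j, (∑ i, (m i j : ℝ)) * ‖x j‖ ^ 2 := by
        rw [← mul_sum, sum_comm]
        simp_rw [sum_mul]
    _ = (d : ℝ) ^ 2 * ∑ j, ‖x j‖ ^ 2 := by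
        have : ∀ j, (∑ i, (m i j : ℝ)) = d := fun j => by exact_mod_cast hc j
        simp_rw [this]
        rw [← mul_sum]; ring

lemma ba_mulVec {n : ℕ} (z : ℂ) (m : Fin n → Fin n → ℕ) (x : Fin n → ℂ) (i : Fin n) :
    (MM z m).mulVec x i = (∑ j, (m i j : ℂ) * x j) - z * x i := by
  unfold MM
  rw [Matrix.sub_mulVec, Matrix.smul_mulVec, Matrix.one_mulVec]
  rfl

lemma ba_norm_MM {n d : ℕ} (z : ℂ) (m : Fin n → Fin n → ℕ) (hr : ∀ i, ∑ j, m i j = d)
    (hc : ∀ j, ∑ i, m i j = d) (x : Fin n → ℂ) :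
    ∑ i, ‖(MM z m).mulVec x i‖ ^ 2 ≤ (d + ‖z‖) ^ 2 * ∑ j, ‖x j‖ ^ 2 := by
  let X : EuclideanSpace ℂ (Fin n) := WithLp.toLp 2 x
  let Y : EuclideanSpace ℂ (Fin n) := WithLp.toLp 2 (fun i => ∑ j, (m i j : ℂ) * x j)
  let W : EuclideanSpace ℂ (Fin n) := WithLp.toLp 2 ((MM z m).mulVec x)
  have hX : ‖X‖ ^ 2 = ∑ j, ‖x j‖ ^ 2 := by rw [EuclideanSpace.norm_sq_eq]
  have hY : ‖Y‖ ^ 2 ≤ (d : ℝ) ^ 2 * ‖X‖ ^ 2 := by
    rw [EuclideanSpace.norm_sq_eq, hX]; exact ba_schur m hr hc x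
  have hY' : ‖Y‖ ≤ d * ‖X‖ := by
    apply le_of_sq_le_sq _ (by positivity)
    rw [mul_pow]; exact hY
  have hW : W = Y - z • X := by
    ext i
    simp only [W, Y, X, PiLp.sub_apply, PiLp.smul_apply, smul_eq_mul]
    exact ba_mulVec z m x i
  have h1 : ‖W‖ ≤ (d + ‖z‖) * ‖X‖ := by
    rw [hW]
    refine (norm_sub_le _ _).trans ?_
    rw [norm_smul]
    nlinarith [hY']
  have h2 : ‖W‖ ^ 2 = ∑ i, ‖(MM z m).mulVec x i‖ ^ 2 := by rw [EuclideanSpace.norm_sq_eq]
  rw [← h2, ← hX, ← mul_pow]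
  gcongr

/-- the eigenvalue `ev i` is `‖M v_i‖²` for a unit vector `v_i` -/
lemma ba_ev_eq_norm {n : ℕ} (z : ℂ) (m : Fin n → Fin n → ℕ) (i : Fin n) :
    ∃ x : Fin n → ℂ, ∑ k, ‖x k‖ ^ 2 = 1 ∧ ev z m i = ∑ k, ‖(MM z m).mulVec x k‖ ^ 2 := by
  refine ⟨⇑((ba_herm z m).eigenvectorBasis i), ?_, ?_⟩
  · have := (ba_herm z m).eigenvectorBasis.orthonormal.1 i
    rw [← EuclideanSpace.norm_sq_eq, this]; norm_num
  · have h1 := (ba_herm z m).eigenvalues_eq i
    set x : Fin n → ℂ := ⇑((ba_herm z m).eigenvectorBasis i) with hx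
    have h2 : dotProduct (star x) ((HH z m).mulVec x) =
        dotProduct (star ((MM z m).mulVec x)) ((MM z m).mulVec x) := by
      unfold HH
      rw [← Matrix.mulVec_mulVec, Matrix.star_mulVec, Matrix.dotProduct_mulVec]
    rw [ba_ev_eq, h1, h2]
    simp only [dotProduct, Pi.star_apply]
    simp only [RCLike.star_def, RCLike.conj_mul, map_sum]
    apply sum_congr rfl; intro k _
    norm_cast

theorem ev_le {n d : ℕ} (z : ℂ) (m : Fin n → Fin n → ℕ) (hr : ∀ i, ∑ j, m i j = d)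
    (hc : ∀ j, ∑ i, m i j = d) (i : Fin n) : ev z m i ≤ (d + ‖z‖) ^ 2 := by
  obtain ⟨x, hx, h⟩ := ba_ev_eq_norm z m i
  rw [h]
  refine (ba_norm_MM z m hr hc x).trans ?_
  rw [hx, mul_one]

theorem hasDerivAt_La {n : ℕ} (z : ℂ) (m : Fin n → Fin n → ℕ) (t : ℝ) (ht : 0 < t) :
    HasDerivAt (La z m) (Ra z m t) t := by
  have h1 : ∀ i ∈ (univ : Finset (Fin n)), HasDerivAt (fun t : ℝ => Real.log (ev z m i + t ^ 2))
      (2 * t / (ev z m i + t ^ 2)) t := by
    intro i _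
    have hpos : 0 < ev z m i + t ^ 2 := add_pos_of_nonneg_of_pos (ev_nonneg z m i) (by positivity)
    have h2 : HasDerivAt (fun t : ℝ => ev z m i + t ^ 2) (2 * t) t := by
      have := (hasDerivAt_pow 2 t).const_add (ev z m i)
      simpa using this
    exact h2.log hpos.ne'
  have h3 := (HasDerivAt.fun_sum h1).div_const (2 * (n : ℝ))
  have h4 : Ra z m t = (∑ i, 2 * t / (ev z m i + t ^ 2)) / (2 * (n : ℝ)) := by
    unfold Ra
    rw [sum_div, sum_div]
    apply sum_congr rfl; intro i _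
    rcases Nat.eq_zero_or_pos n with h | h
    · subst h; simp
    · have h5 : (n : ℝ) ≠ 0 := by positivity
      have h6 : 0 < ev z m i + t ^ 2 := add_pos_of_nonneg_of_pos (ev_nonneg z m i) (by positivity)
      field_simp
  rw [h4]
  exact h3

theorem Ra_nonneg {n : ℕ} (z : ℂ) (m : Fin n → Fin n → ℕ) (t : ℝ) (ht : 0 < t) :
    0 ≤ Ra z m t := by
  unfold Ra
  apply div_nonneg _ (by positivity)
  apply sum_nonneg; intro i _
  have := ev_nonneg z m i
  positivity

lemma ba_tRa {n : ℕ} (z : ℂ) (m : Fin n → Fin n → ℕ) (t : ℝ) :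
    t * Ra z m t = (∑ i, t ^ 2 / (ev z m i + t ^ 2)) / n := by
  unfold Ra
  rw [mul_div_assoc', mul_sum]
  congr 1
  apply sum_congr rfl; intro i _
  ring

theorem tRa_le_one {n : ℕ} (z : ℂ) (m : Fin n → Fin n → ℕ) (t : ℝ) (ht : 0 < t) :
    t * Ra z m t ≤ 1 := by
  rw [ba_tRa]
  apply div_le_one_of_le₀ _ (by positivity)
  calc ∑ i, t ^ 2 / (ev z m i + t ^ 2) ≤ ∑ _i : Fin n, (1 : ℝ) := by
        apply sum_le_sum; intro i _
        have := ev_nonneg z m i
        rw [div_le_one (by positivity)]; linarith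
    _ = n := by simp

theorem tRa_mono {n : ℕ} (z : ℂ) (m : Fin n → Fin n → ℕ) (s t : ℝ) (hs : 0 < s) (hst : s ≤ t) :
    s * Ra z m s ≤ t * Ra z m t := by
  rw [ba_tRa, ba_tRa]
  apply div_le_div_of_nonneg_right _ (by positivity)
  apply sum_le_sum; intro i _
  have h0 := ev_nonneg z m i
  have ht : 0 < t := hs.trans_le hst
  rw [div_le_div_iff₀ (by positivity) (by positivity)]
  have : s ^ 2 ≤ t ^ 2 := by gcongr
  nlinarith

theorem continuousOn_Ra {n : ℕ} (z : ℂ) (m : Fin n → Fin n → ℕ) :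
    ContinuousOn (Ra z m) (Set.Ioi 0) := by
  unfold Ra
  apply ContinuousOn.div_const
  apply continuousOn_finsetSum
  intro i _
  apply ContinuousOn.div continuousOn_id (by fun_prop)
  intro t ht
  have := ev_nonneg z m i
  have ht' : 0 < t := ht
  positivity

theorem La_sub_log {n : ℕ} (hn : 0 < n) (z : ℂ) (m : Fin n → Fin n → ℕ) (K t : ℝ)
    (hK : ∀ i, ev z m i ≤ K ^ 2) (ht : 0 < t) :
    Real.log t ≤ La z m t ∧ La z m t ≤ Real.log t + K ^ 2 / (2 * t ^ 2) := by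
  have hn' : (0 : ℝ) < n := by exact_mod_cast hn
  have hlog : Real.log (t ^ 2) = 2 * Real.log t := by rw [Real.log_pow]; norm_num
  constructor
  · unfold La
    rw [le_div_iff₀ (by positivity)]
    calc Real.log t * (2 * n) = ∑ _i : Fin n, Real.log (t ^ 2) := by
          rw [hlog]; simp; ring
      _ ≤ _ := by
          apply sum_le_sum; intro i _
          have := ev_nonneg z m i
          apply Real.log_le_log (by positivity) (by linarith)
  · unfold La
    rw [div_le_iff₀ (by positivity)]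
    calc ∑ i, Real.log (ev z m i + t ^ 2) ≤ ∑ _i : Fin n, (2 * Real.log t + K ^ 2 / t ^ 2) := by
          apply sum_le_sum; intro i _
          have h0 := ev_nonneg z m i
          have h1 : ev z m i + t ^ 2 = t ^ 2 * (1 + ev z m i / t ^ 2) := by
            field_simp; ring
          rw [h1, Real.log_mul (by positivity) (by positivity), hlog]
          have h2 : Real.log (1 + ev z m i / t ^ 2) ≤ ev z m i / t ^ 2 := by
            have := Real.log_le_sub_one_of_pos (x := 1 + ev z m i / t ^ 2) (by positivity)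
            linarith
          have h3 : ev z m i / t ^ 2 ≤ K ^ 2 / t ^ 2 := by gcongr; exact hK i
          linarith
      _ = _ := by
          simp only [sum_const, card_univ, Fintype.card_fin, nsmul_eq_mul]
          field_simp

lemma ba_prod_ev {n : ℕ} (z : ℂ) (m : Fin n → Fin n → ℕ) :
    ∏ i, ev z m i = ‖(MM z m).det‖ ^ 2 := by
  have h := (ba_herm z m).det_eq_prod_eigenvalues
  have h2 : (HH z m).det = ((‖(MM z m).det‖ ^ 2 : ℝ) : ℂ) := by
    unfold HH
    rw [Matrix.det_mul, Matrix.det_conjTranspose]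
    rw [RCLike.star_def, RCLike.conj_mul]
    push_cast; rfl
  rw [h2] at h
  have h3 : ((∏ i, ev z m i : ℝ) : ℂ) = ((‖(MM z m).det‖ ^ 2 : ℝ) : ℂ) := by
    rw [h]; push_cast; rfl
  exact_mod_cast h3

lemma ba_ev_pos {n : ℕ} (z : ℂ) (m : Fin n → Fin n → ℕ) (hdet : (MM z m).det ≠ 0) (i : Fin n) :
    0 < ev z m i := by
  have h := ba_prod_ev z m
  have h1 : ∏ i, ev z m i ≠ 0 := by
    rw [h]
    have : ‖(MM z m).det‖ ≠ 0 := by simpa using hdet
    positivity
  have h2 := (prod_ne_zero_iff.1 h1) i (mem_univ i)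
  exact lt_of_le_of_ne (ev_nonneg z m i) (Ne.symm h2)

/-- `log ‖det M‖` through the eigenvalues of `Mᴴ M` -/
theorem log_det_eq {n : ℕ} (z : ℂ) (m : Fin n → Fin n → ℕ) (hdet : (MM z m).det ≠ 0) :
    Real.log ‖(MM z m).det‖ = (∑ i, Real.log (ev z m i)) / 2 := by
  rw [← Real.log_prod (fun i _ => (ba_ev_pos z m hdet i).ne'), ba_prod_ev, Real.log_pow]
  norm_num

theorem logdet_le_La {n : ℕ} (z : ℂ) (m : Fin n → Fin n → ℕ) (hdet : (MM z m).det ≠ 0)
    (t : ℝ) : Real.log ‖(MM z m).det‖ / n ≤ La z m t := by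
  rw [log_det_eq z m hdet, La, div_div]
  gcongr with i _
  · exact ba_ev_pos z m hdet i
  · have := sq_nonneg t; linarith

theorem La_sub_logdet {n : ℕ} (z : ℂ) (m : Fin n → Fin n → ℕ) (hdet : (MM z m).det ≠ 0)
    (s t : ℝ) (hs : 0 < s)
    (hmin : ∀ x : Fin n → ℂ, ∑ k, ‖x k‖ ^ 2 = 1 → s ^ 2 ≤ ∑ k, ‖((MM z m).mulVec x) k‖ ^ 2) :
    La z m t - Real.log ‖(MM z m).det‖ / n ≤ t ^ 2 / (2 * s ^ 2) := by
  rw [log_det_eq z m hdet, La, div_div, ← sub_div, ← sum_sub_distrib]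
  rcases Nat.eq_zero_or_pos n with h | hn
  · subst h
    simp; positivity
  have hn' : (0 : ℝ) < n := by exact_mod_cast hn
  rw [div_le_iff₀ (by positivity)]
  calc ∑ i, (Real.log (ev z m i + t ^ 2) - Real.log (ev z m i)) ≤ ∑ _i : Fin n, t ^ 2 / s ^ 2 := by
        apply sum_le_sum; intro i _
        have h0 := ba_ev_pos z m hdet i
        obtain ⟨x, hx, he⟩ := ba_ev_eq_norm z m i
        have h1 : s ^ 2 ≤ ev z m i := by rw [he]; exact hmin x hx
        rw [← Real.log_div (by positivity) h0.ne']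
        have h2 : (ev z m i + t ^ 2) / ev z m i = 1 + t ^ 2 / ev z m i := by field_simp
        rw [h2]
        have h3 := Real.log_le_sub_one_of_pos (x := 1 + t ^ 2 / ev z m i) (by positivity)
        have h4 : t ^ 2 / ev z m i ≤ t ^ 2 / s ^ 2 := by gcongr
        linarith
    _ = _ := by
        simp only [sum_const, card_univ, Fintype.card_fin, nsmul_eq_mul]
        field_simp

/-- diagonalisation in matrix form -/
lemma ba_diag {n : ℕ} (z : ℂ) (m : Fin n → Fin n → ℕ) :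
    ∃ U V : Matrix (Fin n) (Fin n) ℂ, U * V = 1 ∧ V * U = 1 ∧
      HH z m = U * Matrix.diagonal (fun i => (ev z m i : ℂ)) * V := by
  refine ⟨(ba_herm z m).eigenvectorUnitary, star ((ba_herm z m).eigenvectorUnitary : Matrix (Fin n) (Fin n) ℂ),
    Unitary.coe_mul_star_self _, Unitary.coe_star_mul_self _, ?_⟩
  have h := (ba_herm z m).spectral_theorem
  rw [Unitary.conjStarAlgAut_apply] at h
  exact h

theorem Tp_eq_trace {n : ℕ} (z : ℂ) (m : Fin n → Fin n → ℕ) (f : Polynomial ℝ) :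
    (Tp z m f : ℂ) = (Polynomial.aeval (HH z m) f).trace / n := by
  obtain ⟨U, V, hUV, hVU, hH⟩ := ba_diag z m
  have key : ∀ f : Polynomial ℝ, Polynomial.aeval (HH z m) f =
      U * Matrix.diagonal (fun i => ((f.eval (ev z m i) : ℝ) : ℂ)) * V := by
    intro f
    induction f using Polynomial.induction_on' with
    | add p q hp hq =>
      rw [map_add, hp, hq, ← add_mul, ← mul_add, Matrix.diagonal_add]
      simp
    | monomial k a =>
      rw [Polynomial.aeval_monomial]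
      have hpow : ∀ k : ℕ, HH z m ^ k = U * Matrix.diagonal (fun i => (ev z m i : ℂ) ^ k) * V := by
        intro k
        induction k with
        | zero => simp [hUV]
        | succ k ih =>
          rw [pow_succ, ih]
          conv_lhs => rw [hH]
          have : U * Matrix.diagonal (fun i => (ev z m i : ℂ) ^ k) * V *
              (U * Matrix.diagonal (fun i => (ev z m i : ℂ)) * V) =
              U * Matrix.diagonal (fun i => (ev z m i : ℂ) ^ k) * (V * U) *
                Matrix.diagonal (fun i => (ev z m i : ℂ)) * V := by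
            simp only [Matrix.mul_assoc]
          rw [this, hVU, Matrix.mul_one, Matrix.mul_assoc U, Matrix.diagonal_mul_diagonal]
          simp [pow_succ]
      rw [hpow]
      have h1 : (algebraMap ℝ (Matrix (Fin n) (Fin n) ℂ)) a = (a : ℂ) • 1 := by
        rw [Algebra.algebraMap_eq_smul_one]
        ext i j
        simp [Matrix.smul_apply]
      rw [h1, smul_mul_assoc, one_mul]
      have h2 : (Matrix.diagonal (fun i => (((Polynomial.monomial k) a).eval (ev z m i) : ℝ)) : Matrix (Fin n) (Fin n) ℝ) =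
        a • Matrix.diagonal (fun i => (ev z m i) ^ k) := by
        ext i j
        by_cases hij : i = j
        · subst hij; simp [Polynomial.eval_monomial]
        · simp [hij]
      have h3 : (Matrix.diagonal (fun i => ((((Polynomial.monomial k) a).eval (ev z m i) : ℝ) : ℂ)) : Matrix (Fin n) (Fin n) ℂ) =
        (a : ℂ) • Matrix.diagonal (fun i => (ev z m i : ℂ) ^ k) := by
        ext i j
        by_cases hij : i = j
        · subst hij; simp [Polynomial.eval_monomial]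
        · simp [hij]
      rw [h3, Matrix.mul_smul, Matrix.smul_mul]
  rw [key, Matrix.trace_mul_cycle, hVU, Matrix.one_mul, Matrix.trace_diagonal]
  unfold Tp
  push_cast
  rfl

lemma ba_shift_diag {n : ℕ} (z : ℂ) (m : Fin n → Fin n → ℕ) (t : ℝ) :
    ∃ U V : Matrix (Fin n) (Fin n) ℂ, U * V = 1 ∧ V * U = 1 ∧
      HH z m + ((t ^ 2 : ℝ) : ℂ) • (1 : Matrix (Fin n) (Fin n) ℂ) =
        U * Matrix.diagonal (fun i => ((ev z m i + t ^ 2 : ℝ) : ℂ)) * V := by
  obtain ⟨U, V, hUV, hVU, hH⟩ := ba_diag z m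
  refine ⟨U, V, hUV, hVU, ?_⟩
  have h1 : Matrix.diagonal (fun i => ((ev z m i + t ^ 2 : ℝ) : ℂ)) =
      Matrix.diagonal (fun i => (ev z m i : ℂ)) + ((t ^ 2 : ℝ) : ℂ) • (1 : Matrix (Fin n) (Fin n) ℂ) := by
    ext i j
    by_cases hij : i = j
    · subst hij; simp
    · simp [hij]
  rw [h1, mul_add, add_mul, ← hH, Matrix.mul_smul, Matrix.smul_mul, Matrix.mul_one, hUV]

lemma ba_inv {n : ℕ} (z : ℂ) (m : Fin n → Fin n → ℕ) (t : ℝ) (ht : 0 < t) :
    ((HH z m + ((t ^ 2 : ℝ) : ℂ) • (1 : Matrix (Fin n) (Fin n) ℂ))⁻¹).trace =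
      ((∑ i, 1 / (ev z m i + t ^ 2) : ℝ) : ℂ) := by
  obtain ⟨U, V, hUV, hVU, hH⟩ := ba_shift_diag z m t
  have hinv : (HH z m + ((t ^ 2 : ℝ) : ℂ) • (1 : Matrix (Fin n) (Fin n) ℂ))⁻¹ =
      U * Matrix.diagonal (fun i => ((1 / (ev z m i + t ^ 2) : ℝ) : ℂ)) * V := by
    apply Matrix.inv_eq_right_inv
    rw [hH]
    have : U * Matrix.diagonal (fun i => ((ev z m i + t ^ 2 : ℝ) : ℂ)) * V *
        (U * Matrix.diagonal (fun i => ((1 / (ev z m i + t ^ 2) : ℝ) : ℂ)) * V) =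
        U * Matrix.diagonal (fun i => ((ev z m i + t ^ 2 : ℝ) : ℂ)) * (V * U) *
        Matrix.diagonal (fun i => ((1 / (ev z m i + t ^ 2) : ℝ) : ℂ)) * V := by
      simp only [Matrix.mul_assoc]
    rw [this, hVU, Matrix.mul_one, Matrix.mul_assoc U, Matrix.diagonal_mul_diagonal]
    have h2 : (fun i => ((ev z m i + t ^ 2 : ℝ) : ℂ) * ((1 / (ev z m i + t ^ 2) : ℝ) : ℂ)) =
        fun _ => 1 := by
      funext i
      have h0 := ev_nonneg z m i
      rw [← Complex.ofReal_mul, mul_one_div_cancel (by positivity)]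
      simp
    rw [h2, Matrix.diagonal_one, Matrix.mul_one, hUV]
  rw [hinv, Matrix.trace_mul_cycle, hVU, Matrix.one_mul, Matrix.trace_diagonal]
  push_cast
  rfl

theorem Ra_eq_trace {n : ℕ} (z : ℂ) (m : Fin n → Fin n → ℕ) (t : ℝ) (ht : 0 < t) :
    Ra z m t = (∑ v, t * ((HH z m + ((t ^ 2 : ℝ) : ℂ) • (1 : Matrix (Fin n) (Fin n) ℂ))⁻¹ v v).re)
      / n := by
  have h := congrArg Complex.re (ba_inv z m t ht)
  rw [Complex.ofReal_re, Matrix.trace, Complex.re_sum] at h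
  simp only [Matrix.diag_apply] at h
  rw [← mul_sum, h, mul_sum]
  unfold Ra
  congr 1
  apply sum_congr rfl; intro i _
  ring

theorem La_eq_logdet {n : ℕ} (z : ℂ) (m : Fin n → Fin n → ℕ) (t : ℝ) (ht : 0 < t) :
    La z m t =
      Real.log ‖(HH z m + ((t ^ 2 : ℝ) : ℂ) • (1 : Matrix (Fin n) (Fin n) ℂ)).det‖ / (2 * n) := by
  obtain ⟨U, V, hUV, hVU, hH⟩ := ba_shift_diag z m t
  rw [hH, Matrix.det_mul, Matrix.det_mul]
  have h1 : U.det * V.det = 1 := by rw [← Matrix.det_mul, hUV, Matrix.det_one]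
  have h2 : U.det * (Matrix.diagonal (fun i => ((ev z m i + t ^ 2 : ℝ) : ℂ))).det * V.det =
      ((∏ i, (ev z m i + t ^ 2) : ℝ) : ℂ) := by
    rw [mul_right_comm, h1, one_mul, Matrix.det_diagonal]
    push_cast; rfl
  rw [h2]
  have hpos : ∀ i, 0 < ev z m i + t ^ 2 := fun i =>
    add_pos_of_nonneg_of_pos (ev_nonneg z m i) (by positivity)
  rw [Complex.norm_real, Real.norm_of_nonneg (prod_nonneg fun i _ => (hpos i).le),
    Real.log_prod (fun i _ => (hpos i).ne')]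
  rfl

/-- almost every `z` is good -/
theorem ae_good (d : ℕ) :
    ∀ᵐ z : ℂ ∂(MeasureTheory.volume : MeasureTheory.Measure ℂ), Good d z := by
  have hfin : ∀ (n : ℕ) (A : Fin n → Fin n → Bool), {z : ℂ | (MM z (toN A)).det = 0}.Countable := by
    intro n A
    have h1 : {z : ℂ | (MM z (toN A)).det = 0} ⊆
        {z : ℂ | z ∈ (Matrix.of (fun i j => ((toN A i j : ℕ) : ℂ)) : Matrix (Fin n) (Fin n) ℂ).charpoly.roots.toFinset} := by
      intro z hz
      simp only [Set.mem_ofPred_eq, Multiset.mem_toFinset]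
      rw [Polynomial.mem_roots (Matrix.charpoly_monic _).ne_zero, Polynomial.IsRoot.def,
        Matrix.eval_charpoly]
      have h2 : (Matrix.scalar (Fin n)) z - Matrix.of (fun i j => ((toN A i j : ℕ) : ℂ)) = -(MM z (toN A)) := by
        unfold MM
        rw [neg_sub]
        congr 1
        ext i j
        simp [Matrix.scalar_apply, Matrix.smul_apply, Matrix.one_apply, Matrix.diagonal_apply]
      rw [h2, Matrix.det_neg]
      have : (MM z (toN A)).det = 0 := hz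
      rw [this, mul_zero]
    exact (Finset.countable_toSet _).mono h1
  have hc : (({0} ∪ {(d : ℂ)} : Set ℂ) ∪ ⋃ n : ℕ, ⋃ A : Fin n → Fin n → Bool,
      {z : ℂ | (MM z (toN A)).det = 0}).Countable := by
    apply Set.Countable.union
    · exact (Set.countable_singleton _).union (Set.countable_singleton _)
    · exact Set.countable_iUnion fun n => Set.countable_iUnion fun A => hfin n A
  have h0 := hc.measure_zero MeasureTheory.volume
  rw [MeasureTheory.ae_iff]
  refine MeasureTheory.measure_mono_null ?_ h0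
  intro z hz
  simp only [Set.mem_ofPred_eq, Good, not_and_or, not_forall, not_not] at hz
  simp only [Set.mem_union, Set.mem_singleton_iff, Set.mem_iUnion, Set.mem_ofPred_eq]
  rcases hz with h | h | ⟨n, A, h⟩
  · exact Or.inl (Or.inl h)
  · exact Or.inl (Or.inr h)
  · exact Or.inr ⟨n, A, h⟩

end Pool.Agent.KM
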