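import Pool.Agent.KM.MomWtB

set_option autoImplicit false
open Finset

namespace Pool.Agent.KM
open Pool.Agent.SMin

/-! ## Module MOM (MomFour.lean): the fourth moment of the determinant -/

lemma mf_det_conj {n : ℕ} (z : ℂ) (m : Fin n → Fin n → ℕ) :
    (MM ((starRingEnd ℂ) z) m).det = (starRingEnd ℂ) ((MM z m).det) := by
  rw [RingHom.map_det]
  congr 1
  ext i j
  simp only [MM, Matrix.sub_apply, Matrix.of_apply, Matrix.smul_apply, Matrix.one_apply, smul_eq_mul,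
    RingHom.mapMatrix_apply, Matrix.map_apply, map_sub, map_natCast, map_mul]
  split_ifs <;> simp

lemma MMv_pos (d : ℕ) (hd : 2 ≤ d) (z2 : ℝ) (hz : z2 ≤ d) : 0 < MMv d z2 := by
  have hd' : (2 : ℝ) ≤ d := by exact_mod_cast hd
  have h1 : 0 < (d : ℝ) ^ 2 - z2 := by nlinarith
  unfold MMv
  have h2 : (0 : ℝ) < d * (d - 1) := by nlinarith
  positivity

lemma mf_exp (x : ℝ) (hx : 0 ≤ x) (n : ℕ) (hn : 1 ≤ n) : (1 + x / n) ^ n ≤ Real.exp x := by
  have hn' : (0 : ℝ) < n := by exact_mod_cast hn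
  have h7 : 1 + x / n ≤ Real.exp (x / n) := by
    have := Real.add_one_le_exp (x / n)
    linarith
  calc (1 + x / n) ^ n ≤ (Real.exp (x / n)) ^ n := pow_le_pow_left₀ (by positivity) h7 n
    _ = Real.exp x := by
        rw [← Real.exp_nat_mul]
        congr 1
        field_simp

lemma mf_sqrt (x : ℝ) (h : x ≤ 1) : Real.sqrt x ≤ 1 := by
  rw [Real.sqrt_le_iff]
  exact ⟨zero_le_one, by linarith⟩

lemma mf_final (F A S B M K P : ℝ) (hF : 0 ≤ F) (hA : 0 ≤ A) (hM : 0 ≤ M) (h8 : S ≤ B * (M * K))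
    (hK : A * (B * K) ≤ P) : F * A * S ≤ F * P * M := by
  calc F * A * S ≤ F * A * (B * (M * K)) := by gcongr
    _ = F * (A * (B * K)) * M := by ring
    _ ≤ F * P * M := by gcongr

lemma mf_poly (e N n d K : ℝ) (k : ℕ) (he0 : 0 ≤ e) (he : e ≤ 3) (hN : N = n * d) (hN1 : 1 ≤ N)
    (hn : 1 ≤ n) (hK : 1 ≤ K) (hk : 32 ≤ k) (hk' : 6 * d ^ 2 * K ≤ k) :
    (e * N) ^ 16 * ((N + 1) ^ 16 * K) ≤ ((k : ℝ) * n) ^ k := by
  have hk1 : (32 : ℝ) ≤ k := by exact_mod_cast hk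
  have e1 : (e * N) ^ 16 ≤ (3 * N) ^ 16 := by gcongr
  have e2 : (N + 1) ^ 16 ≤ (2 * N) ^ 16 := by
    apply pow_le_pow_left₀ (by linarith)
    linarith
  have e3 : K ≤ K ^ 16 := by
    calc K = K ^ 1 := by ring
      _ ≤ K ^ 16 := pow_le_pow_right₀ hK (by norm_num)
  have h1 : (3 * N) * (2 * N) * K ≤ ((k : ℝ) * n) ^ 2 := by
    rw [hN]
    have h2 : 6 * d ^ 2 * K ≤ k * k := by nlinarith
    calc 3 * (n * d) * (2 * (n * d)) * K = (6 * d ^ 2 * K) * n ^ 2 := by ring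
      _ ≤ (k * k) * n ^ 2 := by gcongr
      _ = _ := by ring
  calc (e * N) ^ 16 * ((N + 1) ^ 16 * K) ≤ (3 * N) ^ 16 * ((2 * N) ^ 16 * K ^ 16) := by gcongr
    _ = ((3 * N) * (2 * N) * K) ^ 16 := by rw [mul_pow, mul_pow]; ring
    _ ≤ (((k : ℝ) * n) ^ 2) ^ 16 := by gcongr
    _ = ((k : ℝ) * n) ^ 32 := by rw [← pow_mul]
    _ ≤ ((k : ℝ) * n) ^ k := by
        apply pow_le_pow_right₀ _ hk
        nlinarith

/-- weights of the four replicas -/
noncomputable def mfz (z : ℂ) (r : Fin 4) : ℂ := if r = 0 ∨ r = 2 then z else (starRingEnd ℂ) z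

lemma mf_prod (z : ℂ) {n d : ℕ} (σ : Cfg n d) :
    ∏ r, (MM (mfz z r) (mult σ)).det = ((‖(MM z (mult σ)).det‖ ^ 4 : ℝ) : ℂ) := by
  rw [Fin.prod_univ_four]
  have h0 : mfz z 0 = z := by simp [mfz]
  have h1 : mfz z 1 = (starRingEnd ℂ) z := by simp [mfz]
  have h2 : mfz z 2 = z := by simp [mfz]
  have h3 : mfz z 3 = (starRingEnd ℂ) z := by simp [mfz]
  rw [h0, h1, h2, h3, mf_det_conj]
  set D := (MM z (mult σ)).det
  have h4 : D * (starRingEnd ℂ) D = ((‖D‖ ^ 2 : ℝ) : ℂ) := by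
    rw [Complex.mul_conj, Complex.normSq_eq_norm_sq]
  calc D * (starRingEnd ℂ) D * D * (starRingEnd ℂ) D = (D * (starRingEnd ℂ) D) * (D * (starRingEnd ℂ) D) := by ring
    _ = ((‖D‖ ^ 2 : ℝ) : ℂ) * ((‖D‖ ^ 2 : ℝ) : ℂ) := by rw [h4]
    _ = ((‖D‖ ^ 4 : ℝ) : ℂ) := by push_cast; ring

theorem mom4 (d : ℕ) (hd : 2 ≤ d) (z : ℂ) (hz : ‖z‖ ^ 2 ≤ d) : ∃ C : ℕ, ∀ n : ℕ, 1 ≤ n →
    ∑ σ : Cfg n d, ‖(MM z (mult σ)).det‖ ^ 4 ≤
      ((n * d).factorial : ℝ) * ((C : ℝ) * n) ^ C * MMv d (‖z‖ ^ 2) ^ (2 * n) := by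
  classical
  obtain ⟨C, hC, hW⟩ := mb_bound d hd ‖z‖ (norm_nonneg z) hz
  have hMpos : 0 < MMv d (‖z‖ ^ 2) := MMv_pos d hd _ hz
  set Mv := MMv d (‖z‖ ^ 2) with hMv
  have hd' : (2 : ℝ) ≤ d := by exact_mod_cast hd
  set K0 : ℝ := Real.exp (C / Mv ^ 2) with hK0
  have hK01 : 1 ≤ K0 := by
    rw [hK0]; apply Real.one_le_exp; positivity
  obtain ⟨C', hC'⟩ := exists_nat_ge (32 + 6 * (d : ℝ) ^ 2 * K0)
  refine ⟨C', ?_⟩
  intro n hn
  have hn' : (1 : ℝ) ≤ n := by exact_mod_cast hn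
  have hN : 1 ≤ n * d := Nat.one_le_iff_ne_zero.2 (by positivity)
  have hN1 : (1 : ℝ) ≤ ((n * d : ℕ) : ℝ) := by exact_mod_cast hN
  have hNn : (n : ℝ) ≤ ((n * d : ℕ) : ℝ) := by push_cast; nlinarith
  -- the sum is the norm of a sum of products
  have h1 : ∑ σ : Cfg n d, ‖(MM z (mult σ)).det‖ ^ 4 =
      ‖∑ σ : Cfg n d, ∏ r, (MM (mfz z r) (mult σ)).det‖ := by
    simp_rw [mf_prod]
    rw [← Complex.ofReal_sum, Complex.norm_real, Real.norm_of_nonneg]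
    exact sum_nonneg fun σ _ => by positivity
  have hζ : ∀ r, ‖mfz z r‖ = ‖z‖ := by
    intro r
    unfold mfz
    split_ifs
    · rfl
    · exact Complex.norm_conj z
  have h2 := mo_bound (R := Fin 4) (n := n) (d := d) hN (mfz z) ‖z‖ hζ
  rw [h1]
  refine h2.trans ?_
  have hcard : Fintype.card (Finset (Fin 4)) = 16 := by simp
  rw [hcard]
  -- bound of each term
  have hterm : ∀ m ∈ moM (n * d) (Fin 4), Wt d ‖z‖ (motau (n * d) m) ^ n ≤ Mv ^ (2 * n) * K0 := by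
    intro m hm
    have hm' := mem_filter.1 hm
    have hm1 := hm'.2.1
    have hm2 := hm'.2.2
    have hNpos : (0 : ℝ) < ((n * d : ℕ) : ℝ) := by linarith
    have hle : ∀ Q, (m Q : ℝ) ≤ ((n * d : ℕ) : ℝ) := by
      intro Q
      have : m Q ≤ n * d := by
        rw [← hm1]
        exact single_le_sum (f := fun Q => m Q) (fun _ _ => Nat.zero_le _) (mem_univ Q)
      exact_mod_cast this
    have hb := hW (motau (n * d) m) (fun Q => Real.sqrt_nonneg _)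
      (fun Q => by
        unfold motau
        apply mf_sqrt
        rw [div_le_one hNpos]
        exact hle Q)
      (Real.sqrt (1 / ((n * d : ℕ) : ℝ))) (Real.sqrt_nonneg _)
      (by
        apply mf_sqrt
        rw [div_le_one hNpos]; exact hN1)
      (fun Q hQ => by
        unfold motau
        apply Real.sqrt_le_sqrt
        have := hm2 Q hQ
        have h3 : (m Q : ℝ) ≤ 1 := by exact_mod_cast this
        gcongr)
      (by
        have : ∀ Q, motau (n * d) m Q ^ 2 = (m Q : ℝ) / ((n * d : ℕ) : ℝ) := by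
          intro Q
          unfold motau
          rw [Real.sq_sqrt (by positivity)]
        simp_rw [this]
        rw [← sum_div, div_le_one hNpos]
        have h3 : (∑ Q, (m Q : ℝ)) = ((n * d : ℕ) : ℝ) := by
          rw [← hm1]; push_cast; rfl
        rw [h3])
    rw [Real.sq_sqrt (by positivity)] at hb
    have hW0 : 0 ≤ Wt d ‖z‖ (motau (n * d) m) := by
      rw [mw_Wt]
      apply sum_nonneg
      intro Y _
      positivity
    have h4 : Wt d ‖z‖ (motau (n * d) m) ≤ Mv ^ 2 * (1 + (C / Mv ^ 2) / n) := by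
      refine hb.trans ?_
      have h5 : C * (1 / ((n * d : ℕ) : ℝ)) ≤ C * (1 / n) := by
        gcongr
      have h6 : Mv ^ 2 * (1 + (C / Mv ^ 2) / n) = Mv ^ 2 + C * (1 / n) := by
        field_simp
      rw [h6]
      linarith
    calc Wt d ‖z‖ (motau (n * d) m) ^ n ≤ (Mv ^ 2 * (1 + (C / Mv ^ 2) / n)) ^ n :=
          pow_le_pow_left₀ hW0 h4 n
      _ = Mv ^ (2 * n) * (1 + (C / Mv ^ 2) / n) ^ n := by rw [mul_pow, ← pow_mul]
      _ ≤ Mv ^ (2 * n) * K0 := by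
          apply mul_le_mul_of_nonneg_left _ (by positivity)
          exact mf_exp _ (by positivity) n hn
  have h8 : ∑ m ∈ moM (n * d) (Fin 4), Wt d ‖z‖ (motau (n * d) m) ^ n ≤
      (((n * d : ℕ) : ℝ) + 1) ^ 16 * (Mv ^ (2 * n) * K0) := by
    refine (sum_le_sum hterm).trans ?_
    rw [sum_const, nsmul_eq_mul]
    apply mul_le_mul_of_nonneg_right _ (by positivity)
    have := moM_card (R := Fin 4) (n * d)
    rw [hcard] at this
    exact_mod_cast this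
  have hKn : (Real.exp 1 * ((n * d : ℕ) : ℝ)) ^ 16 * ((((n * d : ℕ) : ℝ) + 1) ^ 16 * K0) ≤
      ((C' : ℝ) * n) ^ C' := by
    have hC'1 : (32 : ℝ) ≤ C' := by
      have : 0 ≤ 6 * (d : ℝ) ^ 2 * K0 := by positivity
      linarith
    have hC'3 : 32 ≤ C' := by exact_mod_cast hC'1
    exact mf_poly (Real.exp 1) ((n * d : ℕ) : ℝ) n d K0 C' (Real.exp_pos 1).le
      (by have := Real.exp_one_lt_d9; linarith) (by push_cast; ring) hN1 hn' hK01 hC'3 (by linarith)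
  exact mf_final ((n * d).factorial : ℝ) ((Real.exp 1 * ((n * d : ℕ) : ℝ)) ^ 16)
    (∑ m ∈ moM (n * d) (Fin 4), Wt d ‖z‖ (motau (n * d) m) ^ n) ((((n * d : ℕ) : ℝ) + 1) ^ 16)
    (Mv ^ (2 * n)) K0 (((C' : ℝ) * n) ^ C') (Nat.cast_nonneg _) (by positivity) (by positivity) h8 hKn

end Pool.Agent.KM
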