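import Pool.Agent.KM.MomTwoB

set_option autoImplicit false
open Finset Filter

namespace Pool.Agent.KM
open Pool.Agent.SMin

/-! ## Module MOM (MomTwoC.lean): grouping and the second-moment lower bound -/

section twoc
variable {n d : ℕ}

lemma mt_V_le (e : Fin n → Option (Fin d)) : (mtV e).card ≤ n := by
  have := mt_V_add e; omega

lemma mtn_eq (e : Fin n → Option (Fin d)) : mtn e = n - (mtV e).card := by
  have := mt_V_add e; omega

/-- number of places for one extra stub -/
lemma mtI_fiber (e : Fin n → Option (Fin d)) :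
    (univ.filter (fun q : Fin n × Fin d => e q.1 = none)).card = mtn e * d := by
  classical
  have : univ.filter (fun q : Fin n × Fin d => e q.1 = none) =
      (univ.filter (fun i => e i = none)) ×ˢ (univ : Finset (Fin d)) := by
    ext q; simp
  rw [this, card_product, card_univ, Fintype.card_fin]
  rfl

/-- number of places for two extra stubs -/
lemma mtJ_fiber (e : Fin n → Option (Fin d)) :
    (univ.filter (fun q : (Fin n × Fin d) × (Fin n × Fin d) => e q.1.1 = none ∧ e q.2.1 = none ∧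
      q.1.1 ≠ q.2.1)).card = mtn e * (mtn e - 1) * d ^ 2 := by
  classical
  set E := univ.filter (fun i => e i = none) with hE
  have h1 : (univ.filter (fun q : (Fin n × Fin d) × (Fin n × Fin d) => e q.1.1 = none ∧
      e q.2.1 = none ∧ q.1.1 ≠ q.2.1)).card =
      (E.offDiag ×ˢ (univ : Finset (Fin d × Fin d))).card := by
    apply card_bij (fun q _ => ((q.1.1, q.2.1), (q.1.2, q.2.2)))
    · rintro ⟨⟨i, a⟩, ⟨j, b⟩⟩ hq
      have h := (mem_filter.1 hq).2
      simp only at h
      rw [mem_product]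
      refine ⟨?_, mem_univ _⟩
      rw [mem_offDiag]
      exact ⟨by rw [hE]; simpa using h.1, by rw [hE]; simpa using h.2.1, h.2.2⟩
    · rintro ⟨⟨i, a⟩, ⟨j, b⟩⟩ _ ⟨⟨i', a'⟩, ⟨j', b'⟩⟩ _ h
      simp only [Prod.mk.injEq] at h
      obtain ⟨⟨h1, h2⟩, h3, h4⟩ := h
      rw [h1, h2, h3, h4]
    · rintro ⟨⟨i, j⟩, ⟨a, b⟩⟩ hq
      rw [mem_product, mem_offDiag, hE] at hq
      simp only [mem_filter, mem_univ, true_and, and_true] at hq
      exact ⟨((i, a), (j, b)), mem_filter.2 ⟨mem_univ _, hq⟩, rfl⟩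
  have hc : E.card = mtn e := rfl
  rw [h1, card_product, offDiag_card, card_univ, Fintype.card_prod, Fintype.card_fin, hc,
    Nat.mul_sub, mul_one, pow_two]

/-- sum over one extra stub -/
lemma mt_sumI (f : (Fin n → Option (Fin d)) → ℝ) :
    ∑ q ∈ mtI n d, f q.1 = ∑ e : Fin n → Option (Fin d), ((mtn e * d : ℕ) : ℝ) * f e := by
  classical
  unfold mtI
  rw [sum_filter, Fintype.sum_prod_type]
  apply sum_congr rfl
  intro e _
  show (∑ q : Fin n × Fin d, if e q.1 = none then f e else 0) = _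
  rw [← sum_filter, sum_const, mtI_fiber, nsmul_eq_mul]

lemma mt_sumJ (f : (Fin n → Option (Fin d)) → ℝ) :
    ∑ q ∈ mtJ n d, f q.1 = ∑ e : Fin n → Option (Fin d),
      ((mtn e * (mtn e - 1) * d ^ 2 : ℕ) : ℝ) * f e := by
  classical
  unfold mtJ
  rw [sum_filter, Fintype.sum_prod_type]
  apply sum_congr rfl
  intro e _
  show (∑ q : (Fin n × Fin d) × (Fin n × Fin d), if e q.1.1 = none ∧ e q.2.1 = none ∧
      q.1.1 ≠ q.2.1 then f e else 0) = _
  rw [← sum_filter, sum_const, mtJ_fiber, nsmul_eq_mul]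

/-- the lower bound through the bracket -/
lemma mt_total (hd0 : 0 < d) (z : ℂ) :
    ∑ e : Fin n → Option (Fin d), ((mtV e).card.factorial : ℝ) * (d : ℝ) ^ (mtV e).card *
      mtB d n (mtV e).card z ≤ ∑ σ : Cfg n d, ‖(MM z (mult σ)).det‖ ^ 2 := by
  classical
  refine le_trans (le_of_eq ?_) (mt_lower z)
  have h1 : ∑ q ∈ mtI n d, mtF z (Function.update q.1 q.2.1 (some q.2.2)) q.1 =
      ∑ e : Fin n → Option (Fin d), ((mtn e * d : ℕ) : ℝ) * (- z.re * (‖z‖ ^ (2 * (mtn e - 1)) *
      (((mtV e).card.factorial : ℝ) * ((d : ℝ) ^ ((mtV e).card + 1) *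
      ((n * d - ((mtV e).card + 1)).factorial : ℝ))))) := by
    refine Eq.trans ?_ (mt_sumI (fun e : Fin n → Option (Fin d) => - z.re *
      (‖z‖ ^ (2 * (mtn e - 1)) * (((mtV e).card.factorial : ℝ) * ((d : ℝ) ^ ((mtV e).card + 1) *
      ((n * d - ((mtV e).card + 1)).factorial : ℝ))))))
    apply sum_congr rfl
    intro q hq
    exact mtF_one z q.1 q.2.1 q.2.2 (mem_filter.1 hq).2
  have h2 : ∑ q ∈ mtJ n d, mtF z (Function.update q.1 q.2.1.1 (some q.2.1.2))
        (Function.update q.1 q.2.2.1 (some q.2.2.2)) =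
      ∑ e : Fin n → Option (Fin d), ((mtn e * (mtn e - 1) * d ^ 2 : ℕ) : ℝ) *
      (‖z‖ ^ (2 * (mtn e - 1)) *
      (((mtV e).card.factorial : ℝ) * ((d : ℝ) ^ ((mtV e).card + 2) *
      ((n * d - ((mtV e).card + 2)).factorial : ℝ)))) := by
    refine Eq.trans ?_ (mt_sumJ (fun e : Fin n → Option (Fin d) => ‖z‖ ^ (2 * (mtn e - 1)) *
      (((mtV e).card.factorial : ℝ) * ((d : ℝ) ^ ((mtV e).card + 2) *
      ((n * d - ((mtV e).card + 2)).factorial : ℝ)))))
    apply sum_congr rfl
    intro q hq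
    obtain ⟨g1, g2, g3⟩ := (mem_filter.1 hq).2
    exact mtF_two z q.1 q.2.1.1 q.2.2.1 q.2.1.2 q.2.2.2 g1 g2 g3
  rw [h1, h2, mul_sum, ← sum_add_distrib, ← sum_add_distrib]
  apply sum_congr rfl
  intro e _
  rw [mtF_diag hd0, mtn_eq]
  unfold mtB
  rw [Nat.sub_sub, Nat.sub_sub, Nat.sub_sub]
  push_cast
  ring

/-- number of families with given support -/
lemma mt_support_count (V : Finset (Fin n)) :
    (univ.filter (fun e : Fin n → Option (Fin d) => mtV e = V)).card = d ^ V.card := by
  classical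
  have h1 : (univ.filter (fun e : Fin n → Option (Fin d) => mtV e = V)) =
      Fintype.piFinset (fun i => if i ∈ V then (univ.erase none : Finset (Option (Fin d)))
        else {none}) := by
    ext e
    rw [mem_filter, Fintype.mem_piFinset]
    constructor
    · rintro ⟨-, h⟩ i
      by_cases hi : i ∈ V
      · rw [if_pos hi, mem_erase]
        rw [← h, mt_mem_V] at hi
        exact ⟨hi, mem_univ _⟩
      · rw [if_neg hi, mem_singleton]
        rw [← h, mt_mem_V] at hi
        simpa using hi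
    · intro h
      refine ⟨mem_univ _, ?_⟩
      ext i
      rw [mt_mem_V]
      have := h i
      by_cases hi : i ∈ V
      · rw [if_pos hi, mem_erase] at this
        exact ⟨fun _ => hi, fun _ => this.1⟩
      · rw [if_neg hi, mem_singleton] at this
        exact ⟨fun h' => absurd this h', fun h' => absurd h' hi⟩
  rw [h1, Fintype.card_piFinset]
  have h2 : ∀ i : Fin n, (if i ∈ V then (univ.erase none : Finset (Option (Fin d)))
        else {none}).card = if i ∈ V then d else 1 := by
    intro i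
    by_cases hi : i ∈ V
    · rw [if_pos hi, if_pos hi, card_erase_of_mem (mem_univ _), card_univ, Fintype.card_option,
        Fintype.card_fin]
      simp
    · rw [if_neg hi, if_neg hi, card_singleton]
  simp_rw [h2]
  rw [prod_ite_mem, univ_inter, prod_const]

/-- grouping by the size of the support -/
lemma mt_group (G : ℕ → ℝ) :
    ∑ e : Fin n → Option (Fin d), G (mtV e).card =
      ∑ m ∈ range (n + 1), (n.choose m : ℝ) * (d : ℝ) ^ m * G m := by
  classical
  have h1 : ∑ e : Fin n → Option (Fin d), G (mtV e).card =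
      ∑ V : Finset (Fin n), (d : ℝ) ^ V.card * G V.card := by
    rw [← sum_fiberwise_of_maps_to (s := (univ : Finset (Fin n → Option (Fin d))))
      (t := (univ : Finset (Finset (Fin n)))) (g := mtV) (fun _ _ => mem_univ _)]
    apply sum_congr rfl
    intro V _
    rw [sum_congr rfl (g := fun _ => G V.card) (by
      intro e he
      rw [(mem_filter.1 he).2]), sum_const, mt_support_count, nsmul_eq_mul]
    push_cast
    rfl
  rw [h1]
  have h2 := sum_powerset_apply_card (fun m => (d : ℝ) ^ m * G m) (x := (univ : Finset (Fin n)))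
  rw [powerset_univ, card_univ, Fintype.card_fin] at h2
  rw [h2]
  apply sum_congr rfl
  intro m _
  rw [nsmul_eq_mul]
  ring

/-- the second-moment lower bound -/
theorem mom2 (d : ℕ) (hd : 2 ≤ d) (z : ℂ) (hz : ‖z‖ ^ 2 ≤ d) (him : z.im ≠ 0) :
    ∃ c : ℝ, 0 < c ∧ ∀ᶠ n : ℕ in atTop, ((n * d).factorial : ℝ) * (c * MMv d (‖z‖ ^ 2) ^ n) ≤
      ∑ σ : Cfg n d, ‖(MM z (mult σ)).det‖ ^ 2 := by
  obtain ⟨c, hc, hev⟩ := mt_num d hd z him
  refine ⟨c, hc, ?_⟩
  filter_upwards [hev] with n hn
  calc ((n * d).factorial : ℝ) * (c * MMv d (‖z‖ ^ 2) ^ n)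
      = c * (((n * d).factorial : ℝ) * MMv d (‖z‖ ^ 2) ^ n) := by ring
    _ ≤ c * ∑ m ∈ range (n + 1), (n.choose m : ℝ) * (d : ℝ) ^ (2 * m) * (‖z‖ ^ 2) ^ (n - m) *
        ((m.factorial : ℝ) * ((n * d - m).factorial : ℝ)) :=
        mul_le_mul_of_nonneg_left (mom_beta d hd (‖z‖ ^ 2) (by positivity) hz n) hc.le
    _ = ∑ e : Fin n → Option (Fin d), (fun m => ((m.factorial : ℝ) * (d : ℝ) ^ m) *
        (c * (‖z‖ ^ (2 * (n - m)) * ((n * d - m).factorial : ℝ)))) (mtV e).card := by
        rw [mt_group (fun m => ((m.factorial : ℝ) * (d : ℝ) ^ m) *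
          (c * (‖z‖ ^ (2 * (n - m)) * ((n * d - m).factorial : ℝ)))), mul_sum]
        apply sum_congr rfl
        intro m _
        rw [← pow_mul, two_mul m, pow_add]
        ring
    _ ≤ ∑ e : Fin n → Option (Fin d), ((mtV e).card.factorial : ℝ) * (d : ℝ) ^ (mtV e).card *
      mtB d n (mtV e).card z := by
        apply sum_le_sum
        intro e _
        exact mul_le_mul_of_nonneg_left (hn _ (mt_V_le e)) (by positivity)
    _ ≤ _ := mt_total (by omega) z

end twoc

end Pool.Agent.KM
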