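import Pool.Agent.KM.CoreA
import Pool.Agent.KM.MomFour
import Pool.Agent.KM.MomTwoC

set_option autoImplicit false
open Finset Filter Topology

namespace Pool.Agent.KM
open Pool.Agent.SMin

/-! ## CORE: convergence of the logarithmic potential at good points of the disc -/

lemma co_MMv (d : ℕ) (hd : 2 ≤ d) (s : ℝ) (hs : s ^ 2 < d) :
    MMv d (s ^ 2) = Real.exp (2 * Upot d s) := by
  have hd' : (2 : ℝ) ≤ d := by exact_mod_cast hd
  have h1 : 0 < (d : ℝ) ^ 2 - s ^ 2 := by nlinarith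
  have h2 : 0 < (d : ℝ) * (d - 1) := by nlinarith
  have hd0 : (0 : ℝ) < d := by linarith
  have hc : ((d - 1 : ℕ) : ℝ) = (d : ℝ) - 1 := by
    rw [Nat.cast_sub (by omega)]; simp
  have e : 2 * Upot d s = Real.log (MMv d (s ^ 2)) := by
    unfold MMv Upot
    set P : ℝ := (d : ℝ) * (d - 1) with hP
    set Q : ℝ := (d : ℝ) ^ 2 - s ^ 2 with hQ
    have h3 : 0 < (P / Q) ^ (d - 1) := by positivity
    rw [Real.log_mul hd0.ne' h3.ne', Real.log_pow, Real.log_div h2.ne' h1.ne', hc]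
    ring
  have h4 : 0 < (d : ℝ) * (d - 1) / ((d : ℝ) ^ 2 - s ^ 2) := div_pos h2 h1
  have h5 : 0 < MMv d (s ^ 2) := mul_pos hd0 (pow_pos h4 _)
  rw [e, Real.exp_log h5]

lemma co_card (n d : ℕ) : ((univ : Finset (Cfg n d)).card : ℝ) = ((n * d).factorial : ℝ) := by
  rw [Finset.card_univ, Fintype.card_perm, Fintype.card_prod, Fintype.card_fin, Fintype.card_fin]

theorem core (d : ℕ) (hd : 2 ≤ d) (z : ℂ) (him : z.im ≠ 0) (hzd : ‖z‖ < √d) (hz : Good d z)
    (δ : ℝ) (hδ : 0 < δ) :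
    Tendsto (fun n : ℕ => fr (Reg n d) (fun A => δ ≤ |Phi A z - Upot d ‖z‖|)) atTop (𝓝 0) := by
  have hz2 : ‖z‖ ^ 2 < d := by
    have := Real.sq_sqrt (show (0 : ℝ) ≤ d by positivity)
    rw [← this]
    gcongr
  have hM := co_MMv d hd ‖z‖ hz2
  apply core_of_moments d z (Upot d ‖z‖) hd hz _ _ δ hδ
  · obtain ⟨C, hC⟩ := mom4 d hd z hz2.le
    refine ⟨C, fun n hn => ?_⟩
    have hf : (0 : ℝ) < ((n * d).factorial : ℝ) := by exact_mod_cast Nat.factorial_pos _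
    rw [avg, co_card, div_le_iff₀ hf]
    refine (hC n hn).trans (le_of_eq ?_)
    rw [hM, ← Real.exp_nat_mul]
    have : ((2 * n : ℕ) : ℝ) * (2 * Upot d ‖z‖) = 4 * n * Upot d ‖z‖ := by push_cast; ring
    rw [this]; ring
  · obtain ⟨c, hc, h⟩ := mom2 d hd z hz2.le him
    refine ⟨c, hc, ?_⟩
    filter_upwards [h] with n hn
    have hf : (0 : ℝ) < ((n * d).factorial : ℝ) := by exact_mod_cast Nat.factorial_pos _
    rw [avg, co_card, le_div_iff₀ hf]
    refine le_trans (le_of_eq ?_) hn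
    rw [hM, ← Real.exp_nat_mul]
    have : (n : ℝ) * (2 * Upot d ‖z‖) = 2 * n * Upot d ‖z‖ := by ring
    rw [this]; ring

end Pool.Agent.KM
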