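import Pool.Agent.KM.Basic

set_option autoImplicit false
open Finset Filter Topology

namespace Pool.Agent.KM
open Pool.Agent.SMin

/-! ## Module LIP: effect of one transposition -/

/-- euclidean norm of a vector -/
noncomputable def lip_nn {n : ℕ} (x : Fin n → ℂ) : ℝ := Real.sqrt (∑ k, ‖x k‖ ^ 2)

lemma lip_nn_nonneg {n : ℕ} (x : Fin n → ℂ) : 0 ≤ lip_nn x := Real.sqrt_nonneg _

lemma lip_nn_sq {n : ℕ} (x : Fin n → ℂ) : lip_nn x ^ 2 = ∑ k, ‖x k‖ ^ 2 :=
  Real.sq_sqrt (Finset.sum_nonneg (fun _ _ => by positivity))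

lemma lip_dot_self {n : ℕ} (x : Fin n → ℂ) : star x ⬝ᵥ x = ((lip_nn x ^ 2 : ℝ) : ℂ) := by
  rw [lip_nn_sq, Complex.ofReal_sum]
  refine Finset.sum_congr rfl (fun k _ => ?_)
  rw [Pi.star_apply, Complex.ofReal_pow]
  exact Complex.conj_mul' (x k)

lemma lip_cs {n : ℕ} (x y : Fin n → ℂ) : ‖star x ⬝ᵥ y‖ ≤ lip_nn x * lip_nn y := by
  calc ‖star x ⬝ᵥ y‖ ≤ ∑ k, ‖x k‖ * ‖y k‖ := by
        refine (norm_sum_le _ _).trans_eq (sum_congr rfl (fun k _ => ?_))
        rw [norm_mul, Pi.star_apply, norm_star]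
    _ ≤ _ := Real.sum_mul_le_sqrt_mul_sqrt _ _ _

/-- the matrix `Mᴴ M + t²` -/
noncomputable def lip_G {n : ℕ} (M : Matrix (Fin n) (Fin n) ℂ) (t : ℝ) :
    Matrix (Fin n) (Fin n) ℂ :=
  M.conjTranspose * M + ((t ^ 2 : ℝ) : ℂ) • (1 : Matrix (Fin n) (Fin n) ℂ)

lemma lip_quad {n : ℕ} (M : Matrix (Fin n) (Fin n) ℂ) (t : ℝ) (w : Fin n → ℂ) :
    star w ⬝ᵥ (lip_G M t).mulVec w =
      ((lip_nn (M.mulVec w) ^ 2 + t ^ 2 * lip_nn w ^ 2 : ℝ) : ℂ) := by
  unfold lip_G
  rw [Matrix.add_mulVec, dotProduct_add, Matrix.smul_mulVec, Matrix.one_mulVec,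
    dotProduct_smul, lip_dot_self, ← Matrix.mulVec_mulVec, Matrix.dotProduct_mulVec,
    ← Matrix.star_mulVec, lip_dot_self]
  push_cast
  rw [smul_eq_mul]

lemma lip_solve {n : ℕ} (M : Matrix (Fin n) (Fin n) ℂ) (t : ℝ) (ht : 0 < t) (w y : Fin n → ℂ)
    (h : (lip_G M t).mulVec w = y) :
    lip_nn w ≤ lip_nn y / t ^ 2 ∧ lip_nn (M.mulVec w) ≤ lip_nn y / t := by
  have h1 := lip_quad M t w
  rw [h] at h1
  have h2 : lip_nn (M.mulVec w) ^ 2 + t ^ 2 * lip_nn w ^ 2 ≤ lip_nn w * lip_nn y := by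
    have h3 := lip_cs w y
    rw [h1, Complex.norm_real, Real.norm_eq_abs] at h3
    exact (le_abs_self _).trans h3
  have hw := lip_nn_nonneg w
  have hy := lip_nn_nonneg y
  have hm := lip_nn_nonneg (M.mulVec w)
  have h4 : lip_nn w ≤ lip_nn y / t ^ 2 := by
    rw [le_div_iff₀ (by positivity)]
    by_contra hc
    push Not at hc
    have h5 : 0 < lip_nn w := by
      rcases hw.lt_or_eq with h6 | h6
      · exact h6
      · rw [← h6, zero_mul] at hc
        exact absurd hc (not_lt.2 hy)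
    nlinarith [sq_nonneg (lip_nn (M.mulVec w))]
  refine ⟨h4, ?_⟩
  have h5 : lip_nn (M.mulVec w) ^ 2 ≤ (lip_nn y / t) ^ 2 := by
    have h6 : lip_nn w * lip_nn y ≤ lip_nn y / t ^ 2 * lip_nn y :=
      mul_le_mul_of_nonneg_right h4 hy
    have h7 : lip_nn y / t ^ 2 * lip_nn y = (lip_nn y / t) ^ 2 := by
      field_simp
    nlinarith [sq_nonneg (t * lip_nn w)]
  exact (pow_le_pow_iff_left₀ hm (by positivity) two_ne_zero).1 h5

lemma lip_solve' {n : ℕ} (M : Matrix (Fin n) (Fin n) ℂ) (t : ℝ) (ht : 0 < t) (q u : Fin n → ℂ)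
    (h : (lip_G M t).mulVec q = M.conjTranspose.mulVec u) :
    lip_nn q ≤ lip_nn u / t ∧ lip_nn (M.mulVec q) ≤ lip_nn u := by
  have h1 := lip_quad M t q
  rw [h, Matrix.dotProduct_mulVec, ← Matrix.star_mulVec] at h1
  have h2 : lip_nn (M.mulVec q) ^ 2 + t ^ 2 * lip_nn q ^ 2 ≤ lip_nn (M.mulVec q) * lip_nn u := by
    have h3 := lip_cs (M.mulVec q) u
    rw [h1, Complex.norm_real, Real.norm_eq_abs] at h3
    exact (le_abs_self _).trans h3
  have hq := lip_nn_nonneg q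
  have hu := lip_nn_nonneg u
  have hm := lip_nn_nonneg (M.mulVec q)
  have h4 : lip_nn (M.mulVec q) ≤ lip_nn u := by
    by_contra hc
    push Not at hc
    have h5 : 0 < lip_nn (M.mulVec q) := lt_of_le_of_lt hu hc
    nlinarith [sq_nonneg (t * lip_nn q)]
  refine ⟨?_, h4⟩
  have h5 : (t * lip_nn q) ^ 2 ≤ lip_nn u ^ 2 := by
    nlinarith [mul_le_mul_of_nonneg_right h4 hu, sq_nonneg (lip_nn (M.mulVec q))]
  rw [le_div_iff₀ ht, mul_comm]
  exact (pow_le_pow_iff_left₀ (by positivity) hu two_ne_zero).1 h5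

lemma lip_nn_eq_zero {n : ℕ} (x : Fin n → ℂ) (h : lip_nn x = 0) : x = 0 := by
  have h1 : ∑ k, ‖x k‖ ^ 2 = 0 := by rw [← lip_nn_sq, h]; norm_num
  funext k
  have h2 := (Finset.sum_eq_zero_iff_of_nonneg (fun k _ => by positivity)).1 h1 k (mem_univ k)
  simpa using h2

lemma lip_det_ne {n : ℕ} (M : Matrix (Fin n) (Fin n) ℂ) (t : ℝ) (ht : 0 < t) :
    (lip_G M t).det ≠ 0 := by
  intro h
  obtain ⟨w, hw, h1⟩ := Matrix.exists_mulVec_eq_zero_iff.2 h
  have h2 := (lip_solve M t ht w 0 h1).1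
  have h3 : lip_nn (0 : Fin n → ℂ) = 0 := by simp [lip_nn]
  rw [h3, zero_div] at h2
  exact hw (lip_nn_eq_zero w (le_antisymm h2 (lip_nn_nonneg w)))

lemma lip_mul_inv {n : ℕ} (M : Matrix (Fin n) (Fin n) ℂ) (t : ℝ) (ht : 0 < t) :
    lip_G M t * (lip_G M t)⁻¹ = 1 :=
  Matrix.mul_nonsing_inv _ (isUnit_iff_ne_zero.2 (lip_det_ne M t ht))

lemma lip_inv_mul {n : ℕ} (M : Matrix (Fin n) (Fin n) ℂ) (t : ℝ) (ht : 0 < t) :
    (lip_G M t)⁻¹ * lip_G M t = 1 :=
  Matrix.nonsing_inv_mul _ (isUnit_iff_ne_zero.2 (lip_det_ne M t ht))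

lemma lip_inv_mulVec {n : ℕ} (M : Matrix (Fin n) (Fin n) ℂ) (t : ℝ) (ht : 0 < t)
    (y : Fin n → ℂ) : (lip_G M t).mulVec ((lip_G M t)⁻¹.mulVec y) = y := by
  rw [Matrix.mulVec_mulVec, lip_mul_inv M t ht, Matrix.one_mulVec]

lemma lip_G_herm {n : ℕ} (M : Matrix (Fin n) (Fin n) ℂ) (t : ℝ) :
    (lip_G M t).conjTranspose = lip_G M t := by
  unfold lip_G
  rw [Matrix.conjTranspose_add, Matrix.conjTranspose_mul, Matrix.conjTranspose_conjTranspose,
    Matrix.conjTranspose_smul, Matrix.conjTranspose_one, RCLike.star_def, Complex.conj_ofReal]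

lemma lip_inv_herm {n : ℕ} (M : Matrix (Fin n) (Fin n) ℂ) (t : ℝ) :
    ((lip_G M t)⁻¹).conjTranspose = (lip_G M t)⁻¹ := by
  rw [Matrix.conjTranspose_nonsing_inv, lip_G_herm]

/-- the two resolvent matrices after a rank one change -/
lemma lip_G_change {n : ℕ} (M : Matrix (Fin n) (Fin n) ℂ) (t : ℝ) (u v : Fin n → ℂ) :
    lip_G (M + Matrix.vecMulVec u (star v)) t = lip_G M t +
      (Matrix.vecMulVec ((M + Matrix.vecMulVec u (star v)).conjTranspose.mulVec u) (star v) +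
        Matrix.vecMulVec v (star (M.conjTranspose.mulVec u))) := by
  unfold lip_G
  rw [Matrix.mul_add, Matrix.mul_vecMulVec]
  have h : (M + Matrix.vecMulVec u (star v)).conjTranspose * M = M.conjTranspose * M +
      Matrix.vecMulVec v (star (M.conjTranspose.mulVec u)) := by
    rw [Matrix.conjTranspose_add, Matrix.add_mul, Matrix.conjTranspose_vecMulVec, star_star,
      Matrix.vecMulVec_mul, Matrix.star_mulVec, Matrix.conjTranspose_conjTranspose]
  rw [h]
  abel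

lemma lip_change_vec {n : ℕ} (M : Matrix (Fin n) (Fin n) ℂ) (u v : Fin n → ℂ) :
    (M + Matrix.vecMulVec u (star v)).conjTranspose.mulVec u =
      M.conjTranspose.mulVec u + (star u ⬝ᵥ u) • v := by
  rw [Matrix.conjTranspose_add, Matrix.add_mulVec, Matrix.conjTranspose_vecMulVec, star_star,
    Matrix.vecMulVec_mulVec]
  congr 1
  funext k
  simp [mul_comm]

lemma lip_entry {n : ℕ} (V : Matrix (Fin 2) (Fin n) ℂ) (R : Matrix (Fin n) (Fin n) ℂ)
    (U : Matrix (Fin n) (Fin 2) ℂ) (i j : Fin 2) :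
    (V * R * U) i j = (fun k => V i k) ⬝ᵥ (R.mulVec (fun k => U k j)) := by
  rw [Matrix.mul_assoc, Matrix.mul_apply']
  rfl

/-- the determinant after a rank one change -/
lemma lip_det_ratio {n : ℕ} (M : Matrix (Fin n) (Fin n) ℂ) (t : ℝ) (ht : 0 < t)
    (u v : Fin n → ℂ) (hu : lip_nn u ^ 2 ≤ 2) (hv : lip_nn v ^ 2 ≤ 2) :
    ‖(lip_G (M + Matrix.vecMulVec u (star v)) t).det‖ ≤
      ‖(lip_G M t).det‖ * (1 + 4 / t) ^ 4 := by
  set R := (lip_G M t)⁻¹ with hR
  set p := (M + Matrix.vecMulVec u (star v)).conjTranspose.mulVec u with hp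
  set w := M.conjTranspose.mulVec u with hw
  set U : Matrix (Fin n) (Fin 2) ℂ := Matrix.of (fun i j => ![p i, v i] j) with hU
  set V : Matrix (Fin 2) (Fin n) ℂ := Matrix.of (fun i k => ![star v k, star w k] i) with hV
  have h1 : lip_G (M + Matrix.vecMulVec u (star v)) t = lip_G M t + U * V := by
    rw [lip_G_change]
    congr 1
    ext i j
    rw [Matrix.mul_apply, Fin.sum_univ_two, Matrix.add_apply, Matrix.vecMulVec_apply,
      Matrix.vecMulVec_apply]
    rfl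
  rw [h1, Matrix.det_add_mul U V (isUnit_iff_ne_zero.2 (lip_det_ne M t ht)), norm_mul]
  refine mul_le_mul_of_nonneg_left ?_ (norm_nonneg _)
  rw [← hR]
  set x1 := R.mulVec w with hx1
  set x2 := R.mulVec v with hx2
  set s := star u ⬝ᵥ u with hs
  have hRp : R.mulVec p = x1 + s • x2 := by
    rw [hp, lip_change_vec, Matrix.mulVec_add, Matrix.mulVec_smul]
  have hb1 := lip_solve' M t ht x1 u (lip_inv_mulVec M t ht w)
  have hb2 := lip_solve M t ht x2 v (lip_inv_mulVec M t ht v)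
  have hsn : ‖s‖ = lip_nn u ^ 2 := by
    rw [hs, lip_dot_self, Complex.norm_real, Real.norm_eq_abs, abs_of_nonneg (sq_nonneg _)]
  have ha := lip_nn_nonneg u
  have hb := lip_nn_nonneg v
  set a := lip_nn u with haa
  set b := lip_nn v with hbb
  have hab : a * b ≤ 2 := by nlinarith [sq_nonneg (a - b)]
  have hab0 : 0 ≤ a * b := mul_nonneg ha hb
  set τ := 1 / t with hτ
  have hτ0 : 0 ≤ τ := by positivity
  have hstarw : ∀ x : Fin n → ℂ, star w ⬝ᵥ x = star u ⬝ᵥ M.mulVec x := by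
    intro x
    rw [hw, Matrix.star_mulVec, Matrix.conjTranspose_conjTranspose, Matrix.dotProduct_mulVec]
  -- the four scalar products
  have f1 : ‖star v ⬝ᵥ x1‖ ≤ 2 * τ := by
    refine (lip_cs v x1).trans ?_
    calc b * lip_nn x1 ≤ b * (a / t) := mul_le_mul_of_nonneg_left hb1.1 hb
      _ = (a * b) * τ := by rw [hτ]; ring
      _ ≤ 2 * τ := mul_le_mul_of_nonneg_right hab hτ0
  have f2 : ‖star v ⬝ᵥ x2‖ ≤ 2 * τ ^ 2 := by
    refine (lip_cs v x2).trans ?_
    calc b * lip_nn x2 ≤ b * (b / t ^ 2) := mul_le_mul_of_nonneg_left hb2.1 hb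
      _ = b ^ 2 * τ ^ 2 := by rw [hτ]; ring
      _ ≤ 2 * τ ^ 2 := mul_le_mul_of_nonneg_right hv (by positivity)
  have f3 : ‖star w ⬝ᵥ x1‖ ≤ 2 := by
    rw [hstarw]
    refine (lip_cs u _).trans ?_
    calc a * lip_nn (M.mulVec x1) ≤ a * a := mul_le_mul_of_nonneg_left hb1.2 ha
      _ = a ^ 2 := by ring
      _ ≤ 2 := hu
  have f4 : ‖star w ⬝ᵥ x2‖ ≤ 2 * τ := by
    rw [hstarw]
    refine (lip_cs u _).trans ?_
    calc a * lip_nn (M.mulVec x2) ≤ a * (b / t) := mul_le_mul_of_nonneg_left hb2.2 ha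
      _ = (a * b) * τ := by rw [hτ]; ring
      _ ≤ 2 * τ := mul_le_mul_of_nonneg_right hab hτ0
  have hs2 : ‖s‖ ≤ 2 := by rw [hsn]; exact hu
  have e00 : (V * R * U) 0 0 = star v ⬝ᵥ x1 + s * (star v ⬝ᵥ x2) := by
    rw [lip_entry]
    have : (fun k => U k 0) = p := by funext k; simp [hU]
    rw [this, hRp]
    have : (fun k => V 0 k) = star v := by funext k; simp [hV]
    rw [this, dotProduct_add, dotProduct_smul, smul_eq_mul]
  have e01 : (V * R * U) 0 1 = star v ⬝ᵥ x2 := by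
    rw [lip_entry]
    have : (fun k => U k 1) = v := by funext k; simp [hU]
    rw [this]
    have : (fun k => V 0 k) = star v := by funext k; simp [hV]
    rw [this]
  have e10 : (V * R * U) 1 0 = star w ⬝ᵥ x1 + s * (star w ⬝ᵥ x2) := by
    rw [lip_entry]
    have : (fun k => U k 0) = p := by funext k; simp [hU]
    rw [this, hRp]
    have : (fun k => V 1 k) = star w := by funext k; simp [hV]
    rw [this, dotProduct_add, dotProduct_smul, smul_eq_mul]
  have e11 : (V * R * U) 1 1 = star w ⬝ᵥ x2 := by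
    rw [lip_entry]
    have : (fun k => U k 1) = v := by funext k; simp [hU]
    rw [this]
    have : (fun k => V 1 k) = star w := by funext k; simp [hV]
    rw [this]
  rw [Matrix.det_fin_two]
  simp only [Matrix.add_apply, Matrix.one_apply_eq, Matrix.one_apply_ne (zero_ne_one' (Fin 2)),
    Matrix.one_apply_ne (one_ne_zero' (Fin 2)), zero_add]
  rw [e00, e01, e10, e11]
  have g0 : ‖1 + (star v ⬝ᵥ x1 + s * (star v ⬝ᵥ x2))‖ ≤ 1 + 2 * τ + 4 * τ ^ 2 := by
    calc _ ≤ ‖(1 : ℂ)‖ + (‖star v ⬝ᵥ x1‖ + ‖s‖ * ‖star v ⬝ᵥ x2‖) := by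
          refine (norm_add_le _ _).trans (add_le_add le_rfl ((norm_add_le _ _).trans ?_))
          rw [norm_mul]
      _ ≤ 1 + (2 * τ + 2 * (2 * τ ^ 2)) := by
          rw [norm_one]
          have := mul_le_mul hs2 f2 (norm_nonneg _) (by norm_num : (0 : ℝ) ≤ 2)
          linarith
      _ = _ := by ring
  have g1 : ‖1 + star w ⬝ᵥ x2‖ ≤ 1 + 2 * τ := by
    refine (norm_add_le _ _).trans ?_
    rw [norm_one]
    linarith
  have g2 : ‖star w ⬝ᵥ x1 + s * (star w ⬝ᵥ x2)‖ ≤ 2 + 4 * τ := by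
    refine (norm_add_le _ _).trans ?_
    rw [norm_mul]
    have := mul_le_mul hs2 f4 (norm_nonneg _) (by norm_num : (0 : ℝ) ≤ 2)
    linarith
  have h4 : (1 + 4 / t) ^ 4 = (1 + 4 * τ) ^ 4 := by rw [hτ]; ring
  rw [h4]
  calc _ ≤ ‖1 + (star v ⬝ᵥ x1 + s * (star v ⬝ᵥ x2))‖ * ‖1 + star w ⬝ᵥ x2‖ +
        ‖star v ⬝ᵥ x2‖ * ‖star w ⬝ᵥ x1 + s * (star w ⬝ᵥ x2)‖ := by
        refine (norm_sub_le _ _).trans ?_
        rw [norm_mul, norm_mul]
    _ ≤ (1 + 2 * τ + 4 * τ ^ 2) * (1 + 2 * τ) + 2 * τ ^ 2 * (2 + 4 * τ) :=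
        add_le_add (mul_le_mul g0 g1 (norm_nonneg _) (by positivity))
          (mul_le_mul f2 g2 (norm_nonneg _) (by positivity))
    _ ≤ (1 + 4 * τ) ^ 4 := by
        have : 0 ≤ 12 * τ + 84 * τ ^ 2 + 240 * τ ^ 3 + 256 * τ ^ 4 := by positivity
        nlinarith

/-- the trace of the resolvent after a rank one change -/
lemma lip_trace_diff {n : ℕ} (M : Matrix (Fin n) (Fin n) ℂ) (t : ℝ) (ht : 0 < t)
    (u v : Fin n → ℂ) (hu : lip_nn u ^ 2 ≤ 2) (hv : lip_nn v ^ 2 ≤ 2) :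
    ‖((lip_G (M + Matrix.vecMulVec u (star v)) t)⁻¹).trace - ((lip_G M t)⁻¹).trace‖ ≤
      4 / t ^ 3 := by
  set M' := M + Matrix.vecMulVec u (star v) with hM'
  set R := (lip_G M t)⁻¹ with hR
  set R' := (lip_G M' t)⁻¹ with hR'
  set p := M'.conjTranspose.mulVec u with hp
  set w := M.conjTranspose.mulVec u with hw
  have h1 : lip_G M' t = lip_G M t + (Matrix.vecMulVec p (star v) +
      Matrix.vecMulVec v (star w)) := lip_G_change M t u v
  have h2 : R - R' = R' * (Matrix.vecMulVec p (star v) + Matrix.vecMulVec v (star w)) * R := by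
    have h3 : R' * lip_G M' t = 1 := lip_inv_mul M' t ht
    have h4 : lip_G M t * R = 1 := lip_mul_inv M t ht
    have h5 : Matrix.vecMulVec p (star v) + Matrix.vecMulVec v (star w) =
        lip_G M' t - lip_G M t := by rw [h1]; abel
    rw [h5, Matrix.mul_sub, Matrix.sub_mul, h3, Matrix.one_mul, Matrix.mul_assoc, h4,
      Matrix.mul_one]
  have hstar : ∀ x : Fin n → ℂ, Matrix.vecMul (star x) R = star (R.mulVec x) := by
    intro x
    rw [Matrix.star_mulVec, hR, lip_inv_herm]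
  have h3 : R.trace - R'.trace = (R'.mulVec p) ⬝ᵥ star (R.mulVec v) +
      (R'.mulVec v) ⬝ᵥ star (R.mulVec w) := by
    rw [← Matrix.trace_sub, h2, Matrix.mul_add, Matrix.add_mul, Matrix.trace_add,
      Matrix.mul_vecMulVec, Matrix.mul_vecMulVec, Matrix.vecMulVec_mul, Matrix.vecMulVec_mul,
      Matrix.trace_vecMulVec, Matrix.trace_vecMulVec, hstar, hstar]
  rw [← norm_neg, neg_sub, h3]
  have b1 := lip_solve' M' t ht (R'.mulVec p) u (lip_inv_mulVec M' t ht p)
  have b2 := lip_solve M t ht (R.mulVec v) v (lip_inv_mulVec M t ht v)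
  have b3 := lip_solve M' t ht (R'.mulVec v) v (lip_inv_mulVec M' t ht v)
  have b4 := lip_solve' M t ht (R.mulVec w) u (lip_inv_mulVec M t ht w)
  have ha := lip_nn_nonneg u
  have hb := lip_nn_nonneg v
  have hab : lip_nn u * lip_nn v ≤ 2 := by nlinarith [sq_nonneg (lip_nn u - lip_nn v)]
  have c1 : ‖(R'.mulVec p) ⬝ᵥ star (R.mulVec v)‖ ≤ 2 / t ^ 3 := by
    rw [dotProduct_comm]
    refine (lip_cs _ _).trans ?_
    calc _ ≤ (lip_nn v / t ^ 2) * (lip_nn u / t) :=
          mul_le_mul b2.1 b1.1 (lip_nn_nonneg _) (by positivity)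
      _ = (lip_nn u * lip_nn v) / t ^ 3 := by
          field_simp
      _ ≤ 2 / t ^ 3 := by gcongr
  have c2 : ‖(R'.mulVec v) ⬝ᵥ star (R.mulVec w)‖ ≤ 2 / t ^ 3 := by
    rw [dotProduct_comm]
    refine (lip_cs _ _).trans ?_
    calc _ ≤ (lip_nn u / t) * (lip_nn v / t ^ 2) :=
          mul_le_mul b4.1 b3.1 (lip_nn_nonneg _) (by positivity)
      _ = (lip_nn u * lip_nn v) / t ^ 3 := by
          field_simp
      _ ≤ 2 / t ^ 3 := by gcongr
  calc _ ≤ 2 / t ^ 3 + 2 / t ^ 3 := (norm_add_le _ _).trans (add_le_add c1 c2)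
    _ = 4 / t ^ 3 := by ring

/-- one transposition changes the matrix by a matrix of rank one -/
lemma lip_mult_change {n d : ℕ} (σ : Cfg n d) (a b : Fin n × Fin d) (z : ℂ) :
    ∃ u v : Fin n → ℂ, lip_nn u ^ 2 ≤ 2 ∧ lip_nn v ^ 2 ≤ 2 ∧
      MM z (mult (Equiv.swap a b * σ)) = MM z (mult σ) + Matrix.vecMulVec u (star v) := by
  classical
  set p := σ.symm a with hp
  set q := σ.symm b with hq
  have hnn : ∀ x y : Fin n, lip_nn (fun i => (if x = i then (1 : ℂ) else 0) -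
      (if y = i then 1 else 0)) ^ 2 ≤ 2 := by
    intro x y
    rw [lip_nn_sq]
    calc _ ≤ ∑ k : Fin n, ((if x = k then (1 : ℝ) else 0) + (if y = k then 1 else 0)) := by
          refine sum_le_sum (fun k _ => ?_)
          by_cases h1 : x = k <;> by_cases h2 : y = k <;> simp [h1, h2]
      _ = 2 := by
          rw [sum_add_distrib, sum_ite_eq, sum_ite_eq, if_pos (mem_univ _), if_pos (mem_univ _)]
          norm_num
  by_cases hab : a = b
  · refine ⟨0, 0, ?_, ?_, ?_⟩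
    · simp [lip_nn]
    · simp [lip_nn]
    · rw [hab, Equiv.swap_self, star_zero, Matrix.vecMulVec_zero, add_zero]
      congr 2
  refine ⟨fun i => (if p.1 = i then (1 : ℂ) else 0) - (if q.1 = i then 1 else 0),
    fun j => (if b.1 = j then (1 : ℂ) else 0) - (if a.1 = j then 1 else 0), hnn _ _, hnn _ _, ?_⟩
  have hmult : ∀ (τ : Cfg n d) (i j : Fin n), (mult τ i j : ℂ) =
      ∑ k : Fin d, if (τ (i, k)).1 = j then (1 : ℂ) else 0 := by
    intro τ i j
    unfold mult hd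
    rw [card_filter]
    push_cast
    rfl
  have hf : ∀ (x : Fin n × Fin d) (j : Fin n),
      (if ((Equiv.swap a b * σ) x).1 = j then (1 : ℂ) else 0) =
      (if (σ x).1 = j then (1 : ℂ) else 0) + ((if x = p then (1 : ℂ) else 0) -
        (if x = q then 1 else 0)) * ((if b.1 = j then (1 : ℂ) else 0) -
        (if a.1 = j then 1 else 0)) := by
    intro x j
    rw [Equiv.Perm.mul_apply]
    by_cases h1 : σ x = a
    · have h2 : x = p := by rw [hp, ← h1, Equiv.symm_apply_apply]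
      have h3 : x ≠ q := by
        intro h
        apply hab
        rw [← h1, h, hq, Equiv.apply_symm_apply]
      rw [h1, Equiv.swap_apply_left, if_pos h2, if_neg h3]
      ring
    · by_cases h4 : σ x = b
      · have h2 : x = q := by rw [hq, ← h4, Equiv.symm_apply_apply]
        have h3 : x ≠ p := by
          intro h
          apply hab
          rw [← h4, h, hp, Equiv.apply_symm_apply]
        rw [h4, Equiv.swap_apply_right, if_pos h2, if_neg h3]
        ring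
      · have h2 : x ≠ p := by
          intro h
          apply h1
          rw [h, hp, Equiv.apply_symm_apply]
        have h3 : x ≠ q := by
          intro h
          apply h4
          rw [h, hq, Equiv.apply_symm_apply]
        rw [Equiv.swap_apply_of_ne_of_ne h1 h4, if_neg h2, if_neg h3]
        ring
  have hk : ∀ (i : Fin n) (r : Fin n × Fin d),
      (∑ k : Fin d, if ((i, k) : Fin n × Fin d) = r then (1 : ℂ) else 0) =
        if r.1 = i then 1 else 0 := by
    intro i r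
    by_cases h : r.1 = i
    · rw [if_pos h, sum_eq_single r.2]
      · rw [if_pos (by rw [← h])]
      · intro k _ hk
        rw [if_neg]
        intro h2
        exact hk (by rw [← h2])
      · intro h2
        exact absurd (mem_univ _) h2
    · rw [if_neg h]
      refine sum_eq_zero (fun k _ => ?_)
      rw [if_neg]
      intro h2
      exact h (by rw [← h2])
  ext i j
  unfold MM
  rw [Matrix.add_apply, Matrix.sub_apply, Matrix.sub_apply, Matrix.of_apply, Matrix.of_apply,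
    Matrix.vecMulVec_apply, hmult, hmult, sum_congr rfl (fun k _ => hf (i, k) j),
    sum_add_distrib, ← sum_mul, sum_sub_distrib, hk, hk, Pi.star_apply]
  have hstar : star ((if b.1 = j then (1 : ℂ) else 0) - (if a.1 = j then 1 else 0)) =
      (if b.1 = j then (1 : ℂ) else 0) - (if a.1 = j then 1 else 0) := by
    rw [star_sub]
    congr 1
    · split_ifs
      · exact star_one ℂ
      · exact star_zero ℂ
    · split_ifs
      · exact star_one ℂ
      · exact star_zero ℂ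
  rw [hstar]
  ring

lemma lip_swap_back {n d : ℕ} (σ : Cfg n d) (a b : Fin n × Fin d) :
    Equiv.swap a b * (Equiv.swap a b * σ) = σ := by
  rw [← mul_assoc, Equiv.swap_mul_self, one_mul]

lemma lip_La_one {n d : ℕ} (z : ℂ) (hn : 1 ≤ n) (σ : Cfg n d) (a b : Fin n × Fin d) (t : ℝ)
    (ht : 0 < t) :
    La z (mult (Equiv.swap a b * σ)) t - La z (mult σ) t ≤ 2 * Real.log (1 + 4 / t) / n := by
  obtain ⟨u, v, hu, hv, huv⟩ := lip_mult_change σ a b z
  have h1 : HH z (mult (Equiv.swap a b * σ)) + ((t ^ 2 : ℝ) : ℂ) • (1 : Matrix (Fin n) (Fin n) ℂ) =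
      lip_G (MM z (mult σ) + Matrix.vecMulVec u (star v)) t := by
    rw [← huv]; rfl
  have h2 : HH z (mult σ) + ((t ^ 2 : ℝ) : ℂ) • (1 : Matrix (Fin n) (Fin n) ℂ) =
      lip_G (MM z (mult σ)) t := rfl
  rw [La_eq_logdet z _ t ht, La_eq_logdet z _ t ht, h1, h2, ← sub_div]
  have h3 := lip_det_ratio (MM z (mult σ)) t ht u v hu hv
  have hd1 : 0 < ‖(lip_G (MM z (mult σ)) t).det‖ := norm_pos_iff.2 (lip_det_ne _ t ht)
  have hd2 : 0 < ‖(lip_G (MM z (mult σ) + Matrix.vecMulVec u (star v)) t).det‖ :=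
    norm_pos_iff.2 (lip_det_ne _ t ht)
  have ht4 : 0 < 1 + 4 / t := by positivity
  have h4 := Real.log_le_log hd2 h3
  rw [Real.log_mul hd1.ne' (by positivity), Real.log_pow] at h4
  have hn0 : (0 : ℝ) < n := by exact_mod_cast hn
  rw [div_le_div_iff₀ (by positivity) hn0]
  push_cast at h4
  nlinarith

theorem La_lip (d : ℕ) (z : ℂ) : ∃ C : ℝ, 0 < C ∧ ∀ n : ℕ, 1 ≤ n → ∀ (σ : Cfg n d)
    (a b : Fin n × Fin d) (t : ℝ), 0 < t → t ≤ 1 →
      |La z (mult (Equiv.swap a b * σ)) t - La z (mult σ) t| ≤ 2 * Real.log (1 + C / t) / n := by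
  refine ⟨4, by norm_num, fun n hn σ a b t ht _ => abs_le.2 ⟨?_, lip_La_one z hn σ a b t ht⟩⟩
  have h := lip_La_one z hn (Equiv.swap a b * σ) a b t ht
  rw [lip_swap_back] at h
  linarith

theorem tRa_lip (d : ℕ) (z : ℂ) : ∃ C : ℝ, 0 < C ∧ ∀ n : ℕ, 1 ≤ n → ∀ (σ : Cfg n d)
    (a b : Fin n × Fin d) (t : ℝ), 0 < t →
      |t * Ra z (mult (Equiv.swap a b * σ)) t - t * Ra z (mult σ) t| ≤ C / (t * n) := by
  refine ⟨4, by norm_num, fun n hn σ a b t ht => ?_⟩
  obtain ⟨u, v, hu, hv, huv⟩ := lip_mult_change σ a b z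
  have hRa : ∀ τ : Cfg n d, Ra z (mult τ) t = t * ((lip_G (MM z (mult τ)) t)⁻¹).trace.re / n := by
    intro τ
    rw [Ra_eq_trace z _ t ht, ← mul_sum, Matrix.trace, Complex.re_sum]
    rfl
  rw [hRa, hRa, huv]
  have h := lip_trace_diff (MM z (mult σ)) t ht u v hu hv
  have hn0 : (0 : ℝ) < n := by exact_mod_cast hn
  set A := ((lip_G (MM z (mult σ) + Matrix.vecMulVec u (star v)) t)⁻¹).trace
  set B := ((lip_G (MM z (mult σ)) t)⁻¹).trace
  have h1 : |A.re - B.re| ≤ 4 / t ^ 3 := by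
    rw [← Complex.sub_re]
    exact (Complex.abs_re_le_norm _).trans h
  have h2 : t * (t * A.re / n) - t * (t * B.re / n) = t ^ 2 / n * (A.re - B.re) := by ring
  rw [h2, abs_mul, abs_of_nonneg (by positivity)]
  calc t ^ 2 / n * |A.re - B.re| ≤ t ^ 2 / n * (4 / t ^ 3) :=
        mul_le_mul_of_nonneg_left h1 (by positivity)
    _ = 4 / (t * n) := by field_simp

end Pool.Agent.KM
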