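import Pool.Agent.KM.Defs
import Pool.Agent.SMin2.Final2

set_option autoImplicit false
open Finset Filter Topology

namespace Pool.Agent.KM
open Pool.Agent.SMin

/-! ## Module SG: smallest singular value (P7 with general resolution `ℓ n ≫ log n`, all `d ≥ 2`) -/

lemma sg_MM {n : ℕ} (z : ℂ) (A : Fin n → Fin n → Bool) : MM z (toN A) = Mz z A := by
  unfold MM Mz
  congr 1
  ext i j
  simp only [Matrix.of_apply, toN]
  split_ifs <;> simp

theorem smin_general (d : ℕ) (hd : 2 ≤ d) (z : ℂ) (hz : Good d z) (ℓ : ℕ → ℝ)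
    (hℓ : Tendsto (fun n : ℕ => ℓ n / Real.log n) atTop atTop) (η : ℝ) (hη : 0 < η) :
    ∀ᶠ n : ℕ in atTop, fr (Reg n d) (fun A => ∃ x : Fin n → ℂ, (∑ k, ‖x k‖ ^ 2 = 1) ∧
      ∑ k, ‖((MM z (toN A)).mulVec x) k‖ ^ 2 ≤ Real.exp (-(ℓ n)) ^ 2) ≤ η := by
  obtain ⟨hz0, hzd, hinv⟩ := hz
  have h := SMin2.final ℓ hℓ d hd z hz0 hzd (fun n A => by rw [← sg_MM]; exact hinv n A) 1 one_pos
    η hη
  filter_upwards [h] with n hn
  simp only [one_mul] at hn
  simp_rw [sg_MM]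
  exact hn

end Pool.Agent.KM
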