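import Pool.Agent.KM.Azuma
import Pool.Agent.KM.Lip
import Pool.Agent.KM.TransferPoly
import Pool.Agent.KM.SMinG

set_option autoImplicit false
open Finset Filter Topology

namespace Pool.Agent.KM
open Pool.Agent.SMin

/-! ## CORE: convergence of the logarithmic potential from the moment bounds -/

lemma co_markov {α : Type*} (S : Finset α) (f : α → ℝ) (hf : ∀ x ∈ S, 0 ≤ f x) (a : ℝ) (ha : 0 < a) :
    fr S (fun x => a ≤ f x) ≤ avg S f / a := by
  classical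
  rw [fr_def, avg, div_right_comm]
  apply div_le_div_of_nonneg_right _ (by positivity)
  rw [le_div_iff₀ ha]
  calc ((S.filter (fun x => a ≤ f x)).card : ℝ) * a = ∑ x ∈ S.filter (fun x => a ≤ f x), a := by
        rw [sum_const, nsmul_eq_mul]
    _ ≤ ∑ x ∈ S.filter (fun x => a ≤ f x), f x := sum_le_sum fun x hx => (mem_filter.1 hx).2
    _ ≤ ∑ x ∈ S, f x := sum_le_sum_of_subset_of_nonneg (filter_subset _ _) fun x hx _ => hf x hx

/-- Paley-Zygmund -/
lemma co_pz {α : Type*} (S : Finset α) (hS : S.Nonempty) (Y : α → ℝ) (hY : ∀ x ∈ S, 0 ≤ Y x)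
    (h1 : 0 < avg S Y) (h2 : 0 < avg S (fun x => Y x ^ 2)) :
    avg S Y ^ 2 / (4 * avg S (fun x => Y x ^ 2)) ≤ fr S (fun x => avg S Y / 2 ≤ Y x) := by
  classical
  have hc : (0 : ℝ) < S.card := by exact_mod_cast hS.card_pos
  set E1 := avg S Y with hE1
  set E2 := avg S (fun x => Y x ^ 2) with hE2
  have e1 : ∑ x ∈ S, Y x = S.card * E1 := by
    rw [hE1, avg]; field_simp
  have e2 : ∑ x ∈ S, Y x ^ 2 = S.card * E2 := by
    rw [hE2, avg]; field_simp
  rw [fr_def]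
  set B := S.filter (fun x => E1 / 2 ≤ Y x) with hB
  have h3 : ∑ x ∈ S, Y x ≤ S.card * (E1 / 2) + ∑ x ∈ B, Y x := by
    rw [← sum_filter_add_sum_filter_not S (fun x => E1 / 2 ≤ Y x) Y, add_comm]
    gcongr
    calc ∑ x ∈ S.filter (fun x => ¬ E1 / 2 ≤ Y x), Y x
        ≤ ∑ x ∈ S.filter (fun x => ¬ E1 / 2 ≤ Y x), E1 / 2 :=
          sum_le_sum fun x hx => (not_le.1 (mem_filter.1 hx).2).le
      _ = ((S.filter (fun x => ¬ E1 / 2 ≤ Y x)).card : ℝ) * (E1 / 2) := by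
          rw [sum_const, nsmul_eq_mul]
      _ ≤ S.card * (E1 / 2) := by
          gcongr
          exact filter_subset _ _
  have h4 : S.card * (E1 / 2) ≤ ∑ x ∈ B, Y x := by
    rw [e1] at h3; linarith
  have h5 : (∑ x ∈ B, Y x) ^ 2 ≤ B.card * (S.card * E2) := by
    calc (∑ x ∈ B, Y x) ^ 2 ≤ B.card * ∑ x ∈ B, Y x ^ 2 := sq_sum_le_card_mul_sum_sq
      _ ≤ B.card * ∑ x ∈ S, Y x ^ 2 := by
          gcongr
          exact filter_subset _ _
      _ = _ := by rw [e2]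
  have h6 : (S.card * (E1 / 2)) ^ 2 ≤ B.card * (S.card * E2) := by
    refine le_trans ?_ h5
    gcongr
  rw [div_le_div_iff₀ (by positivity) hc]
  nlinarith [h6, mul_pos hc hc]

lemma co_decay (C : ℕ) (κ : ℝ) (hκ : 0 < κ) :
    Tendsto (fun n : ℕ => (n : ℝ) ^ C * Real.exp (-(κ * √n))) atTop (𝓝 0) := by
  have h1 := Real.tendsto_pow_mul_exp_neg_atTop_nhds_zero (2 * C)
  have h2 : Tendsto (fun n : ℕ => κ * √(n : ℝ)) atTop atTop :=
    Tendsto.const_mul_atTop hκ (Real.tendsto_sqrt_atTop.comp tendsto_natCast_atTop_atTop)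
  have h3 := (h1.comp h2).div_const (κ ^ (2 * C))
  rw [zero_div] at h3
  refine h3.congr fun n => ?_
  simp only [Function.comp]
  rw [mul_pow, pow_mul (√(n : ℝ)), Real.sq_sqrt (by positivity)]
  field_simp

lemma co_root (n : ℕ) (hn : 1 ≤ n) : 1 ≤ (n : ℝ) ^ (1 / 4 : ℝ) ∧
    ((n : ℝ) ^ (1 / 4 : ℝ)) ^ 2 = √n := by
  have h1 : (1 : ℝ) ≤ n := by exact_mod_cast hn
  refine ⟨Real.one_le_rpow h1 (by norm_num), ?_⟩
  rw [← Real.rpow_natCast, ← Real.rpow_mul (by positivity), Real.sqrt_eq_rpow]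
  norm_num

/-- concentration of `La` at resolution `exp (-2 n^{1/4})` -/
lemma co_conc (d : ℕ) (hd : 1 ≤ d) (z : ℂ) : ∃ K : ℝ, 0 < K ∧ ∀ n : ℕ, 1 ≤ n → ∀ δ : ℝ, 0 ≤ δ →
    fr (univ : Finset (Cfg n d)) (fun σ =>
      δ ≤ |La z (mult σ) (Real.exp (-(2 * (n : ℝ) ^ (1 / 4 : ℝ)))) -
        avg univ (fun σ : Cfg n d => La z (mult σ) (Real.exp (-(2 * (n : ℝ) ^ (1 / 4 : ℝ)))))|) ≤
      2 * Real.exp (-(δ ^ 2 / K * √n)) := by
  obtain ⟨C, hC, hlip⟩ := La_lip d z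
  set K0 : ℝ := 4 + 2 * Real.log (1 + C) with hK0
  have hlog : 0 ≤ Real.log (1 + C) := Real.log_nonneg (by linarith)
  have hK0pos : 0 < K0 := by positivity
  have hd' : (0 : ℝ) < d := by exact_mod_cast hd
  refine ⟨2 * K0 ^ 2 * d, by positivity, ?_⟩
  intro n hn δ hδ
  obtain ⟨hL1, hL2⟩ := co_root n hn
  set Lr : ℝ := (n : ℝ) ^ (1 / 4 : ℝ) with hLr
  have hn' : (0 : ℝ) < n := by exact_mod_cast hn
  have hc : 0 < K0 * Lr / n := by positivity
  have h := perm_azuma (X := Fin n × Fin d)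
    (fun σ => La z (mult σ) (Real.exp (-(2 * Lr)))) (K0 * Lr / n) hc (by
      intro σ a b
      have h1 := hlip n hn σ a b (Real.exp (-(2 * Lr))) (Real.exp_pos _)
        (Real.exp_le_one_iff.2 (by linarith))
      refine h1.trans ?_
      apply div_le_div_of_nonneg_right _ hn'.le
      have h2 : 1 + C / Real.exp (-(2 * Lr)) ≤ (1 + C) * Real.exp (2 * Lr) := by
        rw [Real.exp_neg, div_inv_eq_mul]
        have : 1 ≤ Real.exp (2 * Lr) := Real.one_le_exp (by linarith)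
        nlinarith
      have h3 : Real.log (1 + C / Real.exp (-(2 * Lr))) ≤ Real.log (1 + C) + 2 * Lr := by
        refine (Real.log_le_log (by positivity) h2).trans (le_of_eq ?_)
        rw [Real.log_mul (by positivity) (by positivity), Real.log_exp]
      rw [hK0]
      nlinarith [mul_nonneg hlog (sub_nonneg.2 hL1)]) δ hδ
  refine h.trans ?_
  apply mul_le_mul_of_nonneg_left _ (by norm_num)
  apply Real.exp_le_exp.2
  rw [neg_le_neg_iff]
  have e1 : δ ^ 2 / (2 * (K0 * Lr / n) ^ 2 * (Fintype.card (Fin n × Fin d) : ℝ)) =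
      δ ^ 2 / (2 * K0 ^ 2 * d) * √n := by
    rw [Fintype.card_prod, Fintype.card_fin, Fintype.card_fin]
    push_cast
    rw [div_pow, mul_pow, hL2]
    have hs0 : 0 < √(n : ℝ) := Real.sqrt_pos.2 hn'
    rw [div_mul_eq_mul_div, div_eq_div_iff (by positivity) (by positivity)]
    field_simp
    rw [Real.sq_sqrt hn'.le]
  rw [e1]

section main
variable (d : ℕ) (z : ℂ) (U : ℝ)

/-- upper bound for `‖det‖` in the configuration model -/
lemma co_upper (h4 : ∃ C : ℕ, ∀ n : ℕ, 1 ≤ n →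
      avg (univ : Finset (Cfg n d)) (fun σ => ‖(MM z (mult σ)).det‖ ^ 4) ≤
        ((C : ℝ) * n) ^ C * Real.exp (4 * n * U)) (δ : ℝ) (k : ℕ) (hδ : 0 < δ) :
    Tendsto (fun n : ℕ => (n : ℝ) ^ k * fr (univ : Finset (Cfg n d))
      (fun σ => Real.exp (n * (U + δ)) ≤ ‖(MM z (mult σ)).det‖)) atTop (𝓝 0) := by
  obtain ⟨C, hC⟩ := h4
  have hb : ∀ᶠ n : ℕ in atTop, (n : ℝ) ^ k * fr (univ : Finset (Cfg n d))
      (fun σ => Real.exp (n * (U + δ)) ≤ ‖(MM z (mult σ)).det‖) ≤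
      (C : ℝ) ^ C * ((n : ℝ) ^ (k + C) * Real.exp (-(4 * δ * √n))) := by
    filter_upwards [eventually_ge_atTop 1] with n hn
    have hn' : (1 : ℝ) ≤ n := by exact_mod_cast hn
    have h1 : fr (univ : Finset (Cfg n d))
        (fun σ => Real.exp (n * (U + δ)) ≤ ‖(MM z (mult σ)).det‖) ≤
        fr (univ : Finset (Cfg n d))
        (fun σ => Real.exp (n * (U + δ)) ^ 4 ≤ ‖(MM z (mult σ)).det‖ ^ 4) := by
      apply fr_mono; intro σ _ h; gcongr
    have h2 := co_markov (univ : Finset (Cfg n d)) (fun σ => ‖(MM z (mult σ)).det‖ ^ 4)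
      (fun _ _ => by positivity) (Real.exp (n * (U + δ)) ^ 4) (by positivity)
    have h3 : avg (univ : Finset (Cfg n d)) (fun σ => ‖(MM z (mult σ)).det‖ ^ 4) /
        Real.exp (n * (U + δ)) ^ 4 ≤ ((C : ℝ) * n) ^ C * Real.exp (-(4 * δ * √n)) := by
      rw [div_le_iff₀ (by positivity)]
      refine (hC n hn).trans ?_
      rw [← Real.exp_nat_mul, mul_assoc (((C : ℝ) * n) ^ C), ← Real.exp_add]
      apply mul_le_mul_of_nonneg_left _ (by positivity)
      apply Real.exp_le_exp.2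
      have hs : √(n : ℝ) ≤ n := Real.sqrt_le_iff.2 ⟨by positivity, by nlinarith⟩
      push_cast
      nlinarith [mul_le_mul_of_nonneg_left hs hδ.le]
    calc _ ≤ (n : ℝ) ^ k * (((C : ℝ) * n) ^ C * Real.exp (-(4 * δ * √n))) := by
          gcongr
          exact h1.trans (h2.trans h3)
      _ = _ := by rw [mul_pow, pow_add]; ring
  have h5 := (co_decay (k + C) (4 * δ) (by positivity)).const_mul ((C : ℝ) ^ C)
  rw [mul_zero] at h5
  refine tendsto_of_tendsto_of_tendsto_of_le_of_le' tendsto_const_nhds h5 ?_ hb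
  filter_upwards with n
  exact mul_nonneg (by positivity) (fr_nonneg _ _)

/-- lower bound for `E La` -/
lemma co_mean (hd : 1 ≤ d) (h4 : ∃ C : ℕ, ∀ n : ℕ, 1 ≤ n →
      avg (univ : Finset (Cfg n d)) (fun σ => ‖(MM z (mult σ)).det‖ ^ 4) ≤
        ((C : ℝ) * n) ^ C * Real.exp (4 * n * U))
    (h2 : ∃ c : ℝ, 0 < c ∧ ∀ᶠ n : ℕ in atTop, c * Real.exp (2 * n * U) ≤
      avg (univ : Finset (Cfg n d)) (fun σ => ‖(MM z (mult σ)).det‖ ^ 2)) (δ : ℝ) (hδ : 0 < δ) :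
    ∀ᶠ n : ℕ in atTop, U - 2 * δ ≤
      avg univ (fun σ : Cfg n d => La z (mult σ) (Real.exp (-(2 * (n : ℝ) ^ (1 / 4 : ℝ))))) := by
  obtain ⟨C, hC⟩ := h4
  obtain ⟨c, hc, h2⟩ := h2
  obtain ⟨K, hK, hconc⟩ := co_conc d hd z
  -- the concentration error is smaller than the Paley-Zygmund probability
  have e1 : ∀ᶠ n : ℕ in atTop, (C : ℝ) ^ C * ((n : ℝ) ^ C * Real.exp (-(δ ^ 2 / K * √n))) <
      c ^ 2 / 16 := by
    have h5 := (co_decay C (δ ^ 2 / K) (by positivity)).const_mul ((C : ℝ) ^ C)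
    rw [mul_zero] at h5
    exact h5.eventually_lt_const (by positivity)
  have e2 : ∀ᶠ n : ℕ in atTop, -δ < Real.log (c / 2) / (2 * n) := by
    have h6 : Tendsto (fun n : ℕ => Real.log (c / 2) / (2 * (n : ℝ))) atTop (𝓝 0) := by
      apply Tendsto.div_atTop tendsto_const_nhds
      exact Tendsto.const_mul_atTop (by norm_num) tendsto_natCast_atTop_atTop
    exact h6.eventually_const_lt (by linarith)
  filter_upwards [e1, e2, h2, eventually_ge_atTop 1] with n he1 he2 h2n hn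
  have hn' : (0 : ℝ) < n := by exact_mod_cast hn
  by_contra hcon
  rw [not_le] at hcon
  set ε : ℝ := Real.exp (-(2 * (n : ℝ) ^ (1 / 4 : ℝ))) with hε
  set E1 := avg (univ : Finset (Cfg n d)) (fun σ => ‖(MM z (mult σ)).det‖ ^ 2) with hE1
  have hE1pos : 0 < E1 := lt_of_lt_of_le (by positivity) h2n
  have hE2 : avg (univ : Finset (Cfg n d)) (fun σ => (‖(MM z (mult σ)).det‖ ^ 2) ^ 2) ≤
      ((C : ℝ) * n) ^ C * Real.exp (4 * n * U) := by
    have : (fun σ : Cfg n d => (‖(MM z (mult σ)).det‖ ^ 2) ^ 2) =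
        fun σ => ‖(MM z (mult σ)).det‖ ^ 4 := by funext σ; ring
    rw [this]; exact hC n hn
  have hcs : E1 ^ 2 ≤ avg (univ : Finset (Cfg n d)) (fun σ => (‖(MM z (mult σ)).det‖ ^ 2) ^ 2) := by
    rw [hE1, avg, avg, div_pow, div_le_div_iff₀ (by positivity) (by positivity)]
    have := sq_sum_le_card_mul_sum_sq (s := (univ : Finset (Cfg n d)))
      (f := fun σ => ‖(MM z (mult σ)).det‖ ^ 2)
    calc _ ≤ (((univ : Finset (Cfg n d)).card : ℝ) *
          ∑ σ : Cfg n d, (‖(MM z (mult σ)).det‖ ^ 2) ^ 2) * ((univ : Finset (Cfg n d)).card : ℝ) := by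
          gcongr
      _ = _ := by ring
  have hE2pos : 0 < avg (univ : Finset (Cfg n d)) (fun σ => (‖(MM z (mult σ)).det‖ ^ 2) ^ 2) :=
    lt_of_lt_of_le (by positivity) hcs
  have hpz := co_pz (univ : Finset (Cfg n d)) univ_nonempty (fun σ => ‖(MM z (mult σ)).det‖ ^ 2)
    (fun _ _ => by positivity) hE1pos hE2pos
  -- on the Paley-Zygmund event `La ≥ U - δ`
  have hev : fr (univ : Finset (Cfg n d)) (fun σ => E1 / 2 ≤ ‖(MM z (mult σ)).det‖ ^ 2) ≤
      fr (univ : Finset (Cfg n d)) (fun σ => δ ≤ |La z (mult σ) ε -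
        avg univ (fun σ : Cfg n d => La z (mult σ) ε)|) := by
    apply fr_mono
    intro σ _ hσ
    have h7 : c / 2 * Real.exp (2 * n * U) ≤ ‖(MM z (mult σ)).det‖ ^ 2 := by linarith
    have h8 : 0 < ‖(MM z (mult σ)).det‖ ^ 2 := lt_of_lt_of_le (by positivity) h7
    have h9 : (MM z (mult σ)).det ≠ 0 := by
      intro h; rw [h] at h8; simp at h8
    have h10 : Real.log (c / 2) + 2 * n * U ≤ 2 * Real.log ‖(MM z (mult σ)).det‖ := by
      have := Real.log_le_log (by positivity) h7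
      rw [Real.log_mul (by positivity) (by positivity), Real.log_exp, Real.log_pow] at this
      exact_mod_cast this
    have h11 : Real.log (c / 2) / (2 * n) + U ≤ Real.log ‖(MM z (mult σ)).det‖ / n := by
      rw [div_add' _ _ _ (by positivity), div_le_div_iff₀ (by positivity) hn']
      nlinarith
    have h12 := logdet_le_La z (mult σ) h9 ε
    rw [le_abs]
    left
    linarith
  have hfin := hpz.trans (hev.trans (hconc n hn δ hδ.le))
  have h13 : c ^ 2 / (4 * (((C : ℝ) * n) ^ C)) ≤ 2 * Real.exp (-(δ ^ 2 / K * √n)) := by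
    refine le_trans ?_ hfin
    have hCn : 0 < ((C : ℝ) * n) ^ C * Real.exp (4 * n * U) := lt_of_lt_of_le hE2pos hE2
    have hCn' : 0 < ((C : ℝ) * n) ^ C := pos_of_mul_pos_left hCn (Real.exp_pos _).le
    rw [div_le_div_iff₀ (by positivity) (by positivity)]
    have h14 : c ^ 2 * Real.exp (4 * n * U) ≤ E1 ^ 2 := by
      calc c ^ 2 * Real.exp (4 * n * U) = (c * Real.exp (2 * n * U)) ^ 2 := by
            rw [mul_pow, ← Real.exp_nat_mul]; congr 2; push_cast; ring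
        _ ≤ E1 ^ 2 := by gcongr
    calc c ^ 2 * (4 * avg (univ : Finset (Cfg n d)) (fun σ => (‖(MM z (mult σ)).det‖ ^ 2) ^ 2))
        ≤ c ^ 2 * (4 * (((C : ℝ) * n) ^ C * Real.exp (4 * n * U))) := by gcongr
      _ = (c ^ 2 * Real.exp (4 * n * U)) * (4 * ((C : ℝ) * n) ^ C) := by ring
      _ ≤ E1 ^ 2 * (4 * ((C : ℝ) * n) ^ C) := by gcongr
  have hCn' : 0 < ((C : ℝ) * n) ^ C := by
    have hCn : 0 < ((C : ℝ) * n) ^ C * Real.exp (4 * n * U) := lt_of_lt_of_le hE2pos hE2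
    exact pos_of_mul_pos_left hCn (Real.exp_pos _).le
  rw [div_le_iff₀ (by positivity)] at h13
  rw [mul_pow] at h13
  nlinarith [he1, sq_pos_of_pos hc]

/-- lower bound for `La` in the configuration model -/
lemma co_lower (hd : 1 ≤ d) (h4 : ∃ C : ℕ, ∀ n : ℕ, 1 ≤ n →
      avg (univ : Finset (Cfg n d)) (fun σ => ‖(MM z (mult σ)).det‖ ^ 4) ≤
        ((C : ℝ) * n) ^ C * Real.exp (4 * n * U))
    (h2 : ∃ c : ℝ, 0 < c ∧ ∀ᶠ n : ℕ in atTop, c * Real.exp (2 * n * U) ≤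
      avg (univ : Finset (Cfg n d)) (fun σ => ‖(MM z (mult σ)).det‖ ^ 2)) (δ : ℝ) (k : ℕ)
    (hδ : 0 < δ) :
    Tendsto (fun n : ℕ => (n : ℝ) ^ k * fr (univ : Finset (Cfg n d))
      (fun σ => La z (mult σ) (Real.exp (-(2 * (n : ℝ) ^ (1 / 4 : ℝ)))) ≤ U - 3 * δ))
      atTop (𝓝 0) := by
  obtain ⟨K, hK, hconc⟩ := co_conc d hd z
  have hm := co_mean d z U hd h4 h2 δ hδ
  have hb : ∀ᶠ n : ℕ in atTop, (n : ℝ) ^ k * fr (univ : Finset (Cfg n d))
      (fun σ => La z (mult σ) (Real.exp (-(2 * (n : ℝ) ^ (1 / 4 : ℝ)))) ≤ U - 3 * δ) ≤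
      2 * ((n : ℝ) ^ k * Real.exp (-(δ ^ 2 / K * √n))) := by
    filter_upwards [eventually_ge_atTop 1, hm] with n hn hmn
    have h1 : fr (univ : Finset (Cfg n d))
      (fun σ => La z (mult σ) (Real.exp (-(2 * (n : ℝ) ^ (1 / 4 : ℝ)))) ≤ U - 3 * δ) ≤
        2 * Real.exp (-(δ ^ 2 / K * √n)) := by
      refine (fr_mono _ ?_).trans (hconc n hn δ hδ.le)
      intro σ _ h
      rw [le_abs]; right; linarith
    calc _ ≤ (n : ℝ) ^ k * (2 * Real.exp (-(δ ^ 2 / K * √n))) := by gcongr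
      _ = _ := by ring
  have h5 := (co_decay k (δ ^ 2 / K) (by positivity)).const_mul 2
  rw [mul_zero] at h5
  refine tendsto_of_tendsto_of_tendsto_of_le_of_le' tendsto_const_nhds h5 ?_ hb
  filter_upwards with n
  exact mul_nonneg (by positivity) (fr_nonneg _ _)

lemma co_ell : Tendsto (fun n : ℕ => ((n : ℝ) ^ (1 / 4 : ℝ)) / Real.log n) atTop atTop := by
  have h1 : Tendsto (fun x : ℝ => Real.log x / x ^ (1 / 4 : ℝ)) atTop (𝓝 0) :=
    (isLittleO_log_rpow_atTop (by norm_num)).tendsto_div_nhds_zero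
  have h2 : Tendsto (fun x : ℝ => (Real.log x / x ^ (1 / 4 : ℝ))⁻¹) atTop atTop := by
    apply Tendsto.inv_tendsto_nhdsGT_zero
    rw [tendsto_nhdsWithin_iff]
    refine ⟨h1, ?_⟩
    filter_upwards [eventually_gt_atTop 1] with x hx
    have := Real.log_pos hx
    have hx0 : 0 < x := by linarith
    exact Set.mem_Ioi.2 (by positivity)
  refine (h2.comp tendsto_natCast_atTop_atTop).congr fun n => ?_
  simp [Function.comp, inv_div]

theorem core_of_moments (hd : 2 ≤ d) (hz : Good d z)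
    (h4 : ∃ C : ℕ, ∀ n : ℕ, 1 ≤ n →
      avg (univ : Finset (Cfg n d)) (fun σ => ‖(MM z (mult σ)).det‖ ^ 4) ≤
        ((C : ℝ) * n) ^ C * Real.exp (4 * n * U))
    (h2 : ∃ c : ℝ, 0 < c ∧ ∀ᶠ n : ℕ in atTop, c * Real.exp (2 * n * U) ≤
      avg (univ : Finset (Cfg n d)) (fun σ => ‖(MM z (mult σ)).det‖ ^ 2))
    (δ : ℝ) (hδ : 0 < δ) :
    Tendsto (fun n : ℕ => fr (Reg n d) (fun A => δ ≤ |Phi A z - U|)) atTop (𝓝 0) := by
  obtain ⟨k, htr⟩ := transfer_poly d (by omega)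
  set δ' := δ / 5 with hδ'
  have hδ'0 : 0 < δ' := by positivity
  have hup := co_upper d z U h4 δ' k hδ'0
  have hlow := co_lower d z U (by omega) h4 h2 δ' k hδ'0
  rw [Metric.tendsto_atTop]
  intro η hη
  have hs := smin_general d hd z hz (fun n => (n : ℝ) ^ (1 / 4 : ℝ)) co_ell (η / 4) (by positivity)
  have e1 := hup.eventually_lt_const (show (0 : ℝ) < η / 4 by positivity)
  have e2 := hlow.eventually_lt_const (show (0 : ℝ) < η / 4 by positivity)
  have e3 : ∀ᶠ n : ℕ in atTop, Real.exp (-(2 * (n : ℝ) ^ (1 / 4 : ℝ))) / 2 < δ' := by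
    have h6 : Tendsto (fun n : ℕ => Real.exp (-(2 * (n : ℝ) ^ (1 / 4 : ℝ))) / 2) atTop (𝓝 (0 / 2)) := by
      apply Tendsto.div_const
      apply Real.tendsto_exp_neg_atTop_nhds_zero.comp
      apply Tendsto.const_mul_atTop (by norm_num)
      exact (tendsto_rpow_atTop (by norm_num)).comp tendsto_natCast_atTop_atTop
    rw [zero_div] at h6
    exact h6.eventually_lt_const hδ'0
  obtain ⟨n0, hn0⟩ := eventually_atTop.1 (((((hs.and e1).and e2).and e3).and htr).and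
    (eventually_ge_atTop 1))
  refine ⟨n0, fun n hn => ?_⟩
  obtain ⟨⟨⟨⟨⟨hs, e1⟩, e2⟩, e3⟩, -, htr⟩, hn1⟩ := hn0 n hn
  rw [Real.dist_eq, sub_zero, abs_of_nonneg (fr_nonneg _ _)]
  have hn' : (0 : ℝ) < n := by exact_mod_cast hn1
  set ε : ℝ := Real.exp (-(2 * (n : ℝ) ^ (1 / 4 : ℝ))) with hε
  have t1 := htr (fun m => Real.exp (n * (U + δ')) ≤ ‖(MM z m).det‖)
  have t2 := htr (fun m => La z m ε ≤ U - 3 * δ')
  have hcover : fr (Reg n d) (fun A => δ ≤ |Phi A z - U|) ≤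
      fr (Reg n d) (fun A => (Real.exp (n * (U + δ')) ≤ ‖(MM z (toN A)).det‖ ∨
        La z (toN A) ε ≤ U - 3 * δ') ∨ (∃ x : Fin n → ℂ, (∑ k, ‖x k‖ ^ 2 = 1) ∧
      ∑ k, ‖((MM z (toN A)).mulVec x) k‖ ^ 2 ≤ Real.exp (-((n : ℝ) ^ (1 / 4 : ℝ))) ^ 2)) := by
    apply fr_mono
    intro A _ hA
    by_contra hcon
    rw [not_or, not_or] at hcon
    obtain ⟨⟨c1, c2⟩, c3⟩ := hcon
    rw [not_le] at c1 c2
    have hdet : (MM z (toN A)).det ≠ 0 := hz.2.2 n A
    have hdetp : 0 < ‖(MM z (toN A)).det‖ := norm_pos_iff.2 hdet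
    have u1 : Phi A z < U + δ' := by
      unfold Phi
      rw [div_lt_iff₀ hn']
      have := Real.log_lt_log hdetp c1
      rw [Real.log_exp] at this
      linarith
    have c3' : ∀ x : Fin n → ℂ, ∑ k, ‖x k‖ ^ 2 = 1 →
        Real.exp (-((n : ℝ) ^ (1 / 4 : ℝ))) ^ 2 ≤ ∑ k, ‖((MM z (toN A)).mulVec x) k‖ ^ 2 := by
      intro x hx
      by_contra h
      rw [not_le] at h
      exact c3 ⟨x, hx, h.le⟩
    have u2 := La_sub_logdet z (toN A) hdet (Real.exp (-((n : ℝ) ^ (1 / 4 : ℝ)))) ε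
      (Real.exp_pos _) c3'
    have u3 : ε ^ 2 / (2 * Real.exp (-((n : ℝ) ^ (1 / 4 : ℝ))) ^ 2) = ε / 2 := by
      have : Real.exp (-((n : ℝ) ^ (1 / 4 : ℝ))) ^ 2 = ε := by
        rw [hε, ← Real.exp_nat_mul]; congr 1; push_cast; ring
      rw [this]
      have : 0 < ε := Real.exp_pos _
      field_simp
    rw [u3] at u2
    have u4 : U - 4 * δ' < Phi A z := by
      unfold Phi
      linarith
    have u5 : |Phi A z - U| < δ := by
      rw [abs_lt]
      constructor <;> linarith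
    linarith
  calc _ ≤ _ := hcover
    _ ≤ _ := fr_or_le _ _ _
    _ ≤ _ := add_le_add_left (fr_or_le _ _ _) _
    _ < η := by linarith

end main

end Pool.Agent.KM
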