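import Pool.Agent.KM.Defs

set_option autoImplicit false
open Finset Filter Topology MeasureTheory

namespace Pool.Agent.KM
open Pool.Agent.SMin

/-! ## Module D1: the case `d = 1` (random permutation matrices) -/

section trace

variable {n : ℕ} (A : Matrix (Fin n) (Fin n) ℂ)

theorem d1_card_roots : Multiset.card A.charpoly.roots = n := by
  rw [← (IsAlgClosed.splits A.charpoly).natDegree_eq_card_roots, Matrix.charpoly_natDegree_eq_dim,
    Fintype.card_fin]

theorem d1_det_sub (μ : ℂ) : (A - μ • (1 : Matrix (Fin n) (Fin n) ℂ)).det =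
    (A.charpoly.roots.map (fun a => a - μ)).prod := by
  have h1 := (IsAlgClosed.splits A.charpoly).eval_eq_prod_roots_of_monic A.charpoly_monic μ
  rw [Matrix.eval_charpoly] at h1
  have h2 : A - μ • (1 : Matrix (Fin n) (Fin n) ℂ) = -(Matrix.scalar (Fin n) μ - A) := by
    ext i j
    simp [Matrix.one_apply, Matrix.diagonal_apply]
  rw [h2, Matrix.det_neg, h1, Fintype.card_fin]
  have h3 : (A.charpoly.roots.map (fun a => a - μ)).prod =
      (A.charpoly.roots.map (fun a => (-1) * (μ - a))).prod := by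
    congr 1
    refine Multiset.map_congr rfl fun a _ => ?_
    ring
  rw [h3, Multiset.prod_map_mul, Multiset.map_const', Multiset.prod_replicate, d1_card_roots]

theorem d1_det_aeval (p : Polynomial ℂ) : (Polynomial.aeval A p).det =
    (A.charpoly.roots.map (fun a => p.eval a)).prod := by
  have key : ∀ (s : Multiset ℂ) (a : ℂ), (Polynomial.aeval A
      (Polynomial.C a * (s.map (fun μ => Polynomial.X - Polynomial.C μ)).prod)).det =
      (A.charpoly.roots.map (fun x => (Polynomial.C a *
        (s.map (fun μ => Polynomial.X - Polynomial.C μ)).prod).eval x)).prod := by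
    intro s a
    induction s using Multiset.induction_on with
    | empty =>
      simp only [Multiset.map_zero, Multiset.prod_zero, mul_one, Polynomial.aeval_C,
        Polynomial.eval_C, Multiset.map_const', Multiset.prod_replicate, d1_card_roots]
      rw [Algebra.algebraMap_eq_smul_one, Matrix.det_smul, Matrix.det_one, mul_one,
        Fintype.card_fin]
    | cons μ s ih =>
      rw [Multiset.map_cons, Multiset.prod_cons, mul_left_comm, map_mul, Matrix.det_mul, ih]
      have h1 : Polynomial.aeval A (Polynomial.X - Polynomial.C μ) = A - μ • 1 := by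
        rw [map_sub, Polynomial.aeval_X, Polynomial.aeval_C, Algebra.algebraMap_eq_smul_one]
      rw [h1, d1_det_sub, ← Multiset.prod_map_mul]
      congr 1
      refine Multiset.map_congr rfl fun x _ => ?_
      simp only [Polynomial.eval_mul, Polynomial.eval_sub, Polynomial.eval_X, Polynomial.eval_C]
  have h := (IsAlgClosed.splits p).eq_prod_roots
  have h2 := key p.roots p.leadingCoeff
  rw [← h] at h2
  exact h2

theorem d1_trace_aeval (q : Polynomial ℂ) : (Polynomial.aeval A q).trace =
    (A.charpoly.roots.map (fun a => q.eval a)).sum := by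
  have h1 : (Polynomial.aeval A q).charpoly =
      ((A.charpoly.roots.map (fun a => q.eval a)).map
        (fun a => Polynomial.X - Polynomial.C a)).prod := by
    apply Polynomial.funext
    intro z
    rw [Matrix.eval_charpoly]
    have h2 : Matrix.scalar (Fin n) z - Polynomial.aeval A q =
        Polynomial.aeval A (Polynomial.C z - q) := by
      rw [map_sub, Polynomial.aeval_C]
      rfl
    rw [h2, d1_det_aeval, Polynomial.eval_multiset_prod, Multiset.map_map, Multiset.map_map]
    congr 1
    refine Multiset.map_congr rfl fun x _ => ?_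
    simp
  rw [Matrix.trace_eq_sum_roots_charpoly, h1, Polynomial.roots_multiset_prod_X_sub_C]

theorem d1_trace_pow (k : ℕ) : (A ^ k).trace = (A.charpoly.roots.map (fun a => a ^ k)).sum := by
  have := d1_trace_aeval A (Polynomial.X ^ k)
  simpa using this

end trace

section perm

variable {n : ℕ}

/-- the Boolean matrix of a permutation -/
def d1_B (π : Equiv.Perm (Fin n)) : Fin n → Fin n → Bool := fun i j => decide (π i = j)

theorem d1_B_inj : Function.Injective (d1_B (n := n)) := by
  intro π π' h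
  ext i
  have h1 := congrFun (congrFun h i) (π i)
  have h2 : d1_B π i (π i) = true := by simp [d1_B]
  rw [h2] at h1
  have h3 : π' i = π i := by simpa [d1_B] using h1.symm
  rw [h3]

theorem d1_Reg : Reg n 1 = univ.image d1_B := by
  ext A
  simp only [Reg, Finset.mem_filter, Finset.mem_univ, true_and, Finset.mem_image]
  constructor
  · rintro ⟨h1, h2⟩
    have h3 : ∀ i, ∃ j, univ.filter (fun j => A i j = true) = {j} := fun i =>
      Finset.card_eq_one.1 (h1 i)
    choose g hg using h3
    have hgi : ∀ i j, A i j = true ↔ g i = j := by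
      intro i j
      have : j ∈ univ.filter (fun j => A i j = true) ↔ j ∈ ({g i} : Finset (Fin n)) := by rw [hg]
      simp only [Finset.mem_filter, Finset.mem_univ, true_and, Finset.mem_singleton] at this
      rw [this]
      exact eq_comm
    have hinj : Function.Injective g := by
      intro i i' h
      obtain ⟨a, ha⟩ := Finset.card_eq_one.1 (h2 (g i))
      have e1 : i ∈ ({a} : Finset (Fin n)) := by
        rw [← ha]; simp [hgi]
      have e2 : i' ∈ ({a} : Finset (Fin n)) := by
        rw [← ha]; simp [hgi, h]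
      rw [Finset.mem_singleton] at e1 e2
      rw [e1, e2]
    refine ⟨Equiv.ofBijective g (Finite.injective_iff_bijective.1 hinj), ?_⟩
    funext i j
    rw [d1_B, Bool.eq_iff_iff, hgi, decide_eq_true_iff]
    rfl
  · rintro ⟨π, rfl⟩
    refine ⟨fun i => ?_, fun j => ?_⟩
    · rw [Finset.card_eq_one]
      exact ⟨π i, by ext j; simp [d1_B, eq_comm]⟩
    · rw [Finset.card_eq_one]
      exact ⟨π.symm j, by ext i; simp [d1_B, Equiv.eq_symm_apply]⟩

theorem d1_avg (F : (Fin n → Fin n → Bool) → ℝ) :
    avg (Reg n 1) F = avg (univ : Finset (Equiv.Perm (Fin n))) (fun π => F (d1_B π)) := by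
  rw [avg, avg, d1_Reg, Finset.sum_image fun _ _ _ _ h => d1_B_inj h,
    Finset.card_image_of_injective _ d1_B_inj]

theorem d1_pow (π : Equiv.Perm (Fin n)) (k : ℕ) :
    Adj (d1_B π) ^ k = Matrix.of (fun i j => if (π ^ k) i = j then (1 : ℂ) else 0) := by
  induction k with
  | zero =>
    ext i j
    simp [Matrix.one_apply]
  | succ k ih =>
    rw [pow_succ, ih]
    ext i j
    rw [Matrix.mul_apply]
    simp only [Matrix.of_apply, Adj, d1_B, decide_eq_true_eq, ite_mul, one_mul, zero_mul,
      Finset.sum_ite_eq, Finset.mem_univ, if_true]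
    rw [pow_succ', Equiv.Perm.mul_apply]

theorem d1_trace (π : Equiv.Perm (Fin n)) (k : ℕ) :
    ((Adj (d1_B π)).charpoly.roots.map (fun a => a ^ k)).sum =
      ((univ.filter (fun v => (π ^ k) v = v)).card : ℂ) := by
  rw [← d1_trace_pow, d1_pow, Matrix.trace]
  simp only [Matrix.diag_apply, Matrix.of_apply]
  rw [Finset.sum_boole]

theorem d1_norm (π : Equiv.Perm (Fin n)) (a : ℂ) (ha : a ∈ (Adj (d1_B π)).charpoly.roots) :
    ‖a‖ = 1 := by
  have hpos : 0 < orderOf π := orderOf_pos π
  have h1 : a ∈ spectrum ℂ (Adj (d1_B π)) :=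
    Matrix.mem_spectrum_of_isRoot_charpoly (Polynomial.isRoot_of_mem_roots ha)
  have h2 : a ^ orderOf π ∈ spectrum ℂ (Adj (d1_B π) ^ orderOf π) :=
    spectrum.pow_mem_pow _ _ h1
  have h3 : Adj (d1_B π) ^ orderOf π = 1 := by
    rw [d1_pow, pow_orderOf_eq_one]
    ext i j
    rw [Matrix.of_apply, Matrix.one_apply]
    exact if_congr Iff.rfl rfl rfl
  rw [h3] at h2
  have hn : Nontrivial (Matrix (Fin n) (Fin n) ℂ) := by
    by_contra hne
    rw [not_nontrivial_iff_subsingleton] at hne
    rw [spectrum.of_subsingleton] at h2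
    exact h2
  rw [spectrum.one_eq, Set.mem_singleton_iff] at h2
  have h4 : ‖a‖ ^ orderOf π = 1 := by rw [← norm_pow, h2, norm_one]
  exact (pow_eq_one_iff_of_nonneg (norm_nonneg _) hpos.ne').1 h4

open Classical in
/-- permutations with `π^j v = v` and no earlier return -/
noncomputable def d1_T (n : ℕ) (v : Fin n) (j : ℕ) : Finset (Equiv.Perm (Fin n)) :=
  univ.filter (fun π => (π ^ j) v = v ∧ ∀ i ∈ Finset.Ico 1 j, (π ^ i) v ≠ v)

theorem d1_mem_T (v : Fin n) (j : ℕ) (π : Equiv.Perm (Fin n)) :
    π ∈ d1_T n v j ↔ (π ^ j) v = v ∧ ∀ i ∈ Finset.Ico 1 j, (π ^ i) v ≠ v := by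
  unfold d1_T
  simp only [Finset.mem_filter, Finset.mem_univ, true_and]

theorem d1_T_card (v : Fin n) (j : ℕ) (hj : 1 ≤ j) :
    (d1_T n v j).card * (n - j) ≤ n.factorial := by
  classical
  set O : Equiv.Perm (Fin n) → Finset (Fin n) := fun π => (range j).image (fun i => (π ^ i) v)
    with hO
  set S : Finset (Σ _ : Equiv.Perm (Fin n), Fin n) := (d1_T n v j).sigma (fun π => univ \ O π) with hS
  have h1 : (d1_T n v j).card * (n - j) ≤ S.card := by
    rw [hS, Finset.card_sigma, ← smul_eq_mul]
    refine Finset.card_nsmul_le_sum _ _ _ fun π _ => ?_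
    rw [Finset.card_sdiff_of_subset (Finset.subset_univ _), Finset.card_univ, Fintype.card_fin]
    have : (O π).card ≤ j := by
      simpa using Finset.card_image_le (s := range j) (f := fun i => (π ^ i) v)
    omega
  have h2 : ∀ x ∈ S, ∀ i, 1 ≤ i → i ≤ j → ((Equiv.swap v x.2 * x.1) ^ i) v =
      if i = j then x.2 else (x.1 ^ i) v := by
    intro x hx i hi
    rw [hS, Finset.mem_sigma, d1_mem_T, Finset.mem_sdiff] at hx
    obtain ⟨⟨h3, h4'⟩, _, h5⟩ := hx
    have h4 : ∀ i, 0 < i → i < j → (x.1 ^ i) v ≠ v := fun i h1 h2 =>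
      h4' i (Finset.mem_Ico.2 ⟨h1, h2⟩)
    have h6 : ∀ i < j, (x.1 ^ i) v ≠ x.2 := by
      intro i hi h7
      exact h5 (Finset.mem_image.2 ⟨i, Finset.mem_range.2 hi, h7⟩)
    induction i, hi using Nat.le_induction with
    | base =>
      intro hij
      rw [pow_one, pow_one, Equiv.Perm.mul_apply]
      split_ifs with h
      · subst h
        rw [pow_one] at h3
        rw [h3, Equiv.swap_apply_left]
      · have e1 := h4 1 (by omega) (by omega)
        have e2 := h6 1 (by omega)
        rw [pow_one] at e1 e2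
        exact Equiv.swap_apply_of_ne_of_ne e1 e2
    | succ i hi ih =>
      intro hij
      rw [pow_succ', Equiv.Perm.mul_apply, ih (by omega), if_neg (by omega),
        Equiv.Perm.mul_apply, ← Equiv.Perm.mul_apply x.1, ← pow_succ']
      split_ifs with h
      · rw [h, h3, Equiv.swap_apply_left]
      · exact Equiv.swap_apply_of_ne_of_ne (h4 _ (by omega) (by omega)) (h6 _ (by omega))
  have h3 : S.card ≤ (univ : Finset (Equiv.Perm (Fin n))).card := by
    refine Finset.card_le_card_of_injOn (fun x => Equiv.swap v x.2 * x.1) (fun x _ => by simp) ?_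
    intro x hx y hy hxy
    have e1 := h2 x hx j hj le_rfl
    have e2 := h2 y hy j hj le_rfl
    simp only [if_true] at e1 e2
    simp only at hxy
    rw [hxy, e2] at e1
    rw [e1] at hxy
    have e3 := mul_left_cancel hxy
    cases x; cases y
    simp only at e1 e3
    subst e1 e3
    rfl
  rw [Finset.card_univ, Fintype.card_perm, Fintype.card_fin] at h3
  exact h1.trans h3

theorem d1_fix_card (v : Fin n) (k : ℕ) (hk : 1 ≤ k) (hkn : k < n) :
    (((univ : Finset (Equiv.Perm (Fin n))).filter (fun π => (π ^ k) v = v)).card : ℝ) ≤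
      k * (n.factorial / ((n : ℝ) - k)) := by
  classical
  have h1 : (univ : Finset (Equiv.Perm (Fin n))).filter (fun π => (π ^ k) v = v) ⊆
      (Finset.Icc 1 k).biUnion (fun j => d1_T n v j) := by
    intro π hπ
    rw [Finset.mem_filter] at hπ
    have hex : ∃ j, 0 < j ∧ (π ^ j) v = v := ⟨k, hk, hπ.2⟩
    rw [Finset.mem_biUnion]
    refine ⟨Nat.find hex, Finset.mem_Icc.2 ⟨(Nat.find_spec hex).1, Nat.find_min' hex ⟨hk, hπ.2⟩⟩, ?_⟩
    rw [d1_mem_T]
    refine ⟨(Nat.find_spec hex).2, fun i hi h => ?_⟩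
    rw [Finset.mem_Ico] at hi
    exact Nat.find_min hex hi.2 ⟨hi.1, h⟩
  have h2 : ∀ j ∈ Finset.Icc 1 k, ((d1_T n v j).card : ℝ) ≤ n.factorial / ((n : ℝ) - k) := by
    intro j hj
    rw [Finset.mem_Icc] at hj
    have hkn' : (k : ℝ) < n := by exact_mod_cast hkn
    rw [le_div_iff₀ (by linarith)]
    have h3 := d1_T_card v j hj.1
    have h4 : ((d1_T n v j).card : ℝ) * ((n : ℝ) - j) ≤ n.factorial := by
      have : ((n - j : ℕ) : ℝ) = (n : ℝ) - j := by
        rw [Nat.cast_sub (by omega)]
      rw [← this]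
      exact_mod_cast h3
    refine le_trans ?_ h4
    gcongr
    exact hj.2
  calc (((univ : Finset (Equiv.Perm (Fin n))).filter (fun π => (π ^ k) v = v)).card : ℝ)
      ≤ (((Finset.Icc 1 k).biUnion (fun j => d1_T n v j)).card : ℝ) := by
        exact_mod_cast Finset.card_le_card h1
    _ ≤ ((∑ j ∈ Finset.Icc 1 k, (d1_T n v j).card : ℕ) : ℝ) := by
        exact_mod_cast Finset.card_biUnion_le
    _ ≤ ∑ _j ∈ Finset.Icc 1 k, n.factorial / ((n : ℝ) - k) := by
        push_cast
        exact Finset.sum_le_sum h2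
    _ = _ := by
        rw [Finset.sum_const, Nat.card_Icc, nsmul_eq_mul]; simp

end perm

section analysis

open Real in
/-- the point of the additive circle with the argument of `a` -/
noncomputable def d1_pt (a : ℂ) : AddCircle (2 * π) := ((Complex.arg a : ℝ) : AddCircle (2 * π))

open Real in
/-- averaged empirical measure of the eigenvalues, as a functional on the circle -/
noncomputable def d1_La (n : ℕ) (g : AddCircle (2 * π) → ℂ) : ℂ :=
  (∑ σ : Equiv.Perm (Fin n), ((Adj (d1_B σ)).charpoly.roots.map (fun a => g (d1_pt a))).sum) /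
    (n.factorial : ℂ) / n

open Real in
/-- mean over the circle -/
noncomputable def d1_Lin (g : AddCircle (2 * π) → ℂ) : ℂ :=
  ((2 * π : ℝ) : ℂ)⁻¹ * ∫ θ in (0 : ℝ)..2 * π, g (θ : AddCircle (2 * π))

theorem d1_norm_sum (s : Multiset ℂ) (h : ℂ → ℂ) (M : ℝ) (hM : ∀ a ∈ s, ‖h a‖ ≤ M) :
    ‖(s.map h).sum‖ ≤ Multiset.card s * M := by
  induction s using Multiset.induction_on with
  | empty => simp
  | cons a s ih =>
    rw [Multiset.map_cons, Multiset.sum_cons, Multiset.card_cons]
    have h1 := ih fun b hb => hM b (Multiset.mem_cons_of_mem hb)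
    have h2 := hM a (Multiset.mem_cons_self a s)
    refine (norm_add_le _ _).trans ?_
    push_cast
    linarith

theorem d1_La_norm (n : ℕ) (g : AddCircle (2 * Real.pi) → ℂ) (M : ℝ) (hM : ∀ x, ‖g x‖ ≤ M) :
    ‖d1_La n g‖ ≤ M := by
  have hM0 : 0 ≤ M := (norm_nonneg _).trans (hM 0)
  rcases Nat.eq_zero_or_pos n with rfl | hn
  · simp [d1_La, hM0]
  have hn' : (0 : ℝ) < n := by exact_mod_cast hn
  have hf : (0 : ℝ) < n.factorial := by exact_mod_cast n.factorial_pos
  rw [d1_La, norm_div, norm_div, Complex.norm_natCast, Complex.norm_natCast,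
    div_le_iff₀ hn', div_le_iff₀ hf]
  refine (norm_sum_le _ _).trans ?_
  have h1 : ∀ σ ∈ (univ : Finset (Equiv.Perm (Fin n))),
      ‖((Adj (d1_B σ)).charpoly.roots.map (fun a => g (d1_pt a))).sum‖ ≤ n * M := by
    intro σ _
    have := d1_norm_sum (Adj (d1_B σ)).charpoly.roots (fun a => g (d1_pt a)) M (fun a _ => hM _)
    rwa [d1_card_roots] at this
  refine (Finset.sum_le_sum h1).trans ?_
  rw [Finset.sum_const, Finset.card_univ, Fintype.card_perm, Fintype.card_fin, nsmul_eq_mul]
  nlinarith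

theorem d1_La_sub (n : ℕ) (g g' : AddCircle (2 * Real.pi) → ℂ) :
    d1_La n (fun x => g x - g' x) = d1_La n g - d1_La n g' := by
  simp only [d1_La, Multiset.sum_map_sub, Finset.sum_sub_distrib, sub_div]

theorem d1_La_add (n : ℕ) (g g' : AddCircle (2 * Real.pi) → ℂ) :
    d1_La n (fun x => g x + g' x) = d1_La n g + d1_La n g' := by
  simp only [d1_La, Multiset.sum_map_add, Finset.sum_add_distrib, add_div]

theorem d1_La_smul (n : ℕ) (c : ℂ) (g : AddCircle (2 * Real.pi) → ℂ) :
    d1_La n (fun x => c * g x) = c * d1_La n g := by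
  simp only [d1_La, Multiset.sum_map_mul_left, ← Finset.mul_sum, mul_div_assoc]

theorem d1_fourier_pt (k : ℤ) (a : ℂ) (ha : ‖a‖ = 1) :
    (fourier k (d1_pt a) : ℂ) = a ^ k := by
  have h1 : a = Complex.exp ((Complex.arg a : ℂ) * Complex.I) := by
    have := Complex.norm_mul_exp_arg_mul_I a
    rw [ha, Complex.ofReal_one, one_mul] at this
    exact this.symm
  rw [d1_pt, fourier_coe_apply]
  conv_rhs => rw [h1, ← Complex.exp_int_mul]
  congr 1
  have hpi : (Real.pi : ℂ) ≠ 0 := by exact_mod_cast Real.pi_ne_zero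
  push_cast
  field_simp

theorem d1_fourier_sum {n : ℕ} (σ : Equiv.Perm (Fin n)) (k : ℤ) :
    ((Adj (d1_B σ)).charpoly.roots.map (fun a => (fourier k (d1_pt a) : ℂ))).sum =
      ((univ.filter (fun v => (σ ^ k.natAbs) v = v)).card : ℂ) := by
  rw [← d1_trace]
  rcases Int.natAbs_eq k with hk | hk
  · congr 1
    refine Multiset.map_congr rfl fun a ha => ?_
    rw [d1_fourier_pt k a (d1_norm σ a ha)]
    conv_lhs => rw [hk, zpow_natCast]
  · have h1 : ((Adj (d1_B σ)).charpoly.roots.map (fun a => (fourier k (d1_pt a) : ℂ))) =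
        ((Adj (d1_B σ)).charpoly.roots.map (fun a => a ^ k.natAbs)).map (starRingEnd ℂ) := by
      rw [Multiset.map_map]
      refine Multiset.map_congr rfl fun a ha => ?_
      have hn := d1_norm σ a ha
      rw [d1_fourier_pt k a hn]
      conv_lhs => rw [hk, zpow_neg, zpow_natCast]
      rw [Function.comp_apply, map_pow, ← inv_pow]
      congr 1
      rw [Complex.inv_def, Complex.normSq_eq_norm_sq, hn]
      simp
    rw [h1, ← map_multiset_sum, d1_trace]
    simp

theorem d1_fourier_lim (k : ℤ) (hk : k ≠ 0) :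
    Tendsto (fun n : ℕ => d1_La n (fun x => (fourier k x : ℂ))) atTop (𝓝 0) := by
  set m := k.natAbs with hm
  have hm1 : 1 ≤ m := by omega
  have hlim : Tendsto (fun n : ℕ => (m : ℝ) / ((n : ℝ) - m)) atTop (𝓝 0) := by
    refine Tendsto.const_div_atTop ?_ _
    exact tendsto_atTop_add_const_right _ _ tendsto_natCast_atTop_atTop
  refine squeeze_zero_norm' ?_ hlim
  filter_upwards [eventually_gt_atTop m] with n hn
  have hn' : (0 : ℝ) < n := by exact_mod_cast (by omega : 0 < n)
  have hf : (0 : ℝ) < n.factorial := by exact_mod_cast n.factorial_pos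
  have h1 : ‖d1_La n (fun x => (fourier k x : ℂ))‖ =
      (∑ σ : Equiv.Perm (Fin n), ((univ.filter (fun v => (σ ^ m) v = v)).card : ℝ)) /
        n.factorial / n := by
    rw [d1_La]
    simp only [d1_fourier_sum]
    rw [← Nat.cast_sum, norm_div, norm_div, Complex.norm_natCast, Complex.norm_natCast,
      Complex.norm_natCast, Nat.cast_sum]
  have h2 : (∑ σ : Equiv.Perm (Fin n), ((univ.filter (fun v => (σ ^ m) v = v)).card : ℝ)) =
      ∑ v : Fin n, (((univ : Finset (Equiv.Perm (Fin n))).filter
        (fun σ => (σ ^ m) v = v)).card : ℝ) := by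
    simp only [Finset.card_filter, Nat.cast_sum]
    rw [Finset.sum_comm]
  rw [h1, h2, div_le_iff₀ hn', div_le_iff₀ hf]
  calc ∑ v : Fin n, (((univ : Finset (Equiv.Perm (Fin n))).filter
        (fun σ => (σ ^ m) v = v)).card : ℝ)
      ≤ ∑ _v : Fin n, (m : ℝ) * (n.factorial / ((n : ℝ) - m)) :=
        Finset.sum_le_sum fun v _ => d1_fix_card v m hm1 hn
    _ = m / ((n : ℝ) - m) * n * n.factorial := by
        rw [Finset.sum_const, Finset.card_univ, Fintype.card_fin, nsmul_eq_mul]
        ring

theorem d1_Lin_fourier (k : ℤ) (hk : k ≠ 0) : d1_Lin (fun x => (fourier k x : ℂ)) = 0 := by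
  have hpi : (Real.pi : ℂ) ≠ 0 := by exact_mod_cast Real.pi_ne_zero
  have hk' : (k : ℂ) ≠ 0 := by exact_mod_cast hk
  have hc : (k : ℂ) * Complex.I ≠ 0 := mul_ne_zero hk' Complex.I_ne_zero
  have h1 : ∀ θ : ℝ, (fourier k ((θ : ℝ) : AddCircle (2 * Real.pi)) : ℂ) =
      Complex.exp ((k : ℂ) * Complex.I * (θ : ℂ)) := by
    intro θ
    rw [fourier_coe_apply]
    congr 1
    push_cast
    field_simp
  rw [d1_Lin]
  simp only [h1]
  rw [integral_exp_mul_complex hc]
  have h2 : Complex.exp ((k : ℂ) * Complex.I * ((2 * Real.pi : ℝ) : ℂ)) = 1 := by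
    rw [← Complex.exp_int_mul_two_pi_mul_I k]
    congr 1
    push_cast
    ring
  rw [h2]
  simp

theorem d1_Lin_norm (g : C(AddCircle (2 * Real.pi), ℂ)) (M : ℝ) (hM : ∀ x, ‖g x‖ ≤ M) :
    ‖d1_Lin g‖ ≤ M := by
  have h2 : (0 : ℝ) < 2 * Real.pi := Real.two_pi_pos
  rw [d1_Lin, norm_mul, norm_inv, Complex.norm_real, Real.norm_of_nonneg h2.le]
  have h1 : ‖∫ θ in (0 : ℝ)..2 * Real.pi, g (θ : AddCircle (2 * Real.pi))‖ ≤
      M * |2 * Real.pi - 0| :=
    intervalIntegral.norm_integral_le_of_norm_le_const fun θ _ => hM _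
  rw [sub_zero, abs_of_pos h2] at h1
  rw [inv_mul_le_iff₀ h2]
  linarith

theorem d1_intInt (g : C(AddCircle (2 * Real.pi), ℂ)) (a b : ℝ) :
    IntervalIntegrable (fun θ : ℝ => g (θ : AddCircle (2 * Real.pi))) volume a b :=
  (g.continuous.comp (AddCircle.continuous_mk' _)).intervalIntegrable a b

theorem d1_Lin_sub (g g' : C(AddCircle (2 * Real.pi), ℂ)) :
    d1_Lin (fun x => g x - g' x) = d1_Lin g - d1_Lin g' := by
  rw [d1_Lin, d1_Lin, d1_Lin, intervalIntegral.integral_sub (d1_intInt g _ _) (d1_intInt g' _ _),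
    mul_sub]

theorem d1_Lin_add (g g' : C(AddCircle (2 * Real.pi), ℂ)) :
    d1_Lin (fun x => g x + g' x) = d1_Lin g + d1_Lin g' := by
  rw [d1_Lin, d1_Lin, d1_Lin, intervalIntegral.integral_add (d1_intInt g _ _) (d1_intInt g' _ _),
    mul_add]

theorem d1_Lin_smul (c : ℂ) (g : C(AddCircle (2 * Real.pi), ℂ)) :
    d1_Lin (fun x => c * g x) = c * d1_Lin g := by
  rw [d1_Lin, d1_Lin, intervalIntegral.integral_const_mul]
  ring

theorem d1_span (g : C(AddCircle (2 * Real.pi), ℂ))
    (hg : g ∈ Submodule.span ℂ (Set.range (@fourier (2 * Real.pi)))) :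
    Tendsto (fun n : ℕ => d1_La n g) atTop (𝓝 (d1_Lin g)) := by
  induction hg using Submodule.span_induction with
  | mem x hx =>
    obtain ⟨k, rfl⟩ := hx
    rcases eq_or_ne k 0 with rfl | hk
    · have h1 : d1_Lin (@fourier (2 * Real.pi) 0) = 1 := by
        rw [d1_Lin]
        simp only [fourier_zero, intervalIntegral.integral_const, sub_zero]
        have hpi : (Real.pi : ℂ) ≠ 0 := by exact_mod_cast Real.pi_ne_zero
        rw [Complex.real_smul, mul_one]
        push_cast
        field_simp
      rw [h1]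
      refine tendsto_const_nhds.congr' ?_
      filter_upwards [eventually_gt_atTop 0] with n hn
      have hn' : (n : ℂ) ≠ 0 := by exact_mod_cast hn.ne'
      have hf : (n.factorial : ℂ) ≠ 0 := by exact_mod_cast n.factorial_ne_zero
      rw [d1_La]
      simp only [fourier_zero, Multiset.map_const', Multiset.sum_replicate, d1_card_roots,
        nsmul_eq_mul, mul_one, Finset.sum_const, Finset.card_univ, Fintype.card_perm,
        Fintype.card_fin]
      rw [mul_div_cancel_left₀ _ hf, div_self hn']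
    · have h1 := d1_fourier_lim k hk
      have h2 := d1_Lin_fourier k hk
      have h3 : d1_Lin (@fourier (2 * Real.pi) k) = 0 := h2
      rw [h3]
      exact h1
  | zero =>
    have h1 : ∀ n, d1_La n (0 : C(AddCircle (2 * Real.pi), ℂ)) = 0 := by
      intro n
      simp [d1_La]
    have h2 : d1_Lin (0 : C(AddCircle (2 * Real.pi), ℂ)) = 0 := by simp [d1_Lin]
    simp only [h1, h2]
    exact tendsto_const_nhds
  | add x y _ _ hx hy =>
    have h := hx.add hy
    rw [← d1_Lin_add] at h
    refine h.congr fun n => ?_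
    rw [← d1_La_add]
    rfl
  | smul c x _ hx =>
    have h := hx.const_mul c
    rw [← d1_Lin_smul] at h
    refine h.congr fun n => ?_
    rw [← d1_La_smul]
    rfl

theorem d1_all (g : C(AddCircle (2 * Real.pi), ℂ)) :
    Tendsto (fun n : ℕ => d1_La n g) atTop (𝓝 (d1_Lin g)) := by
  have : Fact (0 < 2 * Real.pi) := ⟨Real.two_pi_pos⟩
  rw [Metric.tendsto_atTop]
  intro ε hε
  have hmem : g ∈ (Submodule.span ℂ (Set.range (@fourier (2 * Real.pi)))).topologicalClosure := by
    rw [span_fourier_closure_eq_top]; trivial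
  rw [← SetLike.mem_coe, Submodule.topologicalClosure_coe, Metric.mem_closure_iff] at hmem
  obtain ⟨g', hg', hd⟩ := hmem (ε / 3) (by positivity)
  have hlim := d1_span g' hg'
  rw [Metric.tendsto_atTop] at hlim
  obtain ⟨N, hN⟩ := hlim (ε / 3) (by positivity)
  refine ⟨N, fun n hn => ?_⟩
  have h0 : ∀ x, ‖g x - g' x‖ ≤ dist g g' := by
    intro x
    rw [← dist_eq_norm]
    exact ContinuousMap.dist_apply_le_dist x
  have h1 : ‖d1_La n g - d1_La n g'‖ ≤ dist g g' := by
    rw [← d1_La_sub]
    exact d1_La_norm n _ _ h0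
  have h2 : ‖d1_Lin g - d1_Lin g'‖ ≤ dist g g' := by
    rw [← d1_Lin_sub]
    exact d1_Lin_norm (g - g') _ h0
  have h3 := hN n hn
  rw [dist_eq_norm] at h3 ⊢
  have h4 : d1_La n g - d1_Lin g = (d1_La n g - d1_La n g') + (d1_La n g' - d1_Lin g') -
      (d1_Lin g - d1_Lin g') := by ring
  rw [h4]
  have h5 := norm_sub_le ((d1_La n g - d1_La n g') + (d1_La n g' - d1_Lin g'))
    (d1_Lin g - d1_Lin g')
  have h6 := norm_add_le (d1_La n g - d1_La n g') (d1_La n g' - d1_Lin g')
  linarith

end analysis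

theorem conv_one (f : ℂ → ℝ) (hf : Continuous f) (hfb : ∃ C : ℝ, ∀ z, |f z| ≤ C) :
    Tendsto (fun n : ℕ => avg (Reg n 1) (fun A => Nf A f)) atTop
      (𝓝 (Real.circleAverage f 0 1)) := by
  set F : C(AddCircle (2 * Real.pi), ℂ) :=
    ⟨fun x => ((f (AddCircle.toCircle x : ℂ) : ℝ) : ℂ), by
      have := AddCircle.continuous_toCircle (T := 2 * Real.pi)
      fun_prop⟩ with hF
  have hcirc : ∀ θ : ℝ, ((AddCircle.toCircle ((θ : ℝ) : AddCircle (2 * Real.pi)) : Circle) : ℂ) =
      Complex.exp ((θ : ℂ) * Complex.I) := by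
    intro θ
    rw [AddCircle.toCircle_apply_mk, Circle.coe_exp, div_self Real.two_pi_pos.ne', one_mul]
  have h1 := d1_all F
  have h2 : d1_Lin F = ((Real.circleAverage f 0 1 : ℝ) : ℂ) := by
    rw [d1_Lin, Real.circleAverage_def, smul_eq_mul, Complex.ofReal_mul (2 * Real.pi)⁻¹,
      Complex.ofReal_inv, ← intervalIntegral.integral_ofReal]
    congr 1
    refine intervalIntegral.integral_congr fun θ _ => ?_
    simp only [hF, ContinuousMap.coe_mk, hcirc, circleMap]
    simp
  have h3 : ∀ n : ℕ, d1_La n F = ((avg (Reg n 1) (fun A => Nf A f) : ℝ) : ℂ) := by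
    intro n
    rw [d1_avg, avg, d1_La, Finset.card_univ, Fintype.card_perm, Fintype.card_fin]
    have h4 : ∀ σ : Equiv.Perm (Fin n),
        ((Adj (d1_B σ)).charpoly.roots.map (fun a => F (d1_pt a))).sum =
          (((Adj (d1_B σ)).charpoly.roots.map f).sum : ℝ) := by
      intro σ
      have h5 : ((Adj (d1_B σ)).charpoly.roots.map (fun a => F (d1_pt a))) =
          ((Adj (d1_B σ)).charpoly.roots.map f).map Complex.ofRealHom := by
        rw [Multiset.map_map]
        refine Multiset.map_congr rfl fun a ha => ?_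
        have ha' := d1_norm σ a ha
        have h6 : Complex.exp ((Complex.arg a : ℂ) * Complex.I) = a := by
          have := Complex.norm_mul_exp_arg_mul_I a
          rwa [ha', Complex.ofReal_one, one_mul] at this
        simp only [hF, ContinuousMap.coe_mk, d1_pt, hcirc, h6]
        rfl
      rw [h5, ← map_multiset_sum]
      rfl
    simp only [h4]
    rw [← Complex.ofReal_sum]
    simp only [Nf]
    rw [← Finset.sum_div]
    push_cast
    ring
  rw [h2] at h1
  simp only [h3] at h1
  exact Complex.continuous_re.continuousAt.tendsto.comp h1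

end Pool.Agent.KM
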