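import Pool.Agent.SMin.Base

set_option autoImplicit false
open Finset Filter Topology

namespace Pool.Agent.KM
open Pool.Agent.SMin

/-! # Definitions for project P8 (oriented Kesten-McKay, MP_72cda1_pr).  FINAL FILE, do not edit -/

/-- average of `f` over the finite set `S` -/
noncomputable def avg {α : Type*} (S : Finset α) (f : α → ℝ) : ℝ := (∑ a ∈ S, f a) / (S.card : ℝ)

/-- the matrix `m - z` -/
noncomputable def MM {n : ℕ} (z : ℂ) (m : Fin n → Fin n → ℕ) : Matrix (Fin n) (Fin n) ℂ :=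
  Matrix.of (fun i j => (m i j : ℂ)) - z • (1 : Matrix (Fin n) (Fin n) ℂ)

/-- `H = Mᴴ M` -/
noncomputable def HH {n : ℕ} (z : ℂ) (m : Fin n → Fin n → ℕ) : Matrix (Fin n) (Fin n) ℂ :=
  (MM z m).conjTranspose * MM z m

/-- eigenvalues of `H = Mᴴ M` (squares of the singular values of `M = m - z`) -/
noncomputable def ev {n : ℕ} (z : ℂ) (m : Fin n → Fin n → ℕ) : Fin n → ℝ :=
  (Matrix.isHermitian_conjTranspose_mul_self (MM z m)).eigenvalues

/-- normalised trace of `f(H)` -/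
noncomputable def Tp {n : ℕ} (z : ℂ) (m : Fin n → Fin n → ℕ) (f : Polynomial ℝ) : ℝ :=
  (∑ i, f.eval (ev z m i)) / n

/-- `(1/n) Tr t (H + t^2)⁻¹` -/
noncomputable def Ra {n : ℕ} (z : ℂ) (m : Fin n → Fin n → ℕ) (t : ℝ) : ℝ :=
  (∑ i, t / (ev z m i + t ^ 2)) / n

/-- `(1/2n) log det (H + t^2)` -/
noncomputable def La {n : ℕ} (z : ℂ) (m : Fin n → Fin n → ℕ) (t : ℝ) : ℝ :=
  (∑ i, Real.log (ev z m i + t ^ 2)) / (2 * n)

/-! ## the limit objects (`s = |z|`) -/

/-- the cubic equation for `ξ` -/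
def IsXi (d : ℕ) (s t x : ℝ) : Prop :=
  0 < x ∧ d * (d - 1) * x ^ 3 + (2 * d - 1) * t * x ^ 2 + (t ^ 2 + s ^ 2 - d) * x - t = 0

open Classical in
/-- the unique positive root (see `Xi.lean`) -/
noncomputable def xi (d : ℕ) (s t : ℝ) : ℝ := if h : ∃ x, IsXi d s t x then h.choose else 0

noncomputable def yy (d : ℕ) (s t : ℝ) : ℝ := t + d * xi d s t

noncomputable def al (d : ℕ) (s t : ℝ) : ℝ := xi d s t / (1 + xi d s t ^ 2)

noncomputable def FF (d : ℕ) (s t : ℝ) : ℝ :=
  (1 / 2) * (Real.log (yy d s t ^ 2 + s ^ 2) - d * Real.log (1 + xi d s t ^ 2))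

/-- the limit potential on `0 < s < √d` -/
noncomputable def Upot (d : ℕ) (s : ℝ) : ℝ :=
  (1 / 2) * Real.log d + ((d - 1) / 2) * Real.log (d * (d - 1)) -
    ((d - 1) / 2) * Real.log (d ^ 2 - s ^ 2)

/-- the density of the limit measure on the disc of radius `√d` -/
noncomputable def rho (d : ℕ) (z : ℂ) : ℝ :=
  if ‖z‖ < √d then d ^ 2 * (d - 1) / (Real.pi * (d ^ 2 - ‖z‖ ^ 2) ^ 2) else 0

/-! ## steps in the digraph of a configuration -/

/-- one step from a state `(vertex, stub just used)`: `inl a` = leave through the out-stub `a`,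
`inr b` = leave through the in-stub `b` -/
def step {n d : ℕ} (σ : Cfg n d) (p : Fin n × Option (Fin d ⊕ Fin d)) :
    Fin d ⊕ Fin d → Fin n × Option (Fin d ⊕ Fin d)
  | Sum.inl a => ((σ (p.1, a)).1, some (Sum.inr (σ (p.1, a)).2))
  | Sum.inr b => ((σ.symm (p.1, b)).1, some (Sum.inl (σ.symm (p.1, b)).2))

/-- state after a word (the head of the list is the LAST step) -/
def st {n d : ℕ} (σ : Cfg n d) (v : Fin n) : List (Fin d ⊕ Fin d) → Fin n × Option (Fin d ⊕ Fin d)
  | [] => (v, none)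
  | c :: w => step σ (st σ v w) c

/-- reduced words: never leave through the stub just used for arriving -/
def Red {n d : ℕ} (σ : Cfg n d) (v : Fin n) : List (Fin d ⊕ Fin d) → Prop
  | [] => True
  | c :: w => Red σ v w ∧ (st σ v w).2 ≠ some c

/-- the ball of radius `R` around `v` is a tree -/
def TreeLike {n d : ℕ} (σ : Cfg n d) (v : Fin n) (R : ℕ) : Prop :=
  ∀ w w' : List (Fin d ⊕ Fin d), Red σ v w → Red σ v w' → w.length ≤ R → w'.length ≤ R →
    (st σ v w).1 = (st σ v w').1 → w = w'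

/-! ## eigenvalues -/

/-- the complex adjacency matrix of a Boolean matrix -/
noncomputable def Adj {n : ℕ} (A : Fin n → Fin n → Bool) : Matrix (Fin n) (Fin n) ℂ :=
  Matrix.of (fun i j => if A i j = true then (1 : ℂ) else 0)

/-- normalised sum of `f` over the eigenvalues of `A` (with multiplicity) -/
noncomputable def Nf {n : ℕ} (A : Fin n → Fin n → Bool) (f : ℂ → ℝ) : ℝ :=
  (((Adj A).charpoly.roots.map f).sum) / n

/-- normalised logarithmic potential `(1/n) log |det (A - z)|` -/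
noncomputable def Phi {n : ℕ} (A : Fin n → Fin n → Bool) (z : ℂ) : ℝ :=
  Real.log ‖(MM z (toN A)).det‖ / n

/-- `z` is good: all matrices `A - z` are invertible -/
def Good (d : ℕ) (z : ℂ) : Prop :=
  z ≠ 0 ∧ z ≠ (d : ℂ) ∧ ∀ n : ℕ, ∀ A : Fin n → Fin n → Bool, (MM z (toN A)).det ≠ 0

end Pool.Agent.KM
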