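import Pool.Agent.KM.Defs

set_option autoImplicit false
open Finset Filter Topology MeasureTheory

namespace Pool.Agent.KM

/-! ## Module RP: the measure `rho` and its potential -/

/-- radial density -/
noncomputable def rp_dens (d : ℕ) (r : ℝ) : ℝ := 2 * d ^ 2 * (d - 1) * r / (d ^ 2 - r ^ 2) ^ 2

/-- mass of the ball of radius `r` -/
noncomputable def rp_mass (d : ℕ) (r : ℝ) : ℝ := (d - 1) * r ^ 2 / (d ^ 2 - r ^ 2)

lemma rp_pos {d : ℕ} (hd : 2 ≤ d) {r : ℝ} (hr0 : 0 ≤ r) (hr : r ≤ √d) :
    0 < (d : ℝ) ^ 2 - r ^ 2 := by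
  have hd' : (2 : ℝ) ≤ d := by exact_mod_cast hd
  have h1 : r ^ 2 ≤ d := by
    calc r ^ 2 ≤ (√(d : ℝ)) ^ 2 := by gcongr
      _ = (d : ℝ) := Real.sq_sqrt (by linarith)
  nlinarith

theorem rho_nonneg (d : ℕ) (hd : 2 ≤ d) (z : ℂ) : 0 ≤ rho d z := by
  unfold rho
  have hd' : (2 : ℝ) ≤ d := by exact_mod_cast hd
  have hpi := Real.pi_pos
  split_ifs
  · apply div_nonneg
    · apply mul_nonneg (by positivity)
      linarith
    · positivity
  · exact le_rfl

lemma rp_bound (d : ℕ) (hd : 2 ≤ d) (z : ℂ) :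
    ‖rho d z‖ ≤ d ^ 2 * (d - 1) / (Real.pi * (d ^ 2 - d) ^ 2) := by
  rw [Real.norm_of_nonneg (rho_nonneg d hd z)]
  have hd' : (2 : ℝ) ≤ d := by exact_mod_cast hd
  have hpi := Real.pi_pos
  have h0 : (0 : ℝ) < d ^ 2 - d := by nlinarith
  have hnum : (0 : ℝ) ≤ d ^ 2 * (d - 1) := mul_nonneg (by positivity) (by linarith)
  unfold rho
  split_ifs with h
  · have h1 : ‖z‖ ^ 2 ≤ d := by
      calc ‖z‖ ^ 2 ≤ (√(d : ℝ)) ^ 2 := by gcongr
        _ = (d : ℝ) := Real.sq_sqrt (by linarith)
    gcongr
  · positivity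

lemma rp_measurable (d : ℕ) : Measurable (rho d) := by
  unfold rho
  apply Measurable.ite
  · exact measurableSet_lt measurable_norm measurable_const
  · fun_prop
  · fun_prop

theorem integrable_rho (d : ℕ) (hd : 2 ≤ d) : Integrable (rho d) := by
  have h : rho d = (Metric.ball (0 : ℂ) (√d)).indicator (rho d) := by
    funext z
    by_cases hz : z ∈ Metric.ball (0 : ℂ) (√d)
    · rw [Set.indicator_of_mem hz]
    · rw [Set.indicator_of_notMem hz]
      rw [mem_ball_zero_iff] at hz
      unfold rho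
      rw [if_neg hz]
  rw [h, integrable_indicator_iff measurableSet_ball]
  exact Measure.integrableOn_of_bounded (M := d ^ 2 * (d - 1) / (Real.pi * (d ^ 2 - d) ^ 2))
    measure_ball_lt_top.ne (rp_measurable d).aestronglyMeasurable
    (Filter.Eventually.of_forall (rp_bound d hd))

lemma rp_radial (d : ℕ) (hd : 2 ≤ d) (φ : ℝ → ℝ) :
    ∫ w : ℂ, φ ‖w‖ * rho d w = ∫ r in (0 : ℝ)..√d, φ r * rp_dens d r := by
  have hpi := Real.pi_pos
  set f : ℝ → ℝ := fun r => φ r *
    (if r < √d then d ^ 2 * (d - 1) / (Real.pi * (d ^ 2 - r ^ 2) ^ 2) else 0) with hf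
  have h1 : ∀ w : ℂ, φ ‖w‖ * rho d w = f ‖w‖ := fun w => rfl
  simp_rw [h1]
  rw [integral_fun_norm_addHaar volume f, Complex.finrank_real_complex]
  have hvol : volume.real (Metric.ball (0 : ℂ) 1) = Real.pi := by
    rw [Measure.real, Complex.volume_ball]
    simp
  rw [hvol]
  have hsq : (0 : ℝ) ≤ √d := Real.sqrt_nonneg _
  have h2 : ∫ y in Set.Ioi (0 : ℝ), y ^ (2 - 1) • f y =
      ∫ y in (0 : ℝ)..√d, y * f y := by
    rw [intervalIntegral.integral_of_le hsq]
    rw [← integral_indicator measurableSet_Ioi, ← integral_indicator measurableSet_Ioc]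
    apply integral_congr_ae
    have hae : ∀ᵐ y : ℝ, y ≠ √d := by
      have := (Set.countable_singleton (√(d : ℝ))).ae_notMem volume
      filter_upwards [this] with y hy
      simpa using hy
    filter_upwards [hae] with y hy
    by_cases hy0 : 0 < y
    · by_cases hyd : y < √d
      · rw [Set.indicator_of_mem (Set.mem_Ioi.2 hy0), Set.indicator_of_mem (Set.mem_Ioc.2 ⟨hy0, hyd.le⟩)]
        simp
      · have hyd' : √d < y := lt_of_le_of_ne (not_lt.1 hyd) (Ne.symm hy)
        rw [Set.indicator_of_mem (Set.mem_Ioi.2 hy0), Set.indicator_of_notMem]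
        · simp only [hf, if_neg hyd]
          simp
        · intro h
          exact absurd h.2 (not_le.2 hyd')
    · have n1 : y ∉ Set.Ioi (0 : ℝ) := fun h => hy0 h
      have n2 : y ∉ Set.Ioc (0 : ℝ) (√(d : ℝ)) := fun h => hy0 h.1
      rw [Set.indicator_of_notMem n1, Set.indicator_of_notMem n2]
  rw [h2, nsmul_eq_mul, smul_eq_mul, ← mul_assoc, ← intervalIntegral.integral_const_mul]
  apply intervalIntegral.integral_congr_ae
  have hae : ∀ᵐ y : ℝ, y ≠ √d := by
    have := (Set.countable_singleton (√(d : ℝ))).ae_notMem volume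
    filter_upwards [this] with y hy
    simpa using hy
  filter_upwards [hae] with y hy hyI
  rw [Set.uIoc_of_le hsq] at hyI
  have hyd : y < √d := lt_of_le_of_ne hyI.2 hy
  have hpos := rp_pos hd hyI.1.le hyI.2
  simp only [hf, if_pos hyd, rp_dens]
  push_cast
  field_simp

lemma rp_mass_deriv (d : ℕ) (hd : 2 ≤ d) (r : ℝ) (hr0 : 0 ≤ r) (hr : r ≤ √d) :
    HasDerivAt (rp_mass d) (rp_dens d r) r := by
  have hpos := rp_pos hd hr0 hr
  have h1 : HasDerivAt (fun r : ℝ => ((d : ℝ) - 1) * r ^ 2) (((d : ℝ) - 1) * (2 * r)) r := by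
    have := (hasDerivAt_pow 2 r).const_mul ((d : ℝ) - 1)
    simpa using this
  have h2 : HasDerivAt (fun r : ℝ => (d : ℝ) ^ 2 - r ^ 2) (-(2 * r)) r := by
    have := (hasDerivAt_pow 2 r).const_sub ((d : ℝ) ^ 2)
    simpa using this
  have h3 := h1.div h2 hpos.ne'
  refine h3.congr_deriv ?_
  unfold rp_dens
  field_simp
  ring

lemma rp_dens_continuousOn (d : ℕ) (hd : 2 ≤ d) : ContinuousOn (rp_dens d) (Set.Icc 0 (√d)) := by
  unfold rp_dens
  apply ContinuousOn.div
  · fun_prop
  · fun_prop
  · intro r hr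
    have := rp_pos hd hr.1 hr.2
    positivity

lemma rp_mass_int (d : ℕ) (hd : 2 ≤ d) (a b : ℝ) (ha : 0 ≤ a) (hab : a ≤ b) (hb : b ≤ √d) :
    ∫ r in a..b, rp_dens d r = rp_mass d b - rp_mass d a := by
  apply intervalIntegral.integral_eq_sub_of_hasDerivAt
  · intro r hr
    rw [Set.uIcc_of_le hab] at hr
    exact rp_mass_deriv d hd r (ha.trans hr.1) (hr.2.trans hb)
  · apply ContinuousOn.intervalIntegrable
    rw [Set.uIcc_of_le hab]
    exact (rp_dens_continuousOn d hd).mono (Set.Icc_subset_Icc ha hb)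

lemma rp_mass_sqrt (d : ℕ) (hd : 2 ≤ d) : rp_mass d (√d) = 1 := by
  have hd' : (2 : ℝ) ≤ d := by exact_mod_cast hd
  unfold rp_mass
  rw [Real.sq_sqrt (by linarith)]
  have h0 : (d : ℝ) ^ 2 - d = (d - 1) * d := by ring
  rw [h0]
  have h1 : (0 : ℝ) < (d - 1) * d := by
    apply mul_pos <;> linarith
  exact div_self h1.ne'

lemma rp_mass_zero (d : ℕ) : rp_mass d 0 = 0 := by
  unfold rp_mass
  simp

theorem integral_rho (d : ℕ) (hd : 2 ≤ d) : ∫ z, rho d z = 1 := by
  have h := rp_radial d hd (fun _ => 1)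
  simp only [one_mul] at h
  rw [h, rp_mass_int d hd 0 (√d) le_rfl (Real.sqrt_nonneg _) le_rfl, rp_mass_sqrt d hd, rp_mass_zero,
    sub_zero]

/-- radial form: integral of `log max` against `rho` -/
theorem integral_logmax_rho (d : ℕ) (hd : 2 ≤ d) (s : ℝ) (hs : 0 < s) (hsd : s < √d) :
    ∫ w, Real.log (max s ‖w‖) * rho d w = Upot d s := by
  have hd' : (2 : ℝ) ≤ d := by exact_mod_cast hd
  have h := rp_radial d hd (fun r => Real.log (max s r))
  rw [h]
  have hcont : ContinuousOn (fun r : ℝ => Real.log (max s r) * rp_dens d r) (Set.Icc 0 (√d)) := by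
    apply ContinuousOn.mul _ (rp_dens_continuousOn d hd)
    apply ContinuousOn.log
    · fun_prop
    · intro r _
      exact (lt_of_lt_of_le hs (le_max_left _ _)).ne'
  have hint : ∀ a b : ℝ, 0 ≤ a → a ≤ b → b ≤ √d →
      IntervalIntegrable (fun r : ℝ => Real.log (max s r) * rp_dens d r) volume a b := by
    intro a b ha hab hb
    apply ContinuousOn.intervalIntegrable
    rw [Set.uIcc_of_le hab]
    exact hcont.mono (Set.Icc_subset_Icc ha hb)
  rw [← intervalIntegral.integral_add_adjacent_intervals (hint 0 s le_rfl hs.le hsd.le)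
    (hint s (√d) hs.le hsd.le le_rfl)]
  have h1 : ∫ r in (0 : ℝ)..s, Real.log (max s r) * rp_dens d r = Real.log s * rp_mass d s := by
    have : ∫ r in (0 : ℝ)..s, Real.log (max s r) * rp_dens d r =
        ∫ r in (0 : ℝ)..s, Real.log s * rp_dens d r := by
      apply intervalIntegral.integral_congr
      intro r hr
      rw [Set.uIcc_of_le hs.le] at hr
      simp only
      rw [max_eq_left hr.2]
    rw [this, intervalIntegral.integral_const_mul, rp_mass_int d hd 0 s le_rfl hs.le hsd.le,
      rp_mass_zero, sub_zero]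
  have h2 : ∫ r in s..√d, Real.log (max s r) * rp_dens d r =
      (Real.log (√d) * rp_mass d (√d) + ((d : ℝ) - 1) / 2 * Real.log (d ^ 2 - (√d) ^ 2)) -
        (Real.log s * rp_mass d s + ((d : ℝ) - 1) / 2 * Real.log (d ^ 2 - s ^ 2)) := by
    have : ∫ r in s..√d, Real.log (max s r) * rp_dens d r =
        ∫ r in s..√d, Real.log r * rp_dens d r := by
      apply intervalIntegral.integral_congr
      intro r hr
      rw [Set.uIcc_of_le hsd.le] at hr
      simp only
      rw [max_eq_right hr.1]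
    rw [this]
    apply intervalIntegral.integral_eq_sub_of_hasDerivAt
      (f := fun r => Real.log r * rp_mass d r + ((d : ℝ) - 1) / 2 * Real.log (d ^ 2 - r ^ 2))
    · intro r hr
      rw [Set.uIcc_of_le hsd.le] at hr
      have hr0 : 0 < r := hs.trans_le hr.1
      have hpos := rp_pos hd hr0.le hr.2
      have a1 := (Real.hasDerivAt_log hr0.ne').mul (rp_mass_deriv d hd r hr0.le hr.2)
      have a2 : HasDerivAt (fun r : ℝ => (d : ℝ) ^ 2 - r ^ 2) (-(2 * r)) r := by
        have := (hasDerivAt_pow 2 r).const_sub ((d : ℝ) ^ 2)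
        simpa using this
      have a3 := (a2.log hpos.ne').const_mul (((d : ℝ) - 1) / 2)
      refine (a1.add a3).congr_deriv ?_
      unfold rp_mass
      field_simp
      ring
    · apply ContinuousOn.intervalIntegrable
      rw [Set.uIcc_of_le hsd.le]
      apply ContinuousOn.mul
      · apply ContinuousOn.log continuousOn_id
        intro r hr
        exact (hs.trans_le hr.1).ne'
      · exact (rp_dens_continuousOn d hd).mono (Set.Icc_subset_Icc hs.le le_rfl)
  rw [h1, h2, rp_mass_sqrt d hd, Real.sq_sqrt (by linarith), Real.log_sqrt (by linarith)]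
  unfold Upot
  have h3 : (d : ℝ) ^ 2 - d = d * (d - 1) := by ring
  rw [h3]
  ring

/-! ### the potential -/

lemma rp_log_local (r : ℝ) :
    IntegrableOn (fun x : ℂ => Real.log ‖x‖) (Metric.ball (0 : ℂ) r) := by
  rw [integrableOn_fun_norm_addHaar volume (f := Real.log), Complex.finrank_real_complex]
  have : ContinuousOn (fun y : ℝ => y ^ (2 - 1) • Real.log y) (Set.Icc 0 r) := by
    have := Real.continuous_mul_log
    simpa using this.continuousOn
  exact (this.integrableOn_Icc).mono_set Set.Ioo_subset_Icc_self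

lemma rp_log_local' (z : ℂ) (r : ℝ) :
    IntegrableOn (fun w : ℂ => Real.log ‖z - w‖) (Metric.ball z r) := by
  have h := ((Measure.measurePreserving_sub_left (volume : Measure ℂ) z).integrableOn_comp_preimage
    (MeasurableEquiv.subLeft z).measurableEmbedding (f := fun x : ℂ => Real.log ‖x‖)
    (s := Metric.ball 0 r)).2 (rp_log_local r)
  have h2 : (fun w : ℂ => z - w) ⁻¹' (Metric.ball 0 r) = Metric.ball z r := by
    ext w
    simp [dist_eq_norm, norm_sub_rev]
  rw [h2] at h
  exact h

lemma rp_integrable (d : ℕ) (hd : 2 ≤ d) (z : ℂ) (hzd : ‖z‖ < √d) :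
    Integrable (fun w => Real.log ‖z - w‖ * rho d w) := by
  have h1 := (rp_log_local' z (2 * √d)).integrable_indicator measurableSet_ball
  have h2 : (fun w => Real.log ‖z - w‖ * rho d w) = fun w =>
      (Metric.ball z (2 * √d)).indicator (fun w => Real.log ‖z - w‖) w * rho d w := by
    funext w
    by_cases hw : w ∈ Metric.ball z (2 * √d)
    · rw [Set.indicator_of_mem hw]
    · rw [Set.indicator_of_notMem hw]
      have : rho d w = 0 := by
        unfold rho
        rw [if_neg]
        intro hlt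
        apply hw
        rw [Metric.mem_ball, dist_eq_norm]
        calc ‖w - z‖ ≤ ‖w‖ + ‖z‖ := norm_sub_le _ _
          _ < 2 * √d := by linarith
      rw [this, mul_zero, zero_mul]
  rw [h2]
  exact h1.mul_bdd (rp_measurable d).aestronglyMeasurable
    (Filter.Eventually.of_forall (rp_bound d hd))

lemma rp_rho_rot (d : ℕ) (u : Circle) (w : ℂ) : rho d (rotation u w) = rho d w := by
  unfold rho
  rw [LinearIsometryEquiv.norm_map]

lemma rp_rot (d : ℕ) (u : Circle) (z : ℂ) (F : ℝ → ℝ → ℝ) :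
    ∫ w, F ‖rotation u z - w‖ (rho d w) = ∫ w, F ‖z - w‖ (rho d w) := by
  have h := (rotation u).measurePreserving.integral_comp
    (rotation u).toHomeomorph.measurableEmbedding (fun w => F ‖rotation u z - w‖ (rho d w))
  rw [← h]
  apply integral_congr_ae
  apply Filter.Eventually.of_forall
  intro w
  simp only
  rw [rp_rho_rot, ← map_sub, LinearIsometryEquiv.norm_map]

lemma rp_norm_only (d : ℕ) (z : ℂ) (F : ℝ → ℝ → ℝ) :
    ∫ w, F ‖z - w‖ (rho d w) = ∫ w, F ‖(‖z‖ : ℂ) - w‖ (rho d w) := by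
  have h := rp_rot d (Circle.exp (Complex.arg z)) (‖z‖ : ℂ) F
  rw [← h]
  congr 1
  funext w
  congr 3
  rw [rotation_apply, Circle.coe_exp, mul_comm]
  exact (Complex.norm_mul_exp_arg_mul_I z).symm

lemma rp_circle (R : ℝ) (hR : 0 < R) (w : ℂ) :
    ∫ θ in (0 : ℝ)..2 * Real.pi, Real.log ‖circleMap 0 R θ - w‖ =
      2 * Real.pi * Real.log (max R ‖w‖) := by
  have h := circleAverage_log_norm_sub_const_eq_log_radius_add_posLog (c := 0) (a := w) hR.ne'
  rw [Real.circleAverage_def] at h
  have h2 : Real.log R + Real.posLog (R⁻¹ * ‖(0 : ℂ) - w‖) = Real.log (max R ‖w‖) := by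
    rw [zero_sub, norm_neg]
    rcases le_total ‖w‖ R with hle | hle
    · rw [max_eq_left hle, (Real.posLog_eq_zero_iff _).2, add_zero]
      rw [abs_of_nonneg (by positivity), inv_mul_le_iff₀ hR, mul_one]
      exact hle
    · have hw : 0 < ‖w‖ := hR.trans_le hle
      rw [max_eq_right hle, Real.posLog_eq_log, Real.log_mul (by positivity) (by positivity),
        Real.log_inv]
      · ring
      · rw [abs_of_nonneg (by positivity), le_inv_mul_iff₀ hR, mul_one]
        exact hle
  rw [h2, smul_eq_mul, inv_mul_eq_iff_eq_mul₀ (by positivity)] at h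
  exact h

/-- the potential of `rho` on the disc -/
theorem potential_rho (d : ℕ) (hd : 2 ≤ d) (z : ℂ) (hz : z ≠ 0) (hzd : ‖z‖ < √d) :
    Integrable (fun w => Real.log ‖z - w‖ * rho d w) ∧
      ∫ w, Real.log ‖z - w‖ * rho d w = Upot d ‖z‖ := by
  refine ⟨rp_integrable d hd z hzd, ?_⟩
  have hR : 0 < ‖z‖ := norm_pos_iff.2 hz
  set R := ‖z‖ with hRdef
  have hpi := Real.pi_pos
  have hcm : ∀ θ : ℝ, ‖circleMap 0 R θ‖ = R := by
    intro θ
    simp [circleMap, abs_of_pos hR]
  -- constancy on the circle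
  have hconst : ∀ θ : ℝ, ∫ w, Real.log ‖circleMap 0 R θ - w‖ * rho d w =
      ∫ w, Real.log ‖z - w‖ * rho d w := by
    intro θ
    have h1 := rp_norm_only d (circleMap 0 R θ) (fun a b => Real.log a * b)
    have h2 := rp_norm_only d z (fun a b => Real.log a * b)
    rw [h1, h2, hcm]
  have hconst' : ∀ θ : ℝ, ∫ w, ‖Real.log ‖circleMap 0 R θ - w‖ * rho d w‖ =
      ∫ w, ‖Real.log ‖z - w‖ * rho d w‖ := by
    intro θ
    have h1 := rp_norm_only d (circleMap 0 R θ) (fun a b => ‖Real.log a * b‖)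
    have h2 := rp_norm_only d z (fun a b => ‖Real.log a * b‖)
    rw [h1, h2, hcm]
  -- Fubini
  have hmeas : Measurable (Function.uncurry
      (fun (θ : ℝ) (w : ℂ) => Real.log ‖circleMap 0 R θ - w‖ * rho d w)) := by
    have h1 : Measurable (fun p : ℝ × ℂ => circleMap 0 R p.1) :=
      (continuous_circleMap 0 R).measurable.comp measurable_fst
    have h2 : Measurable (fun p : ℝ × ℂ => Real.log ‖circleMap 0 R p.1 - p.2‖) :=
      Real.measurable_log.comp (h1.sub measurable_snd).norm
    exact h2.mul ((rp_measurable d).comp measurable_snd)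
  have hint : Integrable (Function.uncurry
      (fun (θ : ℝ) (w : ℂ) => Real.log ‖circleMap 0 R θ - w‖ * rho d w))
      ((volume.restrict (Set.uIoc 0 (2 * Real.pi))).prod volume) := by
    rw [integrable_prod_iff hmeas.aestronglyMeasurable]
    refine ⟨Filter.Eventually.of_forall fun θ => ?_, ?_⟩
    · exact rp_integrable d hd (circleMap 0 R θ) (by rw [hcm]; exact hzd)
    · simp only [Function.uncurry]
      simp_rw [hconst']
      rw [integrable_const_iff]
      right
      rw [isFiniteMeasure_restrict]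
      rw [Set.uIoc_of_le (by positivity), Real.volume_Ioc]
      exact ENNReal.ofReal_ne_top
  have hF := intervalIntegral_integral_swap hint
  simp_rw [hconst] at hF
  rw [intervalIntegral.integral_const, sub_zero, smul_eq_mul] at hF
  have hinner : ∀ w : ℂ, ∫ θ in (0 : ℝ)..2 * Real.pi,
      Real.log ‖circleMap 0 R θ - w‖ * rho d w =
      2 * Real.pi * (Real.log (max R ‖w‖) * rho d w) := by
    intro w
    rw [intervalIntegral.integral_mul_const, rp_circle R hR w]
    ring
  simp_rw [hinner] at hF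
  rw [integral_const_mul, integral_logmax_rho d hd R hR hzd] at hF
  exact mul_left_cancel₀ (by positivity) hF

end Pool.Agent.KM
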