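import Pool.Agent.KM.PotLOne
import Pool.Agent.KM.RadPot

set_option autoImplicit false
open Finset Filter Topology MeasureTheory

namespace Pool.Agent.KM
open Pool.Agent.SMin

lemma pc_abs_log_le {x r : ℝ} (hx : 0 < x) (hxr : x < r) : |Real.log x| ≤ (1 + r ^ 2) * x⁻¹ := by
  have h1 : Real.log x ≤ x - 1 := Real.log_le_sub_one_of_pos hx
  have h2 : Real.log x⁻¹ ≤ x⁻¹ - 1 := Real.log_le_sub_one_of_pos (inv_pos.2 hx)
  rw [Real.log_inv] at h2
  have h3 : x ≤ r ^ 2 * x⁻¹ := by
    rw [← div_eq_mul_inv, le_div_iff₀ hx]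
    nlinarith
  have h4 : 0 < x⁻¹ := inv_pos.2 hx
  have h5 : 0 ≤ r ^ 2 * x⁻¹ := by positivity
  rw [abs_le]
  constructor <;> nlinarith

lemma pc_int_log0 (r : ℝ) : IntegrableOn (fun z : ℂ => Real.log ‖z‖) (Metric.ball 0 r) := by
  refine integrableOn_ball_of_norm_le_rpow (C := 1 + r ^ 2) (α := 1) ?_ ?_ ?_ ?_
  · simp
  · simp
  · rw [ae_restrict_iff' Metric.isOpen_ball.measurableSet]
    filter_upwards with z hz
    rw [Real.rpow_neg_one, Real.norm_eq_abs]
    rcases eq_or_ne z 0 with h | h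
    · simp [h]
    · exact pc_abs_log_le (norm_pos_iff.2 h) (mem_ball_zero_iff.1 hz)
  · exact (Real.measurable_log.comp measurable_norm).aestronglyMeasurable

lemma pc_int_log (w : ℂ) (r : ℝ) :
    IntegrableOn (fun z : ℂ => Real.log ‖z - w‖) (Metric.closedBall 0 r) := by
  have h0 := pc_int_log0 (r + ‖w‖ + 1)
  have h1 := (measurePreserving_sub_right (volume : Measure ℂ) w).integrableOn_comp_preimage
    (MeasurableEquiv.subRight w).measurableEmbedding (f := fun z : ℂ => Real.log ‖z‖)
    (s := Metric.ball 0 (r + ‖w‖ + 1))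
  have h2 := h1.2 h0
  refine IntegrableOn.mono_set h2 ?_
  intro z hz
  rw [Set.mem_preimage, mem_ball_zero_iff]
  rw [mem_closedBall_zero_iff] at hz
  have := norm_sub_le z w
  linarith

lemma pc_circleMap (c : ℂ) (r θ : ℝ) : circleMap c r θ = c + circleMap 0 r θ := by
  simp [circleMap]

lemma pc_norm_circleMap (r θ : ℝ) (hr : 0 ≤ r) : ‖circleMap 0 r θ‖ = r := by
  simp [circleMap, abs_of_nonneg hr]

/-- circle average as an integral over a finite measure -/
lemma pc_circleAverage (f : ℂ → ℝ) (c : ℂ) (r : ℝ) :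
    Real.circleAverage f c r =
      (2 * Real.pi)⁻¹ * ∫ θ, f (circleMap c r θ) ∂(volume.restrict (Set.Ioc 0 (2 * Real.pi))) := by
  rw [Real.circleAverage_def, intervalIntegral.integral_of_le (by positivity), smul_eq_mul]

lemma pc_log_average (a w : ℂ) (r : ℝ) (hr : 0 < r) :
    Real.circleAverage (fun u => Real.log ‖u - a‖) w r = Real.log (max r ‖w - a‖) := by
  have h := circleAverage_log_norm_sub_const_eq_log_radius_add_posLog (R := r) (c := w) (a := a)
    hr.ne'
  rw [h]
  rcases le_total ‖w - a‖ r with h1 | h1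
  · rw [max_eq_left h1]
    have : Real.posLog (r⁻¹ * ‖w - a‖) = 0 := by
      rw [Real.posLog_eq_zero_iff, abs_of_nonneg (by positivity), inv_mul_le_iff₀ hr]
      linarith
    rw [this]; ring
  · rw [max_eq_right h1]
    have h2 : 0 < ‖w - a‖ := lt_of_lt_of_le hr h1
    have h3 : 1 ≤ r⁻¹ * ‖w - a‖ := by
      rw [inv_mul_eq_div, le_div_iff₀ hr]; linarith
    rw [Real.posLog_eq_log (by rw [abs_of_nonneg (by positivity)]; exact h3),
      Real.log_mul (inv_ne_zero hr.ne') h2.ne', Real.log_inv]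
    ring

variable {f : ℂ → ℝ}

lemma pc_intF (hf : Continuous f) {R : ℝ} (hR : ∀ z, R ≤ ‖z‖ → f z = 0) (w : ℂ) {r : ℝ}
    (hr : 0 ≤ r) :
    Integrable (fun p : ℂ × ℝ => Real.log ‖p.1 - w‖ * f (circleMap p.1 r p.2))
      ((volume : Measure ℂ).prod (volume.restrict (Set.Ioc 0 (2 * Real.pi)))) := by
  have hcs : HasCompactSupport f := by
    apply HasCompactSupport.of_support_subset_isCompact (isCompact_closedBall (0 : ℂ) R)
    intro z hz
    rw [mem_closedBall_zero_iff]
    by_contra h
    exact hz (hR z (le_of_not_ge h))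
  obtain ⟨C, hC⟩ := hcs.exists_bound_of_continuous hf
  have h1 : Integrable ((Metric.closedBall (0 : ℂ) (R + r)).indicator
      (fun z : ℂ => Real.log ‖z - w‖)) := by
    rw [integrable_indicator_iff Metric.isClosed_closedBall.measurableSet]
    exact pc_int_log w (R + r)
  have h2 := h1.comp_fst (volume.restrict (Set.Ioc 0 (2 * Real.pi)))
  have h3 : Continuous (fun p : ℂ × ℝ => f (circleMap p.1 r p.2)) := by
    apply hf.comp
    unfold circleMap
    fun_prop
  have h4 := h2.mul_bdd (c := C) h3.aestronglyMeasurable (Eventually.of_forall fun p => hC _)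
  refine h4.congr (Eventually.of_forall ?_)
  intro p
  simp only
  by_cases hp : p.1 ∈ Metric.closedBall (0 : ℂ) (R + r)
  · rw [Set.indicator_of_mem hp]
  · rw [Set.indicator_of_notMem hp]
    have : f (circleMap p.1 r p.2) = 0 := by
      apply hR
      rw [mem_closedBall_zero_iff, not_le] at hp
      rw [pc_circleMap]
      have h5 := norm_sub_le (p.1 + circleMap 0 r p.2) (circleMap 0 r p.2)
      rw [add_sub_cancel_right, pc_norm_circleMap r p.2 hr] at h5
      linarith
    rw [this, mul_zero, mul_zero]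

/-- the slices of the sheared kernel -/
lemma pc_shift (w : ℂ) (r θ : ℝ) :
    ∫ a, Real.log ‖a - circleMap 0 r θ - w‖ * f a =
      ∫ z, Real.log ‖z - w‖ * f (circleMap z r θ) := by
  rw [← integral_sub_right_eq_self (fun z => Real.log ‖z - w‖ * f (circleMap z r θ))
    (circleMap 0 r θ)]
  congr 1
  funext a
  rw [pc_circleMap (a - circleMap 0 r θ), sub_add_cancel]

lemma pc_intG (hf : Continuous f) {R : ℝ} (hR : ∀ z, R ≤ ‖z‖ → f z = 0) (w : ℂ) {r : ℝ}
    (hr : 0 ≤ r) :
    Integrable (fun p : ℂ × ℝ => Real.log ‖p.1 - circleMap 0 r p.2 - w‖ * f p.1)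
      ((volume : Measure ℂ).prod (volume.restrict (Set.Ioc 0 (2 * Real.pi)))) := by
  have hF := pc_intF hf hR w hr
  have hmeas : AEStronglyMeasurable
      (fun p : ℂ × ℝ => Real.log ‖p.1 - circleMap 0 r p.2 - w‖ * f p.1)
      ((volume : Measure ℂ).prod (volume.restrict (Set.Ioc 0 (2 * Real.pi)))) := by
    apply AEStronglyMeasurable.mul
    · apply Measurable.aestronglyMeasurable
      apply Real.measurable_log.comp
      apply measurable_norm.comp
      apply Measurable.sub_const
      apply Measurable.sub measurable_fst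
      exact (continuous_circleMap 0 r).measurable.comp measurable_snd
    · exact (hf.comp continuous_fst).aestronglyMeasurable
  have hslice : ∀ θ : ℝ, ∀ g : ℝ → ℝ,
      ∫ a, g (Real.log ‖a - circleMap 0 r θ - w‖ * f a) =
        ∫ z, g (Real.log ‖z - w‖ * f (circleMap z r θ)) := by
    intro θ g
    rw [← integral_sub_right_eq_self (fun z => g (Real.log ‖z - w‖ * f (circleMap z r θ)))
      (circleMap 0 r θ)]
    congr 1
    funext a
    rw [pc_circleMap (a - circleMap 0 r θ), sub_add_cancel]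
  rw [integrable_prod_iff' hmeas]
  constructor
  · filter_upwards [hF.prod_left_ae] with θ hθ
    have h1 := (measurePreserving_sub_right (volume : Measure ℂ) (circleMap 0 r θ)).integrable_comp_of_integrable
      (g := fun z => Real.log ‖z - w‖ * f (circleMap z r θ)) hθ
    refine h1.congr (Eventually.of_forall ?_)
    intro a
    simp only [Function.comp]
    rw [pc_circleMap (a - circleMap 0 r θ), sub_add_cancel]
  · have h2 := hF.norm.integral_prod_right
    refine h2.congr (Eventually.of_forall ?_)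
    intro θ
    exact (hslice θ (fun x => ‖x‖)).symm

lemma pc_kernel (hf : Continuous f) {R : ℝ} (hR : ∀ z, R ≤ ‖z‖ → f z = 0) (w : ℂ) {r : ℝ}
    (hr : 0 < r) :
    ∫ z, Real.log ‖z - w‖ * Real.circleAverage f z r =
      ∫ a, Real.log (max r ‖w - a‖) * f a := by
  have hF := pc_intF hf hR w hr.le
  have hG := pc_intG hf hR w hr.le
  calc ∫ z, Real.log ‖z - w‖ * Real.circleAverage f z r
      = ∫ z, (2 * Real.pi)⁻¹ * ∫ θ, Real.log ‖z - w‖ * f (circleMap z r θ)
          ∂(volume.restrict (Set.Ioc 0 (2 * Real.pi))) := by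
        congr 1
        funext z
        rw [pc_circleAverage, integral_const_mul]
        ring
    _ = (2 * Real.pi)⁻¹ * ∫ z, ∫ θ, Real.log ‖z - w‖ * f (circleMap z r θ)
          ∂(volume.restrict (Set.Ioc 0 (2 * Real.pi))) := by rw [integral_const_mul]
    _ = (2 * Real.pi)⁻¹ * ∫ θ, (∫ z, Real.log ‖z - w‖ * f (circleMap z r θ))
          ∂(volume.restrict (Set.Ioc 0 (2 * Real.pi))) := by
        congr 1
        exact integral_integral_swap hF
    _ = (2 * Real.pi)⁻¹ * ∫ θ, (∫ a, Real.log ‖a - circleMap 0 r θ - w‖ * f a)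
          ∂(volume.restrict (Set.Ioc 0 (2 * Real.pi))) := by
        congr 2
        funext θ
        exact (pc_shift w r θ).symm
    _ = (2 * Real.pi)⁻¹ * ∫ a, (∫ θ, Real.log ‖a - circleMap 0 r θ - w‖ * f a
          ∂(volume.restrict (Set.Ioc 0 (2 * Real.pi)))) := by
        congr 1
        exact (integral_integral_swap hG).symm
    _ = ∫ a, (2 * Real.pi)⁻¹ * (∫ θ, Real.log ‖a - circleMap 0 r θ - w‖ * f a
          ∂(volume.restrict (Set.Ioc 0 (2 * Real.pi)))) := by rw [integral_const_mul]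
    _ = _ := by
        congr 1
        funext a
        rw [integral_mul_const, ← mul_assoc]
        congr 1
        rw [← pc_log_average a w r hr, pc_circleAverage]
        congr 2
        funext θ
        congr 1
        rw [pc_circleMap w, ← norm_neg]
        congr 1
        ring

lemma pc_int_avg (hf : Continuous f) {R : ℝ} (hR : ∀ z, R ≤ ‖z‖ → f z = 0) (w : ℂ) {r : ℝ}
    (hr : 0 < r) :
    Integrable (fun z => Real.log ‖z - w‖ * Real.circleAverage f z r) := by
  have hF := (pc_intF hf hR w hr.le).integral_prod_left.const_mul ((2 * Real.pi)⁻¹)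
  refine hF.congr (Eventually.of_forall ?_)
  intro z
  simp only
  rw [pc_circleAverage, integral_const_mul]
  ring


/-! ### the bump kernel -/

/-- the bump `log max(2r,|u|) - log max(r,|u|)` -/
noncomputable def pb (r : ℝ) (u : ℂ) : ℝ := Real.log (max (2 * r) ‖u‖) - Real.log (max r ‖u‖)

lemma pb_continuous {r : ℝ} (hr : 0 < r) : Continuous (pb r) := by
  unfold pb
  apply Continuous.sub
  · apply Continuous.log
    · fun_prop
    · intro u
      have : 0 < max (2 * r) ‖u‖ := lt_max_of_lt_left (by linarith)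
      exact this.ne'
  · apply Continuous.log
    · fun_prop
    · intro u
      have : 0 < max r ‖u‖ := lt_max_of_lt_left hr
      exact this.ne'

lemma pb_nonneg {r : ℝ} (hr : 0 < r) (u : ℂ) : 0 ≤ pb r u := by
  unfold pb
  rw [sub_nonneg]
  apply Real.log_le_log (lt_max_of_lt_left hr)
  exact max_le_max (by linarith) le_rfl

lemma pb_eq_zero {r : ℝ} (hr : 0 < r) {u : ℂ} (hu : 2 * r ≤ ‖u‖) : pb r u = 0 := by
  unfold pb
  rw [max_eq_right hu, max_eq_right (by linarith), sub_self]

lemma pb_neg (r : ℝ) (u : ℂ) : pb r (-u) = pb r u := by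
  unfold pb; rw [norm_neg]

lemma pb_hasCompactSupport {r : ℝ} (hr : 0 < r) : HasCompactSupport (pb r) := by
  apply HasCompactSupport.of_support_subset_isCompact (isCompact_closedBall (0 : ℂ) (2 * r))
  intro z hz
  rw [mem_closedBall_zero_iff]
  by_contra h
  exact hz (pb_eq_zero hr (le_of_not_ge h))

lemma pb_integrable {r : ℝ} (hr : 0 < r) : Integrable (pb r) :=
  (pb_continuous hr).integrable_of_hasCompactSupport (pb_hasCompactSupport hr)

lemma pb_int_pos {r : ℝ} (hr : 0 < r) : 0 < ∫ u, pb r u := by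
  apply (pb_continuous hr).integral_pos_of_hasCompactSupport_nonneg_nonzero
    (pb_hasCompactSupport hr) (pb_nonneg hr) (x := 0)
  unfold pb
  rw [norm_zero, max_eq_left (by linarith), max_eq_left hr.le, Real.log_mul (by norm_num) hr.ne']
  have : 0 < Real.log 2 := Real.log_pos (by norm_num)
  intro h
  linarith

/-- difference of the two circle averages -/
noncomputable def ph (f : ℂ → ℝ) (r : ℝ) (z : ℂ) : ℝ :=
  Real.circleAverage f z (2 * r) - Real.circleAverage f z r

lemma pc_avg_continuous (hf : Continuous f) (r : ℝ) :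
    Continuous (fun z => Real.circleAverage f z r) := by
  unfold Real.circleAverage
  have h : Continuous (fun z => ∫ θ : ℝ in (0:ℝ)..2 * Real.pi, f (circleMap z r θ)) := by
    apply intervalIntegral.continuous_parametric_intervalIntegral_of_continuous'
    unfold Function.uncurry circleMap
    fun_prop
  exact h.const_smul ((2 * Real.pi)⁻¹)

lemma ph_continuous (hf : Continuous f) (r : ℝ) : Continuous (ph f r) :=
  (pc_avg_continuous hf _).sub (pc_avg_continuous hf _)

lemma pc_avg_zero {R : ℝ} (hR : ∀ z, R ≤ ‖z‖ → f z = 0) {r : ℝ} (hr : 0 ≤ r) {z : ℂ}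
    (hz : R + r ≤ ‖z‖) : Real.circleAverage f z r = 0 := by
  rw [pc_circleAverage]
  have : ∀ θ : ℝ, f (circleMap z r θ) = 0 := by
    intro θ
    apply hR
    rw [pc_circleMap]
    have h5 := norm_sub_le (z + circleMap 0 r θ) (circleMap 0 r θ)
    rw [add_sub_cancel_right, pc_norm_circleMap r θ hr] at h5
    linarith
  simp [this]

lemma ph_zero {R : ℝ} (hR : ∀ z, R ≤ ‖z‖ → f z = 0) {r : ℝ} (hr : 0 < r) {z : ℂ}
    (hz : R + 2 * r ≤ ‖z‖) : ph f r z = 0 := by
  unfold ph
  rw [pc_avg_zero hR (by linarith) hz, pc_avg_zero hR hr.le (by linarith), sub_zero]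

lemma ph_hasCompactSupport {R : ℝ} (hR : ∀ z, R ≤ ‖z‖ → f z = 0) {r : ℝ} (hr : 0 < r) :
    HasCompactSupport (ph f r) := by
  apply HasCompactSupport.of_support_subset_isCompact (isCompact_closedBall (0 : ℂ) (R + 2 * r))
  intro z hz
  rw [mem_closedBall_zero_iff]
  by_contra h
  exact hz (ph_zero hR hr (le_of_not_ge h))

lemma ph_int (hf : Continuous f) {R : ℝ} (hR : ∀ z, R ≤ ‖z‖ → f z = 0) (w : ℂ) {r : ℝ}
    (hr : 0 < r) : Integrable (fun z => Real.log ‖z - w‖ * ph f r z) := by
  have h1 := (pc_int_avg hf hR w (by linarith : (0:ℝ) < 2 * r)).sub (pc_int_avg hf hR w hr)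
  refine h1.congr (Eventually.of_forall ?_)
  intro z
  simp only [ph, Pi.sub_apply]
  ring

lemma pc_hcs {R : ℝ} (hR : ∀ z, R ≤ ‖z‖ → f z = 0) : HasCompactSupport f := by
  apply HasCompactSupport.of_support_subset_isCompact (isCompact_closedBall (0 : ℂ) R)
  intro z hz
  rw [mem_closedBall_zero_iff]
  by_contra h
  exact hz (hR z (le_of_not_ge h))

/-- potential of `h` against a point mass -/
lemma ph_kernel (hf : Continuous f) {R : ℝ} (hR : ∀ z, R ≤ ‖z‖ → f z = 0) (w : ℂ) {r : ℝ}
    (hr : 0 < r) :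
    ∫ z, Real.log ‖z - w‖ * ph f r z = ∫ a, pb r (w - a) * f a := by
  have hcs := pc_hcs hR
  have hlog : ∀ ρ : ℝ, 0 < ρ → Integrable (fun a => Real.log (max ρ ‖w - a‖) * f a) := by
    intro ρ hρ
    apply Continuous.integrable_of_hasCompactSupport
    · apply Continuous.mul _ hf
      apply Continuous.log
      · fun_prop
      · intro u
        have : 0 < max ρ ‖w - u‖ := lt_max_of_lt_left hρ
        exact this.ne'
    · exact hcs.mul_left
  calc ∫ z, Real.log ‖z - w‖ * ph f r z
      = ∫ z, (Real.log ‖z - w‖ * Real.circleAverage f z (2 * r) -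
          Real.log ‖z - w‖ * Real.circleAverage f z r) := by
        congr 1; funext z; unfold ph; ring
    _ = (∫ z, Real.log ‖z - w‖ * Real.circleAverage f z (2 * r)) -
          ∫ z, Real.log ‖z - w‖ * Real.circleAverage f z r :=
        integral_sub (pc_int_avg hf hR w (by linarith)) (pc_int_avg hf hR w hr)
    _ = (∫ a, Real.log (max (2 * r) ‖w - a‖) * f a) - ∫ a, Real.log (max r ‖w - a‖) * f a := by
        rw [pc_kernel hf hR w (by linarith), pc_kernel hf hR w hr]
    _ = ∫ a, (Real.log (max (2 * r) ‖w - a‖) * f a - Real.log (max r ‖w - a‖) * f a) :=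
        (integral_sub (hlog _ (by linarith)) (hlog _ hr)).symm
    _ = _ := by
        congr 1; funext a; unfold pb; ring

/-- the bump average is close to `f` -/
lemma pb_approx (hf : Continuous f) {R : ℝ} (hR : ∀ z, R ≤ ‖z‖ → f z = 0) {r : ℝ} (hr : 0 < r)
    {ε : ℝ} (hε : ∀ a w : ℂ, ‖w - a‖ < 2 * r → |f a - f w| ≤ ε) (w : ℂ) :
    |(∫ a, pb r (w - a) * f a) - (∫ u, pb r u) * f w| ≤ (∫ u, pb r u) * ε := by
  have hcs := pc_hcs hR
  have h0 : (∫ u, pb r u) = ∫ a, pb r (w - a) := (integral_sub_left_eq_self (pb r) volume w).symm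
  have hi : Integrable (fun a => pb r (w - a)) := (pb_integrable hr).comp_sub_left w
  have hi1 : Integrable (fun a => pb r (w - a) * f a) := by
    apply Continuous.integrable_of_hasCompactSupport
    · exact ((pb_continuous hr).comp (continuous_const.sub continuous_id)).mul hf
    · exact hcs.mul_left
  rw [h0, ← integral_mul_const, ← integral_sub hi1 (hi.mul_const _)]
  calc |∫ a, (pb r (w - a) * f a - pb r (w - a) * f w)|
      ≤ ∫ a, |pb r (w - a) * f a - pb r (w - a) * f w| := abs_integral_le_integral_abs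
    _ ≤ ∫ a, pb r (w - a) * ε := by
        apply integral_mono_of_nonneg (Eventually.of_forall fun a => abs_nonneg _)
          (hi.mul_const _)
        apply Eventually.of_forall
        intro a
        simp only
        rw [← mul_sub, abs_mul, abs_of_nonneg (pb_nonneg hr _)]
        by_cases h : ‖w - a‖ < 2 * r
        · exact mul_le_mul_of_nonneg_left (hε a w h) (pb_nonneg hr _)
        · rw [pb_eq_zero hr (not_lt.1 h), zero_mul, zero_mul]
    _ = (∫ a, pb r (w - a)) * ε := integral_mul_const _ _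


/-! ### eigenvalue sums -/

section Nf
variable {n : ℕ}

lemma pc_MM (A : Fin n → Fin n → Bool) (z : ℂ) :
    MM z (toN A) = -(Matrix.scalar (Fin n) z - Adj A) := by
  ext i j
  simp only [MM, Adj, toN, Matrix.sub_apply, Matrix.of_apply, Matrix.smul_apply, Matrix.neg_apply,
    Matrix.scalar_apply, Matrix.diagonal_apply, Matrix.one_apply, smul_eq_mul]
  split_ifs <;> simp

lemma pc_norm_det (A : Fin n → Fin n → Bool) (z : ℂ) :
    ‖(MM z (toN A)).det‖ = ‖(Adj A).charpoly.eval z‖ := by
  rw [pc_MM, Matrix.det_neg, Matrix.eval_charpoly, norm_mul, norm_pow, norm_neg, norm_one, one_pow,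
    one_mul]

lemma pc_splits (A : Fin n → Fin n → Bool) : (Adj A).charpoly.Splits :=
  IsAlgClosed.splits _

lemma pc_card (A : Fin n → Fin n → Bool) : (Adj A).charpoly.roots.card = n := by
  rw [← (pc_splits A).natDegree_eq_card_roots, Matrix.charpoly_natDegree_eq_dim, Fintype.card_fin]

lemma pc_log_prod (s : Multiset ℂ) (z : ℂ) (h : ∀ w ∈ s, z ≠ w) :
    Real.log ‖(s.map (fun w => z - w)).prod‖ = (s.map (fun w => Real.log ‖z - w‖)).sum := by
  induction s using Multiset.induction with
  | empty => simp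
  | cons a s ih =>
    rw [Multiset.map_cons, Multiset.prod_cons, Multiset.map_cons, Multiset.sum_cons, norm_mul,
      Real.log_mul, ih (fun w hw => h w (Multiset.mem_cons_of_mem hw))]
    · rw [norm_ne_zero_iff, sub_ne_zero]
      exact h a (Multiset.mem_cons_self a s)
    · rw [norm_ne_zero_iff]
      intro h0
      rw [Multiset.prod_eq_zero_iff, Multiset.mem_map] at h0
      obtain ⟨w, hw, hw2⟩ := h0
      exact h w (Multiset.mem_cons_of_mem hw) (sub_eq_zero.1 hw2)

lemma pc_Phi_eq (A : Fin n → Fin n → Bool) {z : ℂ} (hz : (Adj A).charpoly.eval z ≠ 0) :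
    Phi A z = Nf A (fun w => Real.log ‖z - w‖) := by
  unfold Phi Nf
  rw [pc_norm_det, (pc_splits A).eval_eq_prod_roots_of_monic (Matrix.charpoly_monic _),
    pc_log_prod]
  intro w hw h
  rw [← h] at hw
  exact hz ((Polynomial.mem_roots (Matrix.charpoly_monic _).ne_zero).1 hw)

lemma pc_finite (A : Fin n → Fin n → Bool) : {z : ℂ | (Adj A).charpoly.eval z = 0}.Finite := by
  apply Set.Finite.subset ((Adj A).charpoly.roots.toFinset.finite_toSet)
  intro z hz
  rw [Finset.mem_coe, Multiset.mem_toFinset, Polynomial.mem_roots (Matrix.charpoly_monic _).ne_zero]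
  exact hz

lemma pc_Phi_ae (A : Fin n → Fin n → Bool) :
    ∀ᵐ z : ℂ, Phi A z = Nf A (fun w => Real.log ‖z - w‖) := by
  have h : ∀ᵐ z : ℂ, z ∉ {z : ℂ | (Adj A).charpoly.eval z = 0} :=
    measure_eq_zero_iff_ae_notMem.1 ((pc_finite A).measure_zero volume)
  filter_upwards [h] with z hz
  exact pc_Phi_eq A hz

lemma pc_avg_multiset (s : Multiset ℂ) (g : ℂ → ℂ → ℝ) (a : ℂ) (r : ℝ)
    (hg : ∀ w, CircleIntegrable (g w) a r) :
    CircleIntegrable (fun z => (s.map (fun w => g w z)).sum) a r ∧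
    Real.circleAverage (fun z => (s.map (fun w => g w z)).sum) a r =
      (s.map (fun w => Real.circleAverage (g w) a r)).sum := by
  induction s using Multiset.induction with
  | empty => simp [Real.circleAverage]
  | cons b s ih =>
    simp only [Multiset.map_cons, Multiset.sum_cons]
    refine ⟨(hg b).add ih.1, ?_⟩
    rw [← ih.2]
    exact Real.circleAverage_add (hg b) ih.1

/-- circle average of the potential of `A` -/
theorem circleAverage_Phi (hn : 0 < n) (A : Fin n → Fin n → Bool) (a : ℂ) (r : ℝ)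
    (hr : 0 < r) :
    Real.circleAverage (Phi A) a r = Nf A (fun w => Real.log (max r ‖a - w‖)) := by
  have h1 : Real.circleAverage (Phi A) a r =
      Real.circleAverage (fun z => Nf A (fun w => Real.log ‖z - w‖)) a r := by
    apply Real.circleAverage_congr_codiscreteWithin _ hr.ne'
    have : {z : ℂ | (Adj A).charpoly.eval z ≠ 0} ∈ codiscreteWithin (Metric.sphere a |r|) := by
      apply codiscreteWithin_iff_locallyFiniteComplementWithin.2
      intro z hz
      refine ⟨Set.univ, Filter.univ_mem, ?_⟩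
      apply (pc_finite A).subset
      intro w hw
      have := hw.2.2
      simpa using this
    filter_upwards [this] with z hz
    exact pc_Phi_eq A hz
  rw [h1]
  have h2 := pc_avg_multiset (Adj A).charpoly.roots (fun w z => Real.log ‖z - w‖) a r
    (fun w => circleIntegrable_log_norm_sub_const r)
  have h3 : (fun z => Nf A (fun w => Real.log ‖z - w‖)) =
      fun z => (n : ℝ)⁻¹ • ((Adj A).charpoly.roots.map (fun w => Real.log ‖z - w‖)).sum := by
    funext z; unfold Nf; rw [smul_eq_mul]; ring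
  rw [h3, Real.circleAverage_fun_smul, h2.2]
  unfold Nf
  rw [smul_eq_mul, div_eq_inv_mul]
  congr 2
  apply Multiset.map_congr rfl
  intro w _
  exact pc_log_average w a r hr

lemma pc_sum_bound (s : Multiset ℂ) (g1 g2 : ℂ → ℝ) (ε : ℝ) (h : ∀ w, |g1 w - g2 w| ≤ ε) :
    |(s.map g1).sum - (s.map g2).sum| ≤ s.card * ε := by
  induction s using Multiset.induction with
  | empty => simp
  | cons a s ih =>
    rw [Multiset.map_cons, Multiset.map_cons, Multiset.sum_cons, Multiset.sum_cons,
      Multiset.card_cons]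
    have h1 := h a
    rw [abs_le] at *
    push_cast
    constructor <;> linarith

lemma Nf_bound (hn : 0 < n) (A : Fin n → Fin n → Bool) (g1 g2 : ℂ → ℝ) (ε : ℝ)
    (h : ∀ w, |g1 w - g2 w| ≤ ε) : |Nf A g1 - Nf A g2| ≤ ε := by
  have h1 := pc_sum_bound (Adj A).charpoly.roots g1 g2 ε h
  rw [pc_card] at h1
  have hn' : (0:ℝ) < n := by exact_mod_cast hn
  unfold Nf
  rw [← sub_div, abs_div, abs_of_pos hn', div_le_iff₀ hn']
  linarith

lemma Nf_const_mul (A : Fin n → Fin n → Bool) (g : ℂ → ℝ) (c : ℝ) :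
    Nf A (fun w => c * g w) = c * Nf A g := by
  unfold Nf
  rw [Multiset.sum_map_mul_left, mul_div_assoc]

lemma Nf_const (hn : 0 < n) (A : Fin n → Fin n → Bool) (c : ℝ) : Nf A (fun _ => c) = c := by
  have hn' : (0:ℝ) < n := by exact_mod_cast hn
  unfold Nf
  rw [Multiset.map_const', Multiset.sum_replicate, pc_card, nsmul_eq_mul]
  field_simp

lemma Nf_add (A : Fin n → Fin n → Bool) (g1 g2 : ℂ → ℝ) :
    Nf A (fun w => g1 w + g2 w) = Nf A g1 + Nf A g2 := by
  unfold Nf
  rw [Multiset.sum_map_add, add_div]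

lemma Nf_sub (A : Fin n → Fin n → Bool) (g1 g2 : ℂ → ℝ) :
    Nf A (fun w => g1 w - g2 w) = Nf A g1 - Nf A g2 := by
  unfold Nf
  rw [Multiset.sum_map_sub, sub_div]

lemma Nf_mono (A : Fin n → Fin n → Bool) (g1 g2 : ℂ → ℝ) (h : ∀ w, g1 w ≤ g2 w) :
    Nf A g1 ≤ Nf A g2 := by
  unfold Nf
  gcongr
  exact Multiset.sum_map_le_sum_map _ _ (fun w _ => h w)

lemma pc_int_multiset (s : Multiset ℂ) (g : ℂ → ℂ → ℝ) (hg : ∀ w, Integrable (g w)) :
    Integrable (fun z => (s.map (fun w => g w z)).sum) ∧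
    ∫ z, (s.map (fun w => g w z)).sum = (s.map (fun w => ∫ z, g w z)).sum := by
  induction s using Multiset.induction with
  | empty => simp
  | cons b s ih =>
    simp only [Multiset.map_cons, Multiset.sum_cons]
    refine ⟨(hg b).add ih.1, ?_⟩
    rw [← ih.2]
    exact integral_add (hg b) ih.1

/-- testing the potential of `A` against `h` -/
lemma pc_Phi_test (A : Fin n → Fin n → Bool) (hf : Continuous f) {R : ℝ}
    (hR : ∀ z, R ≤ ‖z‖ → f z = 0) {r : ℝ} (hr : 0 < r) :
    Integrable (fun z => Phi A z * ph f r z) ∧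
    ∫ z, Phi A z * ph f r z = Nf A (fun w => ∫ a, pb r (w - a) * f a) := by
  have h1 := pc_int_multiset (Adj A).charpoly.roots (fun w z => Real.log ‖z - w‖ * ph f r z)
    (fun w => ph_int hf hR w hr)
  have h2 : (fun z => Phi A z * ph f r z) =ᵐ[volume]
      fun z => (n : ℝ)⁻¹ * ((Adj A).charpoly.roots.map
        (fun w => Real.log ‖z - w‖ * ph f r z)).sum := by
    filter_upwards [pc_Phi_ae A] with z hz
    rw [hz]
    unfold Nf
    rw [Multiset.sum_map_mul_right]
    ring
  refine ⟨(h1.1.const_mul _).congr h2.symm, ?_⟩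
  rw [integral_congr_ae h2, integral_const_mul, h1.2]
  unfold Nf
  rw [div_eq_inv_mul]
  congr 2
  apply Multiset.map_congr rfl
  intro w _
  exact ph_kernel hf hR w hr

end Nf


/-! ### the limit measure -/

lemma pc_rho_zero {d : ℕ} {w : ℂ} (h : √(d:ℝ) ≤ ‖w‖) : rho d w = 0 := by
  unfold rho
  rw [if_neg (not_lt.2 h)]

lemma pc_int_prod (d : ℕ) (hd : 2 ≤ d) (hf : Continuous f) {R : ℝ}
    (hR : ∀ z, R ≤ ‖z‖ → f z = 0) {r : ℝ} (hr : 0 < r) :
    Integrable (fun p : ℂ × ℂ => Real.log ‖p.1 - p.2‖ * rho d p.2 * ph f r p.1)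
      ((volume : Measure ℂ).prod (volume : Measure ℂ)) := by
  obtain ⟨C, hC⟩ := (ph_hasCompactSupport hR hr).exists_bound_of_continuous (ph_continuous hf r)
  have h1 : Integrable ((Metric.closedBall (0 : ℂ) (R + 2 * r + √(d:ℝ))).indicator
      (fun z : ℂ => Real.log ‖z‖)) := by
    rw [integrable_indicator_iff Metric.isClosed_closedBall.measurableSet]
    have := pc_int_log 0 (R + 2 * r + √(d:ℝ))
    simpa using this
  have h2 := h1.mul_prod (integrable_rho d hd)
  have h3 : Continuous (fun p : ℂ × ℂ => ph f r (p.1 + p.2)) :=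
    (ph_continuous hf r).comp (by fun_prop)
  have h4 := h2.mul_bdd (c := C) h3.aestronglyMeasurable (Eventually.of_forall fun p => hC _)
  have h5 := (measurePreserving_sub_prod (volume : Measure ℂ) (volume : Measure ℂ)).integrable_comp_of_integrable h4
  refine h5.congr (Eventually.of_forall ?_)
  rintro ⟨z, w⟩
  simp only [Function.comp]
  rw [sub_add_cancel]
  by_cases hz : R + 2 * r ≤ ‖z‖
  · rw [ph_zero hR hr hz, mul_zero, mul_zero]
  by_cases hw : √(d:ℝ) ≤ ‖w‖
  · rw [pc_rho_zero hw, mul_zero, mul_zero]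
  rw [Set.indicator_of_mem]
  rw [mem_closedBall_zero_iff]
  have := norm_sub_le z w
  push Not at hz hw
  linarith

lemma pc_rho_test (d : ℕ) (hd : 2 ≤ d) (hf : Continuous f) {R : ℝ}
    (hR : ∀ z, R ≤ ‖z‖ → f z = 0) {r : ℝ} (hr : 0 < r) (hRd : R + 2 * r ≤ √(d:ℝ)) :
    Integrable (fun z => Upot d ‖z‖ * ph f r z) ∧
    ∫ z, Upot d ‖z‖ * ph f r z = ∫ w, rho d w * ∫ a, pb r (w - a) * f a := by
  have hI := pc_int_prod d hd hf hR hr
  have hae : (fun z => Upot d ‖z‖ * ph f r z) =ᵐ[volume]
      fun z => ∫ w, Real.log ‖z - w‖ * rho d w * ph f r z := by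
    have h0 : ∀ᵐ z : ℂ, z ≠ 0 := by
      have := measure_eq_zero_iff_ae_notMem.1 (measure_singleton (μ := (volume : Measure ℂ)) (0:ℂ))
      simpa using this
    filter_upwards [h0] with z hz
    rw [integral_mul_const]
    by_cases hz2 : R + 2 * r ≤ ‖z‖
    · rw [ph_zero hR hr hz2, mul_zero, mul_zero]
    · rw [(potential_rho d hd z hz (by push Not at hz2; linarith)).2]
  refine ⟨(hI.integral_prod_left).congr hae.symm, ?_⟩
  rw [integral_congr_ae hae, integral_integral_swap hI]
  congr 1
  funext w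
  rw [← ph_kernel hf hR w hr, ← integral_const_mul]
  congr 1
  funext z
  ring


lemma pc_rho_int (d : ℕ) (hd : 2 ≤ d) (hf : Continuous f) {R : ℝ}
    (hR : ∀ z, R ≤ ‖z‖ → f z = 0) {r : ℝ} (hr : 0 < r) :
    Integrable (fun w => rho d w * ∫ a, pb r (w - a) * f a) := by
  have hI := (pc_int_prod d hd hf hR hr).integral_prod_right
  refine hI.congr (Eventually.of_forall ?_)
  intro w
  simp only
  rw [← ph_kernel hf hR w hr, ← integral_const_mul]
  congr 1
  funext z
  ring

lemma pc_rho_mul_int (d : ℕ) (hd : 2 ≤ d) (hf : Continuous f) {C : ℝ} (hC : ∀ z, |f z| ≤ C) :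
    Integrable (fun w => f w * rho d w) := by
  have h := (integrable_rho d hd).bdd_mul (c := C) hf.aestronglyMeasurable
    (Eventually.of_forall fun z => by rw [Real.norm_eq_abs]; exact hC z)
  exact h

lemma pc_U_int (d : ℕ) (hd : 2 ≤ d) {ρ : ℝ} (hρ : ρ < √(d:ℝ)) :
    IntegrableOn (fun z : ℂ => Upot d ‖z‖) (Metric.closedBall 0 ρ) := by
  apply ContinuousOn.integrableOn_compact (isCompact_closedBall 0 ρ)
  unfold Upot
  apply ContinuousOn.sub continuousOn_const
  apply ContinuousOn.mul continuousOn_const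
  apply ContinuousOn.log
  · fun_prop
  · intro z hz
    rw [mem_closedBall_zero_iff] at hz
    have hd' : (2:ℝ) ≤ d := by exact_mod_cast hd
    have h1 : ‖z‖ < √(d:ℝ) := lt_of_le_of_lt hz hρ
    have h2 : ‖z‖ ^ 2 < (d:ℝ) := by
      calc ‖z‖ ^ 2 < √(d:ℝ) ^ 2 := by
            apply pow_lt_pow_left₀ h1 (norm_nonneg z) (by norm_num)
        _ = (d:ℝ) := Real.sq_sqrt (by positivity)
    nlinarith

lemma pc_Phi_int {n : ℕ} (A : Fin n → Fin n → Bool) (ρ : ℝ) :
    IntegrableOn (Phi A) (Metric.closedBall 0 ρ) := by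
  have h : ∀ s : Multiset ℂ, IntegrableOn (fun z : ℂ => (s.map (fun w => Real.log ‖z - w‖)).sum)
      (Metric.closedBall 0 ρ) := by
    intro s
    induction s using Multiset.induction with
    | empty => simp
    | cons b s ih =>
      simp only [Multiset.map_cons, Multiset.sum_cons]
      exact (pc_int_log b ρ).add ih
  have h2 := (h (Adj A).charpoly.roots).div_const (n : ℝ)
  refine Integrable.congr h2 ?_
  apply ae_restrict_of_ae
  filter_upwards [pc_Phi_ae A] with z hz
  rw [hz]
  rfl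

lemma pc_diff (d : ℕ) (hd : 2 ≤ d) (hf : Continuous f) {R : ℝ}
    (hR : ∀ z, R ≤ ‖z‖ → f z = 0) {r : ℝ} (hr : 0 < r) (hRd : R + 2 * r < √(d:ℝ)) {C : ℝ}
    (hC : ∀ z, ‖ph f r z‖ ≤ C) {n : ℕ} (A : Fin n → Fin n → Bool) :
    |(∫ z, Phi A z * ph f r z) - ∫ z, Upot d ‖z‖ * ph f r z| ≤
      C * ∫ z in Metric.closedBall (0 : ℂ) (R + 2 * r), |Phi A z - Upot d ‖z‖| := by
  rw [← integral_sub (pc_Phi_test A hf hR hr).1 (pc_rho_test d hd hf hR hr hRd.le).1]
  have hint : IntegrableOn (fun z => |Phi A z - Upot d ‖z‖|)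
      (Metric.closedBall (0 : ℂ) (R + 2 * r)) :=
    ((pc_Phi_int A (R + 2 * r)).sub (pc_U_int d hd hRd)).abs
  calc |∫ z, (Phi A z * ph f r z - Upot d ‖z‖ * ph f r z)|
      ≤ ∫ z, |Phi A z * ph f r z - Upot d ‖z‖ * ph f r z| := abs_integral_le_integral_abs
    _ ≤ ∫ z, (Metric.closedBall (0 : ℂ) (R + 2 * r)).indicator
          (fun z => C * |Phi A z - Upot d ‖z‖|) z := by
        apply integral_mono_of_nonneg (Eventually.of_forall fun a => abs_nonneg _)
        · rw [integrable_indicator_iff Metric.isClosed_closedBall.measurableSet]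
          exact hint.const_mul C
        · apply Eventually.of_forall
          intro z
          simp only
          rw [← sub_mul, abs_mul]
          by_cases hz : z ∈ Metric.closedBall (0 : ℂ) (R + 2 * r)
          · rw [Set.indicator_of_mem hz, mul_comm]
            exact mul_le_mul_of_nonneg_right (hC z) (abs_nonneg _)
          · rw [Set.indicator_of_notMem hz]
            rw [mem_closedBall_zero_iff, not_le] at hz
            rw [ph_zero hR hr hz.le, abs_zero, mul_zero]
    _ = _ := by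
        rw [integral_indicator Metric.isClosed_closedBall.measurableSet, integral_const_mul]

lemma pc_rho_approx (d : ℕ) (hd : 2 ≤ d) (hf : Continuous f) {R : ℝ}
    (hR : ∀ z, R ≤ ‖z‖ → f z = 0) {r : ℝ} (hr : 0 < r) {ε : ℝ}
    (hε : ∀ a w : ℂ, ‖w - a‖ < 2 * r → |f a - f w| ≤ ε) :
    |(∫ w, rho d w * ∫ a, pb r (w - a) * f a) - (∫ u, pb r u) * ∫ z, f z * rho d z| ≤
      (∫ u, pb r u) * ε := by
  obtain ⟨C, hC⟩ := (pc_hcs hR).exists_bound_of_continuous hf
  have h1 := pc_rho_int d hd hf hR hr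
  have h2 := pc_rho_mul_int d hd hf (fun z => by rw [← Real.norm_eq_abs]; exact hC z)
  rw [← integral_const_mul, ← integral_sub h1 (h2.const_mul _)]
  calc |∫ w, (rho d w * (∫ a, pb r (w - a) * f a) - (∫ u, pb r u) * (f w * rho d w))|
      ≤ ∫ w, |rho d w * (∫ a, pb r (w - a) * f a) - (∫ u, pb r u) * (f w * rho d w)| :=
        abs_integral_le_integral_abs
    _ ≤ ∫ w, rho d w * ((∫ u, pb r u) * ε) := by
        apply integral_mono_of_nonneg (Eventually.of_forall fun a => abs_nonneg _)
          ((integrable_rho d hd).mul_const _)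
        apply Eventually.of_forall
        intro w
        simp only
        have h3 : rho d w * (∫ a, pb r (w - a) * f a) - (∫ u, pb r u) * (f w * rho d w) =
            rho d w * ((∫ a, pb r (w - a) * f a) - (∫ u, pb r u) * f w) := by ring
        rw [h3, abs_mul, abs_of_nonneg (rho_nonneg d hd w)]
        exact mul_le_mul_of_nonneg_left (pb_approx hf hR hr hε w) (rho_nonneg d hd w)
    _ = _ := by rw [integral_mul_const, integral_rho d hd, one_mul]

/-! ### averages -/

lemma avg_bound {α : Type*} {S : Finset α} (hS : S.Nonempty) (g e : α → ℝ) (c : ℝ)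
    (h : ∀ a ∈ S, |g a - c| ≤ e a) : |avg S g - c| ≤ avg S e := by
  have hc : (0:ℝ) < S.card := by exact_mod_cast hS.card_pos
  unfold avg
  have h1 : (∑ a ∈ S, g a) / (S.card : ℝ) - c = (∑ a ∈ S, (g a - c)) / S.card := by
    rw [sum_sub_distrib, sum_const, nsmul_eq_mul]
    field_simp
  rw [h1, abs_div, abs_of_pos hc]
  gcongr
  exact (abs_sum_le_sum_abs _ _).trans (sum_le_sum h)

lemma avg_const' {α : Type*} {S : Finset α} (hS : S.Nonempty) (c : ℝ) :
    avg S (fun _ => c) = c := by
  have hc : (0:ℝ) < S.card := by exact_mod_cast hS.card_pos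
  unfold avg
  rw [sum_const, nsmul_eq_mul]
  field_simp

lemma avg_add' {α : Type*} (S : Finset α) (g e : α → ℝ) :
    avg S (fun a => g a + e a) = avg S g + avg S e := by
  unfold avg
  rw [sum_add_distrib, add_div]

lemma avg_sub' {α : Type*} (S : Finset α) (g e : α → ℝ) :
    avg S (fun a => g a - e a) = avg S g - avg S e := by
  unfold avg
  rw [sum_sub_distrib, sub_div]

lemma avg_mul' {α : Type*} (S : Finset α) (g : α → ℝ) (c : ℝ) :
    avg S (fun a => c * g a) = c * avg S g := by
  unfold avg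
  rw [← mul_sum, mul_div_assoc]

lemma pc_card_lt {n d : ℕ} (h : d ≤ n) :
    (univ.filter (fun k : Fin n => k.val < d)).card = d := by
  rw [Fin.card_filter_val_lt]
  exact min_eq_right h

lemma pc_Reg_nonempty {n d : ℕ} (hn : 0 < n) (h : d ≤ n) : (Reg n d).Nonempty := by
  have : NeZero n := ⟨hn.ne'⟩
  refine ⟨fun i j => decide ((j - i).val < d), ?_⟩
  rw [mem_Reg]
  constructor
  · intro i
    refine Eq.trans ?_ (pc_card_lt h)
    apply card_bij (fun j _ => j - i)
    · intro j hj
      simpa using hj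
    · intro j _ j' _ hjj
      exact sub_left_injective hjj
    · intro k hk
      refine ⟨k + i, ?_, by rw [add_sub_cancel_right]⟩
      simpa using hk
  · intro j
    refine Eq.trans ?_ (pc_card_lt h)
    apply card_bij (fun i _ => j - i)
    · intro i hi
      simpa using hi
    · intro i _ i' _ hii
      exact sub_right_injective hii
    · intro k hk
      refine ⟨j - k, ?_, by rw [sub_sub_cancel]⟩
      simpa using hk

/-- weak convergence for test functions supported in the open disc -/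
lemma pc_weak_cs (d : ℕ) (hd : 2 ≤ d)
    (hL1 : ∀ ρ : ℝ, 0 < ρ → ρ < √(d:ℝ) → Tendsto (fun n : ℕ => avg (Reg n d) (fun A =>
      ∫ z in Metric.closedBall (0 : ℂ) ρ, |Phi A z - Upot d ‖z‖|)) atTop (𝓝 0))
    (hf : Continuous f) {R : ℝ} (hR0 : 0 < R) (hRd : R < √(d:ℝ))
    (hR : ∀ z, R ≤ ‖z‖ → f z = 0) :
    Tendsto (fun n : ℕ => avg (Reg n d) (fun A => Nf A f)) atTop (𝓝 (∫ z, f z * rho d z)) := by
  rw [Metric.tendsto_atTop]
  intro ε hε
  have huc := (pc_hcs hR).uniformContinuous_of_continuous hf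
  obtain ⟨δ, hδ, hδ2⟩ := Metric.uniformContinuous_iff.1 huc (ε / 4) (by linarith)
  set r := min (δ / 2) ((√(d:ℝ) - R) / 4) with hr_def
  have hr : 0 < r := lt_min (by linarith) (by linarith)
  have hr1 : 2 * r ≤ δ := by
    have := min_le_left (δ / 2) ((√(d:ℝ) - R) / 4)
    linarith
  have hr2 : R + 2 * r < √(d:ℝ) := by
    have := min_le_right (δ / 2) ((√(d:ℝ) - R) / 4)
    linarith
  have hε2 : ∀ a w : ℂ, ‖w - a‖ < 2 * r → |f a - f w| ≤ ε / 4 := by
    intro a w h
    have := hδ2 (a := a) (b := w) (by rw [dist_comm, dist_eq_norm]; linarith)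
    rw [Real.dist_eq] at this
    exact this.le
  obtain ⟨C, hC⟩ := (ph_hasCompactSupport hR hr).exists_bound_of_continuous (ph_continuous hf r)
  have hC0 : 0 ≤ C := (norm_nonneg _).trans (hC 0)
  set cr := ∫ u, pb r u with hcr
  have hcr0 : 0 < cr := pb_int_pos hr
  have hη : 0 < cr * (ε / 4) / (C + 1) := by positivity
  obtain ⟨N, hN⟩ := Metric.tendsto_atTop.1 (hL1 (R + 2 * r) (by linarith) hr2) _ hη
  refine ⟨max N (max d 1), fun n hn => ?_⟩
  have hnN : N ≤ n := (le_max_left _ _).trans hn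
  have hnd : d ≤ n := ((le_max_left _ _).trans (le_max_right _ _)).trans hn
  have hn1 : 0 < n := ((le_max_right _ _).trans (le_max_right _ _)).trans hn
  have hne := pc_Reg_nonempty hn1 hnd
  have hsmall := hN n hnN
  rw [Real.dist_eq, sub_zero] at hsmall
  have hsmall2 := lt_of_le_of_lt (le_abs_self _) hsmall
  have key : ∀ A ∈ Reg n d, |Nf A f - ∫ z, f z * rho d z| ≤ ε / 4 + ε / 4 + (C / cr) *
      ∫ z in Metric.closedBall (0 : ℂ) (R + 2 * r), |Phi A z - Upot d ‖z‖| := by
    intro A _
    have t1 : |Nf A (fun w => ∫ a, pb r (w - a) * f a) - Nf A (fun w => cr * f w)| ≤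
        cr * (ε / 4) := Nf_bound hn1 A _ _ _ (fun w => pb_approx hf hR hr hε2 w)
    rw [Nf_const_mul, ← (pc_Phi_test A hf hR hr).2] at t1
    have t2 := pc_diff d hd hf hR hr hr2 hC A
    have t3 := pc_rho_approx d hd hf hR hr hε2
    rw [← (pc_rho_test d hd hf hR hr hr2.le).2] at t3
    rw [← hcr] at t3
    set X := ∫ z, Phi A z * ph f r z
    set Y := ∫ z, Upot d ‖z‖ * ph f r z
    set I := ∫ z, f z * rho d z
    set D := ∫ z in Metric.closedBall (0 : ℂ) (R + 2 * r), |Phi A z - Upot d ‖z‖|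
    have t4 : |cr * Nf A f - cr * I| ≤ cr * (ε / 4) + cr * (ε / 4) + C * D := by
      rw [abs_le] at *
      constructor <;> linarith [t1.1, t1.2, t2.1, t2.2, t3.1, t3.2]
    rw [← mul_sub, abs_mul, abs_of_pos hcr0] at t4
    have t5 : |Nf A f - I| ≤ (cr * (ε / 4) + cr * (ε / 4) + C * D) / cr := by
      rw [le_div_iff₀ hcr0]; linarith
    refine t5.trans (le_of_eq ?_)
    field_simp
  have h2 := avg_bound hne _ _ _ key
  rw [avg_add', avg_const' hne, avg_mul'] at h2
  rw [Real.dist_eq]
  refine lt_of_le_of_lt h2 ?_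
  have h3 : C / cr * avg (Reg n d) (fun A =>
      ∫ z in Metric.closedBall (0 : ℂ) (R + 2 * r), |Phi A z - Upot d ‖z‖|) ≤
      C / cr * (cr * (ε / 4) / (C + 1)) :=
    mul_le_mul_of_nonneg_left hsmall2.le (by positivity)
  have h4 : C / cr * (cr * (ε / 4) / (C + 1)) ≤ ε / 4 := by
    have : C / cr * (cr * (ε / 4) / (C + 1)) = (ε / 4) * (C / (C + 1)) := by
      field_simp
    rw [this]
    have h5 : C / (C + 1) ≤ 1 := by
      rw [div_le_one (by linarith)]; linarith
    calc (ε / 4) * (C / (C + 1)) ≤ (ε / 4) * 1 := mul_le_mul_of_nonneg_left h5 (by linarith)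
      _ = _ := mul_one _
  linarith


/-- cut-off function -/
noncomputable def pchi (d k : ℕ) (z : ℂ) : ℝ := min 1 (max 0 ((k : ℝ) * (√(d:ℝ) - ‖z‖) - 1))

lemma pchi_continuous (d k : ℕ) : Continuous (pchi d k) := by
  unfold pchi; fun_prop

lemma pchi_nonneg (d k : ℕ) (z : ℂ) : 0 ≤ pchi d k z :=
  le_min zero_le_one (le_max_left _ _)

lemma pchi_le_one (d k : ℕ) (z : ℂ) : pchi d k z ≤ 1 := min_le_left _ _

lemma pchi_zero (d : ℕ) {k : ℕ} (hk : 0 < k) (z : ℂ) (hz : √(d:ℝ) - 1 / k ≤ ‖z‖) :
    pchi d k z = 0 := by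
  have hk' : (0:ℝ) < k := by exact_mod_cast hk
  unfold pchi
  rw [max_eq_left, min_eq_right zero_le_one]
  have h1 : (k:ℝ) * (√(d:ℝ) - ‖z‖) ≤ k * (1 / k) :=
    mul_le_mul_of_nonneg_left (by linarith) hk'.le
  rw [mul_one_div_cancel hk'.ne'] at h1
  linarith

lemma pchi_tendsto (d : ℕ) (z : ℂ) (hz : ‖z‖ < √(d:ℝ)) :
    Tendsto (fun k : ℕ => pchi d k z) atTop (𝓝 1) := by
  apply tendsto_const_nhds.congr'
  have h1 : Tendsto (fun k : ℕ => (k : ℝ) * (√(d:ℝ) - ‖z‖)) atTop atTop :=
    tendsto_natCast_atTop_atTop.atTop_mul_const (by linarith)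
  filter_upwards [h1.eventually_ge_atTop 2] with k hk
  unfold pchi
  rw [min_eq_left]
  exact le_max_of_le_right (by linarith)

lemma pchi_int_tendsto (d : ℕ) (hd : 2 ≤ d) :
    Tendsto (fun k : ℕ => ∫ z, pchi d k z * rho d z) atTop (𝓝 1) := by
  rw [← integral_rho d hd]
  apply tendsto_integral_of_dominated_convergence (rho d)
  · intro k
    exact (pchi_continuous d k).aestronglyMeasurable.mul (integrable_rho d hd).aestronglyMeasurable
  · exact integrable_rho d hd
  · intro k
    apply Eventually.of_forall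
    intro z
    rw [Real.norm_eq_abs, abs_mul, abs_of_nonneg (pchi_nonneg d k z),
      abs_of_nonneg (rho_nonneg d hd z)]
    calc pchi d k z * rho d z ≤ 1 * rho d z :=
          mul_le_mul_of_nonneg_right (pchi_le_one d k z) (rho_nonneg d hd z)
      _ = _ := one_mul _
  · apply Eventually.of_forall
    intro z
    by_cases hz : ‖z‖ < √(d:ℝ)
    · have := (pchi_tendsto d z hz).mul_const (rho d z)
      rwa [one_mul] at this
    · rw [pc_rho_zero (not_lt.1 hz)]
      simp

theorem weak_conv (d : ℕ) (hd : 2 ≤ d)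
    (hL1 : ∀ ρ : ℝ, 0 < ρ → ρ < √d → Tendsto (fun n : ℕ => avg (Reg n d) (fun A =>
      ∫ z in Metric.closedBall (0 : ℂ) ρ, |Phi A z - Upot d ‖z‖|)) atTop (𝓝 0))
    (f : ℂ → ℝ) (hf : Continuous f) (hfb : ∃ C : ℝ, ∀ z, |f z| ≤ C) :
    Tendsto (fun n : ℕ => avg (Reg n d) (fun A => Nf A f)) atTop (𝓝 (∫ z, f z * rho d z)) := by
  obtain ⟨C, hC⟩ := hfb
  have hC0 : 0 ≤ C := (abs_nonneg _).trans (hC 0)
  have hsq : 1 < √(d:ℝ) := by
    rw [Real.lt_sqrt (by norm_num)]
    have : (2:ℝ) ≤ d := by exact_mod_cast hd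
    linarith
  rw [Metric.tendsto_atTop]
  intro ε hε
  set η := ε / (2 * (1 + 3 * C)) with hη_def
  have hη : 0 < η := by positivity
  have hηε : η * (1 + 3 * C) < ε := by
    rw [hη_def]
    have h1 : ε / (2 * (1 + 3 * C)) * (1 + 3 * C) = ε / 2 := by
      field_simp
    rw [h1]; linarith
  obtain ⟨k0, hk0⟩ := Metric.tendsto_atTop.1 (pchi_int_tendsto d hd) η hη
  set k := max k0 1
  have hk1 : 0 < k := lt_of_lt_of_le one_pos (le_max_right _ _)
  have hk1' : (1:ℝ) ≤ k := by exact_mod_cast hk1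
  have hkint := hk0 k (le_max_left _ _)
  rw [Real.dist_eq] at hkint
  set R := √(d:ℝ) - 1 / k with hR_def
  have hk2 : (1:ℝ) / k ≤ 1 := by
    rw [div_le_one (by linarith)]; exact hk1'
  have hk3 : (0:ℝ) < 1 / k := by positivity
  have hR0 : 0 < R := by rw [hR_def]; linarith
  have hRd : R < √(d:ℝ) := by rw [hR_def]; linarith
  have hw1 := pc_weak_cs d hd hL1 (pchi_continuous d k) hR0 hRd
    (fun z hz => pchi_zero d hk1 z hz)
  have hw2 := pc_weak_cs d hd hL1 (f := fun z => f z * pchi d k z)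
    (hf.mul (pchi_continuous d k)) hR0 hRd
    (fun z hz => by rw [pchi_zero d hk1 z hz, mul_zero])
  obtain ⟨N1, hN1⟩ := Metric.tendsto_atTop.1 hw1 η hη
  obtain ⟨N2, hN2⟩ := Metric.tendsto_atTop.1 hw2 η hη
  -- the part of the limit outside the cut-off
  have hi1 := pc_rho_mul_int d hd hf hC
  have hi2 := pc_rho_mul_int d hd (pchi_continuous d k) (C := 1)
    (fun z => by rw [abs_of_nonneg (pchi_nonneg d k z)]; exact pchi_le_one d k z)
  have hi3 := pc_rho_mul_int d hd (f := fun z => f z * pchi d k z)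
    (hf.mul (pchi_continuous d k)) (C := C)
    (fun z => by
      rw [abs_mul, abs_of_nonneg (pchi_nonneg d k z)]
      calc |f z| * pchi d k z ≤ |f z| * 1 :=
            mul_le_mul_of_nonneg_left (pchi_le_one d k z) (abs_nonneg _)
        _ ≤ C := by rw [mul_one]; exact hC z)
  have hlim : |(∫ z, f z * rho d z) - ∫ z, f z * pchi d k z * rho d z| ≤
      C * (1 - ∫ z, pchi d k z * rho d z) := by
    rw [← integral_sub hi1 hi3, ← integral_rho d hd, ← integral_sub (integrable_rho d hd) hi2,
      ← integral_const_mul]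
    refine abs_integral_le_integral_abs.trans ?_
    apply integral_mono_of_nonneg (Eventually.of_forall fun a => abs_nonneg _)
      (((integrable_rho d hd).sub hi2).const_mul C)
    apply Eventually.of_forall
    intro z
    simp only [Pi.sub_apply]
    have h1 : f z * rho d z - f z * pchi d k z * rho d z =
        f z * ((1 - pchi d k z) * rho d z) := by ring
    have h2 : 0 ≤ (1 - pchi d k z) * rho d z :=
      mul_nonneg (by linarith [pchi_le_one d k z]) (rho_nonneg d hd z)
    have h3 : rho d z - pchi d k z * rho d z = (1 - pchi d k z) * rho d z := by ring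
    rw [h1, abs_mul, abs_of_nonneg h2, h3]
    exact mul_le_mul_of_nonneg_right (hC z) h2
  refine ⟨max (max N1 N2) (max d 1), fun n hn => ?_⟩
  have hnN1 : N1 ≤ n := ((le_max_left _ _).trans (le_max_left _ _)).trans hn
  have hnN2 : N2 ≤ n := ((le_max_right _ _).trans (le_max_left _ _)).trans hn
  have hnd : d ≤ n := ((le_max_left _ _).trans (le_max_right _ _)).trans hn
  have hn1 : 0 < n := ((le_max_right _ _).trans (le_max_right _ _)).trans hn
  have hne := pc_Reg_nonempty hn1 hnd
  have e1 := hN1 n hnN1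
  have e2 := hN2 n hnN2
  rw [Real.dist_eq] at e1 e2
  have hA : ∀ A ∈ Reg n d, |(Nf A f - Nf A (fun z => f z * pchi d k z)) - 0| ≤
      C * (1 - Nf A (pchi d k)) := by
    intro A _
    have h1 : C * (1 - Nf A (pchi d k)) = Nf A (fun z => C * (1 - pchi d k z)) := by
      rw [Nf_const_mul, Nf_sub, Nf_const hn1]
    rw [sub_zero, ← Nf_sub, h1, abs_le]
    have hb : ∀ z, |f z - f z * pchi d k z| ≤ C * (1 - pchi d k z) := by
      intro z
      have h2 : 0 ≤ 1 - pchi d k z := by linarith [pchi_le_one d k z]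
      have h3 : f z - f z * pchi d k z = f z * (1 - pchi d k z) := by ring
      rw [h3, abs_mul, abs_of_nonneg h2]
      exact mul_le_mul_of_nonneg_right (hC z) h2
    constructor
    · have h4 : -Nf A (fun z => C * (1 - pchi d k z)) =
          Nf A (fun z => (-1) * (C * (1 - pchi d k z))) := by
        rw [Nf_const_mul A (fun z => C * (1 - pchi d k z)) (-1)]
        ring
      rw [h4]
      apply Nf_mono
      intro z
      have := (abs_le.1 (hb z)).1
      linarith
    · apply Nf_mono
      intro z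
      exact (abs_le.1 (hb z)).2
  have hB := avg_bound hne _ _ _ hA
  rw [avg_sub', avg_mul', avg_sub', avg_const' hne, sub_zero] at hB
  rw [Real.dist_eq]
  set a1 := avg (Reg n d) (fun A => Nf A f)
  set a2 := avg (Reg n d) (fun A => Nf A (fun z => f z * pchi d k z))
  set a3 := avg (Reg n d) (fun A => Nf A (pchi d k))
  set I1 := ∫ z, f z * rho d z
  set I2 := ∫ z, f z * pchi d k z * rho d z
  set I3 := ∫ z, pchi d k z * rho d z
  have e3 : 1 - I3 ≤ η := by
    have := (abs_lt.1 hkint).1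
    linarith
  have e4 : 1 - a3 ≤ 2 * η := by
    have := (abs_lt.1 e1).1
    linarith
  have e5 : C * (1 - I3) ≤ C * η := mul_le_mul_of_nonneg_left e3 hC0
  have e6 : C * (1 - a3) ≤ C * (2 * η) := mul_le_mul_of_nonneg_left e4 hC0
  have e7 : |a1 - I1| ≤ |a1 - a2| + |a2 - I2| + |I1 - I2| := by
    have h1 : a1 - I1 = (a1 - a2) + (a2 - I2) - (I1 - I2) := by ring
    rw [h1]
    exact (abs_sub _ _).trans (by gcongr; exact abs_add_le _ _)
  calc |a1 - I1| ≤ |a1 - a2| + |a2 - I2| + |I1 - I2| := e7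
    _ ≤ C * (2 * η) + η + C * η := by
        have := e2.le
        linarith
    _ = η * (1 + 3 * C) := by ring
    _ < ε := hηε

end Pool.Agent.KM
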