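import Pool.Agent.KM.Core
import Pool.Agent.KM.PotConv
import Pool.Agent.KM.DOne

set_option autoImplicit false
open Finset Filter Topology MeasureTheory

namespace Pool.Agent.KM
open Pool.Agent.SMin

/-! ## Final assembly -/

theorem main_ge_two (d : ℕ) (hd : 2 ≤ d) (f : ℂ → ℝ) (hf : Continuous f)
    (hfb : ∃ C : ℝ, ∀ z, |f z| ≤ C) :
    Tendsto (fun n : ℕ => avg (Reg n d) (fun A => Nf A f)) atTop (𝓝 (∫ z, f z * rho d z)) :=
  weak_conv d hd (fun ρ h0 h1 => potential_L1 d hd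
    (fun z h2 _ h3 h4 δ hδ => core d hd z h2 h3 h4 δ hδ) ρ h0 h1) f hf hfb

end Pool.Agent.KM
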