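import Pool.Agent.KM.MomExp

set_option autoImplicit false
open Finset

namespace Pool.Agent.KM
open Pool.Agent.SMin

/-! ## Module MOM (MomCnt.lean): counting the contributing families -/

section cnt
variable {n d : ℕ} {R : Type*} [Fintype R] [DecidableEq R]

/-- two families have the same `none` sets -/
def moSame {X : Type*} (c c' : R → X → Option (Fin d)) : Prop := ∀ r i, c r i = none ↔ c' r i = none

/-- configurations which transport the types of `c` to the types of `c'` -/
noncomputable def moTr (c c' : R → Fin n → Option (Fin d)) : Finset (Cfg n d) :=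
  univ.filter (fun σ => ∀ s, moty c' (σ s) = moty c s)

/-- number of stubs of type `Q` -/
def mocnt (c : R → Fin n → Option (Fin d)) (Q : Finset R) : ℕ :=
  (univ.filter (fun s : Fin n × Fin d => moty c s = Q)).card

/-- every configuration for which all maps are injective transports the types of `c` to the types
of some `c'` with the same `none` sets -/
lemma mo_exists_in (c : R → Fin n → Option (Fin d)) (σ : Cfg n d)
    (h : ∀ r, Function.Injective (mof σ (c r))) :
    ∃ c' : R → Fin n → Option (Fin d), moSame c c' ∧ σ ∈ moTr c c' := by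
  classical
  have hb : ∀ r, Function.Bijective (mof σ (c r)) := fun r => Finite.injective_iff_bijective.1 (h r)
  -- for every `r, j` with `c r j ≠ none` there is a stub of replica `r` whose head is `j`
  have key : ∀ r j, c r j ≠ none → ∃ b : Fin d, c r (σ.symm (j, b)).1 = some (σ.symm (j, b)).2 := by
    intro r j hj
    obtain ⟨i, hi⟩ := (hb r).2 j
    rcases hc : c r i with _ | a
    · exfalso
      have : mof σ (c r) i = i := by unfold mof; rw [hc]
      rw [this] at hi
      rw [hi] at hc
      exact hj hc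
    · have h1 : mof σ (c r) i = (σ (i, a)).1 := by unfold mof; rw [hc]; rfl
      rw [h1] at hi
      refine ⟨(σ (i, a)).2, ?_⟩
      rw [← hi, Prod.mk.eta, Equiv.symm_apply_apply]
      exact hc
  refine ⟨fun r j => if hj : c r j ≠ none then some (key r j hj).choose else none, ?_, ?_⟩
  · intro r j
    by_cases hj : c r j = none
    · simp [hj]
    · simp [hj]
  · unfold moTr
    simp only [mem_filter, mem_univ, true_and]
    intro s
    ext r
    rw [mo_mem_ty, mo_mem_ty]
    constructor
    · intro h1
      split_ifs at h1 with hj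
      · rw [Option.some.injEq] at h1
        have h2 := (key r (σ s).1 hj).choose_spec
        rw [h1, Prod.mk.eta, Equiv.symm_apply_apply] at h2
        exact h2
    · intro h1
      have hf : mof σ (c r) s.1 = (σ s).1 := by
        unfold mof; rw [h1]; rfl
      have hj : c r (σ s).1 ≠ none := by
        intro h2
        have h3 : mof σ (c r) (σ s).1 = (σ s).1 := by unfold mof; rw [h2]
        have h4 := h r (hf.trans h3.symm)
        rw [← h4, h1] at h2
        exact absurd h2 (by simp)
      rw [dif_pos hj, Option.some.injEq]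
      have h2 := (key r (σ s).1 hj).choose_spec
      set b := (key r (σ s).1 hj).choose
      have h3 : mof σ (c r) (σ.symm ((σ s).1, b)).1 = (σ s).1 := by
        unfold mof
        rw [h2]
        show (σ ((σ.symm ((σ s).1, b)).1, (σ.symm ((σ s).1, b)).2)).1 = (σ s).1
        rw [Prod.mk.eta, Equiv.apply_symm_apply]
      have h4 := h r (hf.trans h3.symm)
      have h5 : σ.symm ((σ s).1, b) = s := by
        refine Prod.ext h4.symm ?_
        rw [← h4, h1, Option.some.injEq] at h2
        exact h2.symm
      have h6 : ((σ s).1, b) = σ s := by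
        rw [← h5, Equiv.apply_symm_apply]
      rw [← h6]

open Classical in
lemma mo_K_le (c : R → Fin n → Option (Fin d)) :
    ((univ.filter (fun σ : Cfg n d => ∀ r, Function.Injective (mof σ (c r)))).card) ≤
      ∑ c' ∈ univ.filter (fun c' : R → Fin n → Option (Fin d) => moSame c c'), (moTr c c').card := by
  refine le_trans (card_le_card ?_) card_biUnion_le
  intro σ hσ
  obtain ⟨c', h1, h2⟩ := mo_exists_in c σ (mem_filter.1 hσ).2
  exact mem_biUnion.2 ⟨c', mem_filter.2 ⟨mem_univ _, h1⟩, h2⟩

/-- counts agree if there is a transporting configuration -/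
lemma mo_cnt_eq (c c' : R → Fin n → Option (Fin d)) (σ : Cfg n d) (hσ : σ ∈ moTr c c')
    (Q : Finset R) : mocnt c' Q = mocnt c Q := by
  classical
  unfold moTr at hσ
  simp only [mem_filter, mem_univ, true_and] at hσ
  unfold mocnt
  symm
  apply card_bij (fun s _ => σ s)
  · intro s hs
    simp only [mem_filter, mem_univ, true_and] at hs ⊢
    rw [hσ, hs]
  · intro s _ s' _ h
    exact σ.injective h
  · intro t ht
    refine ⟨σ.symm t, ?_, by simp⟩
    simp only [mem_filter, mem_univ, true_and] at ht ⊢
    rw [← hσ, Equiv.apply_symm_apply, ht]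

/-- number of transporting configurations -/
lemma mo_card_tr (c c' : R → Fin n → Option (Fin d)) :
    (moTr c c').card ≤ ∏ Q : Finset R, (mocnt c Q).factorial := by
  classical
  rcases (moTr c c').eq_empty_or_nonempty with h | ⟨σ0, h0⟩
  · rw [h]; simp
  · have h1 : (moTr c c').card ≤ (univ.filter (fun g : Equiv.Perm (Fin n × Fin d) => moty c ∘ g = moty c)).card := by
      apply card_le_card_of_injOn (fun σ => σ0⁻¹ * σ)
      · intro σ hσ
        have hσ' : ∀ s, moty c' (σ s) = moty c s := (mem_filter.1 (mem_coe.1 hσ)).2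
        have h0' : ∀ s, moty c' (σ0 s) = moty c s := (mem_filter.1 h0).2
        refine mem_coe.2 (mem_filter.2 ⟨mem_univ _, ?_⟩)
        funext s
        simp only [Function.comp_apply, Equiv.Perm.mul_apply]
        rw [← h0', ← Equiv.Perm.mul_apply, mul_inv_cancel, Equiv.Perm.one_apply, hσ']
      · intro σ _ σ' _ h
        exact mul_left_cancel h
    refine h1.trans (le_of_eq ?_)
    have h2 := DomMulAct.stabilizer_card (moty c)
    have h3 : (univ.filter (fun g : Equiv.Perm (Fin n × Fin d) => moty c ∘ g = moty c)).card =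
        Fintype.card {g : Equiv.Perm (Fin n × Fin d) // moty c ∘ g = moty c} := by
      rw [Fintype.card_subtype]
    rw [h3, h2]
    apply prod_congr rfl
    intro Q _
    congr 1
    unfold mocnt
    rw [Fintype.card_subtype]

/-- elementary factorial bound -/
lemma mo_fact_le (N m : ℕ) (hN : 1 ≤ N) (hm : m ≤ N) :
    (m.factorial : ℝ) ≤ (Real.exp 1 * N) * Real.exp (-(m : ℝ)) * (m : ℝ) ^ m := by
  -- m! ≤ e m (m/e)^m
  have hN' : (1 : ℝ) ≤ N := by exact_mod_cast hN
  induction m with
  | zero =>
    simp only [Nat.factorial_zero, Nat.cast_one, Nat.cast_zero, neg_zero, Real.exp_zero, mul_one,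
      pow_zero]
    have : (1 : ℝ) ≤ Real.exp 1 := Real.one_le_exp (by norm_num)
    nlinarith
  | succ m _ =>
    -- use  k! ≤ e * k * (k/e)^k for k ≥ 1
    have hk : ∀ k : ℕ, 1 ≤ k → (k.factorial : ℝ) ≤ Real.exp 1 * k * (Real.exp (-(k : ℝ)) * (k : ℝ) ^ k) := by
      intro k hk
      induction k, hk using Nat.le_induction with
      | base =>
        simp only [Nat.factorial_one, Nat.cast_one, pow_one, mul_one]
        rw [← Real.exp_add]; simp
      | succ k hk ih =>
        have hk0 : (0 : ℝ) < k := by exact_mod_cast hk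
        rw [Nat.factorial_succ]
        push_cast
        -- (k+1) * k! ≤ (k+1) * e k e^{-k} k^k ≤ e (k+1) e^{-(k+1)} (k+1)^{k+1}  iff  k^{k+1} e ≤ (k+1)^{k+1}
        have h1 : Real.exp 1 * (k : ℝ) ^ (k + 1) ≤ ((k : ℝ) + 1) ^ (k + 1) := by
          have h2 : Real.exp (1 / ((k : ℝ) + 1)) ≤ ((k : ℝ) + 1) / k := by
            have h3 : 1 - 1 / ((k : ℝ) + 1) ≤ Real.exp (-(1 / ((k : ℝ) + 1))) := Real.one_sub_le_exp_neg _
            have h4 : 1 - 1 / ((k : ℝ) + 1) = k / (k + 1) := by field_simp; ring
            rw [h4] at h3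
            rw [Real.exp_neg] at h3
            have h5 : 0 < Real.exp (1 / ((k : ℝ) + 1)) := Real.exp_pos _
            rw [le_div_iff₀ hk0]
            have h6 : (k : ℝ) / (k + 1) * Real.exp (1 / ((k : ℝ) + 1)) ≤ 1 := by
              calc (k : ℝ) / (k + 1) * Real.exp (1 / ((k : ℝ) + 1)) ≤
                    (Real.exp (1 / ((k : ℝ) + 1)))⁻¹ * Real.exp (1 / ((k : ℝ) + 1)) := by gcongr
                _ = 1 := inv_mul_cancel₀ h5.ne'
            rw [div_mul_eq_mul_div, div_le_one (by positivity)] at h6
            linarith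
          have h7 : Real.exp 1 = Real.exp (1 / ((k : ℝ) + 1)) ^ (k + 1) := by
            rw [← Real.exp_nat_mul]
            congr 1
            push_cast
            field_simp
          rw [h7, ← mul_pow]
          apply pow_le_pow_left₀ (by positivity)
          calc Real.exp (1 / ((k : ℝ) + 1)) * k ≤ ((k : ℝ) + 1) / k * k := by gcongr
            _ = (k : ℝ) + 1 := by field_simp
        have h8 : Real.exp (-((k : ℝ) + 1)) = Real.exp (-(k : ℝ)) * Real.exp (-1) := by
          rw [← Real.exp_add]; congr 1; ring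
        rw [h8]
        have h9 : Real.exp 1 * Real.exp (-1) = 1 := by rw [← Real.exp_add]; simp
        calc ((k : ℝ) + 1) * (k.factorial : ℝ) ≤
              ((k : ℝ) + 1) * (Real.exp 1 * k * (Real.exp (-(k : ℝ)) * (k : ℝ) ^ k)) := by gcongr
          _ = ((k : ℝ) + 1) * Real.exp (-(k : ℝ)) * (Real.exp 1 * (k : ℝ) ^ (k + 1)) := by ring
          _ ≤ ((k : ℝ) + 1) * Real.exp (-(k : ℝ)) * ((k : ℝ) + 1) ^ (k + 1) := by gcongr
          _ = (Real.exp 1 * Real.exp (-1)) * (((k : ℝ) + 1) * Real.exp (-(k : ℝ)) * ((k : ℝ) + 1) ^ (k + 1)) := by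
              rw [h9, one_mul]
          _ = _ := by ring
    have h1 := hk (m + 1) (by omega)
    have h2 : ((m + 1 : ℕ) : ℝ) ≤ N := by exact_mod_cast hm
    refine h1.trans ?_
    rw [← mul_assoc]
    gcongr

lemma mo_fact_ge (N : ℕ) : (N : ℝ) ^ N * Real.exp (-(N : ℝ)) ≤ (N.factorial : ℝ) := by
  induction N with
  | zero => simp
  | succ k ih =>
    rcases Nat.eq_zero_or_pos k with hk | hk
    · subst hk
      simp
    · have hk0 : (0 : ℝ) < k := by exact_mod_cast hk
      rw [Nat.factorial_succ]
      push_cast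
      have h1 : ((k : ℝ) + 1) ^ k ≤ Real.exp 1 * (k : ℝ) ^ k := by
        have h2 : ((k : ℝ) + 1) ≤ Real.exp (1 / k) * k := by
          have h3 : 1 / (k : ℝ) + 1 ≤ Real.exp (1 / k) := Real.add_one_le_exp _
          calc (k : ℝ) + 1 = (1 / (k : ℝ) + 1) * k := by field_simp; ring
            _ ≤ _ := by gcongr
        calc ((k : ℝ) + 1) ^ k ≤ (Real.exp (1 / k) * k) ^ k := pow_le_pow_left₀ (by positivity) h2 _
          _ = Real.exp 1 * (k : ℝ) ^ k := by
            rw [mul_pow, ← Real.exp_nat_mul]
            congr 2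
            field_simp
      have h8 : Real.exp (-((k : ℝ) + 1)) = Real.exp (-(k : ℝ)) * Real.exp (-1) := by
        rw [← Real.exp_add]; congr 1; ring
      have h9 : Real.exp 1 * Real.exp (-1) = 1 := by rw [← Real.exp_add]; simp
      rw [h8]
      calc ((k : ℝ) + 1) ^ (k + 1) * (Real.exp (-(k : ℝ)) * Real.exp (-1)) =
            ((k : ℝ) + 1) * Real.exp (-(k : ℝ)) * Real.exp (-1) * ((k : ℝ) + 1) ^ k := by ring
        _ ≤ ((k : ℝ) + 1) * Real.exp (-(k : ℝ)) * Real.exp (-1) * (Real.exp 1 * (k : ℝ) ^ k) := by gcongr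
        _ = (Real.exp 1 * Real.exp (-1)) * ((k : ℝ) + 1) * ((k : ℝ) ^ k * Real.exp (-(k : ℝ))) := by ring
        _ ≤ (Real.exp 1 * Real.exp (-1)) * ((k : ℝ) + 1) * (k.factorial : ℝ) := by gcongr
        _ = _ := by rw [h9, one_mul]

end cnt

end Pool.Agent.KM
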