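import Pool.Agent.KM.WordCount

set_option autoImplicit false
open Finset

namespace Pool.Agent.KM
open Pool.Agent.SMin

/-- number of configurations with prescribed heads of one stub at every vertex of `V` -/
theorem mt_count {n d : ℕ} (V : Finset (Fin n)) (s : Fin n → Fin d) (φ : Fin n → Fin n)
    (hφ : Set.InjOn φ V) :
    (univ.filter (fun σ : Cfg n d => ∀ i ∈ V, hd σ i (s i) = φ i)).card =
      d ^ V.card * (n * d - V.card).factorial := by
  classical
  rw [Finset.card_eq_sum_card_fiberwise
    (f := fun (σ : Cfg n d) (i : V) => (σ ((i : Fin n), s i)).2)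
    (t := (univ : Finset (V → Fin d))) (fun _ _ => by simp)]
  have key : ∀ b : V → Fin d,
      ((univ.filter (fun σ : Cfg n d => ∀ i ∈ V, hd σ i (s i) = φ i)).filter
        (fun σ => (fun i : V => (σ ((i : Fin n), s i)).2) = b)).card =
      (n * d - V.card).factorial := by
    intro b
    let e : Fin (Fintype.card V) ≃ V := (Fintype.equivFin V).symm
    let u : Fin (Fintype.card V) → Fin n × Fin d := fun t => ((e t : Fin n), s (e t))
    let v : Fin (Fintype.card V) → Fin n × Fin d := fun t => (φ (e t), b (e t))
    have hu : Function.Injective u := by
      intro x y hxy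
      have h1 : (e x : Fin n) = e y := congrArg Prod.fst hxy
      exact e.injective (Subtype.ext h1)
    have hv : Function.Injective v := by
      intro x y hxy
      have h1 : φ (e x : Fin n) = φ (e y) := congrArg Prod.fst hxy
      exact e.injective (Subtype.ext (hφ (e x).2 (e y).2 h1))
    have h := card_extend u v (fun x y => by rw [hu.eq_iff, hv.eq_iff])
    rw [card_image_of_injective _ hu] at h
    have h2 : ((univ.filter (fun σ : Cfg n d => ∀ i ∈ V, hd σ i (s i) = φ i)).filter
        (fun σ => (fun i : V => (σ ((i : Fin n), s i)).2) = b)) =
        univ.filter (fun σ : Cfg n d => ∀ t, σ (u t) = v t) := by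
      ext σ
      simp only [mem_filter, mem_univ, true_and]
      constructor
      · rintro ⟨h3, h4⟩ t
        refine Prod.ext ?_ ?_
        · exact h3 (e t) (e t).2
        · exact congrFun h4 (e t)
      · intro h3
        constructor
        · intro i hi
          have h4 := h3 (e.symm ⟨i, hi⟩)
          simp only [u, v, Equiv.apply_symm_apply] at h4
          unfold hd
          rw [h4]
        · funext i
          have h4 := h3 (e.symm i)
          simp only [u, v, Equiv.apply_symm_apply] at h4
          rw [h4]
    rw [h2, h]
    simp
  rw [sum_congr rfl (fun b _ => key b), sum_const, card_univ, Fintype.card_fun]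
  simp

end Pool.Agent.KM
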