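import Pool.Agent.KM.Defs

set_option autoImplicit false
open Finset

namespace Pool.Agent.KM
open Pool.Agent.SMin

/-! ## Module MOM (MomExp.lean): expansion of the determinant and cancellation -/

section exp
variable {n d : ℕ}

/-- the map chosen by `c` : `none` = stay, `some a` = head of the out-stub `(i,a)` -/
def mof (σ : Cfg n d) (c : Fin n → Option (Fin d)) (i : Fin n) : Fin n :=
  match c i with
  | none => i
  | some a => hd σ i a

/-- weight of an option -/
def mow (z : ℂ) : Option (Fin d) → ℂ
  | none => -z
  | some _ => 1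

/-- determinant of the matrix with rows `e_{f i}` -/
noncomputable def moD (f : Fin n → Fin n) : ℂ :=
  (Matrix.of (fun i j : Fin n => if f i = j then (1 : ℂ) else 0)).det

lemma mo_row (z : ℂ) (σ : Cfg n d) (i : Fin n) :
    MM z (mult σ) i = ∑ o : Option (Fin d), mow z o •
      (fun j : Fin n => if (match o with | none => i | some a => hd σ i a) = j then (1 : ℂ) else 0) := by
  classical
  funext j
  rw [Fintype.sum_option]
  simp only [MM, Matrix.sub_apply, Matrix.of_apply, Matrix.smul_apply, Matrix.one_apply, mow,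
    Pi.add_apply, Pi.smul_apply, Finset.sum_apply, smul_eq_mul, one_mul]
  have h : (mult σ i j : ℂ) = ∑ a : Fin d, if hd σ i a = j then (1 : ℂ) else 0 := by
    unfold mult
    rw [Finset.card_filter]
    push_cast
    rfl
  rw [h]
  ring

/-- multilinear expansion of the determinant -/
lemma mo_det (z : ℂ) (σ : Cfg n d) :
    (MM z (mult σ)).det = ∑ c : Fin n → Option (Fin d), (∏ i, mow z (c i)) * moD (mof σ c) := by
  classical
  have h1 : (MM z (mult σ)).det = Matrix.detRowAlternating (fun i => MM z (mult σ) i) := rfl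
  rw [h1]
  simp_rw [mo_row]
  have h2 := (Matrix.detRowAlternating (n := Fin n) (R := ℂ)).toMultilinearMap.map_sum
    (fun (i : Fin n) (o : Option (Fin d)) => mow z o •
      (fun j : Fin n => if (match o with | none => i | some a => hd σ i a) = j then (1 : ℂ) else 0))
  have h3 : Matrix.detRowAlternating (fun i => ∑ o : Option (Fin d), mow z o •
      (fun j : Fin n => if (match o with | none => i | some a => hd σ i a) = j then (1 : ℂ) else 0)) =
      (Matrix.detRowAlternating (n := Fin n) (R := ℂ)).toMultilinearMap (fun i => ∑ o : Option (Fin d), mow z o •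
      (fun j : Fin n => if (match o with | none => i | some a => hd σ i a) = j then (1 : ℂ) else 0)) := rfl
  rw [h3, h2]
  apply sum_congr rfl
  intro c _
  rw [MultilinearMap.map_smul_univ, smul_eq_mul]
  rfl

lemma moD_swap (f : Fin n → Fin n) (i i' : Fin n) (h : i ≠ i') :
    moD (f ∘ Equiv.swap i i') = - moD f := by
  classical
  unfold moD
  have h1 : (Matrix.of (fun a j : Fin n => if (f ∘ Equiv.swap i i') a = j then (1 : ℂ) else 0)) =
      (Matrix.of (fun a j : Fin n => if f a = j then (1 : ℂ) else 0)).submatrix (Equiv.swap i i') id := by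
    ext a b
    simp
  rw [h1, Matrix.det_permute, Equiv.Perm.sign_swap h]
  simp

lemma moD_not_inj (f : Fin n → Fin n) (h : ¬ Function.Injective f) : moD f = 0 := by
  classical
  unfold Function.Injective at h
  push Not at h
  obtain ⟨a, b, hab, hne⟩ := h
  unfold moD
  apply Matrix.det_zero_of_row_eq hne
  funext j
  simp [Matrix.of_apply, hab]

lemma moD_norm (f : Fin n → Fin n) : ‖moD f‖ ≤ 1 := by
  classical
  by_cases h : Function.Injective f
  · have hb : Function.Bijective f := Finite.injective_iff_bijective.1 h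
    have h1 : moD f = ((Equiv.Perm.sign (Equiv.ofBijective f hb) : ℤ) : ℂ) := by
      unfold moD
      have h2 : (Matrix.of (fun a j : Fin n => if f a = j then (1 : ℂ) else 0)) =
          (1 : Matrix (Fin n) (Fin n) ℂ).submatrix (Equiv.ofBijective f hb) id := by
        ext a b
        simp [Matrix.one_apply]
      rw [h2, Matrix.det_permute]
      simp
    rw [h1]
    rcases Int.units_eq_one_or (Equiv.Perm.sign (Equiv.ofBijective f hb)) with h2 | h2 <;>
      rw [h2] <;> simp
  · rw [moD_not_inj f h]; simp

end exp

section repl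
variable {n d : ℕ} {R : Type*} [Fintype R] [DecidableEq R]

/-- type of an out-stub: the replicas which use it -/
def moty (c : R → Fin n → Option (Fin d)) (s : Fin n × Fin d) : Finset R :=
  univ.filter (fun r => c r s.1 = some s.2)

lemma mo_mem_ty (c : R → Fin n → Option (Fin d)) (s : Fin n × Fin d) (r : R) :
    r ∈ moty c s ↔ c r s.1 = some s.2 := by
  simp [moty]

/-- sum over the configurations of the product of signs -/
noncomputable def moE (c : R → Fin n → Option (Fin d)) : ℂ :=
  ∑ σ : Cfg n d, ∏ r, moD (mof σ (c r))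

lemma mo_mof_swap_mem (σ : Cfg n d) (c : Fin n → Option (Fin d)) (s s' : Fin n × Fin d)
    (hs : c s.1 = some s.2) (hs' : c s'.1 = some s'.2) :
    mof (σ * Equiv.swap s s') c = mof σ c ∘ Equiv.swap s.1 s'.1 := by
  classical
  funext j
  simp only [Function.comp_apply]
  by_cases h1 : j = s.1
  · subst h1
    rw [Equiv.swap_apply_left]
    simp only [mof, hs, hs', hd, Equiv.Perm.mul_apply, Prod.mk.eta, Equiv.swap_apply_left]
  · by_cases h2 : j = s'.1
    · subst h2
      rw [Equiv.swap_apply_right]
      simp only [mof, hs, hs', hd, Equiv.Perm.mul_apply, Prod.mk.eta, Equiv.swap_apply_right]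
    · rw [Equiv.swap_apply_of_ne_of_ne h1 h2]
      unfold mof
      rcases hc : c j with _ | a
      · rfl
      · simp only [hd, Equiv.Perm.mul_apply]
        rw [Equiv.swap_apply_of_ne_of_ne]
        · intro h; exact h1 (by rw [← h])
        · intro h; exact h2 (by rw [← h])

lemma mo_mof_swap_notMem (σ : Cfg n d) (c : Fin n → Option (Fin d)) (s s' : Fin n × Fin d)
    (hs : c s.1 ≠ some s.2) (hs' : c s'.1 ≠ some s'.2) :
    mof (σ * Equiv.swap s s') c = mof σ c := by
  classical
  funext j
  unfold mof
  rcases hc : c j with _ | a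
  · rfl
  · simp only [hd, Equiv.Perm.mul_apply]
    rw [Equiv.swap_apply_of_ne_of_ne]
    · intro h; exact hs (by rw [← h]; exact hc)
    · intro h; exact hs' (by rw [← h]; exact hc)

/-- cancellation: two stubs with the same odd type -/
lemma mo_cancel (c : R → Fin n → Option (Fin d)) (s s' : Fin n × Fin d) (hne : s ≠ s')
    (hty : moty c s = moty c s') (hodd : Odd (moty c s).card) : moE c = 0 := by
  classical
  have hne1 : s.1 ≠ s'.1 := by
    intro h
    obtain ⟨r, hr⟩ : (moty c s).Nonempty := by
      rw [← card_pos]; exact hodd.pos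
    have h1 := (mo_mem_ty c s r).1 hr
    have h2 := (mo_mem_ty c s' r).1 (hty ▸ hr)
    rw [h, h2, Option.some.injEq] at h1
    exact hne (Prod.ext h h1.symm)
  have key : ∀ σ : Cfg n d, ∏ r, moD (mof (σ * Equiv.swap s s') (c r)) =
      - ∏ r, moD (mof σ (c r)) := by
    intro σ
    have h1 : ∀ r, moD (mof (σ * Equiv.swap s s') (c r)) =
        (if r ∈ moty c s then (-1 : ℂ) else 1) * moD (mof σ (c r)) := by
      intro r
      split_ifs with h
      · rw [mo_mof_swap_mem σ (c r) s s' ((mo_mem_ty c s r).1 h)
          ((mo_mem_ty c s' r).1 (hty ▸ h)), moD_swap _ _ _ hne1]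
        ring
      · rw [mo_mof_swap_notMem σ (c r) s s' (fun h' => h ((mo_mem_ty c s r).2 h'))
          (fun h' => h (hty ▸ (mo_mem_ty c s' r).2 h'))]
        ring
    simp_rw [h1]
    rw [prod_mul_distrib, prod_ite, prod_const, prod_const_one, mul_one]
    have h2 : (univ.filter (fun r => r ∈ moty c s)) = moty c s := by
      ext r; simp
    rw [h2, hodd.neg_one_pow]
    ring
  have h2 : moE c = ∑ σ : Cfg n d, ∏ r, moD (mof (σ * Equiv.swap s s') (c r)) := by
    unfold moE
    exact (Equiv.sum_comp (Equiv.mulRight (Equiv.swap s s')) (fun σ : Cfg n d => ∏ r, moD (mof σ (c r)))).symm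
  simp_rw [key] at h2
  rw [sum_neg_distrib] at h2
  have h3 : moE c = - moE c := h2
  have h4 : (2 : ℂ) * moE c = 0 := by linear_combination h3
  simpa using h4

/-- good families: every odd type occurs at most once -/
def moGood (c : R → Fin n → Option (Fin d)) : Prop :=
  ∀ s s', moty c s = moty c s' → Odd (moty c s).card → s = s'

open Classical in
lemma mo_E_norm (c : R → Fin n → Option (Fin d)) :
    ‖moE c‖ ≤ ((univ.filter (fun σ : Cfg n d => ∀ r, Function.Injective (mof σ (c r)))).card : ℝ) := by
  unfold moE
  calc ‖∑ σ : Cfg n d, ∏ r, moD (mof σ (c r))‖ ≤ ∑ σ : Cfg n d, ‖∏ r, moD (mof σ (c r))‖ :=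
        norm_sum_le _ _
    _ ≤ ∑ σ : Cfg n d, if (∀ r, Function.Injective (mof σ (c r))) then (1 : ℝ) else 0 := by
        apply sum_le_sum
        intro σ _
        split_ifs with h
        · rw [norm_prod]
          exact prod_le_one (fun r _ => norm_nonneg _) (fun r _ => moD_norm _)
        · push Not at h
          obtain ⟨r, hr⟩ := h
          rw [prod_eq_zero (mem_univ r) (moD_not_inj _ hr)]
          simp
    _ = _ := by
        rw [← sum_filter, sum_const, nsmul_eq_mul, mul_one]

/-- expansion of a product of determinants -/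
lemma mo_prod_det (ζ : R → ℂ) :
    ∑ σ : Cfg n d, ∏ r, (MM (ζ r) (mult σ)).det =
      ∑ c : R → Fin n → Option (Fin d), (∏ r, ∏ i, mow (ζ r) (c r i)) * moE c := by
  classical
  have h1 : ∀ σ : Cfg n d, ∏ r, (MM (ζ r) (mult σ)).det =
      ∑ c : R → Fin n → Option (Fin d), (∏ r, ∏ i, mow (ζ r) (c r i)) * ∏ r, moD (mof σ (c r)) := by
    intro σ
    simp_rw [mo_det]
    rw [prod_univ_sum, Fintype.piFinset_univ]
    apply sum_congr rfl
    intro c _
    rw [prod_mul_distrib]
  simp_rw [h1]
  rw [sum_comm]
  apply sum_congr rfl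
  intro c _
  rw [moE, mul_sum]

end repl

end Pool.Agent.KM
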