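import Pool.Agent.KM.MomCnt

set_option autoImplicit false
open Finset

namespace Pool.Agent.KM
open Pool.Agent.SMin

/-! ## Module MOM (MomGen.lean): generating function bound for products of determinants -/

section gen
variable {n d : ℕ} {R : Type*} [Fintype R] [DecidableEq R]

/-- local type: the replicas which use the slot `a` -/
def lty (o : R → Option (Fin d)) (a : Fin d) : Finset R := univ.filter (fun r => o r = some a)

/-- local weight -/
noncomputable def lW (ρ : ℝ) (o : R → Option (Fin d)) : ℝ := ∏ r, if o r = none then ρ else 1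

/-- local partition function -/
noncomputable def Wt (d : ℕ) {R : Type*} [Fintype R] [DecidableEq R] (ρ : ℝ) (τ : Finset R → ℝ) : ℝ :=
  ∑ p : (R → Option (Fin d)) × (R → Option (Fin d)),
    if (∀ r, p.1 r = none ↔ p.2 r = none) then
      lW ρ p.1 * (∏ a, τ (lty p.1 a)) * (∏ a, τ (lty p.2 a)) else 0

/-- global weight -/
noncomputable def gW (ρ : ℝ) (c : R → Fin n → Option (Fin d)) : ℝ :=
  ∏ r, ∏ i, if c r i = none then ρ else 1

lemma gW_nonneg (ρ : ℝ) (hρ : 0 ≤ ρ) (c : R → Fin n → Option (Fin d)) : 0 ≤ gW ρ c := by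
  unfold gW
  apply prod_nonneg; intro r _
  apply prod_nonneg; intro i _
  split_ifs <;> linarith

open Classical in
lemma mo_factor (ρ : ℝ) (τ : Finset R → ℝ) :
    ∑ c : R → Fin n → Option (Fin d), ∑ c' : R → Fin n → Option (Fin d),
      (if moSame c c' then gW ρ c * (∏ s, τ (moty c s)) * (∏ s, τ (moty c' s)) else 0) =
      (Wt d ρ τ) ^ n := by
  unfold Wt
  rw [Fintype.sum_pow, ← Fintype.sum_prod_type']
  refine Fintype.sum_equiv
    { toFun := fun q i => (fun r => q.1 r i, fun r => q.2 r i)
      invFun := fun p => (fun r i => (p i).1 r, fun r i => (p i).2 r)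
      left_inv := fun q => rfl
      right_inv := fun p => rfl } _ _ ?_
  rintro ⟨c, c'⟩
  simp only [Equiv.coe_fn_mk]
  rw [prod_ite_zero]
  have h1 : (∀ i ∈ (univ : Finset (Fin n)), ∀ r, c r i = none ↔ c' r i = none) ↔ moSame c c' := by
    unfold moSame
    constructor
    · intro h r i; exact h i (mem_univ i) r
    · intro h i _ r; exact h r i
  by_cases h : moSame c c'
  · rw [if_pos h, if_pos (h1.2 h)]
    rw [prod_mul_distrib, prod_mul_distrib]
    congr 1
    · congr 1
      · unfold gW lW
        rw [prod_comm]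
      · rw [Fintype.prod_prod_type]
        rfl
    · rw [Fintype.prod_prod_type]
      rfl
  · rw [if_neg h, if_neg (fun h' => h (h1.1 h'))]

lemma mo_sum_cnt (c : R → Fin n → Option (Fin d)) : ∑ Q, mocnt c Q = n * d := by
  classical
  unfold mocnt
  have := card_eq_sum_card_fiberwise (f := moty c) (s := (univ : Finset (Fin n × Fin d)))
    (t := (univ : Finset (Finset R))) (fun _ _ => mem_coe.2 (mem_univ _))
  rw [← this]
  simp

lemma mo_prod_fiber (c : R → Fin n → Option (Fin d)) (τ : Finset R → ℝ) :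
    ∏ s, τ (moty c s) = ∏ Q, τ Q ^ mocnt c Q := by
  classical
  rw [← prod_fiberwise (univ : Finset (Fin n × Fin d)) (moty c) (fun s => τ (moty c s))]
  apply prod_congr rfl
  intro Q _
  unfold mocnt
  rw [prod_congr rfl (g := fun _ => τ Q), prod_const]
  intro s hs
  rw [(mem_filter.1 hs).2]

/-- the profile of square roots of densities -/
noncomputable def motau (N : ℕ) (m : Finset R → ℕ) (Q : Finset R) : ℝ := Real.sqrt ((m Q : ℝ) / N)

lemma mo_tr_le (hN : 1 ≤ n * d) (c c' : R → Fin n → Option (Fin d)) :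
    ((moTr c c').card : ℝ) ≤ ((n * d).factorial : ℝ) *
      (Real.exp 1 * ((n * d : ℕ) : ℝ)) ^ (Fintype.card (Finset R)) *
        ((∏ s, motau (n * d) (mocnt c) (moty c s)) * (∏ s, motau (n * d) (mocnt c) (moty c' s))) := by
  classical
  have hN0 : (0 : ℝ) < ((n * d : ℕ) : ℝ) := by exact_mod_cast hN
  have hτ0 : ∀ Q, 0 ≤ motau (n * d) (mocnt c) Q := fun Q => Real.sqrt_nonneg _
  rcases (moTr c c').eq_empty_or_nonempty with h | ⟨σ, hσ⟩
  · rw [h]
    simp only [card_empty, Nat.cast_zero]
    apply mul_nonneg (by positivity)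
    exact mul_nonneg (prod_nonneg fun s _ => hτ0 _) (prod_nonneg fun s _ => hτ0 _)
  · have hcnt : mocnt c' = mocnt c := by
      funext Q; exact mo_cnt_eq c c' σ hσ Q
    rw [mo_prod_fiber, mo_prod_fiber c', hcnt, ← prod_mul_distrib]
    have h1 : ∀ Q, motau (n * d) (mocnt c) Q ^ mocnt c Q * motau (n * d) (mocnt c) Q ^ mocnt c Q =
        ((mocnt c Q : ℝ) / ((n * d : ℕ) : ℝ)) ^ mocnt c Q := by
      intro Q
      rw [← mul_pow]
      unfold motau
      rw [Real.mul_self_sqrt (by positivity)]
    simp_rw [h1]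
    have hle : ∀ Q, mocnt c Q ≤ n * d := by
      intro Q
      rw [← mo_sum_cnt c]
      exact single_le_sum (f := fun Q => mocnt c Q) (fun _ _ => Nat.zero_le _) (mem_univ Q)
    calc ((moTr c c').card : ℝ) ≤ ((∏ Q : Finset R, (mocnt c Q).factorial : ℕ) : ℝ) := by
          exact_mod_cast mo_card_tr c c'
      _ = ∏ Q : Finset R, ((mocnt c Q).factorial : ℝ) := by push_cast; rfl
      _ ≤ ∏ Q : Finset R, ((Real.exp 1 * ((n * d : ℕ) : ℝ)) * Real.exp (-(mocnt c Q : ℝ)) * (mocnt c Q : ℝ) ^ mocnt c Q) := by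
          apply prod_le_prod
          · intro Q _; positivity
          · intro Q _; exact mo_fact_le _ _ hN (hle Q)
      _ = (Real.exp 1 * ((n * d : ℕ) : ℝ)) ^ (Fintype.card (Finset R)) *
            (∏ Q : Finset R, Real.exp (-(mocnt c Q : ℝ))) * ∏ Q : Finset R, (mocnt c Q : ℝ) ^ mocnt c Q := by
          rw [prod_mul_distrib, prod_mul_distrib, prod_const, card_univ]
      _ = (Real.exp 1 * ((n * d : ℕ) : ℝ)) ^ (Fintype.card (Finset R)) *
            Real.exp (-((n * d : ℕ) : ℝ)) * (((n * d : ℕ) : ℝ) ^ (n * d) *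
              ∏ Q : Finset R, ((mocnt c Q : ℝ) / ((n * d : ℕ) : ℝ)) ^ mocnt c Q) := by
          have h2 : ∏ Q : Finset R, Real.exp (-(mocnt c Q : ℝ)) = Real.exp (-((n * d : ℕ) : ℝ)) := by
            rw [← Real.exp_sum]
            congr 1
            rw [sum_neg_distrib]
            congr 1
            rw [← mo_sum_cnt c]; push_cast; rfl
          have h3 : ((n * d : ℕ) : ℝ) ^ (n * d) = ∏ Q : Finset R, ((n * d : ℕ) : ℝ) ^ mocnt c Q := by
            rw [prod_pow_eq_pow_sum, mo_sum_cnt]
          have h4 : ((n * d : ℕ) : ℝ) ^ (n * d) * ∏ Q : Finset R, ((mocnt c Q : ℝ) / ((n * d : ℕ) : ℝ)) ^ mocnt c Q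
              = ∏ Q : Finset R, (mocnt c Q : ℝ) ^ mocnt c Q := by
            rw [h3, ← prod_mul_distrib]
            apply prod_congr rfl
            intro Q _
            rw [← mul_pow]
            congr 1
            field_simp
          rw [h2, h4]
      _ = (Real.exp 1 * ((n * d : ℕ) : ℝ)) ^ (Fintype.card (Finset R)) *
            ((((n * d : ℕ) : ℝ) ^ (n * d) * Real.exp (-((n * d : ℕ) : ℝ))) *
              ∏ Q : Finset R, ((mocnt c Q : ℝ) / ((n * d : ℕ) : ℝ)) ^ mocnt c Q) := by ring
      _ ≤ (Real.exp 1 * ((n * d : ℕ) : ℝ)) ^ (Fintype.card (Finset R)) *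
            (((n * d).factorial : ℝ) *
              ∏ Q : Finset R, ((mocnt c Q : ℝ) / ((n * d : ℕ) : ℝ)) ^ mocnt c Q) := by
          have := mo_fact_ge (n * d)
          gcongr
      _ = _ := by ring

/-- admissible count vectors -/
noncomputable def moM (N : ℕ) (R : Type*) [Fintype R] [DecidableEq R] : Finset (Finset R → ℕ) :=
  (Fintype.piFinset (fun _ : Finset R => range (N + 1))).filter
    (fun m => ∑ Q, m Q = N ∧ ∀ Q, Odd Q.card → m Q ≤ 1)

lemma mo_cnt_mem (c : R → Fin n → Option (Fin d)) (hc : moGood c) : mocnt c ∈ moM (n * d) R := by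
  classical
  unfold moM
  rw [mem_filter, Fintype.mem_piFinset]
  refine ⟨fun Q => ?_, mo_sum_cnt c, ?_⟩
  · rw [mem_range, Nat.lt_succ_iff, ← mo_sum_cnt c]
    exact single_le_sum (f := fun Q => mocnt c Q) (fun _ _ => Nat.zero_le _) (mem_univ Q)
  · intro Q hQ
    unfold mocnt
    rw [card_le_one]
    intro s hs s' hs'
    have h1 := (mem_filter.1 hs).2
    have h2 := (mem_filter.1 hs').2
    exact hc s s' (h1.trans h2.symm) (by rw [h1]; exact hQ)

lemma moM_card (N : ℕ) : (moM N R).card ≤ (N + 1) ^ Fintype.card (Finset R) := by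
  classical
  unfold moM
  refine (card_filter_le _ _).trans ?_
  rw [Fintype.card_piFinset]
  simp

lemma mow_norm (z : ℂ) (o : Option (Fin d)) : ‖mow z o‖ = if o = none then ‖z‖ else 1 := by
  rcases o with _ | a <;> simp [mow]

/-- MAIN BOUND: product of determinants in the configuration model -/
theorem mo_bound [Nonempty R] (hN : 1 ≤ n * d) (ζ : R → ℂ) (ρ : ℝ) (hζ : ∀ r, ‖ζ r‖ = ρ) :
    ‖∑ σ : Cfg n d, ∏ r, (MM (ζ r) (mult σ)).det‖ ≤
      ((n * d).factorial : ℝ) * (Real.exp 1 * ((n * d : ℕ) : ℝ)) ^ (Fintype.card (Finset R)) *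
        ∑ m ∈ moM (n * d) R, (Wt d ρ (motau (n * d) m)) ^ n := by
  classical
  have r0 : R := Classical.arbitrary R
  have hρ : 0 ≤ ρ := by rw [← hζ r0]; exact norm_nonneg _
  have hτ0 : ∀ (m : Finset R → ℕ) Q, 0 ≤ motau (n * d) m Q := fun m Q => Real.sqrt_nonneg _
  set A : ℝ := ((n * d).factorial : ℝ) * (Real.exp 1 * ((n * d : ℕ) : ℝ)) ^ (Fintype.card (Finset R)) with hA
  have hA0 : 0 ≤ A := by rw [hA]; positivity
  let g : (R → Fin n → Option (Fin d)) → (R → Fin n → Option (Fin d)) → (Finset R → ℕ) → ℝ :=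
    fun c c' m => if moSame c c' then gW ρ c * (∏ s, motau (n * d) m (moty c s)) *
      (∏ s, motau (n * d) m (moty c' s)) else 0
  have hg0 : ∀ c c' m, 0 ≤ g c c' m := by
    intro c c' m
    simp only [g]
    split_ifs
    · exact mul_nonneg (mul_nonneg (gW_nonneg ρ hρ c) (prod_nonneg fun s _ => hτ0 _ _))
        (prod_nonneg fun s _ => hτ0 _ _)
    · exact le_refl _
  rw [mo_prod_det]
  calc ‖∑ c : R → Fin n → Option (Fin d), (∏ r, ∏ i, mow (ζ r) (c r i)) * moE c‖
      ≤ ∑ c : R → Fin n → Option (Fin d), ‖(∏ r, ∏ i, mow (ζ r) (c r i)) * moE c‖ := norm_sum_le _ _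
    _ = ∑ c : R → Fin n → Option (Fin d), gW ρ c * ‖moE c‖ := by
        apply sum_congr rfl
        intro c _
        rw [norm_mul, norm_prod]
        congr 1
        unfold gW
        apply prod_congr rfl
        intro r _
        rw [norm_prod]
        apply prod_congr rfl
        intro i _
        rw [mow_norm, hζ]
    _ ≤ ∑ c : R → Fin n → Option (Fin d), A * ∑ m ∈ moM (n * d) R, ∑ c', g c c' m := by
        apply sum_le_sum
        intro c _
        by_cases hc : moGood c
        · have h1 : ‖moE c‖ ≤ ∑ c' ∈ univ.filter (fun c' : R → Fin n → Option (Fin d) => moSame c c'),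
              ((moTr c c').card : ℝ) := by
            refine (mo_E_norm c).trans ?_
            exact_mod_cast mo_K_le c
          calc gW ρ c * ‖moE c‖ ≤ gW ρ c * ∑ c' ∈ univ.filter (fun c' : R → Fin n → Option (Fin d) => moSame c c'),
                (A * ((∏ s, motau (n * d) (mocnt c) (moty c s)) * (∏ s, motau (n * d) (mocnt c) (moty c' s)))) := by
                apply mul_le_mul_of_nonneg_left _ (gW_nonneg ρ hρ c)
                refine h1.trans (sum_le_sum fun c' _ => mo_tr_le hN c c')
            _ = A * ∑ c', g c c' (mocnt c) := by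
                rw [← mul_sum, sum_filter, mul_left_comm, mul_sum]
                congr 1
                apply sum_congr rfl
                intro c' _
                simp only [g]
                split_ifs
                · ring
                · ring
            _ ≤ A * ∑ m ∈ moM (n * d) R, ∑ c', g c c' m := by
                apply mul_le_mul_of_nonneg_left _ hA0
                exact single_le_sum (f := fun m => ∑ c', g c c' m)
                  (fun m _ => sum_nonneg fun c' _ => hg0 c c' m) (mo_cnt_mem c hc)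
        · have : moE c = 0 := by
            unfold moGood at hc
            push Not at hc
            obtain ⟨s, s', h1, h2, h3⟩ := hc
            exact mo_cancel c s s' h3 h1 h2
          rw [this, norm_zero, mul_zero]
          exact mul_nonneg hA0 (sum_nonneg fun m _ => sum_nonneg fun c' _ => hg0 c c' m)
    _ = A * ∑ m ∈ moM (n * d) R, ∑ c, ∑ c', g c c' m := by
        rw [← mul_sum, sum_comm]
    _ = A * ∑ m ∈ moM (n * d) R, (Wt d ρ (motau (n * d) m)) ^ n := by
        congr 1
        apply sum_congr rfl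
        intro m _
        exact mo_factor ρ (motau (n * d) m)

end gen

end Pool.Agent.KM
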