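import Mathlib

set_option autoImplicit false

namespace Pool.Agent.KM

/-- `e^{2U}` at `|z|^2 = z2` -/
noncomputable def MMv (d : ℕ) (z2 : ℝ) : ℝ := d * (d * (d - 1) / (d ^ 2 - z2)) ^ (d - 1)

/-- the coefficient inequality -/
lemma mi_coeff (d : ℕ) (hd : 2 ≤ d) (μ : ℝ) (h0 : 0 ≤ μ) :
    4 * μ * d ^ 2 ≤ (μ + 2 * d - 2) * ((1 - μ) ^ 2 + 4 * d * μ) := by
  have hid : (μ + 2 * d - 2) * ((1 - μ) ^ 2 + 4 * d * μ) - 4 * μ * d ^ 2 =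
      (2 * d - 2) + (4 * d ^ 2 - 12 * d + 5) * μ + (6 * d - 4) * μ ^ 2 + μ ^ 3 := by ring
  rcases Nat.eq_or_lt_of_le hd with h | h
  · subst h
    have : (0 : ℝ) ≤ μ ^ 3 := by positivity
    push_cast at hid ⊢
    nlinarith [sq_nonneg (μ - 3 / 16)]
  · have hd3 : (3 : ℝ) ≤ d := by exact_mod_cast h
    have h1 : (0 : ℝ) ≤ 4 * d ^ 2 - 12 * d + 5 := by nlinarith
    have h2 : (0 : ℝ) ≤ (4 * d ^ 2 - 12 * d + 5) * μ := mul_nonneg h1 h0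
    have h3 : (0 : ℝ) ≤ (6 * d - 4) * μ ^ 2 := mul_nonneg (by linarith) (by positivity)
    have h4 : (0 : ℝ) ≤ μ ^ 3 := by positivity
    linarith

/-- the quadratic inequality `4 R ≤ E ^ 2` -/
lemma mi_quad (d : ℕ) (hd : 2 ≤ d) (μ P v η : ℝ) (h0 : 0 ≤ μ) (h1 : μ ≤ 1) (hP : 0 ≤ P)
    (hv : 0 ≤ v) (hη : 0 ≤ η) :
    4 * (μ ^ 2 * P ^ 4 + d * μ * P ^ 2 * η + (P * v + (d - 1) * η / 2) ^ 2) ≤
      (d * v ^ 2 + (μ + d - 1) * η + (μ ^ 2 + 2 * (d - 1) * μ + 1) / d * P ^ 2) ^ 2 := by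
  have hd' : (2 : ℝ) ≤ d := by exact_mod_cast hd
  have hd0 : (0 : ℝ) < d := by linarith
  set k : ℝ := μ + 2 * d - 2 with hk
  have hk0 : 0 < k := by linarith
  set u : ℝ := d * v - (1 - μ) * P with hu
  set e : ℝ := η - 2 * P * v with he
  set w : ℝ := u + 2 * (1 - μ) * P with hw
  have hid : (d * v ^ 2 + (μ + d - 1) * η + (μ ^ 2 + 2 * (d - 1) * μ + 1) / d * P ^ 2) ^ 2 -
      4 * (μ ^ 2 * P ^ 4 + d * μ * P ^ 2 * η + (P * v + (d - 1) * η / 2) ^ 2) =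
      2 * (μ + d - 1) / d * u ^ 2 * η + μ * k * (e + 2 * P * u / k) ^ 2 +
        u ^ 2 * ((w ^ 2 + 4 * d * μ * P ^ 2) / d ^ 2 - 4 * μ * P ^ 2 / k) := by
    rw [hw, hu, he]
    field_simp
    rw [hk]
    ring
  have hw1 : (1 - μ) * P ≤ w := by
    rw [hw, hu]
    have : 0 ≤ d * v := by positivity
    linarith
  have hw2 : ((1 - μ) * P) ^ 2 ≤ w ^ 2 := by
    apply pow_le_pow_left₀ (mul_nonneg (by linarith) hP) hw1
  have hQ : 0 ≤ (w ^ 2 + 4 * d * μ * P ^ 2) / d ^ 2 - 4 * μ * P ^ 2 / k := by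
    rw [sub_nonneg, div_le_div_iff₀ hk0 (by positivity)]
    have h2 := mi_coeff d hd μ h0
    have h3 := mul_le_mul_of_nonneg_right h2 (sq_nonneg P)
    have h4 : ((1 - μ) * P) ^ 2 * k ≤ w ^ 2 * k := mul_le_mul_of_nonneg_right hw2 hk0.le
    calc 4 * μ * P ^ 2 * d ^ 2 = 4 * μ * d ^ 2 * P ^ 2 := by ring
      _ ≤ (μ + 2 * d - 2) * ((1 - μ) ^ 2 + 4 * d * μ) * P ^ 2 := h3
      _ = ((1 - μ) * P) ^ 2 * k + 4 * d * μ * P ^ 2 * k := by rw [hk]; ring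
      _ ≤ w ^ 2 * k + 4 * d * μ * P ^ 2 * k := by linarith
      _ = (w ^ 2 + 4 * d * μ * P ^ 2) * k := by ring
  have h5 : 0 ≤ 2 * (μ + d - 1) / d * u ^ 2 * η := by
    have : 0 ≤ 2 * (μ + d - 1) / d := div_nonneg (by linarith) hd0.le
    positivity
  have h6 : 0 ≤ μ * k * (e + 2 * P * u / k) ^ 2 := by positivity
  have h7 : 0 ≤ u ^ 2 * ((w ^ 2 + 4 * d * μ * P ^ 2) / d ^ 2 - 4 * μ * P ^ 2 / k) :=
    mul_nonneg (sq_nonneg _) hQ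
  linarith

theorem mom_ineq (d : ℕ) (hd : 2 ≤ d) (z2 : ℝ) (hz0 : 0 ≤ z2) (hz : z2 ≤ d) (t0 t4 y : ℝ)
    (h0 : 0 ≤ t0) (h4 : 0 ≤ t4) (hy : 0 ≤ y) (hs : t0 ^ 2 + y + t4 ^ 2 ≤ 1) :
    z2 ^ 2 * t0 ^ (2 * d) + d ^ 2 * z2 * t0 ^ (2 * d - 2) * y +
      (d * t0 ^ (d - 1) * t4 + d * (d - 1) / 2 * t0 ^ (d - 2) * y) ^ 2 ≤ MMv d z2 ^ 2 := by
  have hd' : (2 : ℝ) ≤ d := by exact_mod_cast hd
  have hd0 : (0 : ℝ) < d := by linarith
  have hden : 0 < (d : ℝ) ^ 2 - z2 := by nlinarith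
  set t : ℝ := d * (d - 1) / (d ^ 2 - z2) with ht
  have ht0 : 0 < t := div_pos (mul_pos hd0 (by linarith)) hden
  have htz : t * (d ^ 2 - z2) = d * (d - 1) := div_mul_cancel₀ _ hden.ne'
  set μ : ℝ := d * t - (d - 1) with hμ
  have hμz : z2 * t = d * μ := by
    rw [hμ]
    linear_combination -htz
  have hμ0 : 0 ≤ μ := by
    have : 0 ≤ d * μ := by
      rw [← hμz]
      positivity
    exact (mul_nonneg_iff_of_pos_left hd0).1 this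
  have hμ1 : μ ≤ 1 := by
    have ht1 : t ≤ 1 := by
      rw [ht, div_le_one hden]
      nlinarith
    rw [hμ]
    nlinarith
  set P : ℝ := t0 / t with hP
  set η : ℝ := y / t with hη
  have hP0 : 0 ≤ P := div_nonneg h0 ht0.le
  have hη0 : 0 ≤ η := div_nonneg hy ht0.le
  have ht0P : t0 = t * P := by
    rw [hP]
    field_simp
  have hyη : y = t * η := by
    rw [hη]
    field_simp
  set R1 : ℝ := μ ^ 2 * P ^ 4 + d * μ * P ^ 2 * η + (P * t4 + (d - 1) * η / 2) ^ 2 with hR1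
  have hR10 : 0 ≤ R1 := by positivity
  set E : ℝ := d * t4 ^ 2 + (μ + d - 1) * η + (μ ^ 2 + 2 * (d - 1) * μ + 1) / d * P ^ 2 with hE
  have hE0 : 0 ≤ E := by
    have : 0 ≤ (μ + d - 1) * η := mul_nonneg (by linarith) hη0
    have h2 : 0 ≤ (μ ^ 2 + 2 * (d - 1) * μ + 1) / d := by
      apply div_nonneg _ hd0.le
      have : 0 ≤ 2 * ((d : ℝ) - 1) * μ := mul_nonneg (by linarith) hμ0
      positivity
    positivity
  have hquad := mi_quad d hd μ P t4 η hμ0 hμ1 hP0 h4 hη0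
  rw [← hR1, ← hE] at hquad
  have hsqrt : 2 * √R1 ≤ E := by
    have : √(4 * R1) ≤ E := Real.sqrt_le_iff.2 ⟨hE0, hquad⟩
    rwa [Real.sqrt_mul (by norm_num), show (4 : ℝ) = 2 ^ 2 by norm_num,
      Real.sqrt_sq (by norm_num)] at this
  -- `E + (d-2) P^2 = d S ≤ d`
  have hES : E + (d - 2) * P ^ 2 = d * (t0 ^ 2 + y + t4 ^ 2) := by
    rw [ht0P, hyη, hE]
    have h5 : (d : ℝ) * t = μ + d - 1 := by rw [hμ]; ring
    have h6 : t = (μ + d - 1) / d := by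
      rw [← h5]
      field_simp
    rw [h6]
    field_simp
    ring
  have hsum : (d - 2) * P ^ 2 + 2 * √R1 ≤ d := by
    have : (d : ℝ) * (t0 ^ 2 + y + t4 ^ 2) ≤ d * 1 := by gcongr
    linarith
  -- AM-GM
  have hAG : (P ^ 2) ^ (d - 2) * R1 ≤ 1 := by
    have h7 := Real.geom_mean_le_arith_mean2_weighted (w₁ := (d - 2) / d) (w₂ := 2 / d)
      (p₁ := P ^ 2) (p₂ := √R1) (div_nonneg (by linarith) hd0.le) (by positivity) (by positivity)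
      (Real.sqrt_nonneg _) (by field_simp; ring)
    have h8 : ((d : ℝ) - 2) / d * P ^ 2 + 2 / d * √R1 ≤ 1 := by
      have : ((d : ℝ) - 2) / d * P ^ 2 + 2 / d * √R1 = ((d - 2) * P ^ 2 + 2 * √R1) / d := by
        field_simp
      rw [this, div_le_one hd0]
      exact hsum
    have h9 := h7.trans h8
    have h10 : ((P ^ 2) ^ (((d : ℝ) - 2) / d) * (√R1) ^ ((2 : ℝ) / d)) ^ d ≤ 1 := by
      apply pow_le_one₀ (by positivity) h9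
    rw [mul_pow, ← Real.rpow_mul_natCast (by positivity), ← Real.rpow_mul_natCast (Real.sqrt_nonneg _),
      div_mul_cancel₀ _ hd0.ne', div_mul_cancel₀ _ hd0.ne'] at h10
    have h11 : ((d : ℝ) - 2) = ((d - 2 : ℕ) : ℝ) := by
      rw [Nat.cast_sub hd]
      norm_num
    rw [h11, Real.rpow_natCast, show (2 : ℝ) = ((2 : ℕ) : ℝ) by norm_num, Real.rpow_natCast,
      Real.sq_sqrt hR10] at h10
    simpa using h10
  -- conclusion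
  obtain ⟨m, rfl⟩ : ∃ m, d = m + 2 := ⟨d - 2, by omega⟩
  have e1 : 2 * (m + 2) - 2 = 2 * m + 2 := by omega
  have e2 : m + 2 - 1 = m + 1 := by omega
  have e3 : m + 2 - 2 = m := by omega
  have e4 : 2 * (m + 2) = 2 * m + 4 := by ring
  rw [e1, e2, e3, e4]
  rw [e3] at hAG
  have hfin : z2 ^ 2 * t0 ^ (2 * m + 4) + ((m + 2 : ℕ) : ℝ) ^ 2 * z2 * t0 ^ (2 * m + 2) * y +
      (((m + 2 : ℕ) : ℝ) * t0 ^ (m + 1) * t4 +
        ((m + 2 : ℕ) : ℝ) * (((m + 2 : ℕ) : ℝ) - 1) / 2 * t0 ^ m * y) ^ 2 =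
      MMv (m + 2) z2 ^ 2 * ((P ^ 2) ^ m * R1) := by
    unfold MMv
    rw [← ht, e2, hR1, ht0P, hyη]
    have e5 : z2 ^ 2 * (t * P) ^ (2 * m + 4) = (z2 * t) ^ 2 * t ^ (2 * m + 2) * P ^ (2 * m + 4) := by
      rw [mul_pow]
      ring
    have e6 : ((m + 2 : ℕ) : ℝ) ^ 2 * z2 * (t * P) ^ (2 * m + 2) * (t * η) =
        ((m + 2 : ℕ) : ℝ) ^ 2 * (z2 * t) * t ^ (2 * m + 2) * P ^ (2 * m + 2) * η := by
      rw [mul_pow]
      ring
    rw [e5, e6, hμz]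
    ring_nf
  rw [hfin]
  calc MMv (m + 2) z2 ^ 2 * ((P ^ 2) ^ m * R1) ≤ MMv (m + 2) z2 ^ 2 * 1 := by gcongr
    _ = MMv (m + 2) z2 ^ 2 := mul_one _

end Pool.Agent.KM
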