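import Pool.Agent.KM.MomIneq

set_option autoImplicit false
open Finset Filter

namespace Pool.Agent.KM

/-- the bracket of the second moment -/
noncomputable def mtB (d n m : ℕ) (z : ℂ) : ℝ :=
  ‖z‖ ^ (2 * (n - m)) * ((n * d - m).factorial : ℝ)
    - 2 * z.re * ((n - m : ℕ) : ℝ) * (d : ℝ) ^ 2 * ‖z‖ ^ (2 * (n - m - 1)) * ((n * d - m - 1).factorial : ℝ)
    + (((n - m) * (n - m - 1) : ℕ) : ℝ) * (d : ℝ) ^ 4 * ‖z‖ ^ (2 * (n - m - 1)) *
      ((n * d - m - 2).factorial : ℝ)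

/-- for `m < n` the bracket is `(N-m)! |z|^(2(n-m-1)) (|z - r|^2 - r (r - r'))`,
`r = (n-m)d^2/(N-m) ≤ d`, `r' = (n-m-1)d^2/(N-m-1)`, `r - r' = d^2 (N-n)/((N-m)(N-m-1)) → 0` -/
theorem mt_num (d : ℕ) (hd : 2 ≤ d) (z : ℂ) (him : z.im ≠ 0) :
    ∃ c : ℝ, 0 < c ∧ ∀ᶠ n : ℕ in atTop, ∀ m ≤ n,
      c * (‖z‖ ^ (2 * (n - m)) * ((n * d - m).factorial : ℝ)) ≤ mtB d n m z := by
  have hd' : (2 : ℝ) ≤ d := by exact_mod_cast hd
  have hy : 0 < z.im ^ 2 := by positivity
  have hnz : ‖z‖ ^ 2 = z.re ^ 2 + z.im ^ 2 := by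
    rw [← Complex.normSq_eq_norm_sq, Complex.normSq_apply]
    ring
  have hz2 : 0 < ‖z‖ ^ 2 := by
    rw [hnz]
    positivity
  refine ⟨z.im ^ 2 / (2 * ‖z‖ ^ 2), by positivity, ?_⟩
  have hlarge : ∀ᶠ n : ℕ in atTop, 2 * (d : ℝ) ^ 4 / z.im ^ 2 ≤ (n : ℝ) :=
    tendsto_natCast_atTop_atTop.eventually_ge_atTop _
  filter_upwards [hlarge, eventually_ge_atTop 1] with n hn hn1
  intro m hm
  have hndle : n + n ≤ n * d := by
    calc n + n = n * 2 := by ring
      _ ≤ n * d := Nat.mul_le_mul_left n hd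
  rcases Nat.eq_or_lt_of_le hm with hmn | hmn
  · subst hmn
    unfold mtB
    simp only [Nat.sub_self, mul_zero, pow_zero, one_mul, Nat.cast_zero, zero_mul, sub_zero,
      add_zero]
    have hc1 : z.im ^ 2 / (2 * ‖z‖ ^ 2) ≤ 1 := by
      rw [div_le_one (by positivity), hnz]
      nlinarith [sq_nonneg z.re]
    have hf : (0 : ℝ) ≤ ((m * d - m).factorial : ℝ) := Nat.cast_nonneg _
    nlinarith
  · obtain ⟨j, hj⟩ : ∃ j, n - m = j + 1 := ⟨n - m - 1, by omega⟩
    obtain ⟨b, hb⟩ : ∃ b, n * d - m = b + 2 := ⟨n * d - m - 2, by omega⟩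
    have hbn : n ≤ b + 1 := by omega
    have hjb : j + 1 ≤ b + 2 := by omega
    unfold mtB
    rw [hj, hb]
    have e1 : j + 1 - 1 = j := by omega
    have e2 : b + 2 - 1 = b + 1 := by omega
    have e3 : b + 2 - 2 = b := by omega
    rw [e1, e2, e3]
    have f2 : ((b + 2).factorial : ℝ) = (b + 2) * (b + 1) * (b.factorial : ℝ) := by
      rw [Nat.factorial_succ, Nat.factorial_succ]
      push_cast
      ring
    have f1 : ((b + 1).factorial : ℝ) = (b + 1) * (b.factorial : ℝ) := by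
      rw [Nat.factorial_succ]
      push_cast
      ring
    rw [f2, f1]
    have hpow : ‖z‖ ^ (2 * (j + 1)) = ‖z‖ ^ (2 * j) * ‖z‖ ^ 2 := by
      rw [← pow_add]
      congr 1
    rw [hpow]
    set Q : ℝ := ‖z‖ ^ (2 * j) * (b.factorial : ℝ) with hQ
    have hQ0 : 0 ≤ Q := by positivity
    -- the polynomial inequality
    set a : ℝ := (b : ℝ) + 2 with ha
    set k : ℝ := (j : ℝ) + 1 with hk
    have hk0 : 0 ≤ k := by positivity
    have ha0 : 0 < a := by positivity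
    have hka : k ≤ a := by
      have : ((j + 1 : ℕ) : ℝ) ≤ ((b + 2 : ℕ) : ℝ) := by exact_mod_cast hjb
      push_cast at this
      exact this
    have hna : (n : ℝ) ≤ a - 1 := by
      have : (n : ℝ) ≤ ((b + 1 : ℕ) : ℝ) := by exact_mod_cast hbn
      push_cast at this
      linarith
    have hbig : (d : ℝ) ^ 4 ≤ z.im ^ 2 / 2 * (a - 1) := by
      rw [div_le_iff₀ hy] at hn
      nlinarith
    have hpoly : z.im ^ 2 / 2 * (a * (a - 1)) ≤
        ‖z‖ ^ 2 * (a * (a - 1)) - 2 * z.re * k * (d : ℝ) ^ 2 * (a - 1) + k * (k - 1) * (d : ℝ) ^ 4 := by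
      have hid : ‖z‖ ^ 2 * (a * (a - 1)) - 2 * z.re * k * (d : ℝ) ^ 2 * (a - 1) +
          k * (k - 1) * (d : ℝ) ^ 4 - z.im ^ 2 / 2 * (a * (a - 1)) =
          a * (z.im ^ 2 / 2 * (a - 1)) + (a - 1) * (z.re * a - k * (d : ℝ) ^ 2) ^ 2 / a -
            (d : ℝ) ^ 4 * k * (a - k) / a := by
        rw [hnz]
        field_simp
        ring
      have h1 : 0 ≤ (a - 1) * (z.re * a - k * (d : ℝ) ^ 2) ^ 2 / a := by
        apply div_nonneg _ ha0.le
        apply mul_nonneg _ (sq_nonneg _)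
        have : (0 : ℝ) ≤ n := Nat.cast_nonneg _
        linarith
      have h2 : (d : ℝ) ^ 4 * k * (a - k) / a ≤ a * (z.im ^ 2 / 2 * (a - 1)) := by
        rw [div_le_iff₀ ha0]
        have h3 : k * (a - k) ≤ a * a := by nlinarith
        calc (d : ℝ) ^ 4 * k * (a - k) = (d : ℝ) ^ 4 * (k * (a - k)) := by ring
          _ ≤ (d : ℝ) ^ 4 * (a * a) := by gcongr
          _ ≤ (z.im ^ 2 / 2 * (a - 1)) * (a * a) := by gcongr
          _ = a * (z.im ^ 2 / 2 * (a - 1)) * a := by ring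
      linarith
    have hb1 : (b : ℝ) + 1 = a - 1 := by rw [ha]; ring
    rw [hb1]
    have lhs_eq : z.im ^ 2 / (2 * ‖z‖ ^ 2) * (‖z‖ ^ (2 * j) * ‖z‖ ^ 2 * (a * (a - 1) *
        (b.factorial : ℝ))) = (z.im ^ 2 / 2 * (a * (a - 1))) * Q := by
      have hzn : ‖z‖ ≠ 0 := by
        intro h
        rw [h] at hz2
        norm_num at hz2
      rw [hQ]
      field_simp
    rw [lhs_eq]
    have rhs_eq : ‖z‖ ^ (2 * j) * ‖z‖ ^ 2 * (a * (a - 1) * (b.factorial : ℝ)) -
        2 * z.re * ((j + 1 : ℕ) : ℝ) * (d : ℝ) ^ 2 * ‖z‖ ^ (2 * j) * ((a - 1) * (b.factorial : ℝ)) +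
        (((j + 1) * j : ℕ) : ℝ) * (d : ℝ) ^ 4 * ‖z‖ ^ (2 * j) * (b.factorial : ℝ) =
        (‖z‖ ^ 2 * (a * (a - 1)) - 2 * z.re * k * (d : ℝ) ^ 2 * (a - 1) +
          k * (k - 1) * (d : ℝ) ^ 4) * Q := by
      rw [hQ, hk]
      push_cast
      ring
    rw [rhs_eq]
    exact mul_le_mul_of_nonneg_right hpoly hQ0

/-- one term of the binomial theorem -/
lemma mb_term (N m : ℕ) (hm : m ≤ N) (x : ℝ) (h0 : 0 ≤ x) (h1 : x ≤ 1) :
    x ^ (N - m) * (1 - x) ^ m ≤ (m.factorial * (N - m).factorial / N.factorial : ℝ) := by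
  have hsum : ∑ k ∈ range (N + 1), (1 - x) ^ k * x ^ (N - k) * (N.choose k : ℝ) = 1 := by
    rw [← add_pow]
    simp
  have hle : (1 - x) ^ m * x ^ (N - m) * (N.choose m : ℝ) ≤ 1 := by
    refine le_trans ?_ hsum.le
    apply single_le_sum (f := fun k => (1 - x) ^ k * x ^ (N - k) * (N.choose k : ℝ))
    · intro k _
      have : 0 ≤ 1 - x := by linarith
      positivity
    · exact mem_range.2 (by omega)
  have hc : (N.choose m : ℝ) * (m.factorial * (N - m).factorial) = N.factorial := by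
    have := Nat.choose_mul_factorial_mul_factorial hm
    have h2 : (N.choose m : ℝ) * m.factorial * (N - m).factorial = N.factorial := by
      exact_mod_cast this
    rw [← h2]
    ring
  have hf : (0 : ℝ) < N.factorial := by exact_mod_cast N.factorial_pos
  rw [le_div_iff₀ hf, ← hc]
  have hpos : (0 : ℝ) ≤ m.factorial * (N - m).factorial := by positivity
  calc x ^ (N - m) * (1 - x) ^ m * ((N.choose m : ℝ) * (m.factorial * (N - m).factorial))
      = ((1 - x) ^ m * x ^ (N - m) * (N.choose m : ℝ)) * (m.factorial * (N - m).factorial) := by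
        ring
    _ ≤ 1 * (m.factorial * (N - m).factorial) := by gcongr
    _ = _ := one_mul _

lemma mb_div (d : ℕ) (hd : 2 ≤ d) (z2 : ℝ) (hz0 : 0 ≤ z2) (hz : z2 ≤ d) (n : ℕ) :
    MMv d z2 ^ n ≤ ∑ m ∈ range (n + 1), (n.choose m : ℝ) * d ^ (2 * m) * z2 ^ (n - m) *
      (m.factorial * (n * d - m).factorial / (n * d).factorial) := by
  have hd' : (2 : ℝ) ≤ d := by exact_mod_cast hd
  have hd0 : (0 : ℝ) < d := by linarith
  have hden : 0 < (d : ℝ) ^ 2 - z2 := by nlinarith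
  set x : ℝ := d * (d - 1) / (d ^ 2 - z2) with hx
  have hx0 : 0 ≤ x := div_nonneg (mul_nonneg hd0.le (by linarith)) hden.le
  have hxz : x * (d ^ 2 - z2) = d * (d - 1) := div_mul_cancel₀ _ hden.ne'
  have hx1 : x ≤ 1 := by
    rw [hx, div_le_one hden]
    nlinarith
  have hbr : d ^ 2 * (1 - x) + z2 * x = d := by linear_combination -hxz
  have hnd : n ≤ n * d := Nat.le_mul_of_pos_right n (by omega)
  calc MMv d z2 ^ n = x ^ (n * d - n) * (d ^ 2 * (1 - x) + z2 * x) ^ n := by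
        unfold MMv
        rw [← hx, hbr, mul_pow, ← pow_mul]
        have : (d - 1) * n = n * d - n := by
          rw [Nat.sub_mul, one_mul, mul_comm]
        rw [this]
        ring
    _ = ∑ m ∈ range (n + 1), (n.choose m : ℝ) * d ^ (2 * m) * z2 ^ (n - m) *
          (x ^ (n * d - m) * (1 - x) ^ m) := by
        rw [add_pow, mul_sum]
        apply sum_congr rfl
        intro m hm
        rw [mem_range] at hm
        have e1 : n * d - m = (n * d - n) + (n - m) := by omega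
        rw [e1, pow_add, mul_pow, mul_pow, ← pow_mul]
        ring
    _ ≤ _ := by
        apply sum_le_sum
        intro m hm
        rw [mem_range] at hm
        have h := mb_term (n * d) m (by omega) x hx0 hx1
        gcongr

/-- `m!(N-m)!/N! = 1/C(N,m) ≥ x^(N-m) (1-x)^m` with `x = d(d-1)/(d^2-z2)` -/
theorem mom_beta (d : ℕ) (hd : 2 ≤ d) (z2 : ℝ) (hz0 : 0 ≤ z2) (hz : z2 ≤ d) (n : ℕ) :
    ((n * d).factorial : ℝ) * MMv d z2 ^ n ≤
      ∑ m ∈ range (n + 1), (n.choose m : ℝ) * (d : ℝ) ^ (2 * m) * z2 ^ (n - m) *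
        ((m.factorial : ℝ) * ((n * d - m).factorial : ℝ)) := by
  have hf : (0 : ℝ) < ((n * d).factorial : ℝ) := by exact_mod_cast (n * d).factorial_pos
  calc ((n * d).factorial : ℝ) * MMv d z2 ^ n
      ≤ ((n * d).factorial : ℝ) * ∑ m ∈ range (n + 1), (n.choose m : ℝ) * d ^ (2 * m) *
          z2 ^ (n - m) * (m.factorial * (n * d - m).factorial / (n * d).factorial) := by
        gcongr
        exact mb_div d hd z2 hz0 hz n
    _ = _ := by
        rw [mul_sum]
        apply sum_congr rfl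
        intro m _
        field_simp

end Pool.Agent.KM
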