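import Pool.Agent.KM.MomExp
import Pool.Agent.KM.MomCount
import Pool.Agent.KM.MomNum

set_option autoImplicit false
open Finset

namespace Pool.Agent.KM
open Pool.Agent.SMin

/-! ## Module MOM (MomTwo.lean): lower bound for the second moment -/

section two
variable {n d : ℕ}

lemma moD_sq (f : Fin n → Fin n) (h : Function.Injective f) : moD f * moD f = 1 := by
  classical
  have hb : Function.Bijective f := Finite.injective_iff_bijective.1 h
  have h1 : moD f = ((Equiv.Perm.sign (Equiv.ofBijective f hb) : ℤ) : ℂ) := by
    unfold moD
    have h2 : (Matrix.of (fun a j : Fin n => if f a = j then (1 : ℂ) else 0)) =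
        (1 : Matrix (Fin n) (Fin n) ℂ).submatrix (Equiv.ofBijective f hb) id := by
      ext a b
      simp [Matrix.one_apply]
    rw [h2, Matrix.det_permute]
    simp
  rw [h1]
  rcases Int.units_eq_one_or (Equiv.Perm.sign (Equiv.ofBijective f hb)) with h2 | h2 <;>
    rw [h2] <;> simp

/-- two injective self-maps which agree off one point are equal -/
lemma mt_agree (f g : Fin n → Fin n) (hf : Function.Injective f) (hg : Function.Injective g)
    (i : Fin n) (h : ∀ j, j ≠ i → f j = g j) : f = g := by
  funext j
  by_cases hj : j = i
  · subst hj
    obtain ⟨k, hk⟩ := (Finite.injective_iff_surjective.1 hf) (g j)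
    by_cases hkj : k = j
    · rw [hkj] at hk; exact hk
    · rw [h k hkj] at hk
      exact absurd (hg hk) hkj
  · exact h j hj

/-- product of the weights -/
noncomputable def mtP (z : ℂ) (e : Fin n → Option (Fin d)) : ℂ := ∏ i, mow z (e i)

/-- correlation of the signs -/
noncomputable def mtE (c c' : Fin n → Option (Fin d)) : ℂ :=
  ∑ σ : Cfg n d, moD (mof σ c) * moD (mof σ c')

lemma mtE_comm (c c' : Fin n → Option (Fin d)) : mtE c c' = mtE c' c := by
  unfold mtE
  exact sum_congr rfl fun σ _ => mul_comm _ _

/-- the second moment as a double sum -/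
lemma mt_second (z : ℂ) :
    ((∑ σ : Cfg n d, ‖(MM z (mult σ)).det‖ ^ 2 : ℝ) : ℂ) =
      ∑ p : (Fin n → Option (Fin d)) × (Fin n → Option (Fin d)),
        mtP z p.1 * (starRingEnd ℂ) (mtP z p.2) * mtE p.1 p.2 := by
  classical
  have hreal : ∀ f : Fin n → Fin n, (starRingEnd ℂ) (moD f) = moD f := by
    intro f
    by_cases h : Function.Injective f
    · have h1 := moD_sq f h
      have h2 : (moD f - 1) * (moD f + 1) = 0 := by linear_combination h1
      rcases mul_eq_zero.1 h2 with h3 | h3
      · have : moD f = 1 := by linear_combination h3
        rw [this]; simp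
      · have : moD f = -1 := by linear_combination h3
        rw [this]; simp
    · rw [moD_not_inj f h]; simp
  have h1 : ∀ σ : Cfg n d, ((‖(MM z (mult σ)).det‖ ^ 2 : ℝ) : ℂ) =
      ∑ p : (Fin n → Option (Fin d)) × (Fin n → Option (Fin d)),
        mtP z p.1 * (starRingEnd ℂ) (mtP z p.2) * (moD (mof σ p.1) * moD (mof σ p.2)) := by
    intro σ
    rw [← Complex.normSq_eq_norm_sq, ← Complex.mul_conj, mo_det]
    rw [map_sum, sum_mul_sum, ← Fintype.sum_prod_type']
    apply sum_congr rfl
    intro p _
    rw [map_mul, hreal]
    unfold mtP
    ring
  rw [Complex.ofReal_sum]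
  simp_rw [h1]
  rw [sum_comm]
  apply sum_congr rfl
  intro p _
  rw [← mul_sum]
  rfl

/-- number of `none`s -/
def mtn (e : Fin n → Option (Fin d)) : ℕ := (univ.filter (fun i => e i = none)).card

lemma mtP_eq (z : ℂ) (e : Fin n → Option (Fin d)) : mtP z e = (-z) ^ mtn e := by
  classical
  unfold mtP mtn
  have : ∀ i, mow z (e i) = if e i = none then -z else 1 := by
    intro i
    rcases h : e i with _ | a <;> simp [mow]
  simp_rw [this]
  rw [prod_ite, prod_const, prod_const_one, mul_one]

lemma mt_real (c c' : Fin n → Option (Fin d)) : (starRingEnd ℂ) (mtE c c') = mtE c c' := by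
  classical
  have hreal : ∀ f : Fin n → Fin n, (starRingEnd ℂ) (moD f) = moD f := by
    intro f
    by_cases h : Function.Injective f
    · have h1 := moD_sq f h
      have h2 : (moD f - 1) * (moD f + 1) = 0 := by linear_combination h1
      rcases mul_eq_zero.1 h2 with h3 | h3
      · have : moD f = 1 := by linear_combination h3
        rw [this]; simp
      · have : moD f = -1 := by linear_combination h3
        rw [this]; simp
    · rw [moD_not_inj f h]; simp
  unfold mtE
  rw [map_sum]
  apply sum_congr rfl
  intro σ _
  rw [map_mul, hreal, hreal]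

/-- the real summand -/
noncomputable def mtF (z : ℂ) (c c' : Fin n → Option (Fin d)) : ℝ :=
  (mtP z c * (starRingEnd ℂ) (mtP z c') * mtE c c').re

lemma mtF_comm (z : ℂ) (c c' : Fin n → Option (Fin d)) : mtF z c c' = mtF z c' c := by
  unfold mtF
  have h : mtP z c' * (starRingEnd ℂ) (mtP z c) * mtE c' c =
      (starRingEnd ℂ) (mtP z c * (starRingEnd ℂ) (mtP z c') * mtE c c') := by
    rw [map_mul, map_mul, mt_real, mtE_comm c' c, Complex.conj_conj]
    ring
  rw [h, Complex.conj_re]

/-- vertices where the first family uses a stub which the second does not use -/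
def mtA (c c' : Fin n → Option (Fin d)) : Finset (Fin n) := univ.filter (fun i => c i ≠ c' i ∧ c i ≠ none)

lemma mt_mem_A (c c' : Fin n → Option (Fin d)) (i : Fin n) : i ∈ mtA c c' ↔ c i ≠ c' i ∧ c i ≠ none := by
  simp [mtA]

/-- cancellation -/
lemma mt_cancel (c c' : Fin n → Option (Fin d)) (h : 2 ≤ (mtA c c').card) : mtE c c' = 0 := by
  classical
  obtain ⟨i, hi, j, hj, hij⟩ := one_lt_card.1 (show 1 < (mtA c c').card by omega)
  rw [mt_mem_A] at hi hj
  obtain ⟨a, ha⟩ := Option.ne_none_iff_exists'.1 hi.2
  obtain ⟨b, hb⟩ := Option.ne_none_iff_exists'.1 hj.2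
  have hty : ∀ k x, c k = some x → c k ≠ c' k → moty ![c, c'] (k, x) = {0} := by
    intro k x hx hne
    ext r
    rw [mo_mem_ty, mem_singleton]
    fin_cases r
    · simp [hx]
    · simp only [Fin.mk_one, Matrix.cons_val_one, Matrix.cons_val_fin_one]
      constructor
      · intro h'
        exact absurd (hx.trans h'.symm) hne
      · intro h'
        exact absurd h' (by decide)
  have h1 := hty i a ha hi.1
  have h2 := hty j b hb hj.1
  have h3 : moE ![c, c'] = 0 := by
    apply mo_cancel ![c, c'] (i, a) (j, b)
    · intro h'; exact hij (by rw [Prod.mk.injEq] at h'; exact h'.1)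
    · rw [h1, h2]
    · rw [h1]; simp
  rw [← h3]
  unfold mtE moE
  apply sum_congr rfl
  intro σ _
  rw [Fin.prod_univ_two]
  rfl

/-- diagonal class -/
lemma mtE_diag (e : Fin n → Option (Fin d)) :
    mtE e e = ((univ.filter (fun σ : Cfg n d => Function.Injective (mof σ e))).card : ℂ) := by
  classical
  unfold mtE
  rw [card_filter]
  push_cast
  apply sum_congr rfl
  intro σ _
  split_ifs with h
  · exact moD_sq _ h
  · rw [moD_not_inj _ h]; simp

lemma mof_update_self (σ : Cfg n d) (e : Fin n → Option (Fin d)) (i : Fin n) (a : Fin d) :
    mof σ (Function.update e i (some a)) i = hd σ i a := by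
  unfold mof
  rw [Function.update_self]

lemma mof_update_of_ne (σ : Cfg n d) (e : Fin n → Option (Fin d)) (i j : Fin n) (a : Fin d)
    (h : j ≠ i) : mof σ (Function.update e i (some a)) j = mof σ e j := by
  unfold mof
  rw [Function.update_of_ne h]

lemma mof_none (σ : Cfg n d) (e : Fin n → Option (Fin d)) (i : Fin n) (h : e i = none) :
    mof σ e i = i := by
  unfold mof
  rw [h]

/-- one extra stub in the first family -/
lemma mtE_one (e : Fin n → Option (Fin d)) (i : Fin n) (a : Fin d) (hi : e i = none) :
    mtE (Function.update e i (some a)) e =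
      ((univ.filter (fun σ : Cfg n d => Function.Injective (mof σ e) ∧ hd σ i a = i)).card : ℂ) := by
  classical
  unfold mtE
  rw [card_filter]
  push_cast
  apply sum_congr rfl
  intro σ _
  split_ifs with h
  · have : mof σ (Function.update e i (some a)) = mof σ e := by
      funext j
      by_cases hj : j = i
      · subst hj
        rw [mof_update_self, mof_none σ e _ hi, h.2]
      · exact mof_update_of_ne σ e i j a hj
    rw [this]
    exact moD_sq _ h.1
  · by_cases h1 : Function.Injective (mof σ e)
    · by_cases h2 : Function.Injective (mof σ (Function.update e i (some a)))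
      · exfalso
        have h3 := mt_agree _ _ h2 h1 i (fun j hj => mof_update_of_ne σ e i j a hj)
        have h4 := congrFun h3 i
        rw [mof_update_self, mof_none σ e _ hi] at h4
        exact h ⟨h1, h4⟩
      · rw [moD_not_inj _ h2]; simp
    · rw [moD_not_inj _ h1]; simp

/-- one extra stub in each family, at different vertices -/
lemma mtE_two (e : Fin n → Option (Fin d)) (i i' : Fin n) (a a' : Fin d) (hi : e i = none)
    (hi' : e i' = none) (hne : i ≠ i') :
    mtE (Function.update e i (some a)) (Function.update e i' (some a')) =
      ((univ.filter (fun σ : Cfg n d => Function.Injective (mof σ e) ∧ hd σ i a = i ∧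
        hd σ i' a' = i')).card : ℂ) := by
  classical
  unfold mtE
  rw [card_filter]
  push_cast
  apply sum_congr rfl
  intro σ _
  have key : hd σ i a = i → mof σ (Function.update e i (some a)) = mof σ e := by
    intro h
    funext j
    by_cases hj : j = i
    · subst hj
      rw [mof_update_self, mof_none σ e _ hi, h]
    · exact mof_update_of_ne σ e i j a hj
  have key' : hd σ i' a' = i' → mof σ (Function.update e i' (some a')) = mof σ e := by
    intro h
    funext j
    by_cases hj : j = i'
    · subst hj
      rw [mof_update_self, mof_none σ e _ hi', h]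
    · exact mof_update_of_ne σ e i' j a' hj
  split_ifs with h
  · rw [key h.2.1, key' h.2.2]
    exact moD_sq _ h.1
  · by_cases h1 : Function.Injective (mof σ (Function.update e i (some a)))
    · by_cases h2 : Function.Injective (mof σ (Function.update e i' (some a')))
      · exfalso
        -- the head of `(i,a)` is `i`
        have h3 : hd σ i a = i := by
          obtain ⟨j, hj⟩ := (Finite.injective_iff_surjective.1 h1) i
          by_cases hji : j = i
          · rw [hji, mof_update_self] at hj; exact hj
          · exfalso
            rw [mof_update_of_ne σ e i j a hji] at hj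
            by_cases hji' : j = i'
            · rw [hji', mof_none σ e _ hi'] at hj
              exact hne hj.symm
            · have h4 : mof σ (Function.update e i' (some a')) j = i := by
                rw [mof_update_of_ne σ e i' j a' hji']; exact hj
              have h5 : mof σ (Function.update e i' (some a')) i = i := by
                rw [mof_update_of_ne σ e i' i a' hne]; exact mof_none σ e i hi
              exact hji (h2 (h4.trans h5.symm))
        have h3' : hd σ i' a' = i' := by
          obtain ⟨j, hj⟩ := (Finite.injective_iff_surjective.1 h2) i'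
          by_cases hji : j = i'
          · rw [hji, mof_update_self] at hj; exact hj
          · exfalso
            rw [mof_update_of_ne σ e i' j a' hji] at hj
            by_cases hji' : j = i
            · rw [hji', mof_none σ e _ hi] at hj
              exact hne hj
            · have h4 : mof σ (Function.update e i (some a)) j = i' := by
                rw [mof_update_of_ne σ e i j a hji']; exact hj
              have h5 : mof σ (Function.update e i (some a)) i' = i' := by
                rw [mof_update_of_ne σ e i i' a hne.symm]; exact mof_none σ e i' hi'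
              exact hji (h1 (h4.trans h5.symm))
        rw [key h3] at h1
        exact h ⟨h1, h3, h3'⟩
      · rw [moD_not_inj _ h2]; simp
    · rw [moD_not_inj _ h1]; simp

/-- one extra stub in each family, at the same vertex: nonnegative correlation -/
lemma mtE_same (e : Fin n → Option (Fin d)) (i : Fin n) (a a' : Fin d) :
    ∃ k : ℕ, mtE (Function.update e i (some a)) (Function.update e i (some a')) = k := by
  classical
  refine ⟨(univ.filter (fun σ : Cfg n d => Function.Injective (mof σ (Function.update e i (some a))) ∧
    Function.Injective (mof σ (Function.update e i (some a'))))).card, ?_⟩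
  unfold mtE
  rw [card_filter]
  push_cast
  apply sum_congr rfl
  intro σ _
  split_ifs with h
  · have := mt_agree _ _ h.1 h.2 i (fun j hj => by
      rw [mof_update_of_ne σ e i j a hj, mof_update_of_ne σ e i j a' hj])
    rw [← this]
    exact moD_sq _ h.1
  · by_cases h1 : Function.Injective (mof σ (Function.update e i (some a)))
    · by_cases h2 : Function.Injective (mof σ (Function.update e i (some a')))
      · exact absurd ⟨h1, h2⟩ h
      · rw [moD_not_inj _ h2]; simp
    · rw [moD_not_inj _ h1]; simp

end two

end Pool.Agent.KM
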