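import Pool.Agent.KM.MomTwo
import Pool.Agent.KM.MomCount
import Pool.Agent.KM.MomNum

set_option autoImplicit false
open Finset Filter

namespace Pool.Agent.KM
open Pool.Agent.SMin

/-! ## Module MOM (MomTwoB.lean): exact counts and the lower bound for the second moment -/

section twob
variable {n d : ℕ}

/-- the vertices with a stub -/
def mtV (e : Fin n → Option (Fin d)) : Finset (Fin n) := univ.filter (fun i => e i ≠ none)

lemma mt_mem_V (e : Fin n → Option (Fin d)) (i : Fin n) : i ∈ mtV e ↔ e i ≠ none := by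
  simp [mtV]

lemma mt_V_add (e : Fin n → Option (Fin d)) : mtn e + (mtV e).card = n := by
  unfold mtn mtV
  have := card_filter_add_card_filter_not (s := (univ : Finset (Fin n))) (fun i => e i = none)
  simpa using this

lemma mt_perm_count (e : Fin n → Option (Fin d)) :
    (univ.filter (fun π : Equiv.Perm (Fin n) => ∀ i, e i = none → π i = i)).card =
      (mtV e).card.factorial := by
  classical
  have h1 : (univ.filter (fun π : Equiv.Perm (Fin n) => ∀ i, e i = none → π i = i)).card =
      Fintype.card {π : Equiv.Perm (Fin n) // ∀ i, ¬ (e i ≠ none) → π i = i} := by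
    rw [Fintype.card_subtype]
    congr 1
    ext π
    simp
  rw [h1, ← Fintype.card_congr (Equiv.Perm.subtypeEquivSubtypePerm (fun i => e i ≠ none)),
    Fintype.card_perm, Fintype.card_subtype]
  rfl

/-- exact count with extra loops -/
lemma mt_exact (e : Fin n → Option (Fin d)) (L : Finset (Fin n)) (sl : Fin n → Fin d)
    (hL : ∀ i ∈ L, e i = none) :
    (univ.filter (fun σ : Cfg n d => Function.Injective (mof σ e) ∧ ∀ i ∈ L, hd σ i (sl i) = i)).card =
      (mtV e).card.factorial * (d ^ ((mtV e).card + L.card) *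
        (n * d - ((mtV e).card + L.card)).factorial) := by
  classical
  let s : Fin n → Fin d := fun i => (e i).getD (sl i)
  have hdisj : Disjoint (mtV e) L := by
    rw [disjoint_left]
    intro i h1 h2
    exact (mt_mem_V e i).1 h1 (hL i h2)
  have hset : (univ.filter (fun σ : Cfg n d => Function.Injective (mof σ e) ∧
      ∀ i ∈ L, hd σ i (sl i) = i)) =
      (univ.filter (fun π : Equiv.Perm (Fin n) => ∀ i, e i = none → π i = i)).biUnion
        (fun π => univ.filter (fun σ : Cfg n d => ∀ i ∈ mtV e ∪ L, hd σ i (s i) = π i)) := by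
    ext σ
    simp only [mem_filter, mem_univ, true_and, mem_biUnion]
    constructor
    · rintro ⟨h1, h2⟩
      have hb : Function.Bijective (mof σ e) := Finite.injective_iff_bijective.1 h1
      refine ⟨Equiv.ofBijective _ hb, ?_, ?_⟩
      · intro i hi
        rw [Equiv.ofBijective_apply]
        exact mof_none σ e i hi
      · intro i hi
        rw [Equiv.ofBijective_apply]
        rcases mem_union.1 hi with h | h
        · obtain ⟨a, ha⟩ := Option.ne_none_iff_exists'.1 ((mt_mem_V e i).1 h)
          simp only [s, ha, Option.getD_some]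
          unfold mof
          rw [ha]
        · have h3 := hL i h
          simp only [s, h3, Option.getD_none]
          rw [h2 i h, mof_none σ e i h3]
    · rintro ⟨π, hπ, h⟩
      have h1 : mof σ e = π := by
        funext i
        rcases hi : e i with _ | a
        · rw [mof_none σ e i hi, hπ i hi]
        · have h2 := h i (mem_union_left _ ((mt_mem_V e i).2 (by rw [hi]; simp)))
          simp only [s, hi, Option.getD_some] at h2
          rw [← h2]
          unfold mof
          rw [hi]
      refine ⟨by rw [h1]; exact π.injective, ?_⟩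
      intro i hi
      have h2 := h i (mem_union_right _ hi)
      have h3 := hL i hi
      simp only [s, h3, Option.getD_none] at h2
      rw [h2, hπ i h3]
  rw [hset, card_biUnion]
  · have hcount : ∀ π : Equiv.Perm (Fin n),
        (univ.filter (fun σ : Cfg n d => ∀ i ∈ mtV e ∪ L, hd σ i (s i) = π i)).card =
        d ^ ((mtV e).card + L.card) * (n * d - ((mtV e).card + L.card)).factorial := by
      intro π
      rw [mt_count (mtV e ∪ L) s π (π.injective.injOn), card_union_of_disjoint hdisj]
    simp_rw [hcount]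
    rw [sum_const, mt_perm_count, smul_eq_mul]
  · intro π hπ π' hπ' hne
    show Disjoint _ _
    rw [disjoint_left]
    intro σ h1 h2
    have hπ1 := (mem_filter.1 (mem_coe.1 hπ)).2
    have hπ2 := (mem_filter.1 (mem_coe.1 hπ')).2
    have h1' := (mem_filter.1 h1).2
    have h2' := (mem_filter.1 h2).2
    apply hne
    ext i
    by_cases hi : e i = none
    · rw [hπ1 i hi, hπ2 i hi]
    · have hm : i ∈ mtV e ∪ L := mem_union_left _ ((mt_mem_V e i).2 hi)
      rw [← h1' i hm, ← h2' i hm]

/-- value of the diagonal terms -/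
lemma mtF_diag (hd0 : 0 < d) (z : ℂ) (e : Fin n → Option (Fin d)) :
    mtF z e e = ‖z‖ ^ (2 * mtn e) * (((mtV e).card.factorial : ℝ) * ((d : ℝ) ^ (mtV e).card *
      ((n * d - (mtV e).card).factorial : ℝ))) := by
  classical
  unfold mtF
  rw [mtE_diag, mtP_eq]
  have h1 := mt_exact e ∅ (fun _ => (⟨0, hd0⟩ : Fin d)) (by simp)
  have h2 : (univ.filter (fun σ : Cfg n d => Function.Injective (mof σ e) ∧
      ∀ i ∈ (∅ : Finset (Fin n)), hd σ i (⟨0, hd0⟩ : Fin d) = i)) =
      (univ.filter (fun σ : Cfg n d => Function.Injective (mof σ e))) := by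
    ext σ; simp
  rw [h2] at h1
  rw [h1, card_empty, add_zero, Complex.mul_conj, Complex.normSq_eq_norm_sq, norm_pow, norm_neg,
    ← pow_mul, mul_comm (mtn e) 2]
  norm_cast

lemma mtn_update (e : Fin n → Option (Fin d)) (i : Fin n) (a : Fin d) (hi : e i = none) :
    mtn (Function.update e i (some a)) = mtn e - 1 := by
  classical
  unfold mtn
  have h1 : (univ.filter (fun j => Function.update e i (some a) j = none)) =
      (univ.filter (fun j => e j = none)).erase i := by
    ext j
    simp only [mem_filter, mem_univ, true_and, mem_erase]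
    by_cases hj : j = i
    · subst hj; simp
    · rw [Function.update_of_ne hj]; simp [hj]
  rw [h1, card_erase_of_mem]
  simpa using hi

lemma mtn_pos (e : Fin n → Option (Fin d)) (i : Fin n) (hi : e i = none) : 1 ≤ mtn e := by
  unfold mtn
  exact card_pos.2 ⟨i, by simpa using hi⟩

/-- value of the terms with one extra stub -/
lemma mtF_one (z : ℂ) (e : Fin n → Option (Fin d)) (i : Fin n) (a : Fin d) (hi : e i = none) :
    mtF z (Function.update e i (some a)) e = - z.re * (‖z‖ ^ (2 * (mtn e - 1)) *
      (((mtV e).card.factorial : ℝ) * ((d : ℝ) ^ ((mtV e).card + 1) *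
      ((n * d - ((mtV e).card + 1)).factorial : ℝ)))) := by
  classical
  unfold mtF
  rw [mtE_one e i a hi, mtP_eq, mtP_eq, mtn_update e i a hi]
  have h1 := mt_exact e {i} (fun _ => a) (by simpa using hi)
  have h2 : (univ.filter (fun σ : Cfg n d => Function.Injective (mof σ e) ∧
      ∀ j ∈ ({i} : Finset (Fin n)), hd σ j a = j)) =
      (univ.filter (fun σ : Cfg n d => Function.Injective (mof σ e) ∧ hd σ i a = i)) := by
    ext σ; simp
  rw [h2, card_singleton] at h1
  rw [h1]
  have h3 : mtn e = (mtn e - 1) + 1 := by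
    have := mtn_pos e i hi; omega
  set k := mtn e - 1 with hk
  rw [h3, pow_succ, map_mul]
  have h4 : (-z) ^ k * ((starRingEnd ℂ) ((-z) ^ k) * (starRingEnd ℂ) (-z)) =
      ((‖z‖ ^ (2 * k) : ℝ) : ℂ) * (starRingEnd ℂ) (-z) := by
    rw [← mul_assoc, Complex.mul_conj, Complex.normSq_eq_norm_sq, norm_pow, norm_neg, ← pow_mul,
      mul_comm k 2]
  rw [h4]
  have h5 : ((((mtV e).card.factorial * (d ^ ((mtV e).card + 1) *
      (n * d - ((mtV e).card + 1)).factorial) : ℕ) : ℂ)) =
      ((((mtV e).card.factorial : ℝ) * ((d : ℝ) ^ ((mtV e).card + 1) *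
      ((n * d - ((mtV e).card + 1)).factorial : ℝ)) : ℝ) : ℂ) := by
    push_cast; ring
  rw [h5, Complex.re_mul_ofReal, Complex.re_ofReal_mul, Complex.conj_re, Complex.neg_re]
  ring

/-- value of the terms with an extra stub in each family, at different vertices -/
lemma mtF_two (z : ℂ) (e : Fin n → Option (Fin d)) (i i' : Fin n) (a a' : Fin d) (hi : e i = none)
    (hi' : e i' = none) (hne : i ≠ i') :
    mtF z (Function.update e i (some a)) (Function.update e i' (some a')) =
      ‖z‖ ^ (2 * (mtn e - 1)) *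
      (((mtV e).card.factorial : ℝ) * ((d : ℝ) ^ ((mtV e).card + 2) *
      ((n * d - ((mtV e).card + 2)).factorial : ℝ))) := by
  classical
  unfold mtF
  rw [mtE_two e i i' a a' hi hi' hne, mtP_eq, mtP_eq, mtn_update e i a hi, mtn_update e i' a' hi']
  have h1 := mt_exact e {i, i'} (fun j => if j = i then a else a') (by
    intro j hj
    rcases mem_insert.1 hj with h | h
    · rw [h]; exact hi
    · rw [mem_singleton.1 h]; exact hi')
  have h2 : (univ.filter (fun σ : Cfg n d => Function.Injective (mof σ e) ∧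
      ∀ j ∈ ({i, i'} : Finset (Fin n)), hd σ j (if j = i then a else a') = j)) =
      (univ.filter (fun σ : Cfg n d => Function.Injective (mof σ e) ∧ hd σ i a = i ∧
        hd σ i' a' = i')) := by
    ext σ
    simp only [mem_filter, mem_univ, true_and, mem_insert, mem_singleton, forall_eq_or_imp,
      forall_eq, if_true, if_neg hne.symm]
  rw [h2, card_pair hne] at h1
  rw [h1, Complex.mul_conj, Complex.normSq_eq_norm_sq, norm_pow, norm_neg,
    ← pow_mul, mul_comm (mtn e - 1) 2]
  norm_cast

/-- structure of a pair with exactly one extra stub in each family -/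
lemma mt_struct (c c' : Fin n → Option (Fin d)) (i i' : Fin n) (h : mtA c c' = {i})
    (h' : mtA c' c = {i'}) : ∃ (e : Fin n → Option (Fin d)) (a a' : Fin d), e i = none ∧
      (i ≠ i' → e i' = none) ∧
      c = Function.update e i (some a) ∧ c' = Function.update e i' (some a') := by
  classical
  have hi : i ∈ mtA c c' := by rw [h]; simp
  have hi' : i' ∈ mtA c' c := by rw [h']; simp
  rw [mt_mem_A] at hi hi'
  obtain ⟨a, ha⟩ := Option.ne_none_iff_exists'.1 hi.2
  obtain ⟨a', ha'⟩ := Option.ne_none_iff_exists'.1 hi'.2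
  have hoff : ∀ j, j ≠ i → j ≠ i' → c j = c' j := by
    intro j hj hj'
    by_contra hne
    by_cases hn : c j = none
    · have : j ∈ mtA c' c := by
        rw [mt_mem_A]
        exact ⟨fun h => hne h.symm, fun h => hne (hn.trans h.symm)⟩
      rw [h', mem_singleton] at this
      exact hj' this
    · have : j ∈ mtA c c' := by
        rw [mt_mem_A]; exact ⟨hne, hn⟩
      rw [h, mem_singleton] at this
      exact hj this
  refine ⟨Function.update c i none, a, a', by simp, ?_, ?_, ?_⟩
  · intro hne
    rw [Function.update_of_ne hne.symm]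
    by_contra hn
    have : i' ∈ mtA c c' := by
      rw [mt_mem_A]; exact ⟨fun h => hi'.1 h.symm, hn⟩
    rw [h, mem_singleton] at this
    exact hne this.symm
  · funext j
    by_cases hj : j = i
    · subst hj; simp [ha]
    · rw [Function.update_of_ne hj, Function.update_of_ne hj]
  · funext j
    by_cases hj : j = i'
    · subst hj; simp [ha']
    · rw [Function.update_of_ne hj]
      by_cases hji : j = i
      · subst hji
        rw [Function.update_self]
        by_contra hn
        have : j ∈ mtA c' c := by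
          rw [mt_mem_A]; exact ⟨fun h => hi.1 h.symm, hn⟩
        rw [h', mem_singleton] at this
        exact hj this
      · rw [Function.update_of_ne hji]
        exact (hoff j hji hj).symm

lemma mt_A_empty (c c' : Fin n → Option (Fin d)) (h : (mtA c c').card = 0) (h' : (mtA c' c).card = 0) :
    c = c' := by
  classical
  rw [card_eq_zero] at h h'
  funext j
  by_contra hne
  by_cases hn : c j = none
  · have : j ∈ mtA c' c := by
      rw [mt_mem_A]
      exact ⟨fun h => hne h.symm, fun h => hne (hn.trans h.symm)⟩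
    rw [h'] at this
    simp at this
  · have : j ∈ mtA c c' := by
      rw [mt_mem_A]; exact ⟨hne, hn⟩
    rw [h] at this
    simp at this

/-- nonnegativity outside the three main classes -/
lemma mtF_nonneg (z : ℂ) (c c' : Fin n → Option (Fin d))
    (h00 : ¬ ((mtA c c').card = 0 ∧ (mtA c' c).card = 0))
    (h10 : ¬ ((mtA c c').card = 1 ∧ (mtA c' c).card = 0))
    (h01 : ¬ ((mtA c c').card = 0 ∧ (mtA c' c).card = 1)) : 0 ≤ mtF z c c' := by
  classical
  by_cases h1 : 2 ≤ (mtA c c').card
  · unfold mtF
    rw [mt_cancel c c' h1]; simp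
  by_cases h2 : 2 ≤ (mtA c' c).card
  · unfold mtF
    rw [mtE_comm, mt_cancel c' c h2]; simp
  have h3 : (mtA c c').card = 1 := by
    by_contra hne
    have : (mtA c c').card = 0 := by omega
    by_cases h4 : (mtA c' c).card = 0
    · exact h00 ⟨this, h4⟩
    · exact h01 ⟨this, by omega⟩
  have h4 : (mtA c' c).card = 1 := by
    by_contra hne
    exact h10 ⟨h3, by omega⟩
  obtain ⟨i, hi⟩ := card_eq_one.1 h3
  obtain ⟨i', hi'⟩ := card_eq_one.1 h4
  obtain ⟨e, a, a', he, he', hc, hc'⟩ := mt_struct c c' i i' hi hi'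
  by_cases hne : i = i'
  · subst hne
    obtain ⟨k, hk⟩ := mtE_same e i a a'
    unfold mtF
    rw [hc, hc', hk, mtP_eq, mtP_eq, mtn_update e i a he, mtn_update e i a' he, Complex.mul_conj]
    have : ((Complex.normSq ((-z) ^ (mtn e - 1)) : ℝ) : ℂ) * (k : ℂ) =
        ((Complex.normSq ((-z) ^ (mtn e - 1)) * k : ℝ) : ℂ) := by push_cast; ring
    rw [this, Complex.ofReal_re]
    exact mul_nonneg (Complex.normSq_nonneg _) (Nat.cast_nonneg k)
  · rw [hc, hc', mtF_two z e i i' a a' he (he' hne) hne]
    positivity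

lemma mt_A_update (e : Fin n → Option (Fin d)) (i : Fin n) (a : Fin d) (hi : e i = none) :
    mtA (Function.update e i (some a)) e = {i} ∧ mtA e (Function.update e i (some a)) = ∅ := by
  classical
  constructor
  · ext j
    rw [mt_mem_A, mem_singleton]
    by_cases hj : j = i
    · subst hj; simp [hi]
    · simp [hj]
  · ext j
    rw [mt_mem_A]
    by_cases hj : j = i
    · subst hj; simp [hi]
    · simp [hj]

lemma mt_A_update2 (e : Fin n → Option (Fin d)) (i i' : Fin n) (a a' : Fin d) (hi : e i = none)
    (hi' : e i' = none) (hne : i ≠ i') :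
    mtA (Function.update e i (some a)) (Function.update e i' (some a')) = {i} := by
  classical
  ext j
  rw [mt_mem_A, mem_singleton]
  by_cases hj : j = i
  · subst hj; simp [hi, hne]
  · by_cases hj' : j = i'
    · subst hj'; simp [hi', hj]
    · simp [hj, hj']

/-- index set of one extra stub -/
def mtI (n d : ℕ) : Finset ((Fin n → Option (Fin d)) × (Fin n × Fin d)) :=
  univ.filter (fun q => q.1 q.2.1 = none)

/-- index set of two extra stubs -/
def mtJ (n d : ℕ) : Finset ((Fin n → Option (Fin d)) × ((Fin n × Fin d) × (Fin n × Fin d))) :=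
  univ.filter (fun q => q.1 q.2.1.1 = none ∧ q.1 q.2.2.1 = none ∧ q.2.1.1 ≠ q.2.2.1)

/-- the map adding one stub -/
def mtg (q : (Fin n → Option (Fin d)) × (Fin n × Fin d)) :
    (Fin n → Option (Fin d)) × (Fin n → Option (Fin d)) :=
  (Function.update q.1 q.2.1 (some q.2.2), q.1)

/-- the map adding one stub on each side -/
def mth (q : (Fin n → Option (Fin d)) × ((Fin n × Fin d) × (Fin n × Fin d))) :
    (Fin n → Option (Fin d)) × (Fin n → Option (Fin d)) :=
  (Function.update q.1 q.2.1.1 (some q.2.1.2), Function.update q.1 q.2.2.1 (some q.2.2.2))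

lemma mt_sum10 (z : ℂ) :
    ∑ p ∈ univ.filter (fun p : (Fin n → Option (Fin d)) × (Fin n → Option (Fin d)) =>
      (mtA p.1 p.2).card = 1 ∧ (mtA p.2 p.1).card = 0), mtF z p.1 p.2 =
    ∑ q ∈ mtI n d, mtF z (Function.update q.1 q.2.1 (some q.2.2)) q.1 := by
  classical
  symm
  apply sum_bij (fun q _ => mtg q)
  · intro q hq
    have hq' := (mem_filter.1 hq).2
    rw [mem_filter]
    have := mt_A_update q.1 q.2.1 q.2.2 hq'
    unfold mtg
    refine ⟨mem_univ _, ?_, ?_⟩
    · show (mtA (Function.update q.1 q.2.1 (some q.2.2)) q.1).card = 1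
      rw [this.1, card_singleton]
    · show (mtA q.1 (Function.update q.1 q.2.1 (some q.2.2))).card = 0
      rw [this.2, card_empty]
  · rintro ⟨e, i, a⟩ hq ⟨e', i', a'⟩ hq' h
    have hq1 : e i = none := (mem_filter.1 hq).2
    have hq1' : e' i' = none := (mem_filter.1 hq').2
    simp only [mtg, Prod.mk.injEq] at h
    obtain ⟨h1, h2⟩ := h
    subst h2
    have h3 := congrFun h1 i
    rw [Function.update_self] at h3
    by_cases hii : i = i'
    · subst hii
      rw [Function.update_self, Option.some.injEq] at h3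
      rw [h3]
    · rw [Function.update_of_ne hii, hq1] at h3
      simp at h3
  · rintro ⟨c, c'⟩ hp
    obtain ⟨h1, h2⟩ := (mem_filter.1 hp).2
    simp only at h1 h2
    obtain ⟨i, hi⟩ := card_eq_one.1 h1
    rw [card_eq_zero] at h2
    have him : i ∈ mtA c c' := by rw [hi]; simp
    rw [mt_mem_A] at him
    obtain ⟨a, ha⟩ := Option.ne_none_iff_exists'.1 him.2
    have hc'i : c' i = none := by
      by_contra hn
      have : i ∈ mtA c' c := by
        rw [mt_mem_A]; exact ⟨fun h => him.1 h.symm, hn⟩
      rw [h2] at this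
      simp at this
    refine ⟨(c', i, a), mem_filter.2 ⟨mem_univ _, hc'i⟩, ?_⟩
    simp only [mtg, Prod.mk.injEq, and_true]
    funext j
    by_cases hj : j = i
    · subst hj; simp [ha]
    · rw [Function.update_of_ne hj]
      by_contra hne
      by_cases hn : c j = none
      · have : j ∈ mtA c' c := by
          rw [mt_mem_A]
          exact ⟨hne, fun h => hne (h.trans hn.symm)⟩
        rw [h2] at this
        simp at this
      · have : j ∈ mtA c c' := by
          rw [mt_mem_A]; exact ⟨fun h => hne h.symm, hn⟩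
        rw [hi, mem_singleton] at this
        exact hj this
  · intro q _
    rfl

lemma mt_sum01 (z : ℂ) :
    ∑ p ∈ univ.filter (fun p : (Fin n → Option (Fin d)) × (Fin n → Option (Fin d)) =>
      (mtA p.1 p.2).card = 0 ∧ (mtA p.2 p.1).card = 1), mtF z p.1 p.2 =
    ∑ q ∈ mtI n d, mtF z (Function.update q.1 q.2.1 (some q.2.2)) q.1 := by
  classical
  rw [← mt_sum10]
  apply sum_bij (fun p _ => (p.2, p.1))
  · intro p hp
    have := (mem_filter.1 hp).2
    exact mem_filter.2 ⟨mem_univ _, this.2, this.1⟩
  · rintro ⟨a, b⟩ _ ⟨a', b'⟩ _ h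
    simp only [Prod.mk.injEq] at h ⊢
    exact ⟨h.2, h.1⟩
  · rintro ⟨a, b⟩ hp
    have := (mem_filter.1 hp).2
    exact ⟨(b, a), mem_filter.2 ⟨mem_univ _, this.2, this.1⟩, rfl⟩
  · intro p _
    exact mtF_comm z p.1 p.2

lemma mt_sum00 (z : ℂ) :
    ∑ p ∈ univ.filter (fun p : (Fin n → Option (Fin d)) × (Fin n → Option (Fin d)) =>
      (mtA p.1 p.2).card = 0 ∧ (mtA p.2 p.1).card = 0), mtF z p.1 p.2 =
    ∑ e : Fin n → Option (Fin d), mtF z e e := by
  classical
  symm
  apply sum_bij (fun e _ => (e, e))
  · intro e _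
    rw [mem_filter]
    have : (mtA e e) = ∅ := by ext j; rw [mt_mem_A]; simp
    exact ⟨mem_univ _, by rw [this]; simp, by rw [this]; simp⟩
  · intro e _ e' _ h
    simpa using h
  · rintro ⟨c, c'⟩ hp
    have h := (mem_filter.1 hp).2
    have := mt_A_empty c c' h.1 h.2
    exact ⟨c, mem_univ _, by rw [this]⟩
  · intro e _
    rfl

/-- lower bound of the double sum -/
lemma mt_lower (z : ℂ) :
    ∑ e : Fin n → Option (Fin d), mtF z e e +
      2 * ∑ q ∈ mtI n d, mtF z (Function.update q.1 q.2.1 (some q.2.2)) q.1 +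
      ∑ q ∈ mtJ n d, mtF z (Function.update q.1 q.2.1.1 (some q.2.1.2))
        (Function.update q.1 q.2.2.1 (some q.2.2.2)) ≤
      ∑ σ : Cfg n d, ‖(MM z (mult σ)).det‖ ^ 2 := by
  classical
  have h1 : ∑ σ : Cfg n d, ‖(MM z (mult σ)).det‖ ^ 2 =
      ∑ p : (Fin n → Option (Fin d)) × (Fin n → Option (Fin d)), mtF z p.1 p.2 := by
    have := congrArg Complex.re (mt_second (n := n) (d := d) z)
    rw [Complex.ofReal_re, Complex.re_sum] at this
    exact this
  rw [h1]
  -- the remaining class
  set S := univ.filter (fun p : (Fin n → Option (Fin d)) × (Fin n → Option (Fin d)) =>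
      ¬ ((mtA p.1 p.2).card = 0 ∧ (mtA p.2 p.1).card = 0) ∧
      ¬ ((mtA p.1 p.2).card = 1 ∧ (mtA p.2 p.1).card = 0) ∧
      ¬ ((mtA p.1 p.2).card = 0 ∧ (mtA p.2 p.1).card = 1)) with hS
  have h2 : ∑ p : (Fin n → Option (Fin d)) × (Fin n → Option (Fin d)), mtF z p.1 p.2 =
      ∑ e : Fin n → Option (Fin d), mtF z e e +
      2 * ∑ q ∈ mtI n d, mtF z (Function.update q.1 q.2.1 (some q.2.2)) q.1 +
      ∑ p ∈ S, mtF z p.1 p.2 := by
    rw [two_mul]
    nth_rewrite 2 [← mt_sum01]
    rw [← mt_sum10, ← mt_sum00, hS, ← add_assoc]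
    rw [sum_filter, sum_filter, sum_filter, sum_filter, ← sum_add_distrib, ← sum_add_distrib,
      ← sum_add_distrib]
    apply sum_congr rfl
    intro p _
    by_cases a1 : (mtA p.1 p.2).card = 0
    · by_cases a2 : (mtA p.2 p.1).card = 0
      · simp [a1, a2]
      · by_cases a3 : (mtA p.2 p.1).card = 1
        · simp [a1, a3]
        · simp [a1, a2, a3]
    · by_cases a2 : (mtA p.1 p.2).card = 1
      · by_cases a3 : (mtA p.2 p.1).card = 0
        · simp [a2, a3]
        · simp [a2, a3]
      · simp [a1, a2]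
  rw [h2]
  apply add_le_add le_rfl
  have hinj : ∀ q ∈ mtJ n d, ∀ q' ∈ mtJ n d,
      (Function.update q.1 q.2.1.1 (some q.2.1.2), Function.update q.1 q.2.2.1 (some q.2.2.2)) =
      (Function.update q'.1 q'.2.1.1 (some q'.2.1.2), Function.update q'.1 q'.2.2.1 (some q'.2.2.2)) →
      q = q' := by
    rintro ⟨e, ⟨i, a⟩, ⟨j, b⟩⟩ hq ⟨e', ⟨i', a'⟩, ⟨j', b'⟩⟩ hq' h
    obtain ⟨g1, g2, g3⟩ := (mem_filter.1 hq).2
    obtain ⟨g1', g2', g3'⟩ := (mem_filter.1 hq').2
    simp only at g1 g2 g3 g1' g2' g3' h
    rw [Prod.mk.injEq] at h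
    have k1 := mt_A_update2 e i j a b g1 g2 g3
    have k2 := mt_A_update2 e' i' j' a' b' g1' g2' g3'
    rw [h.1, h.2, k2, singleton_inj] at k1
    have k3 := mt_A_update2 e j i b a g2 g1 g3.symm
    have k4 := mt_A_update2 e' j' i' b' a' g2' g1' g3'.symm
    rw [h.1, h.2, k4, singleton_inj] at k3
    subst k1
    subst k3
    have e1 := congrFun h.1 i'
    have e2 := congrFun h.2 j'
    rw [Function.update_self, Function.update_self, Option.some.injEq] at e1 e2
    subst e1
    subst e2
    have e3 : e = e' := by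
      funext x
      by_cases hx : x = i'
      · rw [hx, g1, g1']
      · have := congrFun h.1 x
        rwa [Function.update_of_ne hx, Function.update_of_ne hx] at this
    rw [e3]
  calc ∑ q ∈ mtJ n d, mtF z (Function.update q.1 q.2.1.1 (some q.2.1.2))
        (Function.update q.1 q.2.2.1 (some q.2.2.2)) =
      ∑ p ∈ (mtJ n d).image mth, mtF z p.1 p.2 := by
        rw [sum_image]
        · rfl
        · intro q hq q' hq' h
          exact hinj q hq q' hq' h
    _ ≤ ∑ p ∈ S, mtF z p.1 p.2 := by
        apply sum_le_sum_of_subset_of_nonneg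
        · intro p hp
          obtain ⟨⟨e, ⟨i, a⟩, ⟨j, b⟩⟩, hq, rfl⟩ := mem_image.1 hp
          obtain ⟨g1, g2, g3⟩ := (mem_filter.1 hq).2
          simp only at g1 g2 g3
          have k1 := mt_A_update2 e i j a b g1 g2 g3
          have k3 := mt_A_update2 e j i b a g2 g1 g3.symm
          rw [hS, mem_filter]
          unfold mth
          simp only [k1, k3, card_singleton, mem_univ, true_and]
          omega
        · intro p hp _
          have h := (mem_filter.1 hp).2
          exact mtF_nonneg z p.1 p.2 h.1 h.2.1 h.2.2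

end twob

end Pool.Agent.KM
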