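import Pool.Agent.KM.MomGen

set_option autoImplicit false
open Finset

namespace Pool.Agent.KM
open Pool.Agent.SMin

/-! ## Module MOM (MomWt.lean): the local partition function for four replicas -/

section wt
variable {d : ℕ}

lemma mw_cover {α ι : Type*} (S : Finset α) (w : α → ℝ) (hw : ∀ a, 0 ≤ w a) (I : Finset ι)
    (F : ι → α) (h : ∀ a ∈ S, ∃ i ∈ I, F i = a) : ∑ a ∈ S, w a ≤ ∑ i ∈ I, w (F i) := by
  classical
  rcases S.eq_empty_or_nonempty with hS | ⟨a0, ha0⟩
  · rw [hS, sum_empty]; exact sum_nonneg fun i _ => hw _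
  have : Nonempty ι := ⟨(h a0 ha0).choose⟩
  choose! idx h1 h2 using h
  calc ∑ a ∈ S, w a = ∑ a ∈ S, w (F (idx a)) := sum_congr rfl fun a ha => by rw [h2 a ha]
    _ = ∑ i ∈ S.image idx, w (F i) := by
        rw [sum_image]
        intro a ha b hb hab
        rw [← h2 a ha, ← h2 b hb, hab]
    _ ≤ ∑ i ∈ I, w (F i) := by
        apply sum_le_sum_of_subset_of_nonneg
        · intro i hi
          obtain ⟨a, ha, rfl⟩ := mem_image.1 hi
          exact h1 a ha
        · intro i _ _; exact hw _

/-- the set of replicas which are not `none` -/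
def mso (o : Fin 4 → Option (Fin d)) : Finset (Fin 4) := univ.filter (fun r => o r ≠ none)

/-- local product -/
noncomputable def mlw (τ : Finset (Fin 4) → ℝ) (o : Fin 4 → Option (Fin d)) : ℝ :=
  ∏ a, τ (lty o a)

/-- partial sums of the local products -/
noncomputable def mP (d : ℕ) (τ : Finset (Fin 4) → ℝ) (Y : Finset (Fin 4)) : ℝ :=
  ∑ o ∈ univ.filter (fun o : Fin 4 → Option (Fin d) => mso o = Y), mlw τ o

lemma mw_mem_lty (o : Fin 4 → Option (Fin d)) (a : Fin d) (r : Fin 4) :
    r ∈ lty o a ↔ o r = some a := by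
  simp [lty]

lemma mw_mem_so (o : Fin 4 → Option (Fin d)) (r : Fin 4) : r ∈ mso o ↔ o r ≠ none := by
  simp [mso]

lemma mw_same (o o' : Fin 4 → Option (Fin d)) : (∀ r, o r = none ↔ o' r = none) ↔ mso o' = mso o := by
  constructor
  · intro h
    ext r
    rw [mw_mem_so, mw_mem_so, Ne, Ne, h r]
  · intro h r
    have := congrArg (fun S => r ∈ S) h
    simp only [mw_mem_so, ne_eq, eq_iff_iff, not_iff_not] at this
    exact this.symm

lemma mw_lW (ρ : ℝ) (o : Fin 4 → Option (Fin d)) : lW ρ o = ρ ^ (4 - (mso o).card) := by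
  classical
  unfold lW
  rw [prod_ite, prod_const, prod_const_one, mul_one]
  congr 1
  have h1 := card_filter_add_card_filter_not (s := (univ : Finset (Fin 4))) (fun r => o r = none)
  have h2 : (univ.filter (fun r : Fin 4 => ¬ o r = none)) = mso o := rfl
  rw [h2] at h1
  simp only [card_univ, Fintype.card_fin] at h1
  omega

lemma mw_Wt (ρ : ℝ) (τ : Finset (Fin 4) → ℝ) :
    Wt d ρ τ = ∑ Y : Finset (Fin 4), ρ ^ (4 - Y.card) * mP d τ Y ^ 2 := by
  classical
  unfold Wt
  rw [Fintype.sum_prod_type]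
  calc _ = ∑ o : Fin 4 → Option (Fin d), ∑ o' : Fin 4 → Option (Fin d),
        (if mso o' = mso o then ρ ^ (4 - (mso o).card) * mlw τ o * mlw τ o' else 0) := by
        apply sum_congr rfl
        intro o _
        apply sum_congr rfl
        intro o' _
        by_cases h : mso o' = mso o
        · rw [if_pos h, if_pos ((mw_same o o').2 h), mw_lW]
          rfl
        · rw [if_neg h, if_neg (fun h' => h ((mw_same o o').1 h'))]
    _ = ∑ o : Fin 4 → Option (Fin d), ρ ^ (4 - (mso o).card) * mlw τ o * mP d τ (mso o) := by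
        apply sum_congr rfl
        intro o _
        unfold mP
        rw [mul_sum, sum_filter]
    _ = ∑ Y : Finset (Fin 4), ∑ o ∈ univ.filter (fun o : Fin 4 → Option (Fin d) => mso o = Y),
          ρ ^ (4 - (mso o).card) * mlw τ o * mP d τ (mso o) := by
        rw [sum_fiberwise]
    _ = _ := by
        apply sum_congr rfl
        intro Y _
        rw [sum_congr rfl (g := fun o => ρ ^ (4 - Y.card) * mP d τ Y * mlw τ o)]
        · rw [← mul_sum]
          have : ∑ o ∈ univ.filter (fun o : Fin 4 → Option (Fin d) => mso o = Y), mlw τ o = mP d τ Y := rfl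
          rw [this]; ring
        · intro o ho
          rw [(mem_filter.1 ho).2]; ring

/-- one block -/
def mo1 (Y : Finset (Fin 4)) (a : Fin d) : Fin 4 → Option (Fin d) := fun r => if r ∈ Y then some a else none

/-- two blocks -/
def mo2 (Q Q' : Finset (Fin 4)) (a b : Fin d) : Fin 4 → Option (Fin d) :=
  fun r => if r ∈ Q then some a else if r ∈ Q' then some b else none

lemma mlw_mo1 (τ : Finset (Fin 4) → ℝ) (Y : Finset (Fin 4)) (a : Fin d) :
    mlw τ (mo1 Y a) = τ Y * τ ∅ ^ (d - 1) := by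
  classical
  unfold mlw
  rw [← mul_prod_erase univ _ (mem_univ a)]
  have h1 : lty (mo1 Y a) a = Y := by
    ext r; rw [mw_mem_lty]; unfold mo1; split_ifs with h <;> simp [h]
  rw [h1]
  congr 1
  rw [prod_congr rfl (g := fun _ => τ ∅), prod_const, card_erase_of_mem (mem_univ a)]
  · simp
  · intro c hc
    congr 1
    ext r
    rw [mw_mem_lty]
    unfold mo1
    split_ifs with h
    · simp [(ne_of_mem_erase hc).symm]
    · simp

lemma mlw_mo2 (τ : Finset (Fin 4) → ℝ) (Q Q' : Finset (Fin 4)) (hQ : Disjoint Q Q') (a b : Fin d)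
    (hab : a ≠ b) : mlw τ (mo2 Q Q' a b) = τ Q * τ Q' * τ ∅ ^ (d - 2) := by
  classical
  unfold mlw
  have hb : b ∈ (univ : Finset (Fin d)).erase a := mem_erase.2 ⟨hab.symm, mem_univ b⟩
  rw [← mul_prod_erase univ _ (mem_univ a), ← mul_prod_erase (univ.erase a) _ hb, mul_assoc]
  have h1 : lty (mo2 Q Q' a b) a = Q := by
    ext r; rw [mw_mem_lty]; unfold mo2; split_ifs with h h'
    · simp [h]
    · simp [h, hab.symm]
    · simp [h]
  have h2 : lty (mo2 Q Q' a b) b = Q' := by
    ext r; rw [mw_mem_lty]; unfold mo2; split_ifs with h h'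
    · have := disjoint_left.1 hQ h
      simp [this, hab]
    · simp [h']
    · simp [h']
  rw [h1, h2]
  congr 2
  rw [prod_congr rfl (g := fun _ => τ ∅), prod_const, card_erase_of_mem hb,
    card_erase_of_mem (mem_univ a)]
  · congr 1
    simp
    omega
  · intro c hc
    have hcb := ne_of_mem_erase hc
    have hca := ne_of_mem_erase (mem_of_mem_erase hc)
    congr 1
    ext r
    rw [mw_mem_lty]
    unfold mo2
    split_ifs with h h'
    · simp [hca.symm]
    · simp [hcb.symm]
    · simp

/-- all local types even -/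
def mEv (o : Fin 4 → Option (Fin d)) : Prop := ∀ a, Even (lty o a).card

lemma mw_lty_sub (o : Fin 4 → Option (Fin d)) (a : Fin d) : lty o a ⊆ mso o := by
  intro r hr
  rw [mw_mem_lty] at hr
  rw [mw_mem_so, hr]; simp

lemma mw_eq_mo1 (o : Fin 4 → Option (Fin d)) (a : Fin d) (h : lty o a = mso o) :
    mo1 (mso o) a = o := by
  funext r
  unfold mo1
  split_ifs with hr
  · rw [← h, mw_mem_lty] at hr
    exact hr.symm
  · rw [mw_mem_so] at hr
    push Not at hr
    exact hr.symm

/-- even part of the partial sums -/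
noncomputable def mPe (d : ℕ) (τ : Finset (Fin 4) → ℝ) (Y : Finset (Fin 4)) : ℝ := by
  classical exact
  ∑ o ∈ univ.filter (fun o : Fin 4 → Option (Fin d) => mso o = Y ∧ mEv o), mlw τ o

variable (τ : Finset (Fin 4) → ℝ) (hτ0 : ∀ Q, 0 ≤ τ Q)

include hτ0 in
lemma mlw_nonneg (o : Fin 4 → Option (Fin d)) : 0 ≤ mlw τ o := prod_nonneg fun _ _ => hτ0 _

include hτ0 in
lemma mPe_empty : mPe d τ ∅ ≤ τ ∅ ^ d := by
  classical
  unfold mPe
  refine (mw_cover _ (mlw τ) (mlw_nonneg τ hτ0) ({()} : Finset Unit) (fun _ _ => none) ?_).trans ?_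
  · intro o ho
    refine ⟨(), mem_singleton_self _, ?_⟩
    have h1 := (mem_filter.1 ho).2.1
    funext r
    have h2 : r ∉ mso o := by rw [h1]; simp
    rw [mw_mem_so] at h2
    push Not at h2
    exact h2.symm
  · rw [sum_singleton]
    unfold mlw
    have : ∀ a : Fin d, lty (fun _ : Fin 4 => (none : Option (Fin d))) a = ∅ := by
      intro a; ext r; rw [mw_mem_lty]; simp
    simp_rw [this]
    simp

include hτ0 in
lemma mPe_two (Y : Finset (Fin 4)) (hY : Y.card = 2) : mPe d τ Y ≤ d * (τ Y * τ ∅ ^ (d - 1)) := by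
  classical
  unfold mPe
  refine (mw_cover _ (mlw τ) (mlw_nonneg τ hτ0) (univ : Finset (Fin d)) (fun a => mo1 Y a) ?_).trans ?_
  · intro o ho
    obtain ⟨h1, h2⟩ := (mem_filter.1 ho).2
    obtain ⟨r, hr⟩ : Y.Nonempty := by rw [← card_pos, hY]; norm_num
    rw [← h1, mw_mem_so] at hr
    obtain ⟨a, ha⟩ := Option.ne_none_iff_exists'.1 hr
    refine ⟨a, mem_univ a, ?_⟩
    rw [← h1]
    apply mw_eq_mo1
    apply eq_of_subset_of_card_le (mw_lty_sub o a)
    have h3 : 0 < (lty o a).card := card_pos.2 ⟨r, (mw_mem_lty o a r).2 ha⟩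
    have h4 := h2 a
    rw [h1, hY]
    obtain ⟨k, hk⟩ := h4
    omega
  · simp_rw [mlw_mo1]
    rw [sum_const, card_univ, Fintype.card_fin, nsmul_eq_mul]

include hτ0 in
lemma mPe_univ : mPe d τ univ ≤ d * (τ univ * τ ∅ ^ (d - 1)) +
    (d * (d - 1)) * ((τ {0, 1} * τ {2, 3} + τ {0, 2} * τ {1, 3} + τ {0, 3} * τ {1, 2}) * τ ∅ ^ (d - 2)) := by
  classical
  -- index set: `inl a` or `inr (Q, a, b)`
  let Qs : Finset (Finset (Fin 4)) := {{0, 1}, {0, 2}, {0, 3}}
  let I1 : Finset (Fin d ⊕ (Finset (Fin 4) × (Fin d × Fin d))) :=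
    (univ : Finset (Fin d)).map ⟨Sum.inl, Sum.inl_injective⟩
  let I2 : Finset (Fin d ⊕ (Finset (Fin 4) × (Fin d × Fin d))) :=
    (Qs ×ˢ (univ.filter (fun p : Fin d × Fin d => p.1 ≠ p.2))).map ⟨Sum.inr, Sum.inr_injective⟩
  let F : Fin d ⊕ (Finset (Fin 4) × (Fin d × Fin d)) → (Fin 4 → Option (Fin d)) := fun x =>
    match x with
    | Sum.inl a => mo1 univ a
    | Sum.inr q => mo2 q.1 q.1ᶜ q.2.1 q.2.2
  have hdisj : Disjoint I1 I2 := by
    rw [disjoint_left]
    intro x h1 h2
    obtain ⟨a, _, rfl⟩ := mem_map.1 h1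
    obtain ⟨b, _, hb⟩ := mem_map.1 h2
    simp at hb
  unfold mPe
  refine (mw_cover _ (mlw τ) (mlw_nonneg τ hτ0) (I1 ∪ I2) F ?_).trans ?_
  · intro o ho
    obtain ⟨h1, h2⟩ := (mem_filter.1 ho).2
    have hsome : ∀ r, ∃ a, o r = some a := by
      intro r
      have : r ∈ mso o := by rw [h1]; exact mem_univ r
      rw [mw_mem_so] at this
      exact Option.ne_none_iff_exists'.1 this
    obtain ⟨a, ha⟩ := hsome 0
    have h0 : (0 : Fin 4) ∈ lty o a := (mw_mem_lty o a 0).2 ha
    by_cases h4 : lty o a = univ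
    · refine ⟨Sum.inl a, ?_, ?_⟩
      · apply mem_union_left
        simp [I1]
      · show mo1 univ a = o
        rw [← h1]
        exact mw_eq_mo1 o a (by rw [h4, h1])
    · -- the block of `0` has two elements
      have hcard : ∀ S : Finset (Fin 4), (0 : Fin 4) ∈ S → Even S.card → S ≠ univ → S ∈ Qs := by
        decide
      have hQ := hcard (lty o a) h0 (h2 a) h4
      have hcompl : ∀ S : Finset (Fin 4), S ∈ Qs → Sᶜ.card = 2 := by decide
      have hc2 := hcompl _ hQ
      obtain ⟨r, hr⟩ : ((lty o a)ᶜ).Nonempty := by rw [← card_pos, hc2]; norm_num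
      obtain ⟨b, hb⟩ := hsome r
      have hab : a ≠ b := by
        intro h
        rw [mem_compl, mw_mem_lty] at hr
        exact hr (by rw [hb, h])
      have hsub : lty o b ⊆ (lty o a)ᶜ := by
        intro s hs
        rw [mem_compl, mw_mem_lty]
        rw [mw_mem_lty] at hs
        rw [hs]
        intro h
        exact hab (Option.some.inj h).symm
      have heq : lty o b = (lty o a)ᶜ := by
        apply eq_of_subset_of_card_le hsub
        have h3 : 0 < (lty o b).card := card_pos.2 ⟨r, (mw_mem_lty o b r).2 hb⟩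
        obtain ⟨k, hk⟩ := h2 b
        rw [hc2]; omega
      refine ⟨Sum.inr (lty o a, a, b), ?_, ?_⟩
      · apply mem_union_right
        rw [mem_map]
        refine ⟨(lty o a, a, b), ?_, rfl⟩
        rw [mem_product]
        exact ⟨hQ, mem_filter.2 ⟨mem_univ _, hab⟩⟩
      · show mo2 (lty o a) (lty o a)ᶜ a b = o
        funext s
        unfold mo2
        split_ifs with hs hs'
        · exact ((mw_mem_lty o a s).1 hs).symm
        · rw [← heq] at hs'
          exact ((mw_mem_lty o b s).1 hs').symm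
        · exact absurd (mem_compl.2 hs) hs'
  · rw [sum_union hdisj]
    apply add_le_add
    · rw [sum_map]
      simp only [Function.Embedding.coeFn_mk, F]
      simp_rw [mlw_mo1]
      rw [sum_const, card_univ, Fintype.card_fin, nsmul_eq_mul]
    · rw [sum_map]
      simp only [Function.Embedding.coeFn_mk, F]
      rw [sum_product]
      have hdc : ∀ Q : Finset (Fin 4), Disjoint Q Qᶜ := fun Q => disjoint_compl_right
      have h5 : ∀ Q : Finset (Fin 4), ∑ p ∈ univ.filter (fun p : Fin d × Fin d => p.1 ≠ p.2),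
          mlw τ (mo2 Q Qᶜ p.1 p.2) = (d * (d - 1)) * (τ Q * τ Qᶜ * τ ∅ ^ (d - 2)) := by
        intro Q
        rw [sum_congr rfl (g := fun _ => τ Q * τ Qᶜ * τ ∅ ^ (d - 2))]
        · rw [sum_const, nsmul_eq_mul]
          congr 1
          have h6 : (univ.filter (fun p : Fin d × Fin d => p.1 ≠ p.2)) = (univ : Finset (Fin d)).offDiag := by
            ext p; simp
          rw [h6, offDiag_card, card_univ, Fintype.card_fin]
          rcases Nat.eq_zero_or_pos d with h | h
          · subst h; simp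
          · have : d ≤ d * d := Nat.le_mul_self d
            push_cast [Nat.cast_sub this]
            ring
        · intro p hp
          exact mlw_mo2 τ Q Qᶜ (hdc Q) p.1 p.2 (mem_filter.1 hp).2
      simp_rw [h5]
      have h7 : Qs = {{0, 1}, {0, 2}, {0, 3}} := rfl
      rw [h7, sum_insert (by decide), sum_insert (by decide), sum_singleton]
      have e1 : ({0, 1} : Finset (Fin 4))ᶜ = {2, 3} := by decide
      have e2 : ({0, 2} : Finset (Fin 4))ᶜ = {1, 3} := by decide
      have e3 : ({0, 3} : Finset (Fin 4))ᶜ = {1, 2} := by decide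
      rw [e1, e2, e3]
      apply le_of_eq
      ring

end wt

end Pool.Agent.KM
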