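import Pool.Agent.KM.MomWt
import Pool.Agent.KM.MomIneq

set_option autoImplicit false
open Finset

namespace Pool.Agent.KM
open Pool.Agent.SMin

/-! ## Module MOM (MomWtB.lean): the bound for the local partition function -/

section wtb
variable {d : ℕ}

lemma mb_sum_card (o : Fin 4 → Option (Fin d)) : ∑ a, (lty o a).card = (mso o).card := by
  classical
  have h1 : mso o = univ.biUnion (fun a => lty o a) := by
    ext r
    rw [mw_mem_so, mem_biUnion]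
    constructor
    · intro h
      obtain ⟨a, ha⟩ := Option.ne_none_iff_exists'.1 h
      exact ⟨a, mem_univ a, (mw_mem_lty o a r).2 ha⟩
    · rintro ⟨a, _, ha⟩
      rw [(mw_mem_lty o a r).1 ha]; simp
  rw [h1, card_biUnion]
  intro a _ b _ hab
  show Disjoint (lty o a) (lty o b)
  rw [disjoint_left]
  intro r ha hb
  rw [mw_mem_lty] at ha hb
  rw [ha, Option.some.injEq] at hb
  exact hab hb

variable (τ : Finset (Fin 4) → ℝ) (hτ0 : ∀ Q, 0 ≤ τ Q) (hτ1 : ∀ Q, τ Q ≤ 1)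

include hτ0 hτ1 in
lemma mb_le_one (o : Fin 4 → Option (Fin d)) : mlw τ o ≤ 1 :=
  prod_le_one (fun _ _ => hτ0 _) (fun _ _ => hτ1 _)

include hτ0 hτ1 in
lemma mb_le_eps (ε : ℝ) (hodd : ∀ Q, Odd Q.card → τ Q ≤ ε) (o : Fin 4 → Option (Fin d))
    (a : Fin d) (ha : Odd (lty o a).card) : mlw τ o ≤ ε := by
  classical
  unfold mlw
  rw [← mul_prod_erase univ _ (mem_univ a)]
  calc τ (lty o a) * ∏ x ∈ univ.erase a, τ (lty o x) ≤ τ (lty o a) * 1 := by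
        apply mul_le_mul_of_nonneg_left _ (hτ0 _)
        exact prod_le_one (fun _ _ => hτ0 _) (fun _ _ => hτ1 _)
    _ ≤ ε := by rw [mul_one]; exact hodd _ ha

include hτ0 hτ1 in
lemma mb_le_eps2 (ε : ℝ) (hε : 0 ≤ ε) (hodd : ∀ Q, Odd Q.card → τ Q ≤ ε) (o : Fin 4 → Option (Fin d))
    (a b : Fin d) (hab : a ≠ b) (ha : Odd (lty o a).card) (hb : Odd (lty o b).card) :
    mlw τ o ≤ ε ^ 2 := by
  classical
  unfold mlw
  have hb' : b ∈ (univ : Finset (Fin d)).erase a := mem_erase.2 ⟨hab.symm, mem_univ b⟩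
  rw [← mul_prod_erase univ _ (mem_univ a), ← mul_prod_erase (univ.erase a) _ hb']
  have h1 : ∏ x ∈ (univ.erase a).erase b, τ (lty o x) ≤ 1 :=
    prod_le_one (fun _ _ => hτ0 _) (fun _ _ => hτ1 _)
  have h2 := hodd _ ha
  have h3 := hodd _ hb
  have h4 : 0 ≤ ∏ x ∈ (univ.erase a).erase b, τ (lty o x) := prod_nonneg fun _ _ => hτ0 _
  calc τ (lty o a) * (τ (lty o b) * ∏ x ∈ (univ.erase a).erase b, τ (lty o x))
      ≤ ε * (ε * 1) := by
        apply mul_le_mul h2 _ (mul_nonneg (hτ0 _) h4) hε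
        exact mul_le_mul h3 h1 h4 hε
    _ = ε ^ 2 := by ring

/-- number of local configurations -/
lemma mb_card_le (S : Finset (Fin 4 → Option (Fin d))) : (S.card : ℝ) ≤ ((d : ℝ) + 1) ^ 4 := by
  have h1 : S.card ≤ (univ : Finset (Fin 4 → Option (Fin d))).card := card_le_card (subset_univ _)
  have h2 : (univ : Finset (Fin 4 → Option (Fin d))).card = (d + 1) ^ 4 := by
    rw [card_univ, Fintype.card_fun, Fintype.card_option, Fintype.card_fin, Fintype.card_fin]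
  rw [h2] at h1
  exact_mod_cast h1

include hτ0 hτ1 in
lemma mb_P_odd (ε : ℝ) (hε : 0 ≤ ε) (hodd : ∀ Q, Odd Q.card → τ Q ≤ ε) (Y : Finset (Fin 4))
    (hY : Odd Y.card) : mP d τ Y ≤ ((d : ℝ) + 1) ^ 4 * ε := by
  classical
  unfold mP
  calc ∑ o ∈ univ.filter (fun o : Fin 4 → Option (Fin d) => mso o = Y), mlw τ o
      ≤ ∑ _o ∈ univ.filter (fun o : Fin 4 → Option (Fin d) => mso o = Y), ε := by
        apply sum_le_sum
        intro o ho
        have h1 := (mem_filter.1 ho).2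
        have h2 : ∃ a, Odd (lty o a).card := by
          by_contra hcon
          push Not at hcon
          have h3 : Even (∑ a, (lty o a).card) := by
            apply even_sum
            intro a _
            exact Nat.not_odd_iff_even.1 (hcon a)
          rw [mb_sum_card, h1] at h3
          exact (Nat.not_even_iff_odd.2 hY) h3
        obtain ⟨a, ha⟩ := h2
        exact mb_le_eps τ hτ0 hτ1 ε hodd o a ha
    _ ≤ _ := by
        rw [sum_const, nsmul_eq_mul]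
        exact mul_le_mul_of_nonneg_right (mb_card_le _) hε

include hτ0 hτ1 in
lemma mb_P_even (ε : ℝ) (hε : 0 ≤ ε) (hodd : ∀ Q, Odd Q.card → τ Q ≤ ε) (Y : Finset (Fin 4))
    (hY : Even Y.card) : mP d τ Y ≤ mPe d τ Y + ((d : ℝ) + 1) ^ 4 * ε ^ 2 := by
  classical
  have h0 : mP d τ Y = mPe d τ Y +
      ∑ o ∈ univ.filter (fun o : Fin 4 → Option (Fin d) => mso o = Y ∧ ¬ mEv o), mlw τ o := by
    unfold mP mPe
    rw [← sum_union]
    · apply sum_congr _ (fun _ _ => rfl)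
      ext o
      simp only [mem_filter, mem_univ, true_and, mem_union]
      tauto
    · rw [disjoint_left]
      intro o h1 h2
      exact (mem_filter.1 h2).2.2 (mem_filter.1 h1).2.2
  rw [h0]
  apply add_le_add le_rfl
  calc ∑ o ∈ univ.filter (fun o : Fin 4 → Option (Fin d) => mso o = Y ∧ ¬ mEv o), mlw τ o
      ≤ ∑ _o ∈ univ.filter (fun o : Fin 4 → Option (Fin d) => mso o = Y ∧ ¬ mEv o), ε ^ 2 := by
        apply sum_le_sum
        intro o ho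
        obtain ⟨h1, h2⟩ := (mem_filter.1 ho).2
        unfold mEv at h2
        push Not at h2
        obtain ⟨a, ha⟩ := h2
        rw [Nat.not_even_iff_odd] at ha
        have h3 : ∃ b, b ≠ a ∧ Odd (lty o b).card := by
          by_contra hcon
          push Not at hcon
          have h4 : Even (∑ x ∈ univ.erase a, (lty o x).card) := by
            apply even_sum
            intro b hb
            exact Nat.not_odd_iff_even.1 (hcon b (ne_of_mem_erase hb))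
          have h5 := add_sum_erase univ (fun x => (lty o x).card) (mem_univ a)
          rw [mb_sum_card, h1] at h5
          rw [← h5] at hY
          have := ha.add_even h4
          exact (Nat.not_even_iff_odd.2 this) hY
        obtain ⟨b, hb1, hb2⟩ := h3
        exact mb_le_eps2 τ hτ0 hτ1 ε hε hodd o a b hb1.symm ha hb2
    _ ≤ _ := by
        rw [sum_const, nsmul_eq_mul]
        exact mul_le_mul_of_nonneg_right (mb_card_le _) (by positivity)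

include hτ0 hτ1 in
lemma mb_Pe_le (Y : Finset (Fin 4)) : mPe d τ Y ≤ ((d : ℝ) + 1) ^ 4 := by
  classical
  unfold mPe
  calc _ ≤ ∑ _o ∈ univ.filter (fun o : Fin 4 → Option (Fin d) => mso o = Y ∧ mEv o), (1 : ℝ) := by
        apply sum_le_sum
        intro o _
        exact mb_le_one τ hτ0 hτ1 o
    _ ≤ _ := by
        rw [sum_const, nsmul_eq_mul, mul_one]
        exact mb_card_le _

include hτ0 in
lemma mb_Pe_nonneg (Y : Finset (Fin 4)) : 0 ≤ mPe d τ Y := by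
  classical
  unfold mPe
  exact sum_nonneg fun o _ => mlw_nonneg τ hτ0 o

include hτ0 in
lemma mb_P_nonneg (Y : Finset (Fin 4)) : 0 ≤ mP d τ Y := by
  classical
  unfold mP
  exact sum_nonneg fun o _ => mlw_nonneg τ hτ0 o

include hτ0 in
/-- the even part is bounded by the optimisation problem -/
lemma mb_even_part (hd : 2 ≤ d) (ρ : ℝ) (hρ0 : 0 ≤ ρ) (hρ : ρ ^ 2 ≤ d) (hsum : ∑ Q, τ Q ^ 2 ≤ 1) :
    ∑ Y ∈ univ.filter (fun Y : Finset (Fin 4) => Even Y.card), ρ ^ (4 - Y.card) * mPe d τ Y ^ 2 ≤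
      MMv d (ρ ^ 2) ^ 2 := by
  classical
  have hfil : (univ.filter (fun Y : Finset (Fin 4) => Even Y.card)) =
      {∅, univ, {0, 1}, {2, 3}, {0, 2}, {1, 3}, {0, 3}, {1, 2}} := by decide
  set y : ℝ := τ {0, 1} ^ 2 + τ {2, 3} ^ 2 + τ {0, 2} ^ 2 + τ {1, 3} ^ 2 + τ {0, 3} ^ 2 + τ {1, 2} ^ 2 with hy
  have hy0 : 0 ≤ y := by rw [hy]; positivity
  have hd' : (2 : ℝ) ≤ d := by exact_mod_cast hd
  have hsum' : τ ∅ ^ 2 + y + τ univ ^ 2 ≤ 1 := by
    refine le_trans ?_ hsum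
    have h1 : ∑ Q ∈ ({∅, univ, {0, 1}, {2, 3}, {0, 2}, {1, 3}, {0, 3}, {1, 2}} : Finset (Finset (Fin 4))), τ Q ^ 2
        ≤ ∑ Q, τ Q ^ 2 :=
      sum_le_sum_of_subset_of_nonneg (subset_univ _) (fun Q _ _ => sq_nonneg _)
    refine le_trans (le_of_eq ?_) h1
    rw [sum_insert (by decide), sum_insert (by decide), sum_insert (by decide), sum_insert (by decide),
      sum_insert (by decide), sum_insert (by decide), sum_insert (by decide), sum_singleton, hy]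
    ring
  have key := mom_ineq d hd (ρ ^ 2) (sq_nonneg _) hρ (τ ∅) (τ univ) y (hτ0 _) (hτ0 _) hy0 hsum'
  refine le_trans ?_ key
  rw [hfil]
  rw [sum_insert (by decide), sum_insert (by decide), sum_insert (by decide), sum_insert (by decide),
    sum_insert (by decide), sum_insert (by decide), sum_insert (by decide), sum_singleton]
  have ht0 := hτ0 ∅
  have ht4 := hτ0 univ
  have hpair : ∀ Y : Finset (Fin 4), Y.card = 2 → ρ ^ (4 - Y.card) * mPe d τ Y ^ 2 ≤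
      d ^ 2 * ρ ^ 2 * τ ∅ ^ (2 * d - 2) * τ Y ^ 2 := by
    intro Y hY
    rw [hY]
    have h1 := mPe_two τ hτ0 Y hY (d := d)
    have h2 := mb_Pe_nonneg τ hτ0 Y (d := d)
    calc ρ ^ (4 - 2) * mPe d τ Y ^ 2 ≤ ρ ^ (4 - 2) * (d * (τ Y * τ ∅ ^ (d - 1))) ^ 2 := by gcongr
      _ = d ^ 2 * ρ ^ 2 * τ ∅ ^ (2 * d - 2) * τ Y ^ 2 := by
          have : τ ∅ ^ (2 * d - 2) = (τ ∅ ^ (d - 1)) ^ 2 := by
            rw [← pow_mul]; congr 1; omega
          rw [this]; ring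
  have hempty : ρ ^ (4 - (∅ : Finset (Fin 4)).card) * mPe d τ ∅ ^ 2 ≤ (ρ ^ 2) ^ 2 * τ ∅ ^ (2 * d) := by
    have h1 := mPe_empty τ hτ0 (d := d)
    have h2 := mb_Pe_nonneg τ hτ0 ∅ (d := d)
    calc ρ ^ (4 - (∅ : Finset (Fin 4)).card) * mPe d τ ∅ ^ 2 ≤
          ρ ^ (4 - (∅ : Finset (Fin 4)).card) * (τ ∅ ^ d) ^ 2 := by gcongr
      _ = (ρ ^ 2) ^ 2 * τ ∅ ^ (2 * d) := by
          rw [← pow_mul, ← pow_mul, mul_comm d 2]
          simp
  have huniv : ρ ^ (4 - (univ : Finset (Fin 4)).card) * mPe d τ univ ^ 2 ≤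
      (d * τ ∅ ^ (d - 1) * τ univ + d * (d - 1) / 2 * τ ∅ ^ (d - 2) * y) ^ 2 := by
    have h1 := mPe_univ τ hτ0 (d := d)
    have h2 := mb_Pe_nonneg τ hτ0 univ (d := d)
    have ham : ∀ a b : ℝ, a * b ≤ (a ^ 2 + b ^ 2) / 2 := fun a b => by nlinarith [sq_nonneg (a - b)]
    have h3 : (τ {0, 1} * τ {2, 3} + τ {0, 2} * τ {1, 3} + τ {0, 3} * τ {1, 2}) ≤ y / 2 := by
      rw [hy]
      have i1 := ham (τ {0, 1}) (τ {2, 3})
      have i2 := ham (τ {0, 2}) (τ {1, 3})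
      have i3 := ham (τ {0, 3}) (τ {1, 2})
      linarith
    have h5 : (0 : ℝ) ≤ d * (d - 1) := mul_nonneg (by linarith) (by linarith)
    have h4 : mPe d τ univ ≤ d * τ ∅ ^ (d - 1) * τ univ + d * (d - 1) / 2 * τ ∅ ^ (d - 2) * y := by
      calc mPe d τ univ ≤ _ := h1
        _ ≤ d * (τ univ * τ ∅ ^ (d - 1)) + (d * (d - 1)) * ((y / 2) * τ ∅ ^ (d - 2)) := by
            gcongr
        _ = _ := by ring
    have h6 : ρ ^ (4 - (univ : Finset (Fin 4)).card) = 1 := by simp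
    rw [h6, one_mul]
    exact pow_le_pow_left₀ h2 h4 2
  have e1 := hpair {0, 1} (by decide)
  have e2 := hpair {2, 3} (by decide)
  have e3 := hpair {0, 2} (by decide)
  have e4 := hpair {1, 3} (by decide)
  have e5 := hpair {0, 3} (by decide)
  have e6 := hpair {1, 2} (by decide)
  have hy' : (d : ℝ) ^ 2 * ρ ^ 2 * τ ∅ ^ (2 * d - 2) * y =
      d ^ 2 * ρ ^ 2 * τ ∅ ^ (2 * d - 2) * τ {0, 1} ^ 2 + d ^ 2 * ρ ^ 2 * τ ∅ ^ (2 * d - 2) * τ {2, 3} ^ 2 +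
      d ^ 2 * ρ ^ 2 * τ ∅ ^ (2 * d - 2) * τ {0, 2} ^ 2 + d ^ 2 * ρ ^ 2 * τ ∅ ^ (2 * d - 2) * τ {1, 3} ^ 2 +
      d ^ 2 * ρ ^ 2 * τ ∅ ^ (2 * d - 2) * τ {0, 3} ^ 2 + d ^ 2 * ρ ^ 2 * τ ∅ ^ (2 * d - 2) * τ {1, 2} ^ 2 := by
    rw [hy]; ring
  linarith

theorem mb_bound (d : ℕ) (hd : 2 ≤ d) (ρ : ℝ) (hρ0 : 0 ≤ ρ) (hρ : ρ ^ 2 ≤ d) :
    ∃ C : ℝ, 0 < C ∧ ∀ τ : Finset (Fin 4) → ℝ, (∀ Q, 0 ≤ τ Q) → (∀ Q, τ Q ≤ 1) →
      ∀ ε : ℝ, 0 ≤ ε → ε ≤ 1 → (∀ Q, Odd Q.card → τ Q ≤ ε) → (∑ Q, τ Q ^ 2 ≤ 1) →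
        Wt d ρ τ ≤ MMv d (ρ ^ 2) ^ 2 + C * ε ^ 2 := by
  classical
  set K : ℝ := ((d : ℝ) + 1) ^ 4 with hK
  have hK1 : 1 ≤ K := by
    rw [hK]; apply one_le_pow₀
    have : (0 : ℝ) ≤ d := Nat.cast_nonneg d
    linarith
  refine ⟨16 * ((1 + ρ) ^ 4 * (3 * K ^ 2)), by positivity, ?_⟩
  intro τ hτ0 hτ1 ε hε0 hε1 hodd hsum
  rw [mw_Wt]
  have hterm : ∀ Y : Finset (Fin 4), ρ ^ (4 - Y.card) * mP d τ Y ^ 2 ≤
      (if Even Y.card then ρ ^ (4 - Y.card) * mPe d τ Y ^ 2 else 0) +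
        (1 + ρ) ^ 4 * (3 * K ^ 2) * ε ^ 2 := by
    intro Y
    have hρp : ρ ^ (4 - Y.card) ≤ (1 + ρ) ^ 4 := by
      calc ρ ^ (4 - Y.card) ≤ (1 + ρ) ^ (4 - Y.card) := pow_le_pow_left₀ hρ0 (by linarith) _
        _ ≤ (1 + ρ) ^ 4 := pow_le_pow_right₀ (by linarith) (by omega)
    have hρ0' : 0 ≤ ρ ^ (4 - Y.card) := by positivity
    have hP0 := mb_P_nonneg τ hτ0 Y (d := d)
    by_cases hY : Even Y.card
    · rw [if_pos hY]
      have h1 := mb_P_even τ hτ0 hτ1 ε hε0 hodd Y hY (d := d)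
      have h2 := mb_Pe_le τ hτ0 hτ1 Y (d := d)
      have h3 := mb_Pe_nonneg τ hτ0 Y (d := d)
      rw [← hK] at h1 h2
      have h4 : mP d τ Y ^ 2 ≤ mPe d τ Y ^ 2 + (3 * K ^ 2) * ε ^ 2 := by
        have h5 : mP d τ Y ^ 2 ≤ (mPe d τ Y + K * ε ^ 2) ^ 2 := pow_le_pow_left₀ hP0 h1 2
        have h6 : ε ^ 2 ≤ 1 := pow_le_one₀ hε0 hε1
        have h7 : 0 ≤ ε ^ 2 := sq_nonneg ε
        calc mP d τ Y ^ 2 ≤ (mPe d τ Y + K * ε ^ 2) ^ 2 := h5
          _ = mPe d τ Y ^ 2 + 2 * K * ε ^ 2 * mPe d τ Y + K ^ 2 * ε ^ 2 * ε ^ 2 := by ring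
          _ ≤ mPe d τ Y ^ 2 + 2 * K * ε ^ 2 * K + K ^ 2 * ε ^ 2 * 1 := by gcongr
          _ = _ := by ring
      calc ρ ^ (4 - Y.card) * mP d τ Y ^ 2 ≤ ρ ^ (4 - Y.card) * (mPe d τ Y ^ 2 + (3 * K ^ 2) * ε ^ 2) := by gcongr
        _ = ρ ^ (4 - Y.card) * mPe d τ Y ^ 2 + ρ ^ (4 - Y.card) * ((3 * K ^ 2) * ε ^ 2) := by ring
        _ ≤ ρ ^ (4 - Y.card) * mPe d τ Y ^ 2 + (1 + ρ) ^ 4 * ((3 * K ^ 2) * ε ^ 2) := by gcongr
        _ = _ := by ring
    · rw [if_neg hY, zero_add]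
      have h1 := mb_P_odd τ hτ0 hτ1 ε hε0 hodd Y (Nat.not_even_iff_odd.1 hY) (d := d)
      rw [← hK] at h1
      calc ρ ^ (4 - Y.card) * mP d τ Y ^ 2 ≤ (1 + ρ) ^ 4 * (K * ε) ^ 2 := by gcongr
        _ = (1 + ρ) ^ 4 * (1 * K ^ 2) * ε ^ 2 := by ring
        _ ≤ (1 + ρ) ^ 4 * (3 * K ^ 2) * ε ^ 2 := by gcongr; norm_num
  calc ∑ Y : Finset (Fin 4), ρ ^ (4 - Y.card) * mP d τ Y ^ 2 ≤
        ∑ Y : Finset (Fin 4), ((if Even Y.card then ρ ^ (4 - Y.card) * mPe d τ Y ^ 2 else 0) +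
          (1 + ρ) ^ 4 * (3 * K ^ 2) * ε ^ 2) := sum_le_sum fun Y _ => hterm Y
    _ = ∑ Y ∈ univ.filter (fun Y : Finset (Fin 4) => Even Y.card), ρ ^ (4 - Y.card) * mPe d τ Y ^ 2 +
          16 * ((1 + ρ) ^ 4 * (3 * K ^ 2)) * ε ^ 2 := by
        rw [sum_add_distrib, ← sum_filter, sum_const, card_univ, Fintype.card_finset, Fintype.card_fin,
          nsmul_eq_mul]
        push_cast
        ring
    _ ≤ _ := by
        have := mb_even_part τ hτ0 hd ρ hρ0 hρ hsum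
        linarith

end wtb

end Pool.Agent.KM
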