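import Pool.Agent.KM.Basic

set_option autoImplicit false
open Finset Filter Topology MeasureTheory

namespace Pool.Agent.KM
open Pool.Agent.SMin

lemma pl_MM_eq {n : ℕ} (A : Fin n → Fin n → Bool) (z : ℂ) :
    MM z (toN A) = -(Matrix.scalar (Fin n) z - Adj A) := by
  unfold MM Adj
  ext i j
  simp only [Matrix.sub_apply, Matrix.of_apply, Matrix.smul_apply, Matrix.neg_apply, Matrix.scalar_apply,
    Matrix.diagonal_apply, Matrix.one_apply, toN, smul_eq_mul]
  split_ifs <;> simp

lemma pl_eigs {n : ℕ} (A : Fin n → Fin n → Bool) : ∃ l : Fin n → ℂ,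
    (∀ f : ℂ → ℝ, Nf A f = (∑ i, f (l i)) / n) ∧
    (∀ z, ‖(MM z (toN A)).det‖ = ∏ i, ‖z - l i‖) ∧
    (∀ i, (Adj A).charpoly.IsRoot (l i)) := by
  classical
  set p := (Adj A).charpoly with hp
  have hmonic : p.Monic := Matrix.charpoly_monic _
  have hsplit : p.Splits := IsAlgClosed.splits _
  have hcard : p.roots.card = n := by
    rw [← hsplit.natDegree_eq_card_roots, hp, Matrix.charpoly_natDegree_eq_dim, Fintype.card_fin]
  have hlen : p.roots.toList.length = n := by rw [Multiset.length_toList, hcard]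
  set l : Fin n → ℂ := fun i => p.roots.toList.get (i.cast hlen.symm) with hl
  have hroots : p.roots = (univ : Finset (Fin n)).val.map l := by
    rw [Fin.univ_val_map]
    have : List.ofFn l = p.roots.toList := by
      apply List.ext_get
      · simp [hlen]
      · intro k h1 h2
        simp [hl]
    rw [this, Multiset.coe_toList]
  refine ⟨l, ?_, ?_, ?_⟩
  · intro f
    unfold Nf
    rw [← hp, hroots, Multiset.map_map]
    rfl
  · intro z
    rw [pl_MM_eq, Matrix.det_neg, norm_mul, norm_pow, norm_neg, norm_one, one_pow, one_mul,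
      ← Matrix.eval_charpoly, ← hp]
    have h1 : p.eval z = (p.roots.map (fun a => z - a)).prod := by
      exact hsplit.eval_eq_prod_roots_of_monic hmonic z
    rw [h1, hroots, Multiset.map_map]
    change ‖∏ i, (z - l i)‖ = _
    rw [norm_prod]
  · intro i
    have : l i ∈ p.roots := by
      rw [hroots]
      exact Multiset.mem_map_of_mem l (Finset.mem_univ_val i)
    exact (Polynomial.mem_roots hmonic.ne_zero).1 this

lemma pl_root_le {n d : ℕ} (A : Fin n → Fin n → Bool) (hA : A ∈ Reg n d) (w : ℂ)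
    (hw : (Adj A).charpoly.IsRoot w) : ‖w‖ ≤ d := by
  classical
  have h0 : (Matrix.scalar (Fin n) w - Adj A).det = 0 := by
    rw [← Matrix.eval_charpoly]; exact hw
  obtain ⟨v, hv, hv2⟩ := Matrix.exists_mulVec_eq_zero_iff.2 h0
  have hne : (univ : Finset (Fin n)).Nonempty := by
    by_contra h
    rw [not_nonempty_iff_eq_empty] at h
    apply hv
    funext i
    exact absurd (mem_univ i) (by rw [h]; exact notMem_empty i)
  obtain ⟨i, -, hi⟩ := exists_max_image univ (fun i => ‖v i‖) hne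
  have hpos : 0 < ‖v i‖ := by
    obtain ⟨j, hj⟩ := Function.ne_iff.1 hv
    have : 0 < ‖v j‖ := norm_pos_iff.2 hj
    exact this.trans_le (hi j (mem_univ j))
  have h1 : w * v i = ∑ j, Adj A i j * v j := by
    have := congrFun hv2 i
    rw [Matrix.sub_mulVec] at this
    simp only [Pi.sub_apply, Pi.zero_apply, Matrix.scalar_apply, Matrix.mulVec_diagonal] at this
    rw [sub_eq_zero] at this
    rw [this]
    rfl
  have h2 : ‖w‖ * ‖v i‖ ≤ d * ‖v i‖ := by
    rw [← norm_mul, h1]
    calc ‖∑ j, Adj A i j * v j‖ ≤ ∑ j, ‖Adj A i j * v j‖ := norm_sum_le _ _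
      _ ≤ ∑ j, (if A i j = true then 1 else 0) * ‖v i‖ := by
        apply sum_le_sum
        intro j _
        rw [norm_mul]
        unfold Adj
        simp only [Matrix.of_apply]
        split_ifs
        · rw [norm_one, one_mul, one_mul]; exact hi j (mem_univ j)
        · simp
      _ = d * ‖v i‖ := by
        rw [← sum_mul]
        congr 1
        rw [← (mem_Reg.1 hA).1 i]
        simp
  exact le_of_mul_le_mul_right h2 hpos

lemma pl_integrableOn_logsq (R : ℝ) :
    IntegrableOn (fun w : ℂ => Real.log ‖w‖ ^ 2) (Metric.closedBall (0 : ℂ) R) := by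
  have h : IntegrableOn (fun w : ℂ => Real.log ‖w‖ ^ 2) (Metric.ball (0 : ℂ) (R + 1)) := by
    rw [integrableOn_fun_norm_addHaar (μ := (volume : Measure ℂ)) (f := fun y => Real.log y ^ 2)]
    have hc : Continuous (fun y : ℝ => 4 * (Real.sqrt y * Real.log (Real.sqrt y)) ^ 2) := by
      have := Real.continuous_mul_log.comp Real.continuous_sqrt
      exact continuous_const.mul (this.pow 2)
    have h1 : IntegrableOn (fun y : ℝ => 4 * (Real.sqrt y * Real.log (Real.sqrt y)) ^ 2)
        (Set.Ioo 0 (R + 1)) :=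
      (hc.continuousOn.integrableOn_compact isCompact_Icc).mono_set Set.Ioo_subset_Icc_self
    refine h1.congr_fun ?_ measurableSet_Ioo
    intro y hy
    have hy0 : 0 < y := hy.1
    simp only [Complex.finrank_real_complex, Nat.add_one_sub_one, pow_one, smul_eq_mul]
    rw [Real.log_sqrt hy0.le, mul_pow, Real.sq_sqrt hy0.le]
    ring
  exact h.mono_set (Metric.closedBall_subset_ball (by linarith))

lemma pl_shift (ρ D : ℝ) (w : ℂ) (hw : ‖w‖ ≤ D) :
    IntegrableOn (fun z : ℂ => Real.log ‖z - w‖ ^ 2) (Metric.closedBall (0 : ℂ) ρ) ∧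
    ∫ z in Metric.closedBall (0 : ℂ) ρ, Real.log ‖z - w‖ ^ 2 ≤
      ∫ z in Metric.closedBall (0 : ℂ) (ρ + D), Real.log ‖z‖ ^ 2 := by
  have hmp : MeasurePreserving (fun z : ℂ => z - w) volume volume := measurePreserving_sub_right _ w
  have hemb : MeasurableEmbedding (fun z : ℂ => z - w) := measurableEmbedding_subRight w
  have hset : Metric.closedBall (0 : ℂ) ρ = (fun z : ℂ => z - w) ⁻¹' Metric.closedBall (-w) ρ := by
    ext z
    simp [dist_eq_norm]
  have hsub : Metric.closedBall (-w) ρ ⊆ Metric.closedBall (0 : ℂ) (ρ + D) := by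
    intro z hz
    rw [Metric.mem_closedBall, dist_eq_norm] at hz ⊢
    rw [sub_neg_eq_add] at hz
    rw [sub_zero]
    calc ‖z‖ = ‖(z + w) - w‖ := by ring_nf
      _ ≤ ‖z + w‖ + ‖w‖ := norm_sub_le _ _
      _ ≤ ρ + D := add_le_add hz hw
  have hint := (pl_integrableOn_logsq (ρ + D)).mono_set hsub
  constructor
  · rw [hset]
    exact (hmp.integrableOn_comp_preimage hemb).2 hint
  · rw [hset, hmp.setIntegral_preimage_emb hemb (fun y => Real.log ‖y‖ ^ 2)]
    apply setIntegral_mono_set (pl_integrableOn_logsq (ρ + D))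
    · exact Eventually.of_forall fun z => sq_nonneg _
    · exact hsub.eventuallyLE

/-- `Phi A z` is the average of `log ‖z - λ‖` over the eigenvalues -/
theorem Phi_eq_Nf {n : ℕ} (A : Fin n → Fin n → Bool) (z : ℂ) :
    Phi A z = Nf A (fun w => Real.log ‖z - w‖) ∨ (MM z (toN A)).det = 0 := by
  obtain ⟨l, h1, h2, -⟩ := pl_eigs A
  by_cases h : (MM z (toN A)).det = 0
  · exact Or.inr h
  · left
    rw [h1]
    unfold Phi
    rw [h2]
    have h0 : ∏ i, ‖z - l i‖ ≠ 0 := by rw [← h2]; exact norm_ne_zero_iff.2 h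
    rw [Real.log_prod (fun i hi => (Finset.prod_ne_zero_iff.1 h0) i hi)]

lemma pl_Phi_sq_le {n : ℕ} (A : Fin n → Fin n → Bool) (l : Fin n → ℂ)
    (hl : ∀ z, ‖(MM z (toN A)).det‖ = ∏ i, ‖z - l i‖) (z : ℂ) :
    Phi A z ^ 2 ≤ (∑ i, Real.log ‖z - l i‖ ^ 2) / n := by
  unfold Phi
  rw [hl z]
  rcases Nat.eq_zero_or_pos n with hn | hn
  · subst hn; simp
  have hn' : (0 : ℝ) < n := by exact_mod_cast hn
  by_cases h0 : ∃ i, ‖z - l i‖ = 0
  · obtain ⟨i, hi⟩ := h0
    rw [Finset.prod_eq_zero (mem_univ i) hi, Real.log_zero, zero_div]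
    have : 0 ≤ ∑ i, Real.log ‖z - l i‖ ^ 2 := sum_nonneg fun i _ => sq_nonneg _
    simpa using div_nonneg this hn'.le
  · push Not at h0
    rw [Real.log_prod (fun i _ => h0 i), div_pow, div_le_div_iff₀ (by positivity) hn']
    have h := sq_sum_le_card_mul_sum_sq (s := (univ : Finset (Fin n)))
      (f := fun i => Real.log ‖z - l i‖)
    rw [card_univ, Fintype.card_fin] at h
    calc (∑ i, Real.log ‖z - l i‖) ^ 2 * n ≤ (n * ∑ i, Real.log ‖z - l i‖ ^ 2) * n := by
          gcongr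
      _ = (∑ i, Real.log ‖z - l i‖ ^ 2) * (n : ℝ) ^ 2 := by ring

lemma pl_measurable_Phi {n : ℕ} (A : Fin n → Fin n → Bool) : Measurable (Phi A) := by
  unfold Phi
  have hc : Continuous (fun z : ℂ => (MM z (toN A)).det) := by
    apply Continuous.matrix_det
    unfold MM
    fun_prop
  exact ((Real.measurable_log.comp hc.norm.measurable)).div_const _

lemma pl_measurable_Upot (d : ℕ) : Measurable (fun z : ℂ => Upot d ‖z‖) := by
  unfold Upot
  have h : Measurable (fun z : ℂ => ((d : ℝ) ^ 2 - ‖z‖ ^ 2)) := by fun_prop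
  exact (measurable_const.add measurable_const).sub (measurable_const.mul (Real.measurable_log.comp h))

lemma pl_L2 (d : ℕ) (ρ : ℝ) {n : ℕ} (A : Fin n → Fin n → Bool) (hA : A ∈ Reg n d) :
    IntegrableOn (fun z => Phi A z ^ 2) (Metric.closedBall (0 : ℂ) ρ) ∧
    ∫ z in Metric.closedBall (0 : ℂ) ρ, Phi A z ^ 2 ≤
      ∫ z in Metric.closedBall (0 : ℂ) (ρ + d), Real.log ‖z‖ ^ 2 := by
  obtain ⟨l, -, h2, h3⟩ := pl_eigs A
  have hsh := fun i => pl_shift ρ d (l i) (pl_root_le A hA (l i) (h3 i))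
  have hint : IntegrableOn (fun z => (∑ i, Real.log ‖z - l i‖ ^ 2) / n)
      (Metric.closedBall (0 : ℂ) ρ) :=
    (integrable_finsetSum _ fun i _ => (hsh i).1).div_const _
  have hle := pl_Phi_sq_le A l h2
  have hI : IntegrableOn (fun z => Phi A z ^ 2) (Metric.closedBall (0 : ℂ) ρ) := by
    refine Integrable.mono' hint ((pl_measurable_Phi A).pow_const 2).aestronglyMeasurable ?_
    refine Eventually.of_forall fun z => ?_
    rw [Real.norm_eq_abs, abs_of_nonneg (sq_nonneg _)]
    exact hle z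
  refine ⟨hI, ?_⟩
  have hC0 : 0 ≤ ∫ z in Metric.closedBall (0 : ℂ) (ρ + d), Real.log ‖z‖ ^ 2 :=
    integral_nonneg fun z => sq_nonneg _
  calc ∫ z in Metric.closedBall (0 : ℂ) ρ, Phi A z ^ 2
      ≤ ∫ z in Metric.closedBall (0 : ℂ) ρ, (∑ i, Real.log ‖z - l i‖ ^ 2) / n :=
        integral_mono hI hint hle
    _ = (∑ i, ∫ z in Metric.closedBall (0 : ℂ) ρ, Real.log ‖z - l i‖ ^ 2) / n := by
        rw [integral_div, integral_finsetSum _ fun i _ => (hsh i).1]
    _ ≤ (∑ _i : Fin n, ∫ z in Metric.closedBall (0 : ℂ) (ρ + d), Real.log ‖z‖ ^ 2) / n := by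
        gcongr with i _
        exact (hsh i).2
    _ ≤ _ := by
        rw [sum_const, card_univ, Fintype.card_fin, nsmul_eq_mul]
        rcases Nat.eq_zero_or_pos n with hn | hn
        · subst hn; simpa using hC0
        · have hn' : (n : ℝ) ≠ 0 := by exact_mod_cast hn.ne'
          rw [mul_div_assoc, mul_div_cancel₀ _ hn']

lemma pl_Upot_bdd (d : ℕ) (hd : 2 ≤ d) (ρ : ℝ) (hρ0 : 0 < ρ) (hρ : ρ < √d) :
    ∃ C : ℝ, 0 ≤ C ∧ ∀ z ∈ Metric.closedBall (0 : ℂ) ρ, |Upot d ‖z‖| ≤ C := by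
  have hcont : ContinuousOn (fun s : ℝ => Upot d s) (Set.Icc 0 ρ) := by
    unfold Upot
    apply ContinuousOn.sub continuousOn_const
    apply ContinuousOn.mul continuousOn_const
    apply ContinuousOn.log (by fun_prop)
    intro s hs
    have h1 : s ^ 2 < d := by
      have : s < √d := hs.2.trans_lt hρ
      have h2 := Real.sq_sqrt (show (0 : ℝ) ≤ d by positivity)
      nlinarith [hs.1]
    have h2 : (d : ℝ) ≤ d ^ 2 := by
      have : (2 : ℝ) ≤ d := by exact_mod_cast hd
      nlinarith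
    linarith
  obtain ⟨C, hC⟩ := isCompact_Icc.exists_bound_of_continuousOn hcont
  refine ⟨max C 0, le_max_right _ _, fun z hz => ?_⟩
  rw [mem_closedBall_zero_iff] at hz
  exact (hC ‖z‖ ⟨norm_nonneg _, hz⟩).trans (le_max_left _ _)

lemma pl_pointwise (x δ κ : ℝ) (hδ : 0 < δ) (hκ : 0 < κ) :
    |x| ≤ δ + κ * x ^ 2 + 1 / (4 * κ) * (if δ ≤ |x| then 1 else 0) := by
  split_ifs with h
  · have h1 : |x| ≤ κ * x ^ 2 + 1 / (4 * κ) := by
      have h2 : 0 ≤ κ * (|x| - 1 / (2 * κ)) ^ 2 := by positivity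
      have h3 : κ * (|x| - 1 / (2 * κ)) ^ 2 = κ * x ^ 2 - |x| + 1 / (4 * κ) := by
        have : |x| ^ 2 = x ^ 2 := sq_abs x
        field_simp
        rw [← this]
        ring
      linarith
    linarith
  · push Not at h
    have : 0 ≤ κ * x ^ 2 := by positivity
    linarith

lemma pl_ae_im : ∀ᵐ z : ℂ ∂(volume : Measure ℂ), z.im ≠ 0 := by
  have h := Measure.addHaar_submodule (volume : Measure ℂ) (LinearMap.ker Complex.imLm) (by
    intro h
    have : (Complex.I : ℂ) ∈ LinearMap.ker Complex.imLm := by rw [h]; trivial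
    simp at this)
  rw [ae_iff]
  refine measure_mono_null ?_ h
  intro z hz
  simpa using hz

theorem potential_L1 (d : ℕ) (hd : 2 ≤ d)
    (hcore : ∀ z : ℂ, z.im ≠ 0 → 0 < ‖z‖ → ‖z‖ < √d → Good d z → ∀ δ : ℝ, 0 < δ →
      Tendsto (fun n : ℕ => fr (Reg n d) (fun A => δ ≤ |Phi A z - Upot d ‖z‖|)) atTop (𝓝 0))
    (ρ : ℝ) (hρ0 : 0 < ρ) (hρ : ρ < √d) :
    Tendsto (fun n : ℕ => avg (Reg n d) (fun A =>
      ∫ z in Metric.closedBall (0 : ℂ) ρ, |Phi A z - Upot d ‖z‖|)) atTop (𝓝 0) := by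
  classical
  set B := Metric.closedBall (0 : ℂ) ρ with hB
  have hBm : MeasurableSet B := measurableSet_closedBall
  have hBfin : (volume : Measure ℂ) B ≠ ⊤ := (isCompact_closedBall 0 ρ).measure_lt_top.ne
  obtain ⟨CU, hCU0, hCU⟩ := pl_Upot_bdd d hd ρ hρ0 hρ
  set V : ℝ := (volume : Measure ℂ).real B with hV
  have hV0 : 0 ≤ V := measureReal_nonneg
  set C0 : ℝ := ∫ z in Metric.closedBall (0 : ℂ) (ρ + d), Real.log ‖z‖ ^ 2 with hC0
  have hC00 : 0 ≤ C0 := integral_nonneg fun z => sq_nonneg _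
  set C : ℝ := 2 * C0 + 2 * (CU ^ 2 * V) with hC
  have hC0' : 0 ≤ C := by positivity
  -- measurability
  have hxm : ∀ {n : ℕ} (A : Fin n → Fin n → Bool), Measurable (fun z => Phi A z - Upot d ‖z‖) :=
    fun A => (pl_measurable_Phi A).sub (pl_measurable_Upot d)
  have hset : ∀ (δ : ℝ) {n : ℕ} (A : Fin n → Fin n → Bool),
      MeasurableSet {z : ℂ | δ ≤ |Phi A z - Upot d ‖z‖|} := fun δ n A =>
    measurableSet_le measurable_const (hxm A).abs
  -- the second moment
  have hU2 : IntegrableOn (fun z : ℂ => Upot d ‖z‖ ^ 2) B := by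
    refine Integrable.mono' (g := fun _ => CU ^ 2) (integrableOn_const hBfin)
      ((pl_measurable_Upot d).pow_const 2).aestronglyMeasurable ?_
    refine (ae_restrict_iff' hBm).2 (Eventually.of_forall fun z hz => ?_)
    rw [Real.norm_eq_abs, abs_of_nonneg (sq_nonneg _)]
    have := hCU z hz
    rw [← sq_abs]
    gcongr
  have hU2' : ∫ z in B, Upot d ‖z‖ ^ 2 ≤ CU ^ 2 * V := by
    calc ∫ z in B, Upot d ‖z‖ ^ 2 ≤ ∫ z in B, CU ^ 2 := by
          refine setIntegral_mono_on hU2 (integrableOn_const hBfin) hBm fun z hz => ?_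
          have := hCU z hz
          rw [← sq_abs]
          gcongr
      _ = CU ^ 2 * V := by
          rw [setIntegral_const, smul_eq_mul, mul_comm]
  have hx2 : ∀ {n : ℕ} (A : Fin n → Fin n → Bool), A ∈ Reg n d →
      IntegrableOn (fun z => (Phi A z - Upot d ‖z‖) ^ 2) B ∧
      ∫ z in B, (Phi A z - Upot d ‖z‖) ^ 2 ≤ C := by
    intro n A hA
    obtain ⟨h1, h2⟩ := pl_L2 d ρ A hA
    have hb : IntegrableOn (fun z => 2 * Phi A z ^ 2 + 2 * Upot d ‖z‖ ^ 2) B :=
      (h1.const_mul 2).add (hU2.const_mul 2)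
    have hle : ∀ z : ℂ, (Phi A z - Upot d ‖z‖) ^ 2 ≤ 2 * Phi A z ^ 2 + 2 * Upot d ‖z‖ ^ 2 :=
      fun z => by nlinarith [sq_nonneg (Phi A z + Upot d ‖z‖)]
    have hI : IntegrableOn (fun z => (Phi A z - Upot d ‖z‖) ^ 2) B := by
      refine Integrable.mono' hb ((hxm A).pow_const 2).aestronglyMeasurable ?_
      refine Eventually.of_forall fun z => ?_
      rw [Real.norm_eq_abs, abs_of_nonneg (sq_nonneg _)]
      exact hle z
    refine ⟨hI, ?_⟩
    calc ∫ z in B, (Phi A z - Upot d ‖z‖) ^ 2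
        ≤ ∫ z in B, (2 * Phi A z ^ 2 + 2 * Upot d ‖z‖ ^ 2) := integral_mono hI hb hle
      _ = 2 * (∫ z in B, Phi A z ^ 2) + 2 * (∫ z in B, Upot d ‖z‖ ^ 2) := by
          rw [integral_add (h1.const_mul 2) (hU2.const_mul 2), integral_const_mul,
            integral_const_mul]
      _ ≤ C := by
          rw [hC]; gcongr
  -- the bound for one matrix
  have hone : ∀ (δ κ : ℝ), 0 < δ → 0 < κ → ∀ {n : ℕ} (A : Fin n → Fin n → Bool), A ∈ Reg n d →
      ∫ z in B, |Phi A z - Upot d ‖z‖| ≤ δ * V + κ * C +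
        1 / (4 * κ) * ∫ z in B, (if δ ≤ |Phi A z - Upot d ‖z‖| then (1 : ℝ) else 0) := by
    intro δ κ hδ hκ n A hA
    obtain ⟨h1, h2⟩ := hx2 A hA
    have hi : IntegrableOn (fun z => (if δ ≤ |Phi A z - Upot d ‖z‖| then (1 : ℝ) else 0)) B := by
      refine Integrable.mono' (g := fun _ => (1 : ℝ)) (integrableOn_const hBfin)
        (Measurable.ite (hset δ A) measurable_const measurable_const).aestronglyMeasurable ?_
      refine Eventually.of_forall fun z => ?_
      split_ifs <;> simp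
    have hc : IntegrableOn (fun _ : ℂ => δ) B := integrableOn_const hBfin
    have hb : IntegrableOn (fun z => δ + κ * (Phi A z - Upot d ‖z‖) ^ 2 +
        1 / (4 * κ) * (if δ ≤ |Phi A z - Upot d ‖z‖| then (1 : ℝ) else 0)) B :=
      (hc.add (h1.const_mul κ)).add (hi.const_mul _)
    have hI : IntegrableOn (fun z => |Phi A z - Upot d ‖z‖|) B := by
      refine Integrable.mono' hb (hxm A).abs.aestronglyMeasurable ?_
      refine Eventually.of_forall fun z => ?_
      rw [Real.norm_eq_abs, abs_abs]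
      exact pl_pointwise _ δ κ hδ hκ
    calc ∫ z in B, |Phi A z - Upot d ‖z‖|
        ≤ ∫ z in B, (δ + κ * (Phi A z - Upot d ‖z‖) ^ 2 +
          1 / (4 * κ) * (if δ ≤ |Phi A z - Upot d ‖z‖| then (1 : ℝ) else 0)) :=
          integral_mono hI hb fun z => pl_pointwise _ δ κ hδ hκ
      _ = δ * V + κ * (∫ z in B, (Phi A z - Upot d ‖z‖) ^ 2) +
          1 / (4 * κ) * ∫ z in B, (if δ ≤ |Phi A z - Upot d ‖z‖| then (1 : ℝ) else 0) := by
          have e1 := integral_add (μ := volume.restrict B) (hc.add (h1.const_mul κ))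
            (hi.const_mul (1 / (4 * κ)))
          have e2 := integral_add (μ := volume.restrict B) hc (h1.const_mul κ)
          simp only [Pi.add_apply] at e1 e2
          rw [e1, e2, integral_const_mul, integral_const_mul,
            setIntegral_const, smul_eq_mul, mul_comm δ V]
      _ ≤ _ := by gcongr
  -- the probability term
  set hh : ℝ → ℕ → ℂ → ℝ := fun δ n z =>
    fr (Reg n d) (fun A => δ ≤ |Phi A z - Upot d ‖z‖|) with hhh
  have hh_eq : ∀ δ n z, hh δ n z =
      (∑ A ∈ Reg n d, (if δ ≤ |Phi A z - Upot d ‖z‖| then (1 : ℝ) else 0)) / (Reg n d).card := by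
    intro δ n z
    simp only [hhh]
    rw [fr_def, Finset.sum_boole]
  have hi' : ∀ (δ : ℝ) {n : ℕ} (A : Fin n → Fin n → Bool),
      IntegrableOn (fun z => (if δ ≤ |Phi A z - Upot d ‖z‖| then (1 : ℝ) else 0)) B := by
    intro δ n A
    refine Integrable.mono' (g := fun _ => (1 : ℝ)) (integrableOn_const hBfin)
      (Measurable.ite (hset δ A) measurable_const measurable_const).aestronglyMeasurable ?_
    refine Eventually.of_forall fun z => ?_
    split_ifs <;> simp
  have hh_int : ∀ δ n, ∫ z in B, hh δ n z =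
      avg (Reg n d) (fun A => ∫ z in B, (if δ ≤ |Phi A z - Upot d ‖z‖| then (1 : ℝ) else 0)) := by
    intro δ n
    unfold avg
    simp_rw [hh_eq]
    rw [integral_div, integral_finsetSum _ fun A _ => hi' δ A]
  have hlim : ∀ δ : ℝ, 0 < δ → Tendsto (fun n => ∫ z in B, hh δ n z) atTop (𝓝 0) := by
    intro δ hδ
    have h0 : (0 : ℝ) = ∫ _z in B, (0 : ℝ) := by simp
    rw [h0]
    apply tendsto_integral_of_dominated_convergence (fun _ => (1 : ℝ))
    · intro n
      rw [show hh δ n = fun z => (∑ A ∈ Reg n d,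
        (if δ ≤ |Phi A z - Upot d ‖z‖| then (1 : ℝ) else 0)) / (Reg n d).card from
        funext (hh_eq δ n)]
      refine (Measurable.div_const ?_ _).aestronglyMeasurable
      refine Finset.measurable_fun_sum _ fun A _ => ?_
      exact Measurable.ite (hset δ A) measurable_const measurable_const
    · exact integrableOn_const hBfin
    · intro n
      refine Eventually.of_forall fun z => ?_
      rw [Real.norm_eq_abs, abs_of_nonneg (fr_nonneg _ _)]
      exact fr_le_one _ _
    · refine (ae_restrict_iff' hBm).2 ?_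
      filter_upwards [ae_good d, pl_ae_im] with z hz him hzB
      have hz0 : 0 < ‖z‖ := norm_pos_iff.2 hz.1
      rw [hB, mem_closedBall_zero_iff] at hzB
      exact hcore z him hz0 (hzB.trans_lt hρ) hz δ hδ
  -- conclusion
  rw [Metric.tendsto_atTop]
  intro ε hε
  set δ : ℝ := ε / (4 * (V + 1)) with hδ
  set κ : ℝ := ε / (4 * (C + 1)) with hκ
  have hδ0 : 0 < δ := by positivity
  have hκ0 : 0 < κ := by positivity
  have hδV : δ * V ≤ ε / 4 := by
    rw [hδ, div_mul_eq_mul_div, div_le_div_iff₀ (by positivity) (by norm_num)]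
    nlinarith
  have hκC : κ * C ≤ ε / 4 := by
    rw [hκ, div_mul_eq_mul_div, div_le_div_iff₀ (by positivity) (by norm_num)]
    nlinarith
  obtain ⟨N, hN⟩ := (Metric.tendsto_atTop.1 (hlim δ hδ0)) (4 * κ * (ε / 4)) (by positivity)
  refine ⟨N, fun n hn => ?_⟩
  have h1 := hN n hn
  rw [Real.dist_eq, sub_zero] at h1
  have h2 : ∫ z in B, hh δ n z ≤ 4 * κ * (ε / 4) := (le_abs_self _).trans h1.le
  have hnn : 0 ≤ avg (Reg n d) (fun A => ∫ z in B, |Phi A z - Upot d ‖z‖|) := by
    unfold avg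
    apply div_nonneg _ (Nat.cast_nonneg _)
    exact sum_nonneg fun A _ => integral_nonneg fun z => abs_nonneg _
  rw [Real.dist_eq, sub_zero, abs_of_nonneg hnn]
  have h3 : avg (Reg n d) (fun A => ∫ z in B, |Phi A z - Upot d ‖z‖|) ≤
      δ * V + κ * C + 1 / (4 * κ) * ∫ z in B, hh δ n z := by
    rw [hh_int]
    unfold avg
    rcases (Reg n d).eq_empty_or_nonempty with he | he
    · rw [he, sum_empty, sum_empty, zero_div, mul_zero, add_zero]; positivity
    · have hcard : (0 : ℝ) < (Reg n d).card := by exact_mod_cast he.card_pos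
      rw [div_le_iff₀ hcard]
      calc ∑ A ∈ Reg n d, ∫ z in B, |Phi A z - Upot d ‖z‖|
          ≤ ∑ A ∈ Reg n d, (δ * V + κ * C +
            1 / (4 * κ) * ∫ z in B, (if δ ≤ |Phi A z - Upot d ‖z‖| then (1 : ℝ) else 0)) :=
            sum_le_sum fun A hA => hone δ κ hδ0 hκ0 A hA
        _ = _ := by
            rw [sum_add_distrib, sum_const, nsmul_eq_mul, ← mul_sum]
            field_simp
  have h4 : 1 / (4 * κ) * ∫ z in B, hh δ n z ≤ ε / 4 := by
    calc 1 / (4 * κ) * ∫ z in B, hh δ n z ≤ 1 / (4 * κ) * (4 * κ * (ε / 4)) := by gcongr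
      _ = ε / 4 := by field_simp
  linarith

end Pool.Agent.KM
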