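import Pool.Agent.KM.Defs

set_option autoImplicit false
open Finset Filter Topology

namespace Pool.Agent.KM
open Pool.Agent.SMin

/-! ## Module W1: number of permutations extending a partial matching -/

lemma w1_exists {X : Type*} [Fintype X] [DecidableEq X] {l : ℕ} (u v : Fin l → X)
    (h : ∀ s t, u s = u t ↔ v s = v t) : ∃ σ : Equiv.Perm X, ∀ t, σ (u t) = v t := by
  classical
  let f : X → X := fun x => if hx : ∃ t, u t = x then v hx.choose else x
  have hf : ∀ t, f (u t) = v t := by
    intro t
    have hx : ∃ s, u s = u t := ⟨t, rfl⟩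
    have h1 : f (u t) = v hx.choose := dif_pos hx
    rw [h1]
    exact (h _ _).1 hx.choose_spec
  have hinj : Set.InjOn f (univ.image u : Finset X) := by
    intro x hx y hy hxy
    rw [mem_coe, mem_image] at hx hy
    obtain ⟨s, _, rfl⟩ := hx
    obtain ⟨t, _, rfl⟩ := hy
    rw [hf, hf] at hxy
    exact (h s t).2 hxy
  obtain ⟨g, hg⟩ := Finset.exists_equiv_extend_of_card_eq (α := X) (β := X) (t := univ)
    (by rw [card_univ]) (s := univ.image u) (f := f) (subset_univ _) hinj
  refine ⟨g.trans (Equiv.subtypeUnivEquiv (fun x => mem_univ x)), fun t => ?_⟩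
  rw [← hf t, ← hg (u t) (mem_image_of_mem u (mem_univ t))]
  rfl

theorem card_extend {X : Type*} [Fintype X] [DecidableEq X] {l : ℕ} (u v : Fin l → X)
    (h : ∀ s t, u s = u t ↔ v s = v t) :
    (univ.filter (fun σ : Equiv.Perm X => ∀ t, σ (u t) = v t)).card =
      (Fintype.card X - (univ.image u).card).factorial := by
  classical
  obtain ⟨σ0, hσ0⟩ := w1_exists u v h
  have e1 : {σ : Equiv.Perm X // ∀ t, σ (u t) = v t} ≃
      {τ : Equiv.Perm X // ∀ a, ¬ (a ∉ univ.image u) → τ a = a} := by
    refine Equiv.subtypeEquiv (Equiv.mulLeft σ0⁻¹) ?_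
    intro σ
    simp only [Equiv.coe_mulLeft, Equiv.Perm.mul_apply, not_not, mem_image, mem_univ, true_and,
      forall_exists_index, forall_apply_eq_imp_iff]
    refine forall_congr' fun t => ?_
    rw [Equiv.Perm.inv_eq_iff_eq, hσ0]
  have h1 : (univ.filter (fun σ : Equiv.Perm X => ∀ t, σ (u t) = v t)).card =
      Fintype.card {σ : Equiv.Perm X // ∀ t, σ (u t) = v t} := by
    rw [Fintype.card_subtype]
  rw [h1, Fintype.card_congr e1,
    ← Fintype.card_congr (Equiv.Perm.subtypeEquivSubtypePerm (fun a => a ∉ univ.image u)),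
    Fintype.card_perm, Fintype.card_subtype_compl (fun a => a ∈ univ.image u)]
  congr 2
  rw [Fintype.card_subtype]
  congr 1
  ext a
  simp

end Pool.Agent.KM
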